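import Pool.Agent.MP0a1886.Min.Corr

/-! The largest factor above one half (MP_0a1886_pr). -/

set_option autoImplicit false
set_option linter.unusedSectionVars false
open Finset Polynomial Filter Topology

namespace Pool.Agent.MP0a1886

variable {p : ℕ} [hp : Fact p.Prime]

lemma two_factors {f P Q : (ZMod p)[X]} (hf : f ≠ 0) {n : ℕ} (hn : f.natDegree ≤ n)
    (hP : Irreducible P) (hQ : Irreducible Q) (hPf : P ∣ f) (hQf : Q ∣ f)
    (h : ¬ Associated P Q) : P.natDegree + Q.natDegree ≤ n := by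
  have h1 : IsCoprime P Q := by
    rw [hP.coprime_iff_not_dvd]
    intro h2
    exact h (hP.associated_of_dvd hQ h2)
  have h3 : P * Q ∣ f := h1.mul_dvd hPf hQf
  have h4 := Polynomial.natDegree_le_of_dvd h3 hf
  rw [Polynomial.natDegree_mul hP.ne_zero hQ.ne_zero] at h4
  omega

open Classical in
/-- for `n < 2 (a + 1)` the number of irreducible factors with degree in `(a, b]` is the indicator
of `a < M ≤ b`, `M` the largest degree of an irreducible factor -/
lemma cnt_big {a b n M : ℕ} (ha : n < 2 * (a + 1)) {f : (ZMod p)[X]} (hn : f.natDegree ≤ n)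
    (hM1 : f ≠ 0 → ∀ P, Irreducible P → P ∣ f → P.natDegree ≤ M)
    (hM2 : 0 < M → f ≠ 0 ∧ ∃ P, Irreducible P ∧ P ∣ f ∧ P.natDegree = M) :
    cnt a b f = if a < M ∧ M ≤ b then 1 else 0 := by
  unfold cnt
  by_cases hf : f = 0
  · rw [if_pos hf, if_neg]
    rintro ⟨h1, _⟩
    exact (hM2 (by omega)).1 hf
  rw [if_neg hf]
  have huniq : ∀ P Q : (ZMod p)[X], Irreducible P → Irreducible Q → P ∣ f → Q ∣ f →
      a < P.natDegree → a < Q.natDegree → Associated P Q := by
    intro P Q hP hQ hPf hQf h1 h2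
    by_contra h3
    have := two_factors hf hn hP hQ hPf hQf h3
    omega
  split_ifs with h
  · obtain ⟨h1, h2⟩ := h
    obtain ⟨_, P, hP, hPf, hPM⟩ := hM2 (by omega)
    obtain ⟨Q, hQ⟩ : ∃ Q, Q = C (P.leadingCoeff⁻¹) * P := ⟨_, rfl⟩
    have hc : P.leadingCoeff⁻¹ ≠ 0 := inv_ne_zero (Polynomial.leadingCoeff_ne_zero.2 hP.ne_zero)
    have hu : IsUnit (C (P.leadingCoeff⁻¹) : (ZMod p)[X]) :=
      Polynomial.isUnit_C.2 (isUnit_iff_ne_zero.2 hc)
    have hQm : Q.Monic := by
      rw [hQ, mul_comm]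
      exact Polynomial.monic_mul_leadingCoeff_inv hP.ne_zero
    have hass : Associated P Q := by
      rw [hQ]
      exact (associated_unit_mul_right P _ hu)
    have hQi : Irreducible Q := hass.irreducible hP
    have hQf : Q ∣ f := hass.dvd_iff_dvd_left.1 hPf
    have hQd : Q.natDegree = M := by
      rw [hQ, Polynomial.natDegree_C_mul hc, hPM]
    have h3 : (irI p a b).filter (fun P => P ∣ f) = {Q} := by
      ext R
      rw [Finset.mem_filter, Finset.mem_singleton, mem_irI]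
      constructor
      · rintro ⟨⟨e1, e2, e3, e4⟩, e5⟩
        exact Polynomial.eq_of_monic_of_associated e1 hQm
          (huniq R Q e2 hQi e5 hQf e3 (by omega))
      · intro e
        rw [e]
        exact ⟨⟨hQm, hQi, by omega, by omega⟩, hQf⟩
    rw [h3, Finset.card_singleton, Nat.cast_one]
  · have h3 : (irI p a b).filter (fun P => P ∣ f) = ∅ := by
      rw [Finset.filter_eq_empty_iff]
      intro R hR hRf
      rw [mem_irI] at hR
      obtain ⟨e1, e2, e3, e4⟩ := hR
      apply h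
      have e5 := hM1 hf R e2 hRf
      refine ⟨by omega, ?_⟩
      obtain ⟨_, P, hP, hPf, hPM⟩ := hM2 (by omega)
      have e6 := huniq R P e2 hP hRf hPf e3 (by omega)
      have e7 : R.natDegree = P.natDegree := Polynomial.natDegree_eq_of_degree_eq
        (Polynomial.degree_eq_degree_of_associated e6)
      omega
    rw [h3, Finset.card_empty, Nat.cast_zero]

/-- the law of the largest factor above one half, below the level of distribution -/
theorem big_tendsto (μ : ZMod p → ℝ) (q : ℝ) (hlev : Level μ q) (M : (ZMod p)[X] → ℕ)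
    (hM1 : ∀ f, f ≠ 0 → ∀ P, Irreducible P → P ∣ f → P.natDegree ≤ M f)
    (hM2 : ∀ f, 0 < M f → f ≠ 0 ∧ ∃ P, Irreducible P ∧ P ∣ f ∧ P.natDegree = M f)
    (x y : ℝ) (hx : 1 / 2 ≤ x) (hxy : x < y) (hy : y < q) :
    Tendsto (fun n : ℕ => Pr μ n (fun f => x * n < M f ∧ (M f : ℝ) ≤ y * n)) atTop
      (𝓝 (Real.log (y / x))) := by
  classical
  have h1 := corr_tendsto μ q hlev (r := 1) one_pos (fun _ => x) (fun _ => y)
    (fun _ => by linarith) (fun _ => hxy) (fun i j hij => absurd (Subsingleton.elim i j) hij)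
    (by simpa using hy)
  simp only [Finset.univ_unique, Finset.prod_singleton] at h1
  refine h1.congr fun n => ?_
  rw [Pr_eq]
  unfold Ex
  apply Finset.sum_congr rfl
  intro ε _
  have hn0 : (0 : ℝ) ≤ n := Nat.cast_nonneg n
  have ha : n < 2 * (⌊x * (n : ℝ)⌋₊ + 1) := by
    have h2 : x * n < ⌊x * (n : ℝ)⌋₊ + 1 := Nat.lt_floor_add_one _
    have h3 : (n : ℝ) < 2 * (⌊x * (n : ℝ)⌋₊ + 1) := by nlinarith
    exact_mod_cast h3
  beta_reduce
  rw [cnt_big ha (natDegree_rpoly_le n ε) (hM1 _) (hM2 _)]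
  have h4 : (⌊x * (n : ℝ)⌋₊ < M (rpoly n ε) ∧ M (rpoly n ε) ≤ ⌊y * (n : ℝ)⌋₊) ↔
      (x * n < M (rpoly n ε) ∧ (M (rpoly n ε) : ℝ) ≤ y * n) := by
    rw [Nat.floor_lt (by positivity), Nat.le_floor_iff (by
      have : 0 ≤ y := by linarith
      positivity)]
  by_cases h5 : x * n < M (rpoly n ε) ∧ (M (rpoly n ε) : ℝ) ≤ y * n
  · rw [if_pos (h4.2 h5), if_pos h5, mul_one]
  · rw [if_neg (fun h => h5 (h4.1 h)), if_neg h5, mul_zero]

end Pool.Agent.MP0a1886
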