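import Pool.Agent.MP0a1886.EMon

/-! Counting lemmas for the level of distribution (MP_0a1886_pr, laws with full support). -/

set_option autoImplicit false
set_option linter.unusedSectionVars false
open Finset Polynomial

namespace Pool.Agent.MP0a1886

variable {p : ℕ} [hp : Fact p.Prime]

lemma sum_low_char (l : (ZMod p)[X] →ₗ[ZMod p] ZMod p) (c : (ZMod p)[X]) (k : ℕ)
    [Decidable (∀ i < k, l (c * X ^ i) = 0)] :
    ∑ v : Fin k → ZMod p, (ZMod.stdAddChar (l (c * lowPoly k v)) : ℂ) =
      if (∀ i < k, l (c * X ^ i) = 0) then (p : ℂ) ^ k else 0 := by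
  have h1 : ∀ v : Fin k → ZMod p, l (c * lowPoly k v) = ∑ t : Fin k, v t * l (c * X ^ (t : ℕ)) := by
    intro v
    unfold lowPoly
    rw [Finset.mul_sum, map_sum]
    apply Finset.sum_congr rfl
    intro t _
    have h2 : c * (C (v t) * X ^ (t : ℕ)) = v t • (c * X ^ (t : ℕ)) := by
      rw [Polynomial.smul_eq_C_mul]; ring
    rw [h2, map_smul, smul_eq_mul]
  simp_rw [h1]
  rw [sum_stdAddChar k (fun t : Fin k => l (c * X ^ (t : ℕ)))]
  congr 1
  rw [eq_iff_iff]
  constructor
  · intro h i hi
    exact congrFun h ⟨i, hi⟩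
  · intro h
    funext t
    exact h t t.2

open Classical in
/-- duality for the kernels of a functional -/
lemma card_dual (l : (ZMod p)[X] →ₗ[ZMod p] ZMod p) (a b : ℕ) :
    (Finset.univ.filter (fun v : Fin a → ZMod p => ∀ i < b, l (lowPoly a v * X ^ i) = 0)).card *
        p ^ b =
      (Finset.univ.filter (fun u : Fin b → ZMod p => ∀ i < a, l (lowPoly b u * X ^ i) = 0)).card *
        p ^ a := by
  have h1 : ∀ a b : ℕ, ∑ v : Fin a → ZMod p, ∑ u : Fin b → ZMod p,
      (ZMod.stdAddChar (l (lowPoly a v * lowPoly b u)) : ℂ) =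
      (((Finset.univ.filter
        (fun v : Fin a → ZMod p => ∀ i < b, l (lowPoly a v * X ^ i) = 0)).card * p ^ b : ℕ) : ℂ)
      := by
    intro a b
    simp_rw [sum_low_char]
    rw [← Finset.sum_filter, Finset.sum_const, nsmul_eq_mul]
    push_cast
    rfl
  have h2 := h1 a b
  rw [Finset.sum_comm] at h2
  have h3 : ∑ u : Fin b → ZMod p, ∑ v : Fin a → ZMod p,
      (ZMod.stdAddChar (l (lowPoly a v * lowPoly b u)) : ℂ) =
      ∑ u : Fin b → ZMod p, ∑ v : Fin a → ZMod p,
      (ZMod.stdAddChar (l (lowPoly b u * lowPoly a v)) : ℂ) := by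
    apply Finset.sum_congr rfl
    intro u _
    apply Finset.sum_congr rfl
    intro v _
    rw [mul_comm]
  rw [h3, h1 b a] at h2
  exact_mod_cast h2.symm

/-- counting the rough elements of a kernel -/
theorem card_rough_ker {N k m : ℕ} (α : Fin N → ZMod p) (hα : α ≠ 0) (hkN : k < N)
    (H : Finset (ZMod p)[X])
    (hH : ∀ h ∈ H, h.Monic ∧ h.natDegree = k ∧ Fac (fun d => m < d) h ∧ h ∈ KK (fa N α) N k) :
    H.card ≤ p ^ (k - min m (N - 1 - k)) := by
  classical
  rcases H.eq_empty_or_nonempty with hE | ⟨h0, hh0⟩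
  · rw [hE, Finset.card_empty]
    exact Nat.zero_le _
  have hex : ∃ t, ∃ d ∈ KK (fa N α) N t, d ≠ 0 :=
    ⟨k, h0, (hH h0 hh0).2.2.2, (hH h0 hh0).1.ne_zero⟩
  obtain ⟨r0, hr0⟩ : ∃ r0, r0 = Nat.find hex := ⟨_, rfl⟩
  obtain ⟨d, hd, hd0⟩ := Nat.find_spec hex
  rw [← hr0] at hd
  have hmin : ∀ t < r0, ∀ d' ∈ KK (fa N α) N t, d' = 0 := by
    intro t ht d' hd'
    by_contra h0'
    rw [hr0] at ht
    exact Nat.find_min hex ht ⟨d', hd', h0'⟩
  have hr0k : r0 ≤ k := by
    rw [hr0]
    exact Nat.find_min' hex ⟨h0, (hH h0 hh0).2.2.2, (hH h0 hh0).1.ne_zero⟩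
  have hr01 : 1 ≤ r0 := by
    by_contra hcon
    have h00 : r0 = 0 := by omega
    rw [h00] at hd
    obtain ⟨c, hc⟩ := Polynomial.natDegree_eq_zero.1 (Nat.le_zero.1 hd.1)
    have hc0 : c ≠ 0 := by
      rintro rfl
      rw [Polynomial.C_0] at hc
      exact hd0 hc.symm
    apply hα
    funext i
    have h3 := hd.2 (i : ℕ) (by have := i.2; omega)
    rw [← hc, ← Polynomial.smul_eq_C_mul, map_smul, smul_eq_mul, fa_apply,
      Finset.sum_eq_single i] at h3
    · rw [Polynomial.coeff_X_pow, if_pos rfl, mul_one] at h3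
      exact (mul_eq_zero.1 h3).resolve_left hc0
    · intro b _ hb
      rw [Polynomial.coeff_X_pow, if_neg, mul_zero]
      intro h4
      exact hb (Fin.ext h4)
    · simp
  by_cases hcase : r0 + k ≤ N
  · have h1 := card_KK_le (fa N α) hd hd0 hmin hcase hr0k H (fun e he => (hH e he).2.2.2)
    refine h1.trans (Nat.pow_le_pow_right hp.out.pos ?_)
    obtain ⟨hm, hdk, hF, hK⟩ := hH h0 hh0
    obtain ⟨u, hu, hud⟩ := kk_structure (fa N α) hd hd0 hmin hK hcase hr0k
    have hu0 : u ≠ 0 := by
      rintro rfl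
      rw [mul_zero] at hu
      exact hm.ne_zero hu
    have hdeg : d.natDegree + u.natDegree = k := by
      rw [← hdk, hu, Polynomial.natDegree_mul hd0 hu0]
    obtain ⟨P, hP, hPd⟩ := Polynomial.exists_irreducible_of_natDegree_ne_zero
      (f := d) (by omega)
    have h3 : m < P.natDegree := hF P hP (hPd.trans ⟨u, hu⟩)
    have h4 := Polynomial.natDegree_le_of_dvd hPd hd0
    have h5 := hd.1
    have h6 := min_le_left m (N - 1 - k)
    omega
  · have h1 := card_dual (fa N α) (k + 1) (N - k)
    have h2 : (Finset.univ.filter (fun u : Fin (N - k) → ZMod p =>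
        ∀ i < k + 1, fa N α (lowPoly (N - k) u * X ^ i) = 0)).card = 1 := by
      rw [Finset.card_eq_one]
      refine ⟨0, ?_⟩
      ext u
      rw [Finset.mem_filter, Finset.mem_singleton]
      constructor
      · rintro ⟨-, h3⟩
        have h4 : lowPoly (N - k) u ∈ KK (fa N α) N (N - 1 - k) := by
          refine ⟨?_, fun i hi => h3 i (by omega)⟩
          have h5 := degree_lowPoly_lt (N - k) u
          rcases eq_or_ne (lowPoly (N - k) u) 0 with h6 | h6
          · rw [h6, Polynomial.natDegree_zero]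
            exact Nat.zero_le _
          · have h7 : (lowPoly (N - k) u).natDegree < N - k := by
              rw [Polynomial.natDegree_lt_iff_degree_lt h6]
              exact h5
            omega
        have h5 := hmin (N - 1 - k) (by omega) _ h4
        apply lowPoly_injective (N - k)
        rw [h5]
        unfold lowPoly
        simp
      · rintro rfl
        refine ⟨Finset.mem_univ _, fun i _ => ?_⟩
        have h3 : lowPoly (N - k) (0 : Fin (N - k) → ZMod p) = 0 := by
          unfold lowPoly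
          simp
        rw [h3, zero_mul, map_zero]
    rw [h2, one_mul] at h1
    have h3 : H.card ≤ (Finset.univ.filter (fun v : Fin (k + 1) → ZMod p =>
        ∀ i < N - k, fa N α (lowPoly (k + 1) v * X ^ i) = 0)).card := by
      have h4 : H ⊆ (Finset.univ.filter (fun v : Fin (k + 1) → ZMod p =>
          ∀ i < N - k, fa N α (lowPoly (k + 1) v * X ^ i) = 0)).image (lowPoly (k + 1)) := by
        intro h hh
        obtain ⟨hm, hdk, hF, hK⟩ := hH h hh
        obtain ⟨v, hv⟩ := exists_lowPoly (k + 1) h (by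
          rw [Polynomial.degree_eq_natDegree hm.ne_zero, hdk]
          exact_mod_cast Nat.lt_succ_self k)
        rw [Finset.mem_image]
        refine ⟨v, ?_, hv⟩
        rw [Finset.mem_filter]
        refine ⟨Finset.mem_univ _, fun i hi => ?_⟩
        rw [hv]
        exact hK.2 i (by omega)
      exact (Finset.card_le_card h4).trans Finset.card_image_le
    have hle : N - k ≤ k + 1 := by omega
    have h4 : (Finset.univ.filter (fun v : Fin (k + 1) → ZMod p =>
        ∀ i < N - k, fa N α (lowPoly (k + 1) v * X ^ i) = 0)).card =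
        p ^ (k + 1 - (N - k)) := by
      have h5 : p ^ (k + 1) = p ^ (k + 1 - (N - k)) * p ^ (N - k) := by
        rw [← pow_add]
        congr 1
        omega
      rw [h5] at h1
      exact Nat.eq_of_mul_eq_mul_right (pow_pos hp.out.pos _) h1
    rw [h4] at h3
    refine h3.trans (Nat.pow_le_pow_right hp.out.pos ?_)
    have h6 := min_le_right m (N - 1 - k)
    omega

/-- the weight of a vector -/
def hw {N : ℕ} (α : Fin N → ZMod p) : ℕ := (Finset.univ.filter (fun i => α i ≠ 0)).card

lemma prod_ite_hw {N : ℕ} (α : Fin N → ZMod p) (x : ℝ) :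
    ∏ i, (if α i = 0 then 1 else x) = x ^ hw α := by
  classical
  unfold hw
  rw [Finset.prod_ite, Finset.prod_const_one, one_mul, Finset.prod_const]

/-- the number of vectors of small weight -/
lemma card_low_weight (N w : ℕ) (x : ℝ) (hx0 : 0 < x) (hx1 : x ≤ 1) :
    ((Finset.univ.filter (fun α : Fin N → ZMod p => hw α < w)).card : ℝ) * x ^ w ≤
      (1 + (p - 1) * x) ^ N := by
  classical
  have h1 : ∑ α : Fin N → ZMod p, x ^ hw α = (1 + (p - 1) * x) ^ N := by
    have h2 : ∀ α : Fin N → ZMod p, x ^ hw α = ∏ i, (if α i = 0 then (1 : ℝ) else x) :=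
      fun α => (prod_ite_hw α x).symm
    rw [Finset.sum_congr rfl (fun α _ => h2 α),
      sum_prod_pi (fun (_ : Fin N) (c : ZMod p) => if c = 0 then (1 : ℝ) else x),
      Finset.prod_const, Finset.card_univ, Fintype.card_fin]
    congr 1
    rw [← Finset.add_sum_erase _ _ (Finset.mem_univ (0 : ZMod p)), if_pos rfl]
    congr 1
    have h3 : ∀ c ∈ (Finset.univ : Finset (ZMod p)).erase 0, (if c = 0 then (1 : ℝ) else x) = x := by
      intro c hc
      rw [if_neg (Finset.mem_erase.1 hc).1]
    rw [Finset.sum_congr rfl h3, Finset.sum_const, Finset.card_erase_of_mem (Finset.mem_univ _),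
      Finset.card_univ, ZMod.card, nsmul_eq_mul, Nat.cast_sub hp.out.one_lt.le]
    push_cast
    ring
  rw [← h1, ← nsmul_eq_mul, ← Finset.sum_const]
  refine le_trans ?_ (Finset.sum_le_sum_of_subset_of_nonneg
    (Finset.filter_subset (fun α : Fin N → ZMod p => hw α < w) _) (fun α _ _ => by positivity))
  apply Finset.sum_le_sum
  intro α hα
  exact pow_le_pow_of_le_one hx0.le hx1 (Finset.mem_filter.1 hα).2.le

end Pool.Agent.MP0a1886
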