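import Pool.Agent.MP0a1886.Min.Low

/-! The level of distribution: the core estimate (MP_0a1886_pr). -/

set_option autoImplicit false
set_option linter.unusedSectionVars false
open Finset Polynomial

namespace Pool.Agent.MP0a1886

variable {p : ℕ} [hp : Fact p.Prime]

lemma rpoly_eq_zero (n : ℕ) (ε : Fin (n + 1) → ZMod p) : rpoly n ε = 0 ↔ ε = 0 := by
  constructor
  · intro h
    apply lowPoly_injective (n + 1)
    unfold rpoly at h
    rw [h]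
    unfold lowPoly
    simp
  · intro h
    rw [h]
    unfold rpoly lowPoly
    simp

lemma Prg_zero (n : ℕ) (g : Fin (n + 1) → ZMod p → ℝ) :
    Prg n g (fun f => f = 0) = ∏ i, g i 0 := by
  classical
  unfold Prg
  rw [Finset.sum_eq_single (0 : Fin (n + 1) → ZMod p)]
  · rw [if_pos ((rpoly_eq_zero n 0).2 rfl)]
    rfl
  · intro b _ hb
    rw [if_neg]
    intro h
    exact hb ((rpoly_eq_zero n b).1 h)
  · intro h
    exact absurd (Finset.mem_univ _) h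

lemma Prg_split (n : ℕ) (g : Fin (n + 1) → ZMod p → ℝ) (h : (ZMod p)[X]) :
    Prg n g (fun f => h ∣ f) = Prg n g (fun f => h ∣ f ∧ f ≠ 0) + Prg n g (fun f => f = 0) := by
  classical
  unfold Prg
  rw [← Finset.sum_add_distrib]
  apply Finset.sum_congr rfl
  intro ε _
  by_cases h0 : rpoly n ε = 0
  · rw [if_pos (by rw [h0]; exact dvd_zero h), if_neg (fun h' => h'.2 h0), if_pos h0, zero_add]
  · by_cases h1 : h ∣ rpoly n ε
    · rw [if_pos h1, if_pos ⟨h1, h0⟩, if_neg h0, add_zero]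
    · rw [if_neg h1, if_neg (fun h' => h1 h'.1), if_neg h0, add_zero]

lemma natDegree_rpoly_le (n : ℕ) (ε : Fin (n + 1) → ZMod p) : (rpoly n ε).natDegree ≤ n := by
  unfold rpoly
  rw [Polynomial.natDegree_le_iff_coeff_eq_zero]
  intro N hN
  rw [coeff_lowPoly, dif_neg (by omega)]

/-- the mean number of rough divisors is bounded -/
lemma sum_dvd_le (n m R : ℕ) (hR : n < (m + 1) * R) (g : Fin (n + 1) → ZMod p → ℝ)
    (h0 : ∀ i a, 0 ≤ g i a) (H : Finset (ZMod p)[X])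
    (hH : ∀ h ∈ H, h.Monic ∧ Fac (fun d => m < d) h) :
    ∑ h ∈ H, Prg n g (fun f => h ∣ f ∧ f ≠ 0) ≤ (∏ i, ∑ a, g i a) * 2 ^ R := by
  classical
  unfold Prg
  rw [Finset.sum_comm, ← sum_prod_pi (fun (i : Fin (n + 1)) a => g i a), Finset.sum_mul]
  apply Finset.sum_le_sum
  intro ε _
  have hw0 : 0 ≤ ∏ i, g i (ε i) := Finset.prod_nonneg fun _ _ => h0 _ _
  have h1 : ∑ h ∈ H, (if h ∣ rpoly n ε ∧ rpoly n ε ≠ 0 then ∏ i, g i (ε i) else 0) =
      (∏ i, g i (ε i)) * ((H.filter (fun h => h ∣ rpoly n ε ∧ rpoly n ε ≠ 0)).card : ℝ) := by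
    rw [Finset.sum_ite, Finset.sum_const_zero, add_zero, Finset.sum_const, nsmul_eq_mul, mul_comm]
  refine (le_of_eq ((Finset.sum_congr rfl fun x _ => ?_).trans h1)).trans ?_
  · congr
  apply mul_le_mul_of_nonneg_left _ hw0
  by_cases hf : rpoly n ε = 0
  · have h2 : H.filter (fun h => h ∣ rpoly n ε ∧ rpoly n ε ≠ 0) = ∅ := by
      rw [Finset.filter_eq_empty_iff]
      intro h _ h'
      exact h'.2 hf
    rw [h2, Finset.card_empty]
    simp
  · obtain ⟨f, hfe⟩ : ∃ f, f = rpoly n ε := ⟨_, rfl⟩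
    rw [← hfe] at hf ⊢
    have hdeg : f.natDegree ≤ n := by rw [hfe]; exact natDegree_rpoly_le n ε
    have hc : f.leadingCoeff⁻¹ ≠ 0 := inv_ne_zero (Polynomial.leadingCoeff_ne_zero.2 hf)
    have hu : IsUnit (C (f.leadingCoeff⁻¹) : (ZMod p)[X]) :=
      Polynomial.isUnit_C.2 (isUnit_iff_ne_zero.2 hc)
    have hmon : (C (f.leadingCoeff⁻¹) * f).Monic := by
      rw [mul_comm]
      exact Polynomial.monic_mul_leadingCoeff_inv hf
    apply card_large_dvd hR hmon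
    · rw [Polynomial.natDegree_C_mul hc]
      exact hdeg
    · intro h hh
      obtain ⟨h3, h4, _⟩ := Finset.mem_filter.1 hh
      exact ⟨(hH h h3).1, h4.mul_left _, (hH h h3).2⟩

lemma fw_nonneg (n : ℕ) (w : Fin (n + 1) → ℝ) (hw : ∀ i, 0 ≤ w i) (h : (ZMod p)[X]) (k : ℕ)
    (v : Fin k → ZMod p) : 0 ≤ fw n w h k v := by
  unfold fw
  apply Finset.prod_nonneg
  intro i _
  split_ifs
  · exact zero_le_one
  · exact hw i

lemma fw_scale (n : ℕ) (w : Fin (n + 1) → ℝ) (c : ℝ) (h : (ZMod p)[X]) (k : ℕ)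
    (v : Fin k → ZMod p) : fw n (fun i => c * w i) h k v =
      c ^ hw (fun i : Fin (n + 1) => fn h k v (X ^ (i : ℕ))) * fw n w h k v := by
  unfold fw
  rw [← prod_ite_hw, ← Finset.prod_mul_distrib]
  apply Finset.prod_congr rfl
  intro i _
  split_ifs <;> simp

lemma fw_split (n : ℕ) (w : Fin (n + 1) → ℝ) (hw0 : ∀ i, 0 ≤ w i) (hw1 : ∀ i, w i ≤ 1)
    (c : ℝ) (hc0 : 0 ≤ c) (hc1 : c ≤ 1) (w0 : ℕ) (h : (ZMod p)[X]) (k : ℕ)
    (v : Fin k → ZMod p) : fw n (fun i => c * w i) h k v ≤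
      (if hw (fun i : Fin (n + 1) => fn h k v (X ^ (i : ℕ))) < w0 then 1 else 0) +
        c ^ w0 * fw n w h k v := by
  have h1 := fw_nonneg n w hw0 h k v
  have h2 : fw n w h k v ≤ 1 := by
    unfold fw
    apply Finset.prod_le_one
    · intro i _
      split_ifs
      · exact zero_le_one
      · exact hw0 i
    · intro i _
      split_ifs
      · exact le_rfl
      · exact hw1 i
  rw [fw_scale]
  split_ifs with h3
  · have h4 : c ^ hw (fun i : Fin (n + 1) => fn h k v (X ^ (i : ℕ))) * fw n w h k v ≤ 1 := by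
      calc c ^ hw (fun i : Fin (n + 1) => fn h k v (X ^ (i : ℕ))) * fw n w h k v ≤ 1 * 1 :=
            mul_le_mul (pow_le_one₀ hc0 hc1) h2 h1 zero_le_one
        _ = 1 := one_mul 1
    have h5 : 0 ≤ c ^ w0 * fw n w h k v := mul_nonneg (pow_nonneg hc0 _) h1
    linarith
  · rw [zero_add]
    apply mul_le_mul_of_nonneg_right _ h1
    exact pow_le_pow_of_le_one hc0 hc1 (not_lt.1 h3)

lemma sum_fw_eq (n : ℕ) (ρ : Fin (n + 1) → ℝ) (h : (ZMod p)[X]) (hh : h.Monic) (k : ℕ)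
    (hk : h.natDegree = k) : ((p : ℝ) ^ k)⁻¹ * ∑ v : Fin k → ZMod p, fw n ρ h k v =
      Prg n (fun i => phi p (ρ i)) (fun f => h ∣ f) := by
  have hp0 : (p : ℝ) ^ k ≠ 0 := by
    have : (p : ℝ) ≠ 0 := by exact_mod_cast hp.out.ne_zero
    exact pow_ne_zero _ this
  have h1 := Prg_dvd n (fun i => phi p (ρ i)) h hh k hk
  have h2 : ∑ v : Fin k → ZMod p, ∏ i : Fin (n + 1), muhat (phi p (ρ i)) (fn h k v (X ^ (i : ℕ)))
      = ((∑ v : Fin k → ZMod p, fw n ρ h k v : ℝ) : ℂ) := by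
    unfold fw
    push_cast
    apply Finset.sum_congr rfl
    intro v _
    apply Finset.prod_congr rfl
    intro i _
    rw [muhat_phi]
    split_ifs <;> simp
  rw [h2] at h1
  have h3 : (p : ℝ) ^ k * Prg n (fun i => phi p (ρ i)) (fun f => h ∣ f) =
      ∑ v : Fin k → ZMod p, fw n ρ h k v := by exact_mod_cast h1
  rw [← h3]
  field_simp

/-- the error for one product measure -/
lemma D_le (n k m R w0 : ℕ) (hR : n < (m + 1) * R)
    (g : Fin (n + 1) → ZMod p → ℝ) (h0 : ∀ i a, 0 ≤ g i a) (ρ : Fin (n + 1) → ℝ)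
    (hρ0 : ∀ i, 0 ≤ ρ i) (hρ1 : ∀ i, ρ i ≤ 1) (c0 : ℝ) (hc0 : 0 < c0) (hc1 : c0 < 1)
    (hw : ∀ i c, c ≠ 0 → ‖muhat (g i) c‖ ≤ (∑ a, g i a) * (c0 * ρ i))
    (H : Finset (ZMod p)[X])
    (hH : ∀ h ∈ H, h.Monic ∧ h.natDegree = k ∧ Fac (fun d => m < d) h) :
    ∑ h ∈ H, |Prg n g (fun f => h ∣ f ∧ f ≠ 0) - (∏ i, ∑ a, g i a) * ((p : ℝ) ^ k)⁻¹| ≤
    (∏ i, ∑ a, g i a) * (((p : ℝ) ^ k)⁻¹ *
      (∑ h ∈ H, ((Finset.univ.erase (0 : Fin k → ZMod p)).filter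
      (fun v => Pool.Agent.MP0a1886.hw (fun i : Fin (n + 1) => fn h k v (X ^ (i : ℕ))) < w0)).card
        : ℕ) +
      c0 ^ w0 * 2 ^ R + 2 * (2 ^ R + 1) * min 1 ((p : ℝ) ^ k * ∏ i, phi p (ρ i) 0)) := by
  classical
  have hp0 : (0 : ℝ) < p := by exact_mod_cast hp.out.pos
  have hpk : (0 : ℝ) < (p : ℝ) ^ k := by positivity
  obtain ⟨M, hM⟩ : ∃ M : ℝ, M = ∏ i, ∑ a, g i a := ⟨_, rfl⟩
  have hM0 : 0 ≤ M := by
    rw [hM]
    exact Finset.prod_nonneg fun i _ => Finset.sum_nonneg fun a _ => h0 i a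
  have hHc : (H.card : ℝ) ≤ (p : ℝ) ^ k := by
    have h1 : H ⊆ mon p k := by
      intro h hh
      rw [mem_mon]
      exact ⟨(hH h hh).1, (hH h hh).2.1⟩
    have h2 := Finset.card_le_card h1
    rw [card_mon] at h2
    exact_mod_cast h2
  have hphi0 : ∀ i, ∀ a : ZMod p, 0 ≤ phi p (ρ i) a := fun i a => phi_nonneg (hρ0 i) (hρ1 i) a
  obtain ⟨Y, hY⟩ : ∃ Y : ℝ, Y = (p : ℝ) ^ k * ∏ i, phi p (ρ i) 0 := ⟨_, rfl⟩
  have hprod0 : 0 ≤ ∏ i, phi p (ρ i) 0 := Finset.prod_nonneg fun i _ => hphi0 i 0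
  have hY0 : 0 ≤ Y := by rw [hY]; positivity
  obtain ⟨L, hL⟩ : ∃ L : ℝ, L = ((p : ℝ) ^ k)⁻¹ *
      (∑ h ∈ H, ((Finset.univ.erase (0 : Fin k → ZMod p)).filter
      (fun v => Pool.Agent.MP0a1886.hw (fun i : Fin (n + 1) => fn h k v (X ^ (i : ℕ))) < w0)).card
        : ℕ) := ⟨_, rfl⟩
  have hL0 : 0 ≤ L := by rw [hL]; positivity
  rw [← hM, ← hY, ← hL]
  have h2R : (1 : ℝ) ≤ 2 ^ R := one_le_pow₀ (by norm_num)
  have hcw : 0 ≤ c0 ^ w0 := by positivity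
  have hcw1 : c0 ^ w0 ≤ 1 := pow_le_one₀ hc0.le hc1.le
  -- the trivial bound
  have hB1 : ∑ h ∈ H, |Prg n g (fun f => h ∣ f ∧ f ≠ 0) - M * ((p : ℝ) ^ k)⁻¹| ≤
      M * (2 ^ R + 1) := by
    have h1 : ∀ h ∈ H, |Prg n g (fun f => h ∣ f ∧ f ≠ 0) - M * ((p : ℝ) ^ k)⁻¹| ≤
        Prg n g (fun f => h ∣ f ∧ f ≠ 0) + M * ((p : ℝ) ^ k)⁻¹ := by
      intro h _
      have h2 := Prg_nonneg g h0 (fun f => h ∣ f ∧ f ≠ 0)
      have h3 : 0 ≤ M * ((p : ℝ) ^ k)⁻¹ := by positivity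
      rw [abs_le]
      constructor <;> linarith
    refine (Finset.sum_le_sum h1).trans ?_
    rw [Finset.sum_add_distrib, Finset.sum_const, nsmul_eq_mul]
    have h4 := sum_dvd_le n m R hR g h0 H (fun h hh => ⟨(hH h hh).1, (hH h hh).2.2⟩)
    rw [← hM] at h4
    have h5 : (H.card : ℝ) * (M * ((p : ℝ) ^ k)⁻¹) ≤ M := by
      calc (H.card : ℝ) * (M * ((p : ℝ) ^ k)⁻¹) ≤ (p : ℝ) ^ k * (M * ((p : ℝ) ^ k)⁻¹) :=
            mul_le_mul_of_nonneg_right hHc (by positivity)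
        _ = M := by field_simp
    linarith
  -- the Fourier bound
  have hB2 : ∑ h ∈ H, |Prg n g (fun f => h ∣ f ∧ f ≠ 0) - M * ((p : ℝ) ^ k)⁻¹| ≤
      M * (L + c0 ^ w0 * 2 ^ R + 2 * Y) := by
    have hz : Prg n g (fun f => f = 0) ≤ M * ∏ i, phi p (ρ i) 0 := by
      rw [Prg_zero, hM, ← Finset.prod_mul_distrib]
      apply Finset.prod_le_prod
      · intro i _
        exact h0 i 0
      · intro i _
        refine (g_zero_le (g i) (h0 i) (c0 * ρ i) (hw i)).trans ?_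
        apply mul_le_mul_of_nonneg_left _ (Finset.sum_nonneg fun a _ => h0 i a)
        unfold phi
        rw [if_pos rfl, if_pos rfl]
        have h1 : c0 * ρ i ≤ ρ i := by
          nlinarith [hρ0 i]
        have hp1 : (1 : ℝ) ≤ p := by exact_mod_cast hp.out.one_lt.le
        have h2 : (1 - c0 * ρ i) / p + c0 * ρ i = 1 / p + (c0 * ρ i) * (1 - 1 / p) := by
          field_simp; ring
        have h3 : (1 - ρ i) / p + ρ i = 1 / p + (ρ i) * (1 - 1 / p) := by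
          field_simp; ring
        rw [h2, h3]
        have h4 : 0 ≤ 1 - 1 / (p : ℝ) := by
          rw [sub_nonneg, div_le_one hp0]; exact hp1
        have := mul_le_mul_of_nonneg_right h1 h4
        linarith
    have h1 : ∀ h ∈ H, |Prg n g (fun f => h ∣ f ∧ f ≠ 0) - M * ((p : ℝ) ^ k)⁻¹| ≤
        M * (((p : ℝ) ^ k)⁻¹ * (((Finset.univ.erase (0 : Fin k → ZMod p)).filter
          (fun v => Pool.Agent.MP0a1886.hw
            (fun i : Fin (n + 1) => fn h k v (X ^ (i : ℕ))) < w0)).card : ℝ) +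
          c0 ^ w0 * (Prg n (fun i => phi p (ρ i)) (fun f => h ∣ f ∧ f ≠ 0) +
            ∏ i, phi p (ρ i) 0)) + M * ∏ i, phi p (ρ i) 0 := by
      intro h hh
      obtain ⟨hm, hd, hF⟩ := hH h hh
      have h2 := Prg_err n g h0 (fun i => c0 * ρ i) hw h hm k hd
      rw [← hM, Prg_split] at h2
      have h3 : ∑ v ∈ (Finset.univ : Finset (Fin k → ZMod p)).erase 0,
          fw n (fun i => c0 * ρ i) h k v ≤
          (((Finset.univ.erase (0 : Fin k → ZMod p)).filter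
          (fun v => Pool.Agent.MP0a1886.hw
            (fun i : Fin (n + 1) => fn h k v (X ^ (i : ℕ))) < w0)).card : ℝ) +
          c0 ^ w0 * ∑ v : Fin k → ZMod p, fw n ρ h k v := by
        refine (Finset.sum_le_sum fun v _ =>
          fw_split n ρ hρ0 hρ1 c0 hc0.le hc1.le w0 h k v).trans ?_
        rw [Finset.sum_add_distrib, ← Finset.mul_sum]
        apply add_le_add
        · rw [Finset.sum_ite, Finset.sum_const_zero, add_zero, Finset.sum_const, nsmul_eq_mul,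
            mul_one]
        · apply mul_le_mul_of_nonneg_left _ hcw
          exact Finset.sum_le_sum_of_subset_of_nonneg (Finset.erase_subset _ _)
            (fun v _ _ => fw_nonneg n ρ hρ0 h k v)
      have h4 : ((p : ℝ) ^ k)⁻¹ * ∑ v ∈ (Finset.univ : Finset (Fin k → ZMod p)).erase 0,
          fw n (fun i => c0 * ρ i) h k v ≤ ((p : ℝ) ^ k)⁻¹ *
          (((Finset.univ.erase (0 : Fin k → ZMod p)).filter
          (fun v => Pool.Agent.MP0a1886.hw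
            (fun i : Fin (n + 1) => fn h k v (X ^ (i : ℕ))) < w0)).card : ℝ) +
          c0 ^ w0 * (Prg n (fun i => phi p (ρ i)) (fun f => h ∣ f ∧ f ≠ 0) +
            ∏ i, phi p (ρ i) 0) := by
        have h5 := mul_le_mul_of_nonneg_left h3 (inv_nonneg.2 hpk.le)
        refine h5.trans (le_of_eq ?_)
        rw [mul_add, ← mul_assoc, mul_comm _ (c0 ^ w0), mul_assoc (c0 ^ w0),
          sum_fw_eq n ρ h hm k hd, Prg_split, Prg_zero]
      have h6 := mul_le_mul_of_nonneg_left h4 hM0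
      have h7 := Prg_nonneg g h0 (fun f => f = 0)
      rw [abs_le] at h2 ⊢
      obtain ⟨h2a, h2b⟩ := h2
      constructor <;> linarith
    refine (Finset.sum_le_sum h1).trans ?_
    rw [Finset.sum_add_distrib, ← Finset.mul_sum, Finset.sum_add_distrib, ← Finset.mul_sum,
      ← Finset.mul_sum, Finset.sum_add_distrib, Finset.sum_const, Finset.sum_const,
      nsmul_eq_mul, nsmul_eq_mul]
    have h4 := sum_dvd_le n m R hR (fun i => phi p (ρ i)) hphi0 H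
      (fun h hh => ⟨(hH h hh).1, (hH h hh).2.2⟩)
    have h5 : ∏ i : Fin (n + 1), ∑ a : ZMod p, phi p (ρ i) a = 1 :=
      Finset.prod_eq_one fun i _ => sum_phi (ρ i)
    rw [h5, one_mul] at h4
    have h6 : (H.card : ℝ) * ∏ i, phi p (ρ i) 0 ≤ Y := by
      rw [hY]
      exact mul_le_mul_of_nonneg_right hHc hprod0
    have h7 : ((p : ℝ) ^ k)⁻¹ * ∑ h ∈ H,
        (((Finset.univ.erase (0 : Fin k → ZMod p)).filter
          (fun v => Pool.Agent.MP0a1886.hw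
            (fun i : Fin (n + 1) => fn h k v (X ^ (i : ℕ))) < w0)).card : ℝ) = L := by
      rw [hL]
      push_cast
      rfl
    rw [h7]
    have h8 : (H.card : ℝ) * (M * ∏ i, phi p (ρ i) 0) ≤ M * Y := by
      calc _ = M * ((H.card : ℝ) * ∏ i, phi p (ρ i) 0) := by ring
        _ ≤ _ := mul_le_mul_of_nonneg_left h6 hM0
    have h9 : c0 ^ w0 * (∑ h ∈ H, Prg n (fun i => phi p (ρ i)) (fun f => h ∣ f ∧ f ≠ 0) +
        (H.card : ℝ) * ∏ i, phi p (ρ i) 0) ≤ c0 ^ w0 * 2 ^ R + Y := by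
      calc _ ≤ c0 ^ w0 * (2 ^ R + Y) :=
            mul_le_mul_of_nonneg_left (add_le_add h4 h6) hcw
        _ = c0 ^ w0 * 2 ^ R + c0 ^ w0 * Y := by ring
        _ ≤ c0 ^ w0 * 2 ^ R + 1 * Y := by
            have := mul_le_mul_of_nonneg_right hcw1 hY0
            linarith
        _ = _ := by ring
    have h10 := mul_le_mul_of_nonneg_left h9 hM0
    calc _ ≤ M * (L + (c0 ^ w0 * 2 ^ R + Y)) + M * Y := by
          apply add_le_add _ h8
          apply mul_le_mul_of_nonneg_left _ hM0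
          linarith
      _ = _ := by ring
  rcases le_total 1 Y with h1 | h1
  · rw [min_eq_left h1]
    refine hB1.trans (mul_le_mul_of_nonneg_left ?_ hM0)
    have : 0 ≤ c0 ^ w0 * 2 ^ R := by positivity
    linarith
  · rw [min_eq_right h1]
    refine hB2.trans (mul_le_mul_of_nonneg_left ?_ hM0)
    nlinarith

/-- the error for a mixture -/
theorem level_core {B : Type} [Fintype B] (μ : ZMod p → ℝ) (g : B → ZMod p → ℝ)
    (hg : ∀ a, μ a = ∑ b, g b a) (hg0 : ∀ b a, 0 ≤ g b a) (hμ : ∑ a, μ a = 1)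
    (ρ : B → ℝ) (hρ0 : ∀ b, 0 ≤ ρ b) (hρ1 : ∀ b, ρ b ≤ 1) (c0 : ℝ) (hc0 : 0 < c0) (hc1 : c0 < 1)
    (hgw : ∀ b c, c ≠ 0 → ‖muhat (g b) c‖ ≤ (∑ a, g b a) * (c0 * ρ b))
    (s : ℝ) (hs0 : 0 ≤ s) (hs1 : s ≤ 1) (n k m R w0 : ℕ) (hR : n < (m + 1) * R) (hk : k ≤ n)
    (H : Finset (ZMod p)[X])
    (hH : ∀ h ∈ H, h.Monic ∧ h.natDegree = k ∧ Fac (fun d => m < d) h) :
    ∑ h ∈ H, |Pr μ n (fun f => h ∣ f ∧ f ≠ 0) - ((p : ℝ) ^ k)⁻¹| ≤
      ((p : ℝ) ^ k)⁻¹ * (((Finset.univ.filter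
        (fun α : Fin (n + 1) → ZMod p => hw α < w0)).card : ℝ) * (p : ℝ) ^ (k - min m (n - k))) +
      c0 ^ w0 * 2 ^ R +
      2 * (2 ^ R + 1) * (((p : ℝ) ^ k) ^ s * (∑ b, (∑ a, g b a) * phi p (ρ b) 0 ^ s) ^ (n + 1)) := by
  classical
  have hp0 : (0 : ℝ) < p := by exact_mod_cast hp.out.pos
  obtain ⟨mm, hmm⟩ : ∃ mm : B → ℝ, mm = fun b => ∑ a, g b a := ⟨_, rfl⟩
  have hm0 : ∀ b, 0 ≤ mm b := by
    intro b; rw [hmm]; exact Finset.sum_nonneg fun a _ => hg0 b a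
  have hm1 : ∑ b, mm b = 1 := by
    rw [← hμ, hmm, Finset.sum_comm]
    exact Finset.sum_congr rfl fun a _ => (hg a).symm
  obtain ⟨L, hL⟩ : ∃ L : ℝ, L = ((p : ℝ) ^ k)⁻¹ * (((Finset.univ.filter
        (fun α : Fin (n + 1) → ZMod p => hw α < w0)).card : ℝ) *
        (p : ℝ) ^ (k - min m (n - k))) := ⟨_, rfl⟩
  have hlow := low_count n k m w0 hk H hH
  have hlow' : ((p : ℝ) ^ k)⁻¹ *
      ((∑ h ∈ H, ((Finset.univ.erase (0 : Fin k → ZMod p)).filter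
      (fun v => hw (fun i : Fin (n + 1) => fn h k v (X ^ (i : ℕ))) < w0)).card : ℕ) : ℝ) ≤ L := by
    rw [hL]
    apply mul_le_mul_of_nonneg_left _ (by positivity)
    exact_mod_cast hlow
  obtain ⟨A, hA⟩ : ∃ A : ℝ, A = L + c0 ^ w0 * 2 ^ R := ⟨_, rfl⟩
  have hone : ∀ ω : Fin (n + 1) → B,
      ∑ h ∈ H, |Prg n (fun i => g (ω i)) (fun f => h ∣ f ∧ f ≠ 0) -
        (∏ i, mm (ω i)) * ((p : ℝ) ^ k)⁻¹| ≤
      (∏ i, mm (ω i)) * A + 2 * (2 ^ R + 1) * ((p : ℝ) ^ k) ^ s *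
        ((∏ i, mm (ω i)) * (∏ i, phi p (ρ (ω i)) 0) ^ s) := by
    intro ω
    have h1 := D_le n k m R w0 hR (fun i => g (ω i)) (fun i a => hg0 (ω i) a)
      (fun i => ρ (ω i)) (fun i => hρ0 _) (fun i => hρ1 _) c0 hc0 hc1 (fun i c hc => hgw (ω i) c hc)
      H hH
    have h2 : ∏ i, ∑ a, g (ω i) a = ∏ i, mm (ω i) := by rw [hmm]
    rw [h2] at h1
    have hM0 : 0 ≤ ∏ i, mm (ω i) := Finset.prod_nonneg fun i _ => hm0 _
    have hφ0 : 0 ≤ ∏ i, phi p (ρ (ω i)) 0 :=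
      Finset.prod_nonneg fun i _ => phi_nonneg (hρ0 _) (hρ1 _) 0
    refine h1.trans ?_
    have h3 : min 1 ((p : ℝ) ^ k * ∏ i, phi p (ρ (ω i)) 0) ≤
        ((p : ℝ) ^ k) ^ s * (∏ i, phi p (ρ (ω i)) 0) ^ s := by
      rw [← Real.mul_rpow (by positivity) hφ0]
      exact min_one_le_rpow (by positivity) hs0 hs1
    calc _ ≤ (∏ i, mm (ω i)) * (L + c0 ^ w0 * 2 ^ R + 2 * (2 ^ R + 1) *
          (((p : ℝ) ^ k) ^ s * (∏ i, phi p (ρ (ω i)) 0) ^ s)) := by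
          apply mul_le_mul_of_nonneg_left _ hM0
          have h4 := mul_le_mul_of_nonneg_left h3 (by positivity : (0 : ℝ) ≤ 2 * (2 ^ R + 1))
          linarith
      _ = _ := by rw [hA]; ring
  have hsplit : ∀ h : (ZMod p)[X], Pr μ n (fun f => h ∣ f ∧ f ≠ 0) - ((p : ℝ) ^ k)⁻¹ =
      ∑ ω : Fin (n + 1) → B, (Prg n (fun i => g (ω i)) (fun f => h ∣ f ∧ f ≠ 0) -
        (∏ i, mm (ω i)) * ((p : ℝ) ^ k)⁻¹) := by
    intro h
    rw [Pr_mix μ g hg, Finset.sum_sub_distrib, ← Finset.sum_mul,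
      sum_prod_pi (fun (_ : Fin (n + 1)) b => mm b)]
    simp [hm1]
  calc ∑ h ∈ H, |Pr μ n (fun f => h ∣ f ∧ f ≠ 0) - ((p : ℝ) ^ k)⁻¹|
      ≤ ∑ h ∈ H, ∑ ω : Fin (n + 1) → B, |Prg n (fun i => g (ω i)) (fun f => h ∣ f ∧ f ≠ 0) -
        (∏ i, mm (ω i)) * ((p : ℝ) ^ k)⁻¹| := by
        apply Finset.sum_le_sum
        intro h _
        rw [hsplit]
        exact Finset.abs_sum_le_sum_abs _ _
    _ = ∑ ω : Fin (n + 1) → B, ∑ h ∈ H, |Prg n (fun i => g (ω i)) (fun f => h ∣ f ∧ f ≠ 0) -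
        (∏ i, mm (ω i)) * ((p : ℝ) ^ k)⁻¹| := Finset.sum_comm
    _ ≤ ∑ ω : Fin (n + 1) → B, ((∏ i, mm (ω i)) * A + 2 * (2 ^ R + 1) * ((p : ℝ) ^ k) ^ s *
        ((∏ i, mm (ω i)) * (∏ i, phi p (ρ (ω i)) 0) ^ s)) :=
        Finset.sum_le_sum fun ω _ => hone ω
    _ = A + 2 * (2 ^ R + 1) * ((p : ℝ) ^ k) ^ s *
        (∑ b, mm b * phi p (ρ b) 0 ^ s) ^ (n + 1) := by
        rw [Finset.sum_add_distrib, ← Finset.sum_mul, ← Finset.mul_sum,
          sum_prod_pi (fun (_ : Fin (n + 1)) b => mm b)]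
        have h5 := sum_mix_prod mm hm1 (fun b => phi p (ρ b) 0)
          (fun b => phi_nonneg (hρ0 _) (hρ1 _) 0) s (n + 1) Finset.univ
        rw [Finset.card_univ, Fintype.card_fin] at h5
        rw [h5]
        simp [hm1]
    _ = _ := by rw [hA, hL, hmm]; ring

end Pool.Agent.MP0a1886
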