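import Pool.Agent.MP0a1886.Irr
import Mathlib.NumberTheory.Harmonic.EulerMascheroni

/-! Sums over the irreducible polynomials with degree in an interval (MP_0a1886_pr). -/

set_option autoImplicit false
set_option linter.unusedSectionVars false
open Finset Polynomial Filter Topology

namespace Pool.Agent.MP0a1886

variable {p : ℕ} [hp : Fact p.Prime]

lemma tendsto_floor (x : ℝ) (hx : 0 < x) :
    Tendsto (fun n : ℕ => ⌊x * (n : ℝ)⌋₊) atTop atTop :=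
  tendsto_nat_floor_atTop.comp (Tendsto.const_mul_atTop hx tendsto_natCast_atTop_atTop)

lemma sum_Ioc_eq (u : ℕ → ℝ) {a b : ℕ} (h : a ≤ b) :
    ∑ k ∈ Finset.Ioc a b, u k = ∑ k ∈ Finset.range (b + 1), u k - ∑ k ∈ Finset.range (a + 1), u k := by
  rw [eq_sub_iff_add_eq, add_comm, ← Finset.sum_range_add_sum_Ico _ (show a + 1 ≤ b + 1 by omega)]
  congr 1
  apply Finset.sum_congr _ fun _ _ => rfl
  ext k
  rw [Finset.mem_Ioc, Finset.mem_Ico]
  omega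

lemma sum_inv_tendsto (x y : ℝ) (hx : 0 < x) (hxy : x ≤ y) :
    Tendsto (fun n : ℕ => ∑ k ∈ Finset.Ioc ⌊x * (n : ℝ)⌋₊ ⌊y * (n : ℝ)⌋₊, 1 / (k : ℝ)) atTop
      (𝓝 (Real.log (y / x))) := by
  have hy : 0 < y := by linarith
  have h1 := Real.tendsto_harmonic_sub_log.comp (tendsto_floor x hx)
  have h2 := Real.tendsto_harmonic_sub_log.comp (tendsto_floor y hy)
  have hfx : Tendsto (fun n : ℕ => ((⌊x * (n : ℝ)⌋₊ : ℕ) : ℝ) / n) atTop (𝓝 x) :=
    (tendsto_nat_floor_mul_div_atTop hx.le).comp tendsto_natCast_atTop_atTop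
  have hfy : Tendsto (fun n : ℕ => ((⌊y * (n : ℝ)⌋₊ : ℕ) : ℝ) / n) atTop (𝓝 y) :=
    (tendsto_nat_floor_mul_div_atTop hy.le).comp tendsto_natCast_atTop_atTop
  have h3 : Tendsto (fun n : ℕ => Real.log ((((⌊y * (n : ℝ)⌋₊ : ℕ) : ℝ) / n) /
      (((⌊x * (n : ℝ)⌋₊ : ℕ) : ℝ) / n))) atTop (𝓝 (Real.log (y / x))) :=
    (hfy.div hfx hx.ne').log (by positivity)
  have h4 := (h2.sub h1).add h3
  rw [sub_self, zero_add] at h4
  refine h4.congr' ?_
  have e1 : ∀ᶠ n : ℕ in atTop, 1 ≤ ⌊x * (n : ℝ)⌋₊ := (tendsto_floor x hx).eventually_ge_atTop 1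
  filter_upwards [e1, eventually_gt_atTop 0] with n hn1 hn0
  have hn : (0 : ℝ) < n := by exact_mod_cast hn0
  have hab : ⌊x * (n : ℝ)⌋₊ ≤ ⌊y * (n : ℝ)⌋₊ := Nat.floor_mono (by gcongr)
  obtain ⟨a, ha⟩ : ∃ a, a = ⌊x * (n : ℝ)⌋₊ := ⟨_, rfl⟩
  obtain ⟨b, hb⟩ : ∃ b, b = ⌊y * (n : ℝ)⌋₊ := ⟨_, rfl⟩
  simp only [Function.comp]
  rw [← ha] at hn1
  rw [← ha, ← hb] at hab
  rw [← ha, ← hb]
  have ha0 : (0 : ℝ) < a := by exact_mod_cast hn1
  have hb0 : (0 : ℝ) < b := by exact_mod_cast (lt_of_lt_of_le hn1 hab)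
  have h5 : (b : ℝ) / n / (a / n) = b / a := by field_simp
  rw [h5, Real.log_div hb0.ne' ha0.ne']
  have hH : ∀ N : ℕ, ((harmonic N : ℚ) : ℝ) = ∑ k ∈ Finset.range (N + 1), 1 / (k : ℝ) := by
    intro N
    unfold harmonic
    push_cast
    rw [Finset.sum_range_succ']
    simp
  rw [hH, hH, sum_Ioc_eq _ hab]
  ring

lemma irr_weight_tendsto (x y : ℝ) (hx : 0 < x) (hxy : x ≤ y) :
    Tendsto (fun n : ℕ => ∑ k ∈ Finset.Ioc ⌊x * (n : ℝ)⌋₊ ⌊y * (n : ℝ)⌋₊,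
      ((irr p k).card : ℝ) * ((p : ℝ) ^ k)⁻¹) atTop (𝓝 (Real.log (y / x))) := by
  have hy : 0 < y := by linarith
  have hsq : Real.sqrt (1 / 2) < 1 := by
    rw [Real.sqrt_lt' one_pos]
    norm_num
  have hsq0 : 0 ≤ Real.sqrt (1 / 2) := Real.sqrt_nonneg _
  have hle : ∀ k : ℕ, (1 / 2 : ℝ) ^ ((k + 1) / 2) ≤ Real.sqrt (1 / 2) ^ k := by
    intro k
    have h1 : (1 / 2 : ℝ) ^ ((k + 1) / 2) = Real.sqrt (1 / 2) ^ (2 * ((k + 1) / 2)) := by
      rw [pow_mul, Real.sq_sqrt (by norm_num)]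
    rw [h1]
    exact pow_le_pow_of_le_one hsq0 hsq.le (by omega)
  obtain ⟨e, he⟩ : ∃ e : ℕ → ℝ, e = fun (k : ℕ) => 1 / (k : ℝ) - ((irr p k).card : ℝ) * ((p : ℝ) ^ k)⁻¹ :=
    ⟨_, rfl⟩
  have hb : ∀ k : ℕ, k ≠ 0 → 0 ≤ e k ∧ e k ≤ 2 * Real.sqrt (1 / 2) ^ k := by
    intro k hk
    have h1 := card_irr_div_le (p := p) k hk
    have h2 := card_irr_div_ge (p := p) k hk
    have h3 := hle k
    rw [he]
    simp only
    rw [← div_eq_mul_inv]
    constructor <;> linarith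
  have hsum : Summable (fun k => e (k + 1)) := by
    refine Summable.of_nonneg_of_le (fun k => (hb (k + 1) (by omega)).1)
      (fun k => (hb (k + 1) (by omega)).2) ?_
    have h1 := (summable_geometric_of_lt_one hsq0 hsq).mul_left (2 * Real.sqrt (1 / 2))
    refine h1.congr fun k => ?_
    ring
  have hsum' : Summable e := (summable_nat_add_iff 1).1 hsum
  have ht := hsum'.hasSum.tendsto_sum_nat
  have h1 := (ht.comp ((tendsto_add_atTop_nat 1).comp (tendsto_floor y hy))).sub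
    (ht.comp ((tendsto_add_atTop_nat 1).comp (tendsto_floor x hx)))
  rw [sub_self] at h1
  have h2 := (sum_inv_tendsto x y hx hxy).sub h1
  rw [sub_zero] at h2
  refine h2.congr ?_
  intro n
  have hab : ⌊x * (n : ℝ)⌋₊ ≤ ⌊y * (n : ℝ)⌋₊ := Nat.floor_mono (by gcongr)
  simp only [Function.comp]
  rw [← sum_Ioc_eq _ hab, ← Finset.sum_sub_distrib]
  apply Finset.sum_congr rfl
  intro k _
  rw [he]
  ring

/-- the monic irreducible polynomials with degree in `(a, b]` -/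
noncomputable def irI (p : ℕ) [Fact p.Prime] (a b : ℕ) : Finset (ZMod p)[X] := by
  classical
  exact (Finset.Ioc a b).biUnion (irr p)

lemma mem_irI {a b : ℕ} {P : (ZMod p)[X]} :
    P ∈ irI p a b ↔ P.Monic ∧ Irreducible P ∧ a < P.natDegree ∧ P.natDegree ≤ b := by
  classical
  unfold irI
  rw [Finset.mem_biUnion]
  constructor
  · rintro ⟨k, hk, hP⟩
    rw [mem_irr] at hP
    rw [Finset.mem_Ioc] at hk
    exact ⟨hP.1, hP.2.2, by rw [hP.2.1]; exact hk.1, by rw [hP.2.1]; exact hk.2⟩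
  · rintro ⟨h1, h2, h3, h4⟩
    exact ⟨P.natDegree, Finset.mem_Ioc.2 ⟨h3, h4⟩, mem_irr.2 ⟨h1, rfl, h2⟩⟩

lemma sum_irI (a b : ℕ) : ∑ P ∈ irI p a b, ((p : ℝ) ^ P.natDegree)⁻¹ =
    ∑ k ∈ Finset.Ioc a b, ((irr p k).card : ℝ) * ((p : ℝ) ^ k)⁻¹ := by
  classical
  unfold irI
  rw [Finset.sum_biUnion]
  · apply Finset.sum_congr rfl
    intro k _
    rw [← nsmul_eq_mul, ← Finset.sum_const]
    apply Finset.sum_congr rfl
    intro P hP
    rw [(mem_irr.1 hP).2.1]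
  · intro i _ j _ hij
    rw [Function.onFun, Finset.disjoint_left]
    intro P hP hP'
    exact hij ((mem_irr.1 hP).2.1.symm.trans (mem_irr.1 hP').2.1)

lemma irI_weight_tendsto (x y : ℝ) (hx : 0 < x) (hxy : x ≤ y) :
    Tendsto (fun n : ℕ => ∑ P ∈ irI p ⌊x * (n : ℝ)⌋₊ ⌊y * (n : ℝ)⌋₊, ((p : ℝ) ^ P.natDegree)⁻¹)
      atTop (𝓝 (Real.log (y / x))) := by
  refine (irr_weight_tendsto (p := p) x y hx hxy).congr fun n => ?_
  rw [sum_irI]

end Pool.Agent.MP0a1886
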