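import Pool.Agent.MP0a1886.Min.LevMin
import Pool.Agent.MP0a1886.Min.Harm

/-! Correlations of the degrees of the irreducible factors (MP_0a1886_pr). -/

set_option autoImplicit false
set_option linter.unusedSectionVars false
open Finset Polynomial Filter Topology

namespace Pool.Agent.MP0a1886

variable {p : ℕ} [hp : Fact p.Prime]

/-- the expectation of `F` at the random polynomial -/
noncomputable def Ex (μ : ZMod p → ℝ) (n : ℕ) (F : (ZMod p)[X] → ℝ) : ℝ :=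
  ∑ ε : Fin (n + 1) → ZMod p, wt μ n ε * F (rpoly n ε)

open Classical in
/-- the number of irreducible factors with degree in `(a, b]` (zero if `f = 0`) -/
noncomputable def cnt (a b : ℕ) (f : (ZMod p)[X]) : ℝ :=
  if f = 0 then 0 else (((irI p a b).filter (fun P => P ∣ f)).card : ℝ)

/-- the level of distribution for rough moduli is at least `q` -/
def Level (μ : ZMod p → ℝ) (q : ℝ) : Prop :=
  ∀ y : ℝ, y < q → ∀ ε : ℝ, 0 < ε → ∃ C c : ℝ, 0 < c ∧ ∀ n m k : ℕ, 1 ≤ k → ε * n ≤ m →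
    (k : ℝ) ≤ y * n → ∀ H : Finset (ZMod p)[X],
      (∀ h ∈ H, h.Monic ∧ h.natDegree = k ∧ Fac (fun d => m < d) h) →
      ∑ h ∈ H, |Pr μ n (fun f => h ∣ f ∧ f ≠ 0) - ((p : ℝ) ^ k)⁻¹| ≤ C * Real.exp (-(c * n))

/-- the tuples of irreducible polynomials -/
noncomputable def tup {r : ℕ} (p : ℕ) [Fact p.Prime] (a b : Fin r → ℕ) :
    Finset (Fin r → (ZMod p)[X]) :=
  Fintype.piFinset (fun i => irI p (a i) (b i))

lemma mem_tup {r : ℕ} {a b : Fin r → ℕ} {P : Fin r → (ZMod p)[X]} :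
    P ∈ tup p a b ↔ ∀ i, P i ∈ irI p (a i) (b i) := by
  unfold tup
  exact Fintype.mem_piFinset

/-- disjoint intervals -/
def Dj {r : ℕ} (a b : Fin r → ℕ) : Prop := ∀ i j, i ≠ j → b i ≤ a j ∨ b j ≤ a i

lemma tup_index {r : ℕ} {a b : Fin r → ℕ} (hd : Dj a b) {P Q : (ZMod p)[X]} {i j : Fin r}
    (hP : P ∈ irI p (a i) (b i)) (hQ : Q ∈ irI p (a j) (b j)) (h : P ∣ Q) : i = j ∧ P = Q := by
  rw [mem_irI] at hP hQ
  obtain ⟨hP1, hP2, hP3, hP4⟩ := hP
  obtain ⟨hQ1, hQ2, hQ3, hQ4⟩ := hQ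
  have h1 : Associated P Q := hP2.associated_of_dvd hQ2 h
  have h2 : P = Q := Polynomial.eq_of_monic_of_associated hP1 hQ1 h1
  refine ⟨?_, h2⟩
  by_contra hij
  rw [h2] at hP3 hP4
  rcases hd i j hij with h3 | h3 <;> omega

lemma tup_prod_dvd {r : ℕ} {a b : Fin r → ℕ} (hd : Dj a b) {P : Fin r → (ZMod p)[X]}
    (hP : P ∈ tup p a b) (f : (ZMod p)[X]) : (∏ i, P i) ∣ f ↔ ∀ i, P i ∣ f := by
  rw [mem_tup] at hP
  constructor
  · intro h i
    exact (Finset.dvd_prod_of_mem P (Finset.mem_univ i)).trans h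
  · intro h
    apply Finset.prod_dvd_of_coprime
    · intro i _ j _ hij
      rw [Function.onFun, (mem_irI.1 (hP i)).2.1.coprime_iff_not_dvd]
      intro h1
      exact hij (tup_index hd (hP i) (hP j) h1).1
    · intro i _
      exact h i

lemma tup_inj {r : ℕ} {a b : Fin r → ℕ} (hd : Dj a b) {P Q : Fin r → (ZMod p)[X]}
    (hP : P ∈ tup p a b) (hQ : Q ∈ tup p a b) (h : ∏ i, P i = ∏ i, Q i) : P = Q := by
  rw [mem_tup] at hP hQ
  funext i
  have h1 : P i ∣ ∏ j, Q j := by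
    rw [← h]
    exact Finset.dvd_prod_of_mem P (Finset.mem_univ i)
  obtain ⟨j, _, hj⟩ := ((mem_irI.1 (hP i)).2.1.prime.dvd_finsetProd_iff _).1 h1
  obtain ⟨h2, h3⟩ := tup_index hd (hP i) (hQ j) hj
  rw [h3, ← h2]

lemma tup_monic {r : ℕ} {a b : Fin r → ℕ} {P : Fin r → (ZMod p)[X]}
    (hP : P ∈ tup p a b) : (∏ i, P i).Monic := by
  rw [mem_tup] at hP
  exact Polynomial.monic_prod_of_monic _ _ fun i _ => (mem_irI.1 (hP i)).1

lemma tup_degree {r : ℕ} {a b : Fin r → ℕ} {P : Fin r → (ZMod p)[X]}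
    (hP : P ∈ tup p a b) : (∏ i, P i).natDegree = ∑ i, (P i).natDegree := by
  rw [mem_tup] at hP
  exact Polynomial.natDegree_prod_of_monic _ _ fun i _ => (mem_irI.1 (hP i)).1

lemma tup_rough {r m : ℕ} {a b : Fin r → ℕ} (hm : ∀ i, m ≤ a i) {P : Fin r → (ZMod p)[X]}
    (hP : P ∈ tup p a b) : Fac (fun d => m < d) (∏ i, P i) := by
  rw [mem_tup] at hP
  intro Q hQ hQd
  obtain ⟨j, _, hj⟩ := (hQ.prime.dvd_finsetProd_iff _).1 hQd
  have h1 := (hQ.associated_of_dvd (mem_irI.1 (hP j)).2.1 hj)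
  have h2 : Q.natDegree = (P j).natDegree := Polynomial.natDegree_eq_of_degree_eq
    (Polynomial.degree_eq_degree_of_associated h1)
  rw [h2]
  exact lt_of_le_of_lt (hm j) (mem_irI.1 (hP j)).2.2.1

/-- the expectation of the product of the counts -/
lemma Ex_cnt {r : ℕ} (hr : 0 < r) (μ : ZMod p → ℝ) (n : ℕ) {a b : Fin r → ℕ} (hd : Dj a b) :
    Ex μ n (fun f => ∏ i, cnt (a i) (b i) f) =
      ∑ P ∈ tup p a b, Pr μ n (fun f => (∏ i, P i) ∣ f ∧ f ≠ 0) := by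
  classical
  unfold Ex
  have h1 : ∀ P : Fin r → (ZMod p)[X], Pr μ n (fun f => (∏ i, P i) ∣ f ∧ f ≠ 0) =
      ∑ ε : Fin (n + 1) → ZMod p, wt μ n ε *
        (if (∏ i, P i) ∣ rpoly n ε ∧ rpoly n ε ≠ 0 then 1 else 0) := by
    intro P
    rw [Pr_eq]
    apply Finset.sum_congr rfl
    intro ε _
    split_ifs <;> simp
  simp_rw [h1]
  rw [Finset.sum_comm]
  apply Finset.sum_congr rfl
  intro ε _
  rw [← Finset.mul_sum]
  congr 1
  by_cases h0 : rpoly n ε = 0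
  · have h2 : ∀ P ∈ tup p a b, (if (∏ i, P i) ∣ rpoly n ε ∧ rpoly n ε ≠ 0 then (1 : ℝ) else 0) = 0 :=
      fun P _ => if_neg (fun h => h.2 h0)
    rw [Finset.sum_eq_zero h2]
    apply Finset.prod_eq_zero (Finset.mem_univ (⟨0, hr⟩ : Fin r))
    unfold cnt
    rw [if_pos h0]
  · have h2 : ∀ P ∈ tup p a b, (if (∏ i, P i) ∣ rpoly n ε ∧ rpoly n ε ≠ 0 then (1 : ℝ) else 0) =
        if ∀ i, P i ∣ rpoly n ε then 1 else 0 := by
      intro P hP
      have h3 := tup_prod_dvd hd hP (rpoly n ε)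
      by_cases h4 : ∀ i, P i ∣ rpoly n ε
      · rw [if_pos h4, if_pos ⟨h3.2 h4, h0⟩]
      · rw [if_neg h4, if_neg (fun h => h4 (h3.1 h.1))]
    rw [Finset.sum_congr rfl h2]
    have h5 : ∀ i, cnt (a i) (b i) (rpoly n ε) =
        (((irI p (a i) (b i)).filter (fun P => P ∣ rpoly n ε)).card : ℝ) := by
      intro i
      unfold cnt
      rw [if_neg h0]
    rw [Finset.prod_congr rfl (fun i _ => h5 i), ← Nat.cast_prod, ← Fintype.card_piFinset,
      Finset.sum_boole]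
    congr 2
    ext P
    rw [Fintype.mem_piFinset, Finset.mem_filter, mem_tup]
    constructor
    · intro h
      exact ⟨fun i => (Finset.mem_filter.1 (h i)).1, fun i => (Finset.mem_filter.1 (h i)).2⟩
    · rintro ⟨h6, h7⟩ i
      exact Finset.mem_filter.2 ⟨h6 i, h7 i⟩

/-- the main term -/
lemma tup_main {r : ℕ} {a b : Fin r → ℕ} :
    ∑ P ∈ tup p a b, ((p : ℝ) ^ (∏ i, P i).natDegree)⁻¹ =
      ∏ i, ∑ P ∈ irI p (a i) (b i), ((p : ℝ) ^ P.natDegree)⁻¹ := by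
  classical
  rw [Finset.prod_univ_sum]
  apply Finset.sum_congr rfl
  intro P hP
  rw [tup_degree hP, ← Finset.prod_pow_eq_pow_sum, Finset.prod_inv_distrib]

/-- the error term -/
lemma tup_error {r : ℕ} (hr : 0 < r) (μ : ZMod p → ℝ) (n : ℕ) {a b : Fin r → ℕ} (hd : Dj a b)
    (m K : ℕ) (hm : ∀ i, m ≤ a i) (hK : ∑ i, b i ≤ K) (E : ℝ)
    (hE : ∀ k : ℕ, 1 ≤ k → k ≤ K → ∀ H : Finset (ZMod p)[X],
      (∀ h ∈ H, h.Monic ∧ h.natDegree = k ∧ Fac (fun d => m < d) h) →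
      ∑ h ∈ H, |Pr μ n (fun f => h ∣ f ∧ f ≠ 0) - ((p : ℝ) ^ k)⁻¹| ≤ E) :
    |Ex μ n (fun f => ∏ i, cnt (a i) (b i) f) -
      ∏ i, ∑ P ∈ irI p (a i) (b i), ((p : ℝ) ^ P.natDegree)⁻¹| ≤ K * E := by
  classical
  rw [Ex_cnt hr μ n hd, ← tup_main, ← Finset.sum_sub_distrib]
  refine (Finset.abs_sum_le_sum_abs _ _).trans ?_
  obtain ⟨F, hF⟩ : ∃ F : (ZMod p)[X] → ℝ, F = fun h =>
    |Pr μ n (fun f => h ∣ f ∧ f ≠ 0) - ((p : ℝ) ^ h.natDegree)⁻¹| := ⟨_, rfl⟩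
  have h1 : ∑ P ∈ tup p a b, |Pr μ n (fun f => (∏ i, P i) ∣ f ∧ f ≠ 0) -
      ((p : ℝ) ^ (∏ i, P i).natDegree)⁻¹| = ∑ h ∈ (tup p a b).image (fun P => ∏ i, P i), F h := by
    rw [Finset.sum_image, hF]
    intro P hP Q hQ h
    exact tup_inj hd hP hQ h
  rw [h1]
  have hmaps : ∀ h ∈ (tup p a b).image (fun P => ∏ i, P i), h.natDegree ∈ Finset.Icc 1 K := by
    intro h hh
    obtain ⟨P, hP, rfl⟩ := Finset.mem_image.1 hh
    rw [tup_degree hP, Finset.mem_Icc]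
    have hP' := mem_tup.1 hP
    constructor
    · have h2 : (P ⟨0, hr⟩).natDegree ≤ ∑ i, (P i).natDegree :=
        Finset.single_le_sum (f := fun i => (P i).natDegree) (fun _ _ => Nat.zero_le _)
          (Finset.mem_univ _)
      have h3 := (mem_irI.1 (hP' ⟨0, hr⟩)).2.2.1
      omega
    · refine le_trans (Finset.sum_le_sum fun i _ => ?_) hK
      exact (mem_irI.1 (hP' i)).2.2.2
  rw [← Finset.sum_fiberwise_of_maps_to hmaps]
  have h4 : (K : ℝ) * E = ∑ _k ∈ Finset.Icc 1 K, E := by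
    rw [Finset.sum_const, Nat.card_Icc, nsmul_eq_mul]
    simp
  rw [h4]
  apply Finset.sum_le_sum
  intro k hk
  rw [Finset.mem_Icc] at hk
  refine le_trans (le_of_eq ?_) (hE k hk.1 hk.2
    (((tup p a b).image (fun P => ∏ i, P i)).filter (fun h => h.natDegree = k)) ?_)
  · apply Finset.sum_congr rfl
    intro h hh
    rw [hF, ← (Finset.mem_filter.1 hh).2]
  · intro h hh
    obtain ⟨h5, h6⟩ := Finset.mem_filter.1 hh
    obtain ⟨P, hP, rfl⟩ := Finset.mem_image.1 h5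
    exact ⟨tup_monic hP, h6, tup_rough hm hP⟩

/-- the correlations converge below the level of distribution -/
theorem corr_tendsto (μ : ZMod p → ℝ) (q : ℝ) (hlev : Level μ q) {r : ℕ} (hr : 0 < r)
    (x y : Fin r → ℝ) (hx : ∀ i, 0 < x i) (hxy : ∀ i, x i < y i)
    (hdis : ∀ i j, i ≠ j → y i ≤ x j ∨ y j ≤ x i) (hsum : ∑ i, y i < q) :
    Tendsto (fun n : ℕ => Ex μ n (fun f => ∏ i, cnt ⌊x i * n⌋₊ ⌊y i * n⌋₊ f)) atTop
      (𝓝 (∏ i, Real.log (y i / x i))) := by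
  classical
  have hne : (Finset.univ : Finset (Fin r)).Nonempty := ⟨⟨0, hr⟩, Finset.mem_univ _⟩
  obtain ⟨i0, _, hi0⟩ := Finset.exists_min_image Finset.univ x hne
  obtain ⟨C0, c, hc, hL0⟩ := hlev (∑ i, y i) hsum (x i0 / 2) (by have := hx i0; positivity)
  obtain ⟨C, hCd⟩ : ∃ C, C = |C0| := ⟨_, rfl⟩
  have hC0 : 0 ≤ C := by rw [hCd]; exact abs_nonneg _
  have hL : ∀ n m k : ℕ, 1 ≤ k → x i0 / 2 * n ≤ m → (k : ℝ) ≤ (∑ i, y i) * n →
      ∀ H : Finset (ZMod p)[X],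
      (∀ h ∈ H, h.Monic ∧ h.natDegree = k ∧ Fac (fun d => m < d) h) →
      ∑ h ∈ H, |Pr μ n (fun f => h ∣ f ∧ f ≠ 0) - ((p : ℝ) ^ k)⁻¹| ≤ C * Real.exp (-(c * n)) := by
    intro n m k h1 h2 h3 H hH
    refine (hL0 n m k h1 h2 h3 H hH).trans ?_
    rw [hCd]
    exact mul_le_mul_of_nonneg_right (le_abs_self C0) (Real.exp_pos _).le
  have hmain : Tendsto (fun n : ℕ => ∏ i, ∑ P ∈ irI p ⌊x i * (n : ℝ)⌋₊ ⌊y i * (n : ℝ)⌋₊,
      ((p : ℝ) ^ P.natDegree)⁻¹) atTop (𝓝 (∏ i, Real.log (y i / x i))) :=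
    tendsto_finsetProd _ fun i _ => irI_weight_tendsto (x i) (y i) (hx i) (hxy i).le
  obtain ⟨Y, hY⟩ : ∃ Y, Y = ∑ i, y i := ⟨_, rfl⟩
  have hY0 : 0 < Y := by
    rw [hY]
    exact Finset.sum_pos (fun i _ => (hx i).trans (hxy i)) hne
  have herr : Tendsto (fun n : ℕ => (Y * C) * ((n : ℝ) * Real.exp (-(c * n)))) atTop (𝓝 0) := by
    have h1 : Tendsto (fun n : ℕ => (n : ℝ) * Real.exp (-(c * n))) atTop (𝓝 0) := by
      have h2 := (Real.tendsto_pow_mul_exp_neg_atTop_nhds_zero 1).comp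
        ((tendsto_natCast_atTop_atTop (R := ℝ)).const_mul_atTop hc)
      have h3 := h2.const_mul (1 / c)
      rw [mul_zero] at h3
      refine h3.congr fun n => ?_
      simp only [Function.comp, pow_one]
      field_simp
    have h4 := h1.const_mul (Y * C)
    rwa [mul_zero] at h4
  have hdiff : Tendsto (fun n : ℕ => Ex μ n (fun f => ∏ i, cnt ⌊x i * n⌋₊ ⌊y i * n⌋₊ f) -
      ∏ i, ∑ P ∈ irI p ⌊x i * (n : ℝ)⌋₊ ⌊y i * (n : ℝ)⌋₊, ((p : ℝ) ^ P.natDegree)⁻¹)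
      atTop (𝓝 0) := by
    apply squeeze_zero_norm' _ herr
    obtain ⟨N, hN⟩ := exists_nat_gt (2 / x i0)
    filter_upwards [eventually_ge_atTop N] with n hn
    have hnN : 2 / x i0 < n := hN.trans_le (by exact_mod_cast hn)
    have hn0 : (0 : ℝ) < n := lt_trans (by have := hx i0; positivity) hnN
    rw [Real.norm_eq_abs]
    have hKle : (⌊Y * (n : ℝ)⌋₊ : ℝ) ≤ Y * n := Nat.floor_le (by positivity)
    have hE0 : 0 ≤ C * Real.exp (-(c * n)) := by positivity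
    refine (tup_error hr μ n (a := fun i => ⌊x i * (n : ℝ)⌋₊) (b := fun i => ⌊y i * (n : ℝ)⌋₊) ?_
      ⌊x i0 * (n : ℝ)⌋₊ ⌊Y * (n : ℝ)⌋₊ ?_ ?_ (C * Real.exp (-(c * n))) ?_).trans ?_
    · intro i j hij
      rcases hdis i j hij with h | h
      · left
        exact Nat.floor_mono (by gcongr)
      · right
        exact Nat.floor_mono (by gcongr)
    · intro i
      apply Nat.floor_mono
      exact mul_le_mul_of_nonneg_right (hi0 i (Finset.mem_univ i)) hn0.le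
    · rw [Nat.le_floor_iff (by positivity)]
      push_cast
      rw [hY, Finset.sum_mul]
      apply Finset.sum_le_sum
      intro i _
      apply Nat.floor_le
      have := (hx i).trans (hxy i)
      positivity
    · intro k hk1 hkK H hH
      apply hL n ⌊x i0 * (n : ℝ)⌋₊ k hk1 _ _ H hH
      · have h1 : x i0 * n - 1 < ⌊x i0 * (n : ℝ)⌋₊ := Nat.sub_one_lt_floor _
        have h2 : 2 < x i0 * n := by
          rw [div_lt_iff₀ (hx i0)] at hnN
          linarith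
        linarith
      · rw [← hY]
        exact le_trans (by exact_mod_cast hkK) hKle
    · calc (⌊Y * (n : ℝ)⌋₊ : ℝ) * (C * Real.exp (-(c * n))) ≤ (Y * n) * (C * Real.exp (-(c * n))) :=
          mul_le_mul_of_nonneg_right hKle hE0
        _ = _ := by ring
  have h5 := hdiff.add hmain
  rw [zero_add] at h5
  refine h5.congr fun n => ?_
  ring

end Pool.Agent.MP0a1886
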