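import Pool.Agent.MP0a1886.Min.Core
import Pool.Agent.MP0a1886.LRS

/-! The level of distribution below half the entropy: tools (MP_0a1886_pr). -/

set_option autoImplicit false
set_option linter.unusedSectionVars false
open Finset Polynomial

namespace Pool.Agent.MP0a1886

variable {p : ℕ} [hp : Fact p.Prime]

/-- resampling of some coordinates -/
lemma resample {N : ℕ} (u ν : Fin N → ZMod p → ℝ) (hu : ∀ i, ∑ a, u i a = 1)
    (hν : ∀ i, ∑ a, ν i a = 1) (T : Fin N → Bool) (F : (Fin N → ZMod p) → ℝ) :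
    ∑ a : Fin N → ZMod p, ∑ x : Fin N → ZMod p, (∏ i, ν i (a i)) * (∏ i, u i (x i)) *
      F (fun i => if T i then x i else a i) =
    ∑ ε : Fin N → ZMod p, (∏ i, if T i then u i (ε i) else ν i (ε i)) * F ε := by
  classical
  obtain ⟨e, he⟩ : ∃ e : ((Fin N → ZMod p) × (Fin N → ZMod p)) →
      ((Fin N → ZMod p) × (Fin N → ZMod p)),
      e = fun q => (fun i => if T i then q.2 i else q.1 i, fun i => if T i then q.1 i else q.2 i) :=
    ⟨_, rfl⟩
  have hinv : Function.Involutive e := by
    intro q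
    rw [he]
    apply Prod.ext
    · funext i
      by_cases h : T i = true <;> simp [h]
    · funext i
      by_cases h : T i = true <;> simp [h]
  rw [← Fintype.sum_prod_type' (fun (a x : Fin N → ZMod p) => (∏ i, ν i (a i)) *
      (∏ i, u i (x i)) * F (fun i => if T i then x i else a i))]
  have h1 : ∑ q : (Fin N → ZMod p) × (Fin N → ZMod p), (∏ i, ν i (q.1 i)) * (∏ i, u i (q.2 i)) *
      F (fun i => if T i then q.2 i else q.1 i) =
      ∑ q : (Fin N → ZMod p) × (Fin N → ZMod p),
        (∏ i, if T i then u i (q.1 i) else ν i (q.1 i)) *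
        (∏ i, if T i then ν i (q.2 i) else u i (q.2 i)) * F q.1 := by
    apply Fintype.sum_equiv (Equiv.ofBijective e hinv.bijective)
    intro q
    simp only [Equiv.ofBijective_apply]
    rw [he]
    simp only
    have h2 : (∏ i, if T i then u i (if T i then q.2 i else q.1 i) else
        ν i (if T i then q.2 i else q.1 i)) *
        (∏ i, if T i then ν i (if T i then q.1 i else q.2 i) else
          u i (if T i then q.1 i else q.2 i)) = (∏ i, ν i (q.1 i)) * (∏ i, u i (q.2 i)) := by
      rw [← Finset.prod_mul_distrib, ← Finset.prod_mul_distrib]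
      apply Finset.prod_congr rfl
      intro i _
      by_cases h : T i = true
      · simp [h, mul_comm]
      · simp [h]
    rw [h2]
  rw [h1, Fintype.sum_prod_type' (fun (x y : Fin N → ZMod p) =>
        (∏ i, if T i then u i (x i) else ν i (x i)) *
        (∏ i, if T i then ν i (y i) else u i (y i)) * F x)]
  apply Finset.sum_congr rfl
  intro x _
  have h3 : ∑ y : Fin N → ZMod p, (∏ i, if T i then ν i (y i) else u i (y i)) = 1 := by
    rw [sum_prod_pi (fun (i : Fin N) (c : ZMod p) => if T i then ν i c else u i c)]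
    apply Finset.prod_eq_one
    intro i _
    by_cases h : T i = true
    · simp [h, hν i]
    · simp [h, hu i]
  calc ∑ y : Fin N → ZMod p, (∏ i, if T i then u i (x i) else ν i (x i)) *
        (∏ i, if T i then ν i (y i) else u i (y i)) * F x
      = (∏ i, if T i then u i (x i) else ν i (x i)) * F x *
        ∑ y : Fin N → ZMod p, (∏ i, if T i then ν i (y i) else u i (y i)) := by
        rw [Finset.mul_sum]
        apply Finset.sum_congr rfl
        intro y _
        ring
    _ = _ := by rw [h3, mul_one]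

/-- the number of rough divisors of a nonzero polynomial -/
lemma card_dvd_le (n m R : ℕ) (hR : n < (m + 1) * R) (f : (ZMod p)[X]) (hf : f ≠ 0)
    (hdeg : f.natDegree ≤ n) (H : Finset (ZMod p)[X])
    (hH : ∀ h ∈ H, h.Monic ∧ Fac (fun d => m < d) h ∧ h ∣ f) : (H.card : ℝ) ≤ 2 ^ R := by
  have hc : f.leadingCoeff⁻¹ ≠ 0 := inv_ne_zero (Polynomial.leadingCoeff_ne_zero.2 hf)
  have hmon : (C (f.leadingCoeff⁻¹) * f).Monic := by
    rw [mul_comm]
    exact Polynomial.monic_mul_leadingCoeff_inv hf
  apply card_large_dvd hR hmon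
  · rw [Polynomial.natDegree_C_mul hc]
    exact hdeg
  · intro h hh
    obtain ⟨h3, h4, h5⟩ := hH h hh
    exact ⟨h3, h5.mul_left _, h4⟩

/-- the functional shifted by `X ^ s` -/
lemma fn_shift (h : (ZMod p)[X]) (hh : h.Monic) (k : ℕ) (hk : h.natDegree = k) (s : ℕ)
    (v : Fin k → ZMod p) (f : (ZMod p)[X]) :
    fn h k (fun t : Fin k => fn h k v (X ^ (s + (t : ℕ)))) f = fn h k v (X ^ s * f) := by
  have h1 : fn h k v (X ^ s * f) = fn h k v (X ^ s * (f %ₘ h)) := by
    have h2 : X ^ s * f = X ^ s * (f %ₘ h) + h * (X ^ s * (f /ₘ h)) := by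
      conv_lhs => rw [← Polynomial.modByMonic_add_div f h]
      ring
    rw [h2, map_add, fn_mul h hh, add_zero]
  rw [h1, fn_apply]
  have h3 : (f %ₘ h) = ∑ t : Fin k, C ((f %ₘ h).coeff t) * X ^ (t : ℕ) := by
    have h4 : (f %ₘ h).natDegree < k ∨ k = 0 := by
      rcases Nat.eq_zero_or_pos k with h0 | h0
      · exact Or.inr h0
      · left
        rw [← hk]
        exact Polynomial.natDegree_modByMonic_lt f hh (by
          rintro rfl
          simp at hk
          omega)
    rcases h4 with h4 | h4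
    · conv_lhs => rw [Polynomial.as_sum_range_C_mul_X_pow' (f %ₘ h) h4]
      rw [← Fin.sum_univ_eq_sum_range (fun i => C ((f %ₘ h).coeff i) * X ^ i) k]
    · subst h4
      have h5 : h = 1 := hh.natDegree_eq_zero.1 hk
      rw [h5, Polynomial.modByMonic_one]
      simp
  conv_rhs => rw [h3]
  rw [Finset.mul_sum, map_sum]
  apply Finset.sum_congr rfl
  intro t _
  have h6 : X ^ s * (C ((f %ₘ h).coeff t) * X ^ (t : ℕ)) =
      (f %ₘ h).coeff t • (X ^ (s + (t : ℕ)) : (ZMod p)[X]) := by
    rw [Polynomial.smul_eq_C_mul, pow_add]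
    ring
  rw [h6, map_smul, smul_eq_mul, mul_comm]

lemma fn_shift_ne (h : (ZMod p)[X]) (hh : h.Monic) (k : ℕ) (hk : h.natDegree = k)
    (h0 : h.coeff 0 ≠ 0) (s : ℕ) (v : Fin k → ZMod p) (hv : v ≠ 0) :
    (fun t : Fin k => fn h k v (X ^ (s + (t : ℕ)))) ≠ 0 := by
  intro hcon
  apply hv
  apply fn_injective h hh k hk
  have hz : fn h k (0 : Fin k → ZMod p) = 0 := by
    ext f
    simp [fn_zero]
  rw [hz]
  obtain ⟨a, b, hab⟩ := coprime_X_pow h0 s
  apply LinearMap.ext
  intro g
  have h1 : g = h * (a * g) + X ^ s * (b * g) := by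
    calc g = (a * h + b * X ^ s) * g := by rw [hab, one_mul]
      _ = _ := by ring
  rw [h1, map_add, fn_mul h hh, zero_add, ← fn_shift h hh k hk s v, hcon, fn_zero]
  rfl

/-- `X` does not divide a rough polynomial -/
lemma coeff_zero_rough {m : ℕ} (hm : 1 ≤ m) {h : (ZMod p)[X]} (hF : Fac (fun d => m < d) h) :
    h.coeff 0 ≠ 0 := by
  intro h0
  have h1 : (X : (ZMod p)[X]) ∣ h := Polynomial.X_dvd_iff.2 h0
  have h2 := hF X Polynomial.irreducible_X h1
  rw [Polynomial.natDegree_X] at h2
  omega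

/-- the frequencies of small weight in a window -/
lemma low_window (n k m w0 s N : ℕ) (hk : k ≤ n) (hm : 1 ≤ m) (hN : s + (n + 1) ≤ N)
    (Q : Fin N → Bool) (hQ : ∀ i : Fin N, s ≤ (i : ℕ) → (i : ℕ) < s + (n + 1) → Q i = true)
    (H : Finset (ZMod p)[X])
    (hH : ∀ h ∈ H, h.Monic ∧ h.natDegree = k ∧ Fac (fun d => m < d) h) :
    ∑ h ∈ H, ((Finset.univ.erase (0 : Fin k → ZMod p)).filter
      (fun v => (Finset.univ.filter (fun i : Fin N => Q i = true ∧
        fn h k v (X ^ (i : ℕ)) ≠ 0)).card < w0)).card ≤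
    (Finset.univ.filter (fun α : Fin (n + 1) → ZMod p => hw α < w0)).card *
      p ^ (k - min m (n - k)) := by
  classical
  refine le_trans (Finset.sum_le_sum fun h hh => ?_) (low_count n k m w0 hk H hH)
  obtain ⟨h1, h2, h3⟩ := hH h hh
  apply Finset.card_le_card_of_injOn (fun v => fun t : Fin k => fn h k v (X ^ (s + (t : ℕ))))
  · intro v hv
    rw [Finset.mem_coe, Finset.mem_filter, Finset.mem_erase] at hv
    rw [Finset.mem_coe, Finset.mem_filter, Finset.mem_erase]
    refine ⟨⟨fn_shift_ne h h1 k h2 (coeff_zero_rough hm h3) s v hv.1.1, Finset.mem_univ _⟩, ?_⟩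
    refine lt_of_le_of_lt ?_ hv.2
    unfold hw
    apply Finset.card_le_card_of_injOn (fun i : Fin (n + 1) => (⟨s + i, by omega⟩ : Fin N))
    · intro i hi
      rw [Finset.mem_coe, Finset.mem_filter] at hi
      rw [Finset.mem_coe, Finset.mem_filter]
      refine ⟨Finset.mem_univ _, hQ _ ?_ ?_, ?_⟩
      · simp
      · have := i.2
        simp only
        omega
      · have h4 := hi.2
        beta_reduce at h4
        rw [fn_shift h h1 k h2 s v, ← pow_add] at h4
        exact h4
    · intro i _ j _ hij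
      simp only [Fin.mk.injEq] at hij
      exact Fin.ext (by omega)
  · intro v _ v' _ hvv
    by_contra hne
    have h4 : v - v' ≠ 0 := sub_ne_zero.2 hne
    apply fn_shift_ne h h1 k h2 (coeff_zero_rough hm h3) s (v - v') h4
    funext t
    have h5 := congrFun hvv t
    simp only at h5
    have h6 : fn h k (v - v') (X ^ (s + (t : ℕ))) = fn h k v (X ^ (s + (t : ℕ))) -
        fn h k v' (X ^ (s + (t : ℕ))) := by
      rw [fn_apply, fn_apply, fn_apply, ← Finset.sum_sub_distrib]
      apply Finset.sum_congr rfl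
      intro j _
      rw [Pi.sub_apply, sub_mul]
    rw [h6, h5, sub_self]
    rfl

end Pool.Agent.MP0a1886
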