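import Pool.Agent.MP0a1886.Min.Ent9

/-! The level of distribution and the entropy: summation over the environments
(MP_0a1886_pr). -/

set_option autoImplicit false
set_option linter.unusedSectionVars false
open Finset Polynomial

namespace Pool.Agent.MP0a1886

variable {p : ℕ} [hp : Fact p.Prime]

lemma Prg_smul (n : ℕ) (x : Fin (n + 1) → ℝ) (g : Fin (n + 1) → ZMod p → ℝ)
    (E : (ZMod p)[X] → Prop) :
    Prg n (fun i a => x i * g i a) E = (∏ i, x i) * Prg n g E := by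
  classical
  unfold Prg
  rw [Finset.mul_sum]
  apply Finset.sum_congr rfl
  intro ε _
  split_ifs
  · rw [Finset.prod_mul_distrib]
  · rw [mul_zero]

/-- the factor of one place in the bound for the atypical vectors -/
noncomputable def Gw {B : Type} [Fintype B] (m : B → ℝ) (Dm : B → Bool) (ν φ : B → ZMod p → ℝ)
    (s : ℝ) (t : Bool) : ℝ :=
  ∑ b, m b * (if Dm b then φ b 0 ^ s else if t then ∑ a, ν b a * ν b a ^ s else 1)

/-- the sum of the deviations for a mixture -/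
theorem ent_core {B : Type} [Fintype B] (μ : ZMod p → ℝ) (h0 : ∀ a, 0 ≤ μ a)
    (hμ : ∑ a, μ a = 1) (m : B → ℝ) (hm0 : ∀ b, 0 ≤ m b) (Dm : B → Bool)
    (lam ν φ Φ : B → ZMod p → ℝ) (hmix : ∀ a, μ a = ∑ b, m b * lam b a)
    (hl0 : ∀ b a, 0 ≤ lam b a) (hl1 : ∀ b, ∑ a, lam b a = 1)
    (hν0 : ∀ b a, 0 ≤ ν b a) (hν1 : ∀ b, ∑ a, ν b a = 1)
    (hφ0 : ∀ b a, 0 ≤ φ b a) (hφ1 : ∀ b, ∑ a, φ b a = 1)
    (hφΦ : ∀ b c, muhat (φ b) c = (Φ b c : ℂ)) (hΦ0 : ∀ b c, 0 ≤ Φ b c) (hΦ1 : ∀ b c, Φ b c ≤ 1)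
    (η η' : ℝ) (hη0 : 0 ≤ η) (hη1 : η ≤ 1) (hη0' : 0 ≤ η') (hηη : η' ≤ η)
    (hlam : ∀ b, Dm b = false → ∀ a, lam b a = η * μ a + (1 - η) * ν b a)
    (c0 : ℝ) (hc0 : 0 ≤ c0) (hc1 : c0 ≤ 1)
    (hD : ∀ b, Dm b = true → ∀ c, ‖muhat (lam b) c‖ ≤ (if c = 0 then 1 else c0) * Φ b c)
    (hS1 : 1 - η ≤ c0 * (1 - η')) (hS2 : ∀ c, c ≠ 0 → η * ‖muhat μ c‖ ≤ c0 * η')
    (s : ℝ) (hs : 0 ≤ s) (θ : ℝ) (hθ : 0 < θ) (n m' R k w0 : ℕ) (hR : n < (m' + 1) * R)
    (P P' : Fin (n + 1) → Bool) (hP : ∀ i, P' i = !(P i)) (H : Finset (ZMod p)[X])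
    (hH : ∀ h ∈ H, h.Monic ∧ h.natDegree = k ∧ Fac (fun d => m' < d) h) :
    ∑ h ∈ H, |Pr μ n (fun f => h ∣ f ∧ f ≠ 0) - ((p : ℝ) ^ k)⁻¹| ≤
      ((p : ℝ) ^ k)⁻¹ * (lowS n k w0 H : ℝ) +
      c0 ^ w0 * (2 ^ R + (H.card : ℝ) * (θ * (1 + η * p) ^ (n + 1))) +
      (H.card : ℝ) * (θ * (1 + η * p) ^ (n + 1)) +
      (2 ^ R + 1) * (θ ^ (-s) * ∏ i, Gw m Dm ν φ s (P i) +
        θ ^ (-s) * ∏ i, Gw m Dm ν φ s (P' i)) := by
  classical
  have hp0 : (0 : ℝ) < p := by exact_mod_cast hp.out.pos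
  have hm1 : ∑ b, m b = 1 := by
    have h1 : ∀ b, ∑ a, m b * lam b a = m b := fun b => by rw [← Finset.mul_sum, hl1 b, mul_one]
    rw [← hμ, Finset.sum_congr rfl (fun a _ => hmix a), Finset.sum_comm]
    exact Finset.sum_congr rfl fun b _ => (h1 b).symm
  obtain ⟨A, hA⟩ : ∃ A : ℝ, A = ((p : ℝ) ^ k)⁻¹ * (lowS n k w0 H : ℝ) +
      c0 ^ w0 * (2 ^ R + (H.card : ℝ) * (θ * (1 + η * p) ^ (n + 1))) +
      (H.card : ℝ) * (θ * (1 + η * p) ^ (n + 1)) := ⟨_, rfl⟩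
  obtain ⟨G, hG⟩ : ∃ G : B → Bool → ℝ, G = fun b t => if Dm b then φ b 0 ^ s else
    if t then ∑ a, ν b a * ν b a ^ s else 1 := ⟨_, rfl⟩
  have hone : ∀ ω : Fin (n + 1) → B,
      ∑ h ∈ H, |Prg n (fun i => lam (ω i)) (fun f => h ∣ f ∧ f ≠ 0) - ((p : ℝ) ^ k)⁻¹| ≤
      A + (2 ^ R + 1) * (θ ^ (-s) * ∏ i, G (ω i) (P i) + θ ^ (-s) * ∏ i, G (ω i) (P' i)) := by
    intro ω
    obtain ⟨u, hu⟩ : ∃ u : Fin (n + 1) → ZMod p → ℝ,
        u = fun i a => if Dm (ω i) then lam (ω i) a else μ a := ⟨_, rfl⟩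
    have hu0 : ∀ i a, 0 ≤ u i a := by
      intro i a
      rw [hu]
      simp only
      split_ifs
      · exact hl0 _ _
      · exact h0 a
    have hu1 : ∀ i, ∑ a, u i a = 1 := by
      intro i
      rw [hu]
      by_cases h : Dm (ω i) = true
      · simp only [h, if_true]
        exact hl1 _
      · simp only [h]
        exact hμ
    have huD : ∀ i, Dm (ω i) = true → u i = lam (ω i) := by
      intro i h
      rw [hu]
      funext a
      simp only [h, if_true]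
    have huS : ∀ i, Dm (ω i) = false → u i = μ := by
      intro i h
      rw [hu]
      funext a
      simp [h]
    have hLw : Lw η (fun i => Dm (ω i)) u (fun i => ν (ω i)) = fun i => lam (ω i) := by
      funext i a
      unfold Lw
      by_cases h : Dm (ω i) = true
      · simp only [h, if_true]
        rw [huD i h]
      · have h' : Dm (ω i) = false := by simpa using h
        simp only [h']
        rw [huS i h', hlam _ h' a]
        rfl
    have h1 := env_le n m' R k w0 hR θ hθ.le η η' hη0 hη1 hη0' hηη P P' (fun i => Dm (ω i)) hP u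
      (fun i => ν (ω i)) (fun i => φ (ω i)) (fun i => Φ (ω i)) hu0 hu1 (fun i => hν0 _)
      (fun i => hν1 _) (fun i => hφ0 _) (fun i => hφ1 _) (fun i => hφΦ _) (fun i => hΦ0 _)
      (fun i => hΦ1 _) (by
        intro i h
        rw [huD i h]
        have h2 := g_zero_leg (lam (ω i)) (φ (ω i)) (Φ (ω i)) (hl0 _) (hφΦ _) (fun c => by
          rw [hl1, one_mul]
          refine (hD _ h c).trans ?_
          have h3 : (if c = 0 then 1 else c0) ≤ 1 := by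
            split_ifs
            · exact le_rfl
            · exact hc1
          have h4 := mul_le_mul_of_nonneg_right h3 (hΦ0 (ω i) c)
          linarith)
        rw [hl1, one_mul] at h2
        exact h2) c0 hc0 hc1 (by
        intro i c
        have h2 := norm_muhat_le' (u i) (hu0 i) c
        rw [hu1 i] at h2
        exact h2) (by
        intro i h c
        rw [huD i h]
        exact hD _ h c) hS1 (by
        intro i h c hc
        rw [huS i h]
        exact hS2 c hc) H hH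
    rw [hLw] at h1
    rw [hA]
    have b1 := bd_pow θ s hθ hs P (fun i => Dm (ω i)) (fun i => ν (ω i))
      (fun i => φ (ω i)) (fun i => hν0 _) (fun i => hν1 _) (fun i => hφ0 _)
    have b2 := bd_pow θ s hθ hs P' (fun i => Dm (ω i)) (fun i => ν (ω i))
      (fun i => φ (ω i)) (fun i => hν0 _) (fun i => hν1 _) (fun i => hφ0 _)
    have hR0 : (0 : ℝ) ≤ 2 ^ R + 1 := by positivity
    have b3 := mul_le_mul_of_nonneg_left (add_le_add b1 b2) hR0
    rw [hG]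
    exact h1.trans (by linarith)
  have hsplit : ∀ h : (ZMod p)[X], Pr μ n (fun f => h ∣ f ∧ f ≠ 0) - ((p : ℝ) ^ k)⁻¹ =
      ∑ ω : Fin (n + 1) → B, (∏ i, m (ω i)) *
        (Prg n (fun i => lam (ω i)) (fun f => h ∣ f ∧ f ≠ 0) - ((p : ℝ) ^ k)⁻¹) := by
    intro h
    rw [Pr_mix μ (fun b a => m b * lam b a) hmix]
    have h2 : ∀ ω : Fin (n + 1) → B, Prg n (fun i => (fun b a => m b * lam b a) (ω i))
        (fun f => h ∣ f ∧ f ≠ 0) = (∏ i, m (ω i)) *
        Prg n (fun i => lam (ω i)) (fun f => h ∣ f ∧ f ≠ 0) := fun ω =>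
      Prg_smul n (fun i => m (ω i)) (fun i => lam (ω i)) _
    rw [Finset.sum_congr rfl (fun ω _ => h2 ω)]
    simp_rw [mul_sub]
    rw [Finset.sum_sub_distrib, ← Finset.sum_mul, sum_prod_pi (fun (_ : Fin (n + 1)) b => m b)]
    simp [hm1]
  have hM0 : ∀ ω : Fin (n + 1) → B, 0 ≤ ∏ i, m (ω i) :=
    fun ω => Finset.prod_nonneg fun i _ => hm0 _
  have hGsum : ∀ Q : Fin (n + 1) → Bool, ∑ ω : Fin (n + 1) → B, (∏ i, m (ω i)) *
      ∏ i, G (ω i) (Q i) = ∏ i, Gw m Dm ν φ s (Q i) := by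
    intro Q
    have h1 : ∀ ω : Fin (n + 1) → B, (∏ i, m (ω i)) * ∏ i, G (ω i) (Q i) =
        ∏ i, m (ω i) * G (ω i) (Q i) := fun ω => by rw [Finset.prod_mul_distrib]
    rw [Finset.sum_congr rfl (fun ω _ => h1 ω),
      sum_prod_pi (fun (i : Fin (n + 1)) b => m b * G b (Q i))]
    apply Finset.prod_congr rfl
    intro i _
    unfold Gw
    rw [hG]
  calc ∑ h ∈ H, |Pr μ n (fun f => h ∣ f ∧ f ≠ 0) - ((p : ℝ) ^ k)⁻¹|
      ≤ ∑ h ∈ H, ∑ ω : Fin (n + 1) → B, (∏ i, m (ω i)) *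
        |Prg n (fun i => lam (ω i)) (fun f => h ∣ f ∧ f ≠ 0) - ((p : ℝ) ^ k)⁻¹| := by
        apply Finset.sum_le_sum
        intro h _
        rw [hsplit]
        refine (Finset.abs_sum_le_sum_abs _ _).trans (le_of_eq ?_)
        apply Finset.sum_congr rfl
        intro ω _
        rw [abs_mul, abs_of_nonneg (hM0 ω)]
    _ = ∑ ω : Fin (n + 1) → B, (∏ i, m (ω i)) * ∑ h ∈ H,
        |Prg n (fun i => lam (ω i)) (fun f => h ∣ f ∧ f ≠ 0) - ((p : ℝ) ^ k)⁻¹| := by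
        rw [Finset.sum_comm]
        apply Finset.sum_congr rfl
        intro ω _
        rw [Finset.mul_sum]
    _ ≤ ∑ ω : Fin (n + 1) → B, (∏ i, m (ω i)) * (A + (2 ^ R + 1) *
        (θ ^ (-s) * ∏ i, G (ω i) (P i) + θ ^ (-s) * ∏ i, G (ω i) (P' i))) :=
        Finset.sum_le_sum fun ω _ => mul_le_mul_of_nonneg_left (hone ω) (hM0 ω)
    _ = (∑ ω : Fin (n + 1) → B, ∏ i, m (ω i)) * A + (2 ^ R + 1) *
        (θ ^ (-s) * (∑ ω : Fin (n + 1) → B, (∏ i, m (ω i)) * ∏ i, G (ω i) (P i)) +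
        θ ^ (-s) * (∑ ω : Fin (n + 1) → B, (∏ i, m (ω i)) * ∏ i, G (ω i) (P' i))) := by
        rw [Finset.sum_mul, Finset.mul_sum, Finset.mul_sum, ← Finset.sum_add_distrib,
          Finset.mul_sum, ← Finset.sum_add_distrib]
        apply Finset.sum_congr rfl
        intro ω _
        ring
    _ = _ := by
        rw [hGsum P, hGsum P', sum_prod_pi (fun (_ : Fin (n + 1)) b => m b)]
        simp only [hm1, Finset.prod_const_one, one_mul]
        rw [hA]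

end Pool.Agent.MP0a1886
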