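import Pool.Agent.MP0a1886.Min.Ent10

/-! The level of distribution and the entropy: assembly (MP_0a1886_pr). -/

set_option autoImplicit false
set_option linter.unusedSectionVars false
open Finset Polynomial

namespace Pool.Agent.MP0a1886

variable {p : ℕ} [hp : Fact p.Prime]

/-- the trivial bound -/
lemma level_triv (μ : ZMod p → ℝ) (h0 : ∀ a, 0 ≤ μ a) (hμ : ∑ a, μ a = 1)
    (n m R k : ℕ) (hR : n < (m + 1) * R) (H : Finset (ZMod p)[X])
    (hH : ∀ h ∈ H, h.Monic ∧ h.natDegree = k ∧ Fac (fun d => m < d) h) :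
    ∑ h ∈ H, |Pr μ n (fun f => h ∣ f ∧ f ≠ 0) - ((p : ℝ) ^ k)⁻¹| ≤ 2 ^ R + 1 := by
  have hp0 : (0 : ℝ) < p := by exact_mod_cast hp.out.pos
  have hpk : (0 : ℝ) < (p : ℝ) ^ k := by positivity
  have hHc : (H.card : ℝ) ≤ (p : ℝ) ^ k := by
    have h1 : H ⊆ mon p k := by
      intro h hh
      rw [mem_mon]
      exact ⟨(hH h hh).1, (hH h hh).2.1⟩
    have h2 := Finset.card_le_card h1
    rw [card_mon] at h2
    exact_mod_cast h2
  have hPr : ∀ h : (ZMod p)[X], Pr μ n (fun f => h ∣ f ∧ f ≠ 0) =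
      Prg n (fun _ => μ) (fun f => h ∣ f ∧ f ≠ 0) := by
    intro h
    rw [Pr_mix μ (fun _ : Unit => μ) (by intro a; simp)]
    simp
  have h1 : ∀ h ∈ H, |Pr μ n (fun f => h ∣ f ∧ f ≠ 0) - ((p : ℝ) ^ k)⁻¹| ≤
      Prg n (fun _ => μ) (fun f => h ∣ f ∧ f ≠ 0) + ((p : ℝ) ^ k)⁻¹ := by
    intro h _
    rw [hPr h]
    have h2 := Prg_nonneg (fun _ : Fin (n + 1) => μ) (fun _ a => h0 a) (fun f => h ∣ f ∧ f ≠ 0)
    have h3 : 0 ≤ ((p : ℝ) ^ k)⁻¹ := inv_nonneg.2 hpk.le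
    rw [abs_le]
    constructor <;> linarith
  refine (Finset.sum_le_sum h1).trans ?_
  rw [Finset.sum_add_distrib, Finset.sum_const, nsmul_eq_mul]
  have h4 := sum_dvd_le n m R hR (fun _ : Fin (n + 1) => μ) (fun _ a => h0 a) H
    (fun h hh => ⟨(hH h hh).1, (hH h hh).2.2⟩)
  have h6 : ∏ _i : Fin (n + 1), ∑ a, μ a = 1 := by simp [hμ]
  rw [h6, one_mul] at h4
  have h5 : (H.card : ℝ) * ((p : ℝ) ^ k)⁻¹ ≤ 1 := by
    calc (H.card : ℝ) * ((p : ℝ) ^ k)⁻¹ ≤ (p : ℝ) ^ k * ((p : ℝ) ^ k)⁻¹ :=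
          mul_le_mul_of_nonneg_right hHc (inv_nonneg.2 hpk.le)
      _ = 1 := mul_inv_cancel₀ hpk.ne'
  linarith

/-- the product over a set of places -/
lemma prod_half (N N1 : ℕ) (g : Bool → ℝ) (h0 : ∀ t, 0 ≤ g t)
    (h1 : ∀ t, g t ≤ 1) (Q : Fin N → Bool)
    (hQ1 : N1 ≤ (Finset.univ.filter (fun i => Q i = true)).card)
    (hQ2 : N1 ≤ (Finset.univ.filter (fun i => ¬ Q i = true)).card) :
    ∏ i, g (Q i) ≤ (g true * g false) ^ N1 := by
  rw [← Finset.prod_filter_mul_prod_filter_not Finset.univ (fun i => Q i = true)]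
  have e1 : ∏ i ∈ Finset.univ.filter (fun i => Q i = true), g (Q i) =
      g true ^ (Finset.univ.filter (fun i => Q i = true)).card := by
    rw [Finset.prod_congr rfl (g := fun _ => g true), Finset.prod_const]
    intro i hi
    rw [(Finset.mem_filter.1 hi).2]
  have e2 : ∏ i ∈ Finset.univ.filter (fun i => ¬ Q i = true), g (Q i) =
      g false ^ (Finset.univ.filter (fun i => ¬ Q i = true)).card := by
    rw [Finset.prod_congr rfl (g := fun _ => g false), Finset.prod_const]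
    intro i hi
    have h2 := (Finset.mem_filter.1 hi).2
    have h3 : Q i = false := by simpa using h2
    rw [h3]
  rw [e1, e2, mul_pow]
  exact mul_le_mul (pow_le_pow_of_le_one (h0 _) (h1 _) hQ1)
    (pow_le_pow_of_le_one (h0 _) (h1 _) hQ2) (pow_nonneg (h0 _) _) (pow_nonneg (h0 _) _)

lemma Gw_nonneg {B : Type} [Fintype B] (m : B → ℝ) (hm0 : ∀ b, 0 ≤ m b) (Dm : B → Bool)
    (ν φ : B → ZMod p → ℝ) (hν0 : ∀ b a, 0 ≤ ν b a) (hφ0 : ∀ b a, 0 ≤ φ b a)
    (s : ℝ) (t : Bool) : 0 ≤ Gw m Dm ν φ s t := by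
  unfold Gw
  apply Finset.sum_nonneg
  intro b _
  apply mul_nonneg (hm0 b)
  split_ifs
  · exact Real.rpow_nonneg (hφ0 b 0) s
  · exact Finset.sum_nonneg fun a _ => mul_nonneg (hν0 b a) (Real.rpow_nonneg (hν0 b a) s)
  · exact zero_le_one

lemma Gw_le_one {B : Type} [Fintype B] (m : B → ℝ) (hm0 : ∀ b, 0 ≤ m b) (hm1 : ∑ b, m b = 1)
    (Dm : B → Bool)
    (ν φ : B → ZMod p → ℝ) (hν0 : ∀ b a, 0 ≤ ν b a) (hν1 : ∀ b, ∑ a, ν b a = 1)
    (hφ0 : ∀ b a, 0 ≤ φ b a) (hφ1 : ∀ b, ∑ a, φ b a = 1)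
    (s : ℝ) (hs : 0 ≤ s) (t : Bool) : Gw m Dm ν φ s t ≤ 1 := by
  unfold Gw
  refine le_trans (b := ∑ b, m b) ?_ hm1.le
  apply Finset.sum_le_sum
  intro b _
  apply mul_le_of_le_one_right (hm0 b)
  split_ifs
  · apply Real.rpow_le_one (hφ0 b 0) _ hs
    rw [← hφ1 b]
    exact Finset.single_le_sum (f := fun a => φ b a) (fun a _ => hφ0 b a) (Finset.mem_univ 0)
  · refine le_trans (Finset.sum_le_sum fun a _ => ?_) (hν1 b).le
    apply mul_le_of_le_one_right (hν0 b a)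
    apply Real.rpow_le_one (hν0 b a) _ hs
    rw [← hν1 b]
    exact Finset.single_le_sum (f := fun a => ν b a) (fun a _ => hν0 b a) (Finset.mem_univ a)
  · exact le_rfl

/-- the number of places on the left -/
lemma card_left (N N1 : ℕ) (hN : N1 ≤ N) :
    (Finset.univ.filter (fun i : Fin N => decide ((i : ℕ) < N1) = true)).card = N1 := by
  have h1 : (Finset.univ.filter (fun i : Fin N => decide ((i : ℕ) < N1) = true)) =
      (Finset.univ : Finset (Fin N1)).map (Fin.castLEEmb hN) := by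
    ext i
    simp only [Finset.mem_filter, Finset.mem_univ, true_and, decide_eq_true_eq, Finset.mem_map]
    constructor
    · intro h
      exact ⟨⟨i, h⟩, by ext; simp⟩
    · rintro ⟨j, rfl⟩
      simp
  rw [h1, Finset.card_map, Finset.card_univ, Fintype.card_fin]

/-- the number of places on the right -/
lemma card_right (N N1 : ℕ) (hN : N1 ≤ N) :
    (Finset.univ.filter (fun i : Fin N => ¬ decide ((i : ℕ) < N1) = true)).card = N - N1 := by
  have h1 := Finset.card_filter_add_card_filter_not (s := (Finset.univ : Finset (Fin N)))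
    (fun i : Fin N => decide ((i : ℕ) < N1) = true)
  rw [card_left N N1 hN, Finset.card_univ, Fintype.card_fin] at h1
  omega

end Pool.Agent.MP0a1886
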