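import Pool.Agent.MP0a1886.Min.Ent11

/-! The level of distribution and the entropy: assembly (MP_0a1886_pr). -/

set_option autoImplicit false
set_option linter.unusedSectionVars false
open Finset Polynomial

namespace Pool.Agent.MP0a1886

variable {p : ℕ} [hp : Fact p.Prime]

/-- the contribution of the frequencies of small weight -/
lemma low_part (τ0 τ η1 : ℝ) (hτ0 : 0 < τ0) (hτ : τ = τ0 * Real.log p)
    (hlow : ∀ n w0 : ℕ, (w0 : ℝ) ≤ η1 * n →
    ((Finset.univ.filter (fun α : Fin (n + 1) → ZMod p => hw α < w0)).card : ℝ) ≤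
      Real.exp (τ / 4) * Real.exp (τ / 2 * n)) (n k m w0 : ℕ) (hkm : m < k) (hkn : k ≤ n)
    (hw : (w0 : ℝ) ≤ η1 * n) (hmn : τ0 * n ≤ (min m (n - k) : ℕ)) (H : Finset (ZMod p)[X])
    (hH : ∀ h ∈ H, h.Monic ∧ h.natDegree = k ∧ Fac (fun d => m < d) h) :
    ((p : ℝ) ^ k)⁻¹ * (lowS n k w0 H : ℝ) ≤ Real.exp (τ / 4) * Real.exp (-(τ / 2 * n)) := by
  have hp0 : (0 : ℝ) < p := by exact_mod_cast hp.out.pos
  have hp1 : (1 : ℝ) < p := by exact_mod_cast hp.out.one_lt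
  have hlogp : 0 < Real.log p := Real.log_pos hp1
  have hτp : 0 < τ := by rw [hτ]; positivity
  have h0 : (lowS n k w0 H : ℝ) ≤ ((Finset.univ.filter
        (fun α : Fin (n + 1) → ZMod p => Pool.Agent.MP0a1886.hw α < w0)).card : ℝ) *
        (p : ℝ) ^ (k - min m (n - k)) := by
    have h1 := low_count n k m w0 hkn H hH
    unfold lowS
    exact_mod_cast h1
  have h1 := hlow n w0 hw
  have h2 : ((p : ℝ) ^ k)⁻¹ * (p : ℝ) ^ (k - min m (n - k)) = ((p : ℝ) ^ (min m (n - k)))⁻¹ := by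
    have h3 : min m (n - k) ≤ k := (min_le_left _ _).trans hkm.le
    have h4 : (p : ℝ) ^ k = (p : ℝ) ^ (k - min m (n - k)) * (p : ℝ) ^ (min m (n - k)) := by
      rw [← pow_add, Nat.sub_add_cancel h3]
    rw [h4]
    field_simp
  have h5 : ((p : ℝ) ^ (min m (n - k)))⁻¹ ≤ Real.exp (-(τ * n)) := by
    have h7 : ((p : ℝ) ^ (min m (n - k)))⁻¹ =
        Real.exp (-(Real.log p * ((min m (n - k) : ℕ) : ℝ))) := by
      rw [Real.exp_neg, mul_comm, Real.exp_nat_mul, Real.exp_log hp0]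
    rw [h7]
    apply Real.exp_le_exp.2
    rw [hτ]
    have := mul_le_mul_of_nonneg_left hmn hlogp.le
    linarith
  calc _ ≤ ((p : ℝ) ^ k)⁻¹ * (((Finset.univ.filter
        (fun α : Fin (n + 1) → ZMod p => Pool.Agent.MP0a1886.hw α < w0)).card : ℝ) *
        (p : ℝ) ^ (k - min m (n - k))) := mul_le_mul_of_nonneg_left h0 (by positivity)
    _ = (((Finset.univ.filter
      (fun α : Fin (n + 1) → ZMod p => Pool.Agent.MP0a1886.hw α < w0)).card : ℝ)) *
        (((p : ℝ) ^ k)⁻¹ * (p : ℝ) ^ (k - min m (n - k))) := by ring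
    _ ≤ (Real.exp (τ / 4) * Real.exp (τ / 2 * n)) * Real.exp (-(τ * n)) := by
        rw [h2]
        exact mul_le_mul h1 h5 (by positivity) (by positivity)
    _ = Real.exp (τ / 4) * Real.exp (-(τ / 2 * n)) := by
        rw [mul_assoc, ← Real.exp_add]
        congr 2
        ring

/-- the contribution of the atypical vectors -/
lemma aty_part (s y z Λ : ℝ) (hs : 0 < s) (hz : 0 < z) (hΛ0 : 0 ≤ Λ)
    (Θ : ℝ) (hΘ : (p : ℝ) ^ (s * (2 * z)) * Λ ≤ Θ) (hΘ0 : 0 < Θ) (hΘ1 : Θ < 1)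
    (n k N1 : ℕ) (hk : (k : ℝ) ≤ y * n) (hN1 : (n : ℝ) ≤ 2 * N1) :
    ((p : ℝ) ^ (-((k : ℝ) + (z - y) * n))) ^ (-s) * Λ ^ N1 ≤
      Real.exp (-(Real.log (1 / Θ) / 2 * n)) := by
  have hp0 : (0 : ℝ) < p := by exact_mod_cast hp.out.pos
  have hp1 : (1 : ℝ) < p := by exact_mod_cast hp.out.one_lt
  have hn0 : (0 : ℝ) ≤ n := Nat.cast_nonneg n
  have h1 : ((p : ℝ) ^ (-((k : ℝ) + (z - y) * n))) ^ (-s) ≤ ((p : ℝ) ^ (s * (2 * z))) ^ N1 := by
    rw [← Real.rpow_mul hp0.le, ← Real.rpow_natCast, ← Real.rpow_mul hp0.le]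
    apply Real.rpow_le_rpow_of_exponent_le hp1.le
    have h2 : (k : ℝ) + (z - y) * n ≤ z * (2 * N1) := by
      have h3 : z * n ≤ z * (2 * N1) := mul_le_mul_of_nonneg_left hN1 hz.le
      linarith
    have h4 := mul_le_mul_of_nonneg_left h2 hs.le
    linarith
  calc _ ≤ ((p : ℝ) ^ (s * (2 * z))) ^ N1 * Λ ^ N1 :=
        mul_le_mul_of_nonneg_right h1 (pow_nonneg hΛ0 _)
    _ = ((p : ℝ) ^ (s * (2 * z)) * Λ) ^ N1 := by rw [mul_pow]
    _ ≤ Θ ^ N1 := pow_le_pow_left₀ (mul_nonneg (Real.rpow_nonneg hp0.le _) hΛ0) hΘ _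
    _ = Real.exp (-(Real.log (1 / Θ) * N1)) := by
        rw [Real.exp_neg, mul_comm, Real.exp_nat_mul, Real.exp_log (by positivity), one_div,
          inv_pow, inv_inv]
    _ ≤ _ := by
        apply Real.exp_le_exp.2
        have hl : 0 < Real.log (1 / Θ) := by
          apply Real.log_pos
          rw [lt_div_iff₀ hΘ0, one_mul]
          exact hΘ1
        have h5 : Real.log (1 / Θ) / 2 * n ≤ Real.log (1 / Θ) * N1 := by
          have := mul_le_mul_of_nonneg_left hN1 (by positivity : (0 : ℝ) ≤ Real.log (1 / Θ) / 2)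
          linarith
        linarith

/-- a power with exponent close to a multiple of `n` -/
lemma pow_part (c0 η1 : ℝ) (hc0 : 0 < c0) (hc1 : c0 < 1) (n w0 : ℕ)
    (hw2 : η1 * n - 1 ≤ w0) :
    c0 ^ w0 ≤ c0⁻¹ * Real.exp (-(η1 * Real.log (1 / c0) * n)) := by
  have hlc : 0 < Real.log (1 / c0) := by
    apply Real.log_pos
    rw [lt_div_iff₀ hc0, one_mul]
    exact hc1
  have h2 : c0 ^ w0 = Real.exp (-(Real.log (1 / c0) * w0)) := by
    rw [Real.exp_neg, mul_comm, Real.exp_nat_mul, Real.exp_log (by positivity), one_div,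
      inv_pow, inv_inv]
  have h3 : c0⁻¹ = Real.exp (Real.log (1 / c0)) := by
    rw [Real.exp_log (by positivity), one_div]
  rw [h2, h3, ← Real.exp_add]
  apply Real.exp_le_exp.2
  have := mul_le_mul_of_nonneg_left hw2 hlc.le
  linarith

/-- the mass of the zero polynomial -/
lemma mass_part (y z η : ℝ) (hη0 : 0 ≤ η) (hηp : 1 + η * p ≤ (p : ℝ) ^ ((z - y) / 2))
    (n k : ℕ) (Hc : ℝ) (hHc : Hc ≤ (p : ℝ) ^ k) :
    Hc * ((p : ℝ) ^ (-((k : ℝ) + (z - y) * n)) * (1 + η * p) ^ (n + 1)) ≤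
      (p : ℝ) ^ ((z - y) / 2) * Real.exp (-((z - y) / 2 * Real.log p * n)) := by
  have hp0 : (0 : ℝ) < p := by exact_mod_cast hp.out.pos
  have h0 : 0 ≤ (p : ℝ) ^ (-((k : ℝ) + (z - y) * n)) * (1 + η * p) ^ (n + 1) := by positivity
  have h1 : (1 + η * p) ^ (n + 1) ≤ ((p : ℝ) ^ ((z - y) / 2)) ^ (n + 1) :=
    pow_le_pow_left₀ (by positivity) hηp _
  calc _ ≤ (p : ℝ) ^ k * ((p : ℝ) ^ (-((k : ℝ) + (z - y) * n)) * (1 + η * p) ^ (n + 1)) :=
        mul_le_mul_of_nonneg_right hHc h0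
    _ ≤ (p : ℝ) ^ k * ((p : ℝ) ^ (-((k : ℝ) + (z - y) * n)) *
        ((p : ℝ) ^ ((z - y) / 2)) ^ (n + 1)) := by
        apply mul_le_mul_of_nonneg_left _ (by positivity)
        exact mul_le_mul_of_nonneg_left h1 (by positivity)
    _ = _ := by
        rw [← Real.rpow_natCast (p : ℝ) k, ← Real.rpow_natCast ((p : ℝ) ^ ((z - y) / 2)) (n + 1),
          ← Real.rpow_mul hp0.le, ← Real.rpow_add hp0, ← Real.rpow_add hp0,
          Real.rpow_def_of_pos hp0, Real.rpow_def_of_pos hp0, ← Real.exp_add]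
        congr 1
        push_cast
        ring

end Pool.Agent.MP0a1886
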