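import Pool.Agent.MP0a1886.Min.Ent12

/-! The level of distribution and the entropy: assembly (MP_0a1886_pr). -/

set_option autoImplicit false
set_option linter.unusedSectionVars false
open Finset Polynomial

namespace Pool.Agent.MP0a1886

variable {p : ℕ} [hp : Fact p.Prime]

/-- the level of distribution for mixtures -/
theorem level_entg {B : Type} [Fintype B] (μ : ZMod p → ℝ) (h0 : ∀ a, 0 ≤ μ a)
    (hμ : ∑ a, μ a = 1) (m : B → ℝ) (hm0 : ∀ b, 0 ≤ m b) (Dm : B → Bool)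
    (lam ν φ Φ : B → ZMod p → ℝ) (hmix : ∀ a, μ a = ∑ b, m b * lam b a)
    (hl0 : ∀ b a, 0 ≤ lam b a) (hl1 : ∀ b, ∑ a, lam b a = 1)
    (hν0 : ∀ b a, 0 ≤ ν b a) (hν1 : ∀ b, ∑ a, ν b a = 1)
    (hφ0 : ∀ b a, 0 ≤ φ b a) (hφ1 : ∀ b, ∑ a, φ b a = 1)
    (hφΦ : ∀ b c, muhat (φ b) c = (Φ b c : ℂ)) (hΦ0 : ∀ b c, 0 ≤ Φ b c) (hΦ1 : ∀ b c, Φ b c ≤ 1)
    (η η' : ℝ) (hη0 : 0 ≤ η) (hη1 : η ≤ 1) (hη0' : 0 ≤ η') (hηη : η' ≤ η)
    (hlam : ∀ b, Dm b = false → ∀ a, lam b a = η * μ a + (1 - η) * ν b a)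
    (c0 : ℝ) (hc0 : 0 < c0) (hc1 : c0 < 1)
    (hD : ∀ b, Dm b = true → ∀ c, ‖muhat (lam b) c‖ ≤ (if c = 0 then 1 else c0) * Φ b c)
    (hS1 : 1 - η ≤ c0 * (1 - η')) (hS2 : ∀ c, c ≠ 0 → η * ‖muhat μ c‖ ≤ c0 * η')
    (s : ℝ) (hs : 0 < s) (y z : ℝ) (hy0 : 0 < y) (hyz : y < z) (hy1 : y < 1)
    (hηp : 1 + η * p ≤ (p : ℝ) ^ ((z - y) / 2))
    (hΛ : (p : ℝ) ^ (s * (2 * z)) * (Gw m Dm ν φ s true * Gw m Dm ν φ s false) < 1)
    (ε : ℝ) (hε : 0 < ε) :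
    ∃ C c : ℝ, 0 < c ∧ ∀ n m' k : ℕ, 1 ≤ k → ε * n ≤ m' → (k : ℝ) ≤ y * n →
      ∀ H : Finset (ZMod p)[X],
      (∀ h ∈ H, h.Monic ∧ h.natDegree = k ∧ Fac (fun d => m' < d) h) →
      ∑ h ∈ H, |Pr μ n (fun f => h ∣ f ∧ f ≠ 0) - ((p : ℝ) ^ k)⁻¹| ≤ C * Real.exp (-(c * n)) := by
  classical
  have hp0 : (0 : ℝ) < p := by exact_mod_cast hp.out.pos
  have hp1 : (1 : ℝ) < p := by exact_mod_cast hp.out.one_lt
  have hlogp : 0 < Real.log p := Real.log_pos hp1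
  have hm1 : ∑ b, m b = 1 := by
    have h1 : ∀ b, ∑ a, m b * lam b a = m b := fun b => by rw [← Finset.mul_sum, hl1 b, mul_one]
    rw [← hμ, Finset.sum_congr rfl (fun a _ => hmix a), Finset.sum_comm]
    exact Finset.sum_congr rfl fun b _ => (h1 b).symm
  obtain ⟨τ0, hτ0⟩ : ∃ τ0, τ0 = min ε (1 - y) := ⟨_, rfl⟩
  have hτ00 : 0 < τ0 := by rw [hτ0]; exact lt_min hε (by linarith)
  have hτ0a : τ0 ≤ ε := by rw [hτ0]; exact min_le_left _ _
  have hτ0b : τ0 ≤ 1 - y := by rw [hτ0]; exact min_le_right _ _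
  obtain ⟨τ, hτ⟩ : ∃ τ, τ = τ0 * Real.log p := ⟨_, rfl⟩
  have hτp : 0 < τ := by rw [hτ]; positivity
  obtain ⟨η1, hη1', hlow⟩ := low_exp (p := p) τ hτp
  obtain ⟨R, hRd⟩ : ∃ R : ℕ, R = ⌈1 / ε⌉₊ := ⟨_, rfl⟩
  have hRr : 1 / ε ≤ R := by rw [hRd]; exact Nat.le_ceil _
  obtain ⟨g, hg⟩ : ∃ g : Bool → ℝ, g = Gw m Dm ν φ s := ⟨_, rfl⟩
  rw [← hg] at hΛ
  have hg0 : ∀ t, 0 ≤ g t := by
    intro t
    rw [hg]
    exact Gw_nonneg m hm0 Dm ν φ hν0 hφ0 s t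
  have hg1 : ∀ t, g t ≤ 1 := by
    intro t
    rw [hg]
    exact Gw_le_one m hm0 hm1 Dm ν φ hν0 hν1 hφ0 hφ1 s hs.le t
  obtain ⟨Λ, hΛd⟩ : ∃ Λ, Λ = g true * g false := ⟨_, rfl⟩
  have hΛ0 : 0 ≤ Λ := by rw [hΛd]; exact mul_nonneg (hg0 _) (hg0 _)
  rw [← hΛd] at hΛ
  obtain ⟨Θ, hΘ⟩ : ∃ Θ, Θ = max ((p : ℝ) ^ (s * (2 * z)) * Λ) (1 / 2) := ⟨_, rfl⟩
  have hΘa : (p : ℝ) ^ (s * (2 * z)) * Λ ≤ Θ := by rw [hΘ]; exact le_max_left _ _
  have hΘ0 : 0 < Θ := by rw [hΘ]; exact lt_of_lt_of_le (by norm_num) (le_max_right _ _)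
  have hΘ1 : Θ < 1 := by
    rw [hΘ, max_lt_iff]
    exact ⟨hΛ, by norm_num⟩
  have hlΘ : 0 < Real.log (1 / Θ) := by
    apply Real.log_pos
    rw [lt_div_iff₀ hΘ0, one_mul]
    exact hΘ1
  have hlc : 0 < Real.log (1 / c0) := by
    apply Real.log_pos
    rw [lt_div_iff₀ hc0, one_mul]
    exact hc1
  obtain ⟨c, hc⟩ : ∃ c, c = min (min (τ / 2) (η1 * Real.log (1 / c0)))
    (min ((z - y) / 2 * Real.log p) (Real.log (1 / Θ) / 2)) := ⟨_, rfl⟩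
  have hcpos : 0 < c := by
    rw [hc]
    refine lt_min (lt_min (by positivity) (by positivity)) (lt_min ?_ (by positivity))
    exact mul_pos (by linarith) hlogp
  have hca : c ≤ τ / 2 := by
    rw [hc]; exact (min_le_left _ _).trans (min_le_left _ _)
  have hcb : c ≤ η1 * Real.log (1 / c0) := by
    rw [hc]; exact (min_le_left _ _).trans (min_le_right _ _)
  have hcc : c ≤ (z - y) / 2 * Real.log p := by
    rw [hc]; exact (min_le_right _ _).trans (min_le_left _ _)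
  have hcd : c ≤ Real.log (1 / Θ) / 2 := by
    rw [hc]; exact (min_le_right _ _).trans (min_le_right _ _)
  obtain ⟨C3, hC3⟩ : ∃ C3 : ℝ, C3 = (p : ℝ) ^ ((z - y) / 2) := ⟨_, rfl⟩
  have hC30 : 0 < C3 := by rw [hC3]; exact Real.rpow_pos_of_pos hp0 _
  refine ⟨Real.exp (τ / 4) + c0⁻¹ * (2 ^ R + C3) + C3 + 2 * (2 ^ R + 1), c, hcpos, ?_⟩
  intro n m' k hk1 hm hk H hH
  have hn00 : (0 : ℝ) ≤ n := Nat.cast_nonneg n
  have hexp : ∀ d : ℝ, c ≤ d → Real.exp (-(d * n)) ≤ Real.exp (-(c * n)) := by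
    intro d hd
    apply Real.exp_le_exp.2
    have := mul_le_mul_of_nonneg_right hd hn00
    linarith
  have hR : n < (m' + 1) * R := by
    have h1 : (n : ℝ) < ((m' : ℝ) + 1) * R := by
      calc (n : ℝ) < (ε * n + 1) * (1 / ε) := by
            have : (ε * n + 1) * (1 / ε) = n + 1 / ε := by field_simp
            rw [this]
            have : 0 < 1 / ε := by positivity
            linarith
        _ ≤ ((m' : ℝ) + 1) * R := by
            apply mul_le_mul _ hRr (by positivity) (by positivity)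
            linarith
    exact_mod_cast h1
  have hRp : (0 : ℝ) < 2 ^ R + 1 := by positivity
  have hE0 : 0 < Real.exp (-(c * n)) := Real.exp_pos _
  rcases H.eq_empty_or_nonempty with hE | ⟨h1, hh1⟩
  · rw [hE, Finset.sum_empty]
    positivity
  -- k > m
  have hkm : m' < k := by
    obtain ⟨a1, a2, a3⟩ := hH h1 hh1
    have h4 : ¬ IsUnit h1 := by
      intro hu
      have h5 := Polynomial.natDegree_eq_zero_of_isUnit hu
      omega
    obtain ⟨Q, hQ, hQd⟩ := WfDvdMonoid.exists_irreducible_factor h4 a1.ne_zero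
    have h5 := a3 Q hQ hQd
    have h6 := Polynomial.natDegree_le_of_dvd hQd a1.ne_zero
    omega
  have hkn : k ≤ n := by
    have h1 : (k : ℝ) ≤ n := by nlinarith
    exact_mod_cast h1
  obtain ⟨N1, hN1⟩ : ∃ N1 : ℕ, N1 = (n + 1) / 2 := ⟨_, rfl⟩
  have hN1a : 2 * N1 ≤ n + 1 := by omega
  have hN1b : n ≤ 2 * N1 := by omega
  have hN1r : (n : ℝ) ≤ 2 * N1 := by exact_mod_cast hN1b
  obtain ⟨w0, hw0⟩ : ∃ w0 : ℕ, w0 = ⌊η1 * n⌋₊ := ⟨_, rfl⟩
  have hw1 : (w0 : ℝ) ≤ η1 * n := by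
    rw [hw0]; exact Nat.floor_le (by positivity)
  have hw2 : η1 * n - 1 ≤ w0 := by
    rw [hw0]
    have := Nat.lt_floor_add_one (η1 * n)
    linarith
  have hmn : τ0 * n ≤ (min m' (n - k) : ℕ) := by
    rw [Nat.cast_min, le_min_iff]
    have t1 : τ0 * n ≤ ε * n := mul_le_mul_of_nonneg_right hτ0a hn00
    have t2 : τ0 * n ≤ (1 - y) * n := mul_le_mul_of_nonneg_right hτ0b hn00
    constructor
    · linarith
    · rw [Nat.cast_sub hkn]
      linarith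
  obtain ⟨θ, hθ⟩ : ∃ θ : ℝ, θ = (p : ℝ) ^ (-((k : ℝ) + (z - y) * n)) := ⟨_, rfl⟩
  have hθ0 : 0 < θ := by rw [hθ]; exact Real.rpow_pos_of_pos hp0 _
  obtain ⟨P, hP⟩ : ∃ P : Fin (n + 1) → Bool, P = fun i : Fin (n + 1) => decide ((i : ℕ) < N1) :=
    ⟨_, rfl⟩
  obtain ⟨P', hP'⟩ : ∃ P' : Fin (n + 1) → Bool, P' = fun i => !(P i) := ⟨_, rfl⟩
  have hcore := ent_core μ h0 hμ m hm0 Dm lam ν φ Φ hmix hl0 hl1 hν0 hν1 hφ0 hφ1 hφΦ hΦ0 hΦ1
    η η' hη0 hη1 hη0' hηη hlam c0 hc0.le hc1.le hD hS1 hS2 s hs.le θ hθ0 n m' R k w0 hR P P'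
    (fun i => by rw [hP']) H hH
  rw [← hg] at hcore
  refine hcore.trans ?_
  -- the frequencies of small weight
  have t1 : ((p : ℝ) ^ k)⁻¹ * (lowS n k w0 H : ℝ) ≤ Real.exp (τ / 4) * Real.exp (-(c * n)) := by
    have h3 := low_part τ0 τ η1 hτ00 hτ hlow n k m' w0 hkm hkn hw1 hmn H hH
    exact h3.trans (mul_le_mul_of_nonneg_left (hexp _ hca) (Real.exp_pos _).le)
  -- the mass
  have hHθ : (H.card : ℝ) * (θ * (1 + η * p) ^ (n + 1)) ≤ C3 * Real.exp (-(c * n)) := by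
    have hHc : (H.card : ℝ) ≤ (p : ℝ) ^ k := by
      have h3 : H ⊆ mon p k := by
        intro h hh
        rw [mem_mon]
        exact ⟨(hH h hh).1, (hH h hh).2.1⟩
      have h4 := Finset.card_le_card h3
      rw [card_mon] at h4
      exact_mod_cast h4
    have h5 := mass_part y z η hη0 hηp n k (H.card : ℝ) hHc
    rw [← hθ, ← hC3] at h5
    exact h5.trans (mul_le_mul_of_nonneg_left (hexp _ hcc) hC30.le)
  have hE1 : Real.exp (-(c * n)) ≤ 1 := by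
    rw [Real.exp_le_one_iff]
    have := mul_nonneg hcpos.le hn00
    linarith
  have hHθ1 : (H.card : ℝ) * (θ * (1 + η * p) ^ (n + 1)) ≤ C3 :=
    hHθ.trans (mul_le_of_le_one_right hC30.le hE1)
  have hHθ0 : 0 ≤ (H.card : ℝ) * (θ * (1 + η * p) ^ (n + 1)) := by positivity
  have t2 : c0 ^ w0 * (2 ^ R + (H.card : ℝ) * (θ * (1 + η * p) ^ (n + 1))) ≤
      (c0⁻¹ * (2 ^ R + C3)) * Real.exp (-(c * n)) := by
    have h3 := pow_part c0 η1 hc0 hc1 n w0 hw2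
    have h4 := hexp _ hcb
    have h5 : c0 ^ w0 ≤ c0⁻¹ * Real.exp (-(c * n)) :=
      h3.trans (mul_le_mul_of_nonneg_left h4 (inv_nonneg.2 hc0.le))
    have h6 : (2 : ℝ) ^ R + (H.card : ℝ) * (θ * (1 + η * p) ^ (n + 1)) ≤ 2 ^ R + C3 := by linarith
    calc c0 ^ w0 * (2 ^ R + (H.card : ℝ) * (θ * (1 + η * p) ^ (n + 1))) ≤
          (c0⁻¹ * Real.exp (-(c * n))) * (2 ^ R + C3) :=
          mul_le_mul h5 h6 (by positivity) (by positivity)
      _ = _ := by ring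
  -- the atypical vectors
  have hat : ∀ Q : Fin (n + 1) → Bool,
      N1 ≤ (Finset.univ.filter (fun i => Q i = true)).card →
      N1 ≤ (Finset.univ.filter (fun i => ¬ Q i = true)).card →
      θ ^ (-s) * ∏ i, g (Q i) ≤ Real.exp (-(c * n)) := by
    intro Q hQ1 hQ2
    have h3 := prod_half (n + 1) N1 g hg0 hg1 Q hQ1 hQ2
    rw [← hΛd] at h3
    have h4 := aty_part s y z Λ hs (hy0.trans hyz) hΛ0 Θ hΘa hΘ0 hΘ1 n k N1 hk hN1r
    rw [← hθ] at h4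
    calc θ ^ (-s) * ∏ i, g (Q i) ≤ θ ^ (-s) * Λ ^ N1 :=
          mul_le_mul_of_nonneg_left h3 (Real.rpow_nonneg hθ0.le _)
      _ ≤ _ := h4
      _ ≤ _ := hexp _ hcd
  have hcl := card_left (n + 1) N1 (by omega)
  have hcr := card_right (n + 1) N1 (by omega)
  have a1 : θ ^ (-s) * ∏ i, g (P i) ≤ Real.exp (-(c * n)) := by
    apply hat
    · rw [hP]
      simp only
      rw [hcl]
    · rw [hP]
      simp only
      rw [hcr]
      omega
  have a2 : θ ^ (-s) * ∏ i, g (P' i) ≤ Real.exp (-(c * n)) := by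
    have e1 : (Finset.univ.filter (fun i : Fin (n + 1) => P' i = true)) =
        Finset.univ.filter (fun i : Fin (n + 1) => ¬ decide ((i : ℕ) < N1) = true) := by
      apply Finset.filter_congr
      intro i _
      rw [hP', hP]
      simp
    have e2 : (Finset.univ.filter (fun i : Fin (n + 1) => ¬ P' i = true)) =
        Finset.univ.filter (fun i : Fin (n + 1) => decide ((i : ℕ) < N1) = true) := by
      apply Finset.filter_congr
      intro i _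
      rw [hP', hP]
      simp
    apply hat
    · rw [e1, hcr]
      omega
    · rw [e2, hcl]
  have t4 : (2 ^ R + 1) * (θ ^ (-s) * ∏ i, g (P i) + θ ^ (-s) * ∏ i, g (P' i)) ≤
      (2 * (2 ^ R + 1)) * Real.exp (-(c * n)) := by
    calc _ ≤ ((2 : ℝ) ^ R + 1) * (Real.exp (-(c * n)) + Real.exp (-(c * n))) :=
          mul_le_mul_of_nonneg_left (add_le_add a1 a2) hRp.le
      _ = _ := by ring
  calc _ ≤ Real.exp (τ / 4) * Real.exp (-(c * n)) +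
        (c0⁻¹ * (2 ^ R + C3)) * Real.exp (-(c * n)) +
        C3 * Real.exp (-(c * n)) + (2 * (2 ^ R + 1)) * Real.exp (-(c * n)) :=
        add_le_add (add_le_add (add_le_add t1 t2) hHθ) t4
    _ = _ := by ring

end Pool.Agent.MP0a1886
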