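import Pool.Agent.MP0a1886.Min.LevMin
import Pool.Agent.MP0a1886.Min.Corr

/-! The level of distribution for laws with a component of small Fourier coefficients
(MP_0a1886_pr). -/

set_option autoImplicit false
set_option linter.unusedSectionVars false
open Finset Polynomial

namespace Pool.Agent.MP0a1886

variable {p : ℕ} [hp : Fact p.Prime]

lemma exists_s3 {y q θ : ℝ} (hy0 : 0 < y) (hθ0 : 0 < θ) (hθ1 : θ ≤ 1) (hyq : y < q * θ)
    (hq1 : q ≤ 1) : ∃ s : ℝ, 0 < s ∧ s ≤ 1 ∧
    (p : ℝ) ^ (s * y) * (q * (p : ℝ) ^ (-(s * θ)) + (1 - q)) < 1 := by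
  have hp2 : (2 : ℝ) ≤ p := by exact_mod_cast hp.out.two_le
  have hp0 : (0 : ℝ) < p := by linarith
  have hlog : (1 / 2 : ℝ) < Real.log p := by
    have h1 : Real.log 2 ≤ Real.log p := Real.log_le_log (by norm_num) hp2
    have h2 := Real.log_two_gt_d9
    linarith
  have hq0 : 0 < q := by
    by_contra h
    push Not at h
    nlinarith
  obtain ⟨u, hu⟩ : ∃ u, u = (q * θ - y) / 2 := ⟨_, rfl⟩
  have hu0 : 0 < u := by rw [hu]; linarith
  have hqθ : q * θ ≤ 1 := by nlinarith
  have hu1 : u ≤ 1 / 2 := by rw [hu]; linarith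
  refine ⟨u / Real.log p, by positivity, ?_, ?_⟩
  · rw [div_le_one (by linarith)]
    linarith
  · have hps : (p : ℝ) ^ (u / Real.log p * y) = Real.exp (u * y) := by
      rw [Real.rpow_def_of_pos hp0]
      congr 1
      field_simp
    have hps2 : (p : ℝ) ^ (-(u / Real.log p * θ)) = Real.exp (-(u * θ)) := by
      rw [Real.rpow_def_of_pos hp0]
      congr 1
      field_simp
    rw [hps, hps2]
    have huθ : 0 < u * θ := by positivity
    have h1 : Real.exp (-(u * θ)) ≤ 1 - (u * θ) / (1 + u * θ) := by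
      have h2 := Real.add_one_le_exp (u * θ)
      have h3 : 1 - (u * θ) / (1 + u * θ) = 1 / (1 + u * θ) := by field_simp; ring
      rw [Real.exp_neg, h3, ← one_div]
      exact one_div_le_one_div_of_le (by linarith) (by linarith)
    have h4 : q * Real.exp (-(u * θ)) + (1 - q) ≤ Real.exp (-(q * ((u * θ) / (1 + u * θ)))) := by
      have h5 := Real.add_one_le_exp (-(q * ((u * θ) / (1 + u * θ))))
      have h6 := mul_le_mul_of_nonneg_left h1 hq0.le
      linarith
    have h0 : 0 < Real.exp (u * y) := Real.exp_pos _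
    calc Real.exp (u * y) * (q * Real.exp (-(u * θ)) + (1 - q))
        ≤ Real.exp (u * y) * Real.exp (-(q * ((u * θ) / (1 + u * θ)))) :=
          mul_le_mul_of_nonneg_left h4 h0.le
      _ = Real.exp (u * (y - q * θ / (1 + u * θ))) := by
          rw [← Real.exp_add]
          congr 1
          field_simp
          ring
      _ < 1 := by
          rw [Real.exp_lt_one_iff]
          apply mul_neg_of_pos_of_neg hu0
          rw [sub_neg, lt_div_iff₀ (by linarith)]
          have hy1 : y < 1 := by linarith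
          have h7 : y * (u * θ) ≤ u := by
            calc y * (u * θ) ≤ 1 * (u * 1) := by
                  apply mul_le_mul hy1.le _ (by positivity) zero_le_one
                  exact mul_le_mul_of_nonneg_left hθ1 hu0.le
              _ = u := by ring
          have h8 : y + u < q * θ := by rw [hu]; linarith
          nlinarith

/-- the level of distribution of a law `μ ≥ q ν` -/
theorem level_gen (μ ν : ZMod p → ℝ) (hμ : ∑ a, μ a = 1) (hν0 : ∀ a, 0 ≤ ν a)
    (hν : ∑ a, ν a = 1) (q : ℝ) (hq0 : 0 < q) (hq : ∀ a, q * ν a ≤ μ a) (ρ : ℝ) (hρ0 : 0 ≤ ρ)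
    (hρ1 : ρ < 1) (hρ : ∀ c : ZMod p, c ≠ 0 → ‖muhat ν c‖ ≤ ρ) (κ : ℝ)
    (hκ : (p : ℝ) ^ κ * (ρ + (1 - ρ) / p) ≤ 1) : Level μ (q * κ) := by
  intro y hy ε hε
  rcases le_or_gt y 0 with hy0 | hy0
  · refine ⟨0, 1, one_pos, ?_⟩
    intro n m k hk1 _ hk
    have h1 : (1 : ℝ) ≤ k := by exact_mod_cast hk1
    have h2 : y * n ≤ 0 := mul_nonpos_of_nonpos_of_nonneg hy0 (Nat.cast_nonneg n)
    linarith
  have hp0 : (0 : ℝ) < p := by exact_mod_cast hp.out.pos
  have hp1 : (1 : ℝ) < p := by exact_mod_cast hp.out.one_lt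
  have hq1 : q ≤ 1 := by
    rw [← hμ, ← mul_one q, ← hν, Finset.mul_sum]
    exact Finset.sum_le_sum fun a _ => hq a
  have hκ0 : 0 < κ := by
    by_contra h
    push Not at h
    nlinarith
  have hA0 : 0 < ρ + (1 - ρ) / p := by
    have : 0 < (1 - ρ) / p := div_pos (by linarith) hp0
    linarith
  have hκ1 : κ ≤ 1 := by
    by_contra h
    push Not at h
    have h1 : (p : ℝ) ^ (1 : ℝ) < (p : ℝ) ^ κ := Real.rpow_lt_rpow_of_exponent_lt hp1 h
    rw [Real.rpow_one] at h1
    have h2 : (p : ℝ) * (ρ + (1 - ρ) / p) = 1 + ρ * (p - 1) := by field_simp; ring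
    have h3 := mul_lt_mul_of_pos_right h1 hA0
    have h4 : 0 ≤ ρ * ((p : ℝ) - 1) := mul_nonneg hρ0 (by linarith)
    linarith
  -- a slightly smaller exponent
  obtain ⟨θ, hθ⟩ : ∃ θ, θ = (y / q + κ) / 2 := ⟨_, rfl⟩
  have hyq : y / q < κ := by
    rw [div_lt_iff₀ hq0]
    linarith
  have hyθ : y / q < θ := by rw [hθ]; linarith
  have hθκ : θ < κ := by rw [hθ]; linarith
  have hθ0 : 0 < θ := lt_trans (by positivity) hyθ
  have hyθ' : y < q * θ := by
    rw [div_lt_iff₀ hq0] at hyθ
    linarith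
  obtain ⟨A, hA⟩ : ∃ A, A = (p : ℝ) ^ θ := ⟨_, rfl⟩
  have hAp : 0 < A := by rw [hA]; positivity
  have hF : A * (ρ + (1 - ρ) / p) < 1 := by
    have h1 : (p : ℝ) ^ θ < (p : ℝ) ^ κ := Real.rpow_lt_rpow_of_exponent_lt hp1 hθκ
    rw [hA]
    exact lt_of_lt_of_le (mul_lt_mul_of_pos_right h1 hA0) hκ
  obtain ⟨F, hFd⟩ : ∃ F, F = A * (ρ + (1 - ρ) / p) := ⟨_, rfl⟩
  rw [← hFd] at hF
  obtain ⟨δ, hδ⟩ : ∃ δ, δ = min ((1 - ρ) / 2) ((1 - F) / A) := ⟨_, rfl⟩
  have hδ0 : 0 < δ := by
    rw [hδ]
    apply lt_min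
    · linarith
    · apply div_pos <;> linarith
  have hδ1 : ρ + δ < 1 := by
    have : δ ≤ (1 - ρ) / 2 := by rw [hδ]; exact min_le_left _ _
    linarith
  have hδ2 : A * δ ≤ 1 - F := by
    have h1 : δ ≤ (1 - F) / A := by rw [hδ]; exact min_le_right _ _
    calc A * δ ≤ A * ((1 - F) / A) := mul_le_mul_of_nonneg_left h1 hAp.le
      _ = 1 - F := by field_simp
  have hr0 : 0 < ρ + δ := by linarith
  have hphi : phi p (ρ + δ) (0 : ZMod p) ≤ (p : ℝ) ^ (-θ) := by
    have h1 : A * phi p (ρ + δ) (0 : ZMod p) ≤ 1 := by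
      unfold phi
      rw [if_pos rfl]
      have h2 : A * ((1 - (ρ + δ)) / p + (ρ + δ)) = F + A * δ * (1 - 1 / p) := by
        rw [hFd]
        field_simp
        ring
      have h3 : A * δ * (1 - 1 / p) ≤ A * δ := by
        have h4 : 0 ≤ A * δ := by positivity
        have h5 : 1 - 1 / (p : ℝ) ≤ 1 := by
          have : 0 < 1 / (p : ℝ) := by positivity
          linarith
        nlinarith
      rw [h2]
      linarith
    rw [Real.rpow_neg hp0.le, ← hA, ← one_div, le_div_iff₀ hAp]
    linarith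
  -- a slightly smaller weight
  obtain ⟨r, hr⟩ : ∃ r, r = (y / θ + q) / 2 := ⟨_, rfl⟩
  have hyθq : y / θ < q := by
    rw [div_lt_iff₀ hθ0]
    linarith
  have hrq : r < q := by rw [hr]; linarith
  have hyr : y < r * θ := by
    have h1 : y / θ < r := by rw [hr]; linarith
    rw [div_lt_iff₀ hθ0] at h1
    linarith
  have hr00 : 0 < r := by
    have : 0 < y / θ := by positivity
    rw [hr]
    linarith
  have hr1 : r < 1 := by linarith
  obtain ⟨s, hs0, hs1, hs⟩ := exists_s3 (p := p) hy0 hθ0 (by linarith) hyr hr1.le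
  obtain ⟨c0, hc0⟩ : ∃ c0, c0 = max (ρ / (ρ + δ)) (((1 - q) + (q - r) * ρ) / (1 - r)) :=
    ⟨_, rfl⟩
  have hc0a : ρ / (ρ + δ) ≤ c0 := by rw [hc0]; exact le_max_left _ _
  have hc0b : ((1 - q) + (q - r) * ρ) / (1 - r) ≤ c0 := by rw [hc0]; exact le_max_right _ _
  have hc0l : c0 < 1 := by
    rw [hc0, max_lt_iff, div_lt_one hr0, div_lt_one (by linarith)]
    constructor
    · linarith
    · nlinarith
  obtain ⟨c1, hc1⟩ : ∃ c1, c1 = (c0 + 1) / 2 := ⟨_, rfl⟩
  have hc0n : 0 ≤ c0 := le_trans (by positivity) hc0a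
  have hc10 : 0 < c1 := by rw [hc1]; linarith
  have hc11 : c1 < 1 := by rw [hc1]; linarith
  have hc01 : c0 ≤ c1 := by rw [hc1]; linarith
  rw [div_le_iff₀ hr0] at hc0a
  rw [div_le_iff₀ (by linarith)] at hc0b
  obtain ⟨g, hg⟩ : ∃ g : Bool → ZMod p → ℝ, g = fun b a => if b then r * ν a else μ a - r * ν a :=
    ⟨_, rfl⟩
  have hgt : g true = fun a => r * ν a := by rw [hg]; rfl
  have hgf : g false = fun a => μ a - r * ν a := by rw [hg]; rfl
  have hmt : ∑ a, g true a = r := by
    rw [hgt, ← Finset.mul_sum, hν, mul_one]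
  have hmf : ∑ a, g false a = 1 - r := by
    rw [hgf]
    rw [Finset.sum_sub_distrib, hμ, ← Finset.mul_sum, hν, mul_one]
  have hrν : ∀ a, r * ν a ≤ q * ν a := fun a => mul_le_mul_of_nonneg_right hrq.le (hν0 a)
  have hmul : ∀ (x : ℝ) (c : ZMod p), muhat (fun a => x * ν a) c = x * muhat ν c := by
    intro x c
    unfold muhat
    rw [Finset.mul_sum]
    apply Finset.sum_congr rfl
    intro a _
    push_cast
    ring
  apply level_mix μ g (by
      intro a
      rw [Fintype.sum_bool, hgt, hgf]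
      ring) (by
      rintro (_ | _) a
      · rw [hgf]
        have h1 := hq a
        have h2 := hrν a
        linarith
      · rw [hgt]
        exact mul_nonneg hr00.le (hν0 a)) hμ (fun b => if b then ρ + δ else 1) (by
      rintro (_ | _)
      · simp
      · simpa using hr0.le) (by
      rintro (_ | _)
      · simp
      · simpa using hδ1.le) c1 hc10 hc11 (by
      rintro (_ | _) c hc
      · rw [hmf]
        have h1 : muhat (g false) c = muhat (fun a => μ a - q * ν a) c +
            ((q - r : ℝ) : ℂ) * muhat ν c := by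
          rw [← hmul, hgf]
          unfold muhat
          rw [← Finset.sum_add_distrib]
          apply Finset.sum_congr rfl
          intro a _
          push_cast
          ring
        have h2 : ‖muhat (fun a => μ a - q * ν a) c‖ ≤ 1 - q := by
          have h3 := norm_muhat_le (fun a => μ a - q * ν a) (fun a => sub_nonneg.2 (hq a)) c
          rw [Finset.sum_sub_distrib, hμ, ← Finset.mul_sum, hν, mul_one] at h3
          exact h3
        have h4 : ‖((q - r : ℝ) : ℂ) * muhat ν c‖ ≤ (q - r) * ρ := by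
          rw [norm_mul, Complex.norm_real, Real.norm_eq_abs, abs_of_pos (by linarith)]
          exact mul_le_mul_of_nonneg_left (hρ c hc) (by linarith)
        have h5 : (if false = true then ρ + δ else (1 : ℝ)) = 1 := by simp
        rw [h1, h5, mul_one]
        refine (norm_add_le _ _).trans ?_
        have h6 : (1 - r) * c0 ≤ (1 - r) * c1 := mul_le_mul_of_nonneg_left hc01 (by linarith)
        linarith
      · rw [hmt, hgt, hmul, norm_mul, Complex.norm_real, Real.norm_eq_abs, abs_of_pos hr00]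
        apply mul_le_mul_of_nonneg_left _ hr00.le
        have h5 : (if true = true then ρ + δ else (1 : ℝ)) = ρ + δ := by simp
        rw [h5]
        have h6 := mul_le_mul_of_nonneg_right hc01 hr0.le
        linarith [hρ c hc]) s hs0.le hs1 y (by nlinarith) _ ε hε
  rw [Fintype.sum_bool, hmt, hmf]
  have e1 : (if true = true then ρ + δ else (1 : ℝ)) = ρ + δ := by simp
  have e2 : (if false = true then ρ + δ else (1 : ℝ)) = 1 := by simp
  rw [e1, e2]
  have h2 : phi p 1 (0 : ZMod p) = 1 := by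
    unfold phi
    rw [if_pos rfl]
    ring
  rw [h2, Real.one_rpow, mul_one]
  refine lt_of_le_of_lt ?_ hs
  apply mul_le_mul_of_nonneg_left _ (by positivity)
  have h3 : phi p (ρ + δ) (0 : ZMod p) ^ s ≤ (p : ℝ) ^ (-(s * θ)) := by
    have h4 : (p : ℝ) ^ (-(s * θ)) = ((p : ℝ) ^ (-θ)) ^ s := by
      rw [← Real.rpow_mul hp0.le]
      congr 1
      ring
    rw [h4]
    exact Real.rpow_le_rpow (phi_nonneg hr0.le hδ1.le 0) hphi hs0.le
  have := mul_le_mul_of_nonneg_left h3 hr00.le
  linarith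

end Pool.Agent.MP0a1886
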