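import Pool.Agent.MP0a1886.Min.LevF
import Pool.Agent.MP0a1886.Min.LevGen

/-! The level of distribution of a convex combination of laws (MP_0a1886_pr). -/

set_option autoImplicit false
set_option linter.unusedSectionVars false
open Finset Polynomial

namespace Pool.Agent.MP0a1886

variable {p : ℕ} [hp : Fact p.Prime]

lemma exists_s6 {B : Type} [Fintype B] (m κ u : B → ℝ) (hm0 : ∀ b, 0 ≤ m b)
    (hm1 : ∑ b, m b = 1) (hu0 : ∀ b, 0 ≤ u b) (hu : ∀ b, u b ≤ (p : ℝ) ^ (-κ b)) {y : ℝ}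
    (hy : y < ∑ b, m b * κ b) : ∃ s : ℝ, 0 < s ∧ s ≤ 1 ∧
    (p : ℝ) ^ (s * y) * (∑ b, m b * u b ^ s) < 1 := by
  have hp2 : (2 : ℝ) ≤ p := by exact_mod_cast hp.out.two_le
  have hp0 : (0 : ℝ) < p := by linarith
  obtain ⟨v, hv⟩ : ∃ v, v = Real.log p := ⟨_, rfl⟩
  have hv0 : 0 < v := by rw [hv]; exact Real.log_pos (by linarith)
  obtain ⟨a, ha⟩ : ∃ a : B → ℝ, a = fun b => κ b * v := ⟨_, rfl⟩
  obtain ⟨V, hV⟩ : ∃ V, V = ∑ b, |a b| + 1 := ⟨_, rfl⟩
  have hVs : 0 ≤ ∑ b, |a b| := Finset.sum_nonneg fun b _ => abs_nonneg _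
  have hV1 : 1 ≤ V := by rw [hV]; linarith
  have hV0 : 0 < V := by linarith
  have haV : ∀ b, |a b| ≤ V := fun b => by
    have h1 := Finset.single_le_sum (f := fun b => |a b|) (fun b _ => abs_nonneg (a b))
      (Finset.mem_univ b)
    rw [hV]
    linarith
  obtain ⟨z, hz⟩ : ∃ z, z = ∑ b, m b * κ b := ⟨_, rfl⟩
  rw [← hz] at hy
  obtain ⟨D, hD⟩ : ∃ D, D = (z - y) * v := ⟨_, rfl⟩
  have hD0 : 0 < D := by rw [hD]; exact mul_pos (by linarith) hv0
  obtain ⟨s, hs⟩ : ∃ s, s = min 1 (min (1 / V) (D / (2 * V ^ 2))) := ⟨_, rfl⟩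
  have hs0 : 0 < s := by
    rw [hs]
    exact lt_min one_pos (lt_min (by positivity) (by positivity))
  have hs1 : s ≤ 1 := by rw [hs]; exact min_le_left _ _
  have hsV : s * V ≤ 1 := by
    have h2 : s ≤ 1 / V := by rw [hs]; exact (min_le_right _ _).trans (min_le_left _ _)
    rw [le_div_iff₀ hV0] at h2
    exact h2
  have hsD : 2 * V ^ 2 * s ≤ D := by
    have h2 : s ≤ D / (2 * V ^ 2) := by
      rw [hs]; exact (min_le_right _ _).trans (min_le_right _ _)
    rw [le_div_iff₀ (by positivity)] at h2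
    linarith
  refine ⟨s, hs0, hs1, ?_⟩
  have e1 : (p : ℝ) ^ (s * y) = Real.exp (s * y * v) := by
    rw [Real.rpow_def_of_pos hp0, ← hv]
    congr 1
    ring
  have h3 : ∀ b, u b ^ s ≤ 1 - s * a b + (s * V) ^ 2 := by
    intro b
    have h4 : u b ^ s ≤ Real.exp (-(s * a b)) := by
      refine (Real.rpow_le_rpow (hu0 b) (hu b) hs0.le).trans (le_of_eq ?_)
      rw [← Real.rpow_mul hp0.le, Real.rpow_def_of_pos hp0, ← hv, ha]
      congr 1
      ring
    have h5 : |-(s * a b)| ≤ s * V := by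
      rw [abs_neg, abs_mul, abs_of_pos hs0]
      exact mul_le_mul_of_nonneg_left (haV b) hs0.le
    have h6 := Real.abs_exp_sub_one_sub_id_le (x := -(s * a b)) (h5.trans hsV)
    have h7 := (abs_le.1 h6).2
    have h8 : (-(s * a b)) ^ 2 ≤ (s * V) ^ 2 := by
      rw [← sq_abs]
      exact pow_le_pow_left₀ (abs_nonneg _) h5 2
    linarith
  obtain ⟨T, hT⟩ : ∃ T, T = -(s * (z * v)) + (s * V) ^ 2 := ⟨_, rfl⟩
  have h4 : ∑ b, m b * u b ^ s ≤ 1 + T := by
    calc ∑ b, m b * u b ^ s ≤ ∑ b, m b * (1 - s * a b + (s * V) ^ 2) :=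
          Finset.sum_le_sum fun b _ => mul_le_mul_of_nonneg_left (h3 b) (hm0 b)
      _ = ∑ b, m b - s * (v * ∑ b, m b * κ b) + (s * V) ^ 2 * ∑ b, m b := by
          rw [Finset.mul_sum, Finset.mul_sum, Finset.mul_sum, ← Finset.sum_sub_distrib,
            ← Finset.sum_add_distrib]
          apply Finset.sum_congr rfl
          intro b _
          rw [ha]
          ring
      _ = 1 + T := by rw [hm1, ← hz, hT]; ring
  have h5 : ∑ b, m b * u b ^ s ≤ Real.exp T := by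
    have h6 := Real.add_one_le_exp T
    linarith
  rw [e1]
  calc Real.exp (s * y * v) * (∑ b, m b * u b ^ s) ≤ Real.exp (s * y * v) * Real.exp T :=
        mul_le_mul_of_nonneg_left h5 (Real.exp_pos _).le
    _ = Real.exp (s * y * v + T) := by rw [← Real.exp_add]
    _ < 1 := by
        rw [Real.exp_lt_one_iff]
        have h7 : s * y * v + T = -(s * D) + (s * V) ^ 2 := by rw [hT, hD]; ring
        have h8 : 2 * (s * V) ^ 2 ≤ s * D := by
          calc 2 * (s * V) ^ 2 = s * (2 * V ^ 2 * s) := by ring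
            _ ≤ s * D := mul_le_mul_of_nonneg_left hsD hs0.le
        have h9 : 0 < s * D := by positivity
        rw [h7]
        linarith

/-- the level of distribution of a convex combination of laws `ν_b`, each one dominated by a law
`φ_b` with real Fourier coefficients -/
theorem level_mixture {B : Type} [Fintype B] (μ : ZMod p → ℝ) (h0 : ∀ a, 0 ≤ μ a)
    (hμ : ∑ a, μ a = 1) (hlt : ∀ a, μ a < 1)
    (m : B → ℝ) (ν φ Φ : B → ZMod p → ℝ) (hm0 : ∀ b, 0 ≤ m b) (hν0 : ∀ b a, 0 ≤ ν b a)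
    (hν : ∀ b, ∑ a, ν b a = 1) (hmix : ∀ a, μ a = ∑ b, m b * ν b a)
    (hφ0 : ∀ b a, 0 ≤ φ b a) (hφ1 : ∀ b, ∑ a, φ b a = 1)
    (hφΦ : ∀ b c, muhat (φ b) c = (Φ b c : ℂ)) (hdom : ∀ b c, ‖muhat (ν b) c‖ ≤ Φ b c)
    (κ : B → ℝ) (hκ : ∀ b, φ b 0 ≤ (p : ℝ) ^ (-κ b)) : Level μ (∑ b, m b * κ b) := by
  classical
  intro y hy ε hε
  have hp0 : (0 : ℝ) < p := by exact_mod_cast hp.out.pos
  have hp1 : (1 : ℝ) < p := by exact_mod_cast hp.out.one_lt
  have hmw : ∀ b, ∑ a, m b * ν b a = m b := fun b => by rw [← Finset.mul_sum, hν b, mul_one]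
  have hm1 : ∑ b, m b = 1 := by
    rw [← hμ, Finset.sum_congr rfl (fun a _ => hmix a), Finset.sum_comm]
    exact Finset.sum_congr rfl fun b _ => (hmw b).symm
  have hΦ0 : ∀ b c, 0 ≤ Φ b c := fun b c => (norm_nonneg _).trans (hdom b c)
  have hΦ1 : ∀ b c, Φ b c ≤ 1 := fun b c => by
    have h1 := norm_muhat_le' (φ b) (hφ0 b) c
    rw [hφ1 b, hφΦ b c, Complex.norm_real, Real.norm_eq_abs] at h1
    exact (le_abs_self _).trans h1
  have hΦz : ∀ b, Φ b 0 = 1 := fun b => by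
    have h1 := muhat_zero (φ b) (hφ1 b)
    rw [hφΦ b 0] at h1
    exact_mod_cast h1
  -- the value at zero is at least `1 / p`
  have hφz : ∀ b, 1 ≤ (p : ℝ) * φ b 0 := fun b => by
    have h3 : ∑ c, Φ b c = (p : ℝ) * φ b 0 := by
      have h4 := sum_muhat (φ b)
      rw [Finset.sum_congr rfl (fun c _ => hφΦ b c)] at h4
      exact_mod_cast h4
    rw [← h3, ← hΦz b]
    exact Finset.single_le_sum (f := fun c => Φ b c) (fun c _ => hΦ0 b c) (Finset.mem_univ 0)
  have hκ1 : ∀ b, κ b ≤ 1 := fun b => by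
    by_contra h
    push Not at h
    have h1 : (p : ℝ) ^ (-κ b) < (p : ℝ) ^ (-1 : ℝ) :=
      Real.rpow_lt_rpow_of_exponent_lt hp1 (by linarith)
    rw [Real.rpow_neg_one] at h1
    have h2 : (p : ℝ) * φ b 0 < (p : ℝ) * (p : ℝ)⁻¹ :=
      mul_lt_mul_of_pos_left (lt_of_le_of_lt (hκ b) h1) hp0
    rw [mul_inv_cancel₀ hp0.ne'] at h2
    linarith [hφz b]
  obtain ⟨K, hK⟩ : ∃ K, K = ∑ b, m b * κ b := ⟨_, rfl⟩
  rw [← hK] at hy
  have hK1 : K ≤ 1 := by
    rw [hK, ← hm1]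
    exact Finset.sum_le_sum fun b _ => mul_le_of_le_one_right (hm0 b) (hκ1 b)
  obtain ⟨d, hd⟩ : ∃ d, d = (K - y) / 2 := ⟨_, rfl⟩
  have hd0 : 0 < d := by rw [hd]; linarith
  -- the largest Fourier coefficient
  obtain ⟨ρ, hρ0, hρ1, hρ⟩ : ∃ ρ : ℝ, 0 ≤ ρ ∧ ρ < 1 ∧ ∀ c : ZMod p, c ≠ 0 → ‖muhat μ c‖ ≤ ρ := by
    obtain ⟨c1, hc1⟩ : ∃ c : ZMod p, c ≠ 0 := ⟨1, one_ne_zero⟩
    have hne : ((Finset.univ : Finset (ZMod p)).erase 0).Nonempty :=
      ⟨c1, Finset.mem_erase.2 ⟨hc1, Finset.mem_univ _⟩⟩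
    obtain ⟨c0, hc0, hmax⟩ := Finset.exists_max_image _ (fun c => ‖muhat μ c‖) hne
    refine ⟨‖muhat μ c0‖, norm_nonneg _, mw_lt_one μ h0 hμ hlt c0 (Finset.mem_erase.1 hc0).1, ?_⟩
    intro c hc
    exact hmax c (Finset.mem_erase.2 ⟨hc, Finset.mem_univ _⟩)
  -- the perturbation
  have hpd : 1 < (p : ℝ) ^ d := Real.one_lt_rpow hp1 hd0
  obtain ⟨η, hη⟩ : ∃ η, η = min (1 / 2) (((p : ℝ) ^ d - 1) / p) := ⟨_, rfl⟩
  have hη0 : 0 < η := by
    rw [hη]
    exact lt_min (by norm_num) (div_pos (by linarith) hp0)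
  have hη1 : η ≤ 1 / 2 := by rw [hη]; exact min_le_left _ _
  have hη2 : η ≤ ((p : ℝ) ^ d - 1) / p := by rw [hη]; exact min_le_right _ _
  obtain ⟨φ', hφ'⟩ : ∃ φ' : B → ZMod p → ℝ,
      φ' = fun b a => (1 - η) * φ b a + η * (if a = 0 then 1 else 0) := ⟨_, rfl⟩
  obtain ⟨Φ', hΦ'⟩ : ∃ Φ' : B → ZMod p → ℝ, Φ' = fun b c => (1 - η) * Φ b c + η := ⟨_, rfl⟩
  obtain ⟨g, hg⟩ : ∃ g : B → ZMod p → ℝ,
      g = fun b a => m b * ((1 - η) * ν b a + η * μ a) := ⟨_, rfl⟩
  have hgsum : ∀ b, ∑ a, g b a = m b := by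
    intro b
    rw [hg]
    simp only
    rw [← Finset.mul_sum, Finset.sum_add_distrib, ← Finset.mul_sum, ← Finset.mul_sum, hν b, hμ]
    ring
  have hu : ∀ b, φ' b 0 ≤ (p : ℝ) ^ (-(κ b - d)) := by
    intro b
    have h1 : (p : ℝ) ^ (-(κ b - d)) = (p : ℝ) ^ (-κ b) * (p : ℝ) ^ d := by
      rw [← Real.rpow_add hp0]
      congr 1
      ring
    have h2 : η * p ≤ (p : ℝ) ^ d - 1 := by
      rw [le_div_iff₀ hp0] at hη2
      exact hη2
    have h3 : (p : ℝ)⁻¹ ≤ (p : ℝ) ^ (-κ b) := by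
      rw [← Real.rpow_neg_one]
      exact Real.rpow_le_rpow_of_exponent_le hp1.le (by linarith [hκ1 b])
    have h4 : η ≤ (p : ℝ) ^ (-κ b) * ((p : ℝ) ^ d - 1) := by
      calc η = (p : ℝ)⁻¹ * (η * p) := by field_simp
        _ ≤ (p : ℝ) ^ (-κ b) * ((p : ℝ) ^ d - 1) :=
            mul_le_mul h3 h2 (by positivity) (by positivity)
    have h5 : φ' b 0 ≤ φ b 0 + η := by
      rw [hφ']
      simp only [if_true, mul_one]
      have := mul_nonneg hη0.le (hφ0 b 0)
      linarith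
    rw [h1]
    have h6 := hκ b
    linarith
  have hysum : y < ∑ b, m b * (κ b - d) := by
    have h1 : ∑ b, m b * (κ b - d) = K - d := by
      rw [hK]
      simp_rw [mul_sub]
      rw [Finset.sum_sub_distrib, ← Finset.sum_mul, hm1, one_mul]
    rw [h1, hd]
    linarith
  have hφ'0 : ∀ b a, 0 ≤ φ' b a := by
    intro b a
    rw [hφ']
    simp only
    have h1 := mul_nonneg (by linarith : (0 : ℝ) ≤ 1 - η) (hφ0 b a)
    split_ifs <;> linarith
  obtain ⟨s, hs0, hs1, hs⟩ := exists_s6 (p := p) m (fun b => κ b - d) (fun b => φ' b 0) hm0 hm1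
    (fun b => hφ'0 b 0) hu hysum
  obtain ⟨c0, hc0⟩ : ∃ c0, c0 = 1 - η * (1 - ρ) := ⟨_, rfl⟩
  have hηρ : 0 < η * (1 - ρ) := mul_pos hη0 (by linarith)
  have hηρ1 : η * (1 - ρ) ≤ 1 / 2 := by nlinarith
  have hc00 : 0 < c0 := by rw [hc0]; linarith
  have hc01 : c0 < 1 := by rw [hc0]; linarith
  apply level_mixg μ g (by
      intro a
      rw [hg]
      simp only
      have h1 : ∀ b, m b * ((1 - η) * ν b a + η * μ a) =
          (1 - η) * (m b * ν b a) + (η * μ a) * m b := fun b => by ring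
      rw [Finset.sum_congr rfl (fun b _ => h1 b), Finset.sum_add_distrib, ← Finset.mul_sum,
        ← Finset.mul_sum, hm1, ← hmix a]
      ring) (by
      intro b a
      rw [hg]
      simp only
      have h1 := mul_nonneg (by linarith : (0 : ℝ) ≤ 1 - η) (hν0 b a)
      have h2 := mul_nonneg hη0.le (h0 a)
      exact mul_nonneg (hm0 b) (by linarith)) hμ φ' Φ' hφ'0 (by
      intro b
      rw [hφ']
      simp only
      rw [Finset.sum_add_distrib, ← Finset.mul_sum, ← Finset.mul_sum, hφ1 b,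
        Finset.sum_ite_eq' Finset.univ (0 : ZMod p), if_pos (Finset.mem_univ _)]
      ring) (by
      intro b c
      have h1 : muhat (φ' b) c = ((1 - η : ℝ) : ℂ) * muhat (φ b) c + (η : ℂ) := by
        unfold muhat
        rw [hφ', Finset.mul_sum]
        have h2 : (η : ℂ) = ∑ a : ZMod p, ((η * (if a = 0 then 1 else 0) : ℝ) : ℂ) *
            (ZMod.stdAddChar (a * c) : ℂ) := by
          rw [Finset.sum_eq_single (0 : ZMod p)]
          · simp
          · intro b _ hb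
            simp [hb]
          · simp
        rw [h2, ← Finset.sum_add_distrib]
        apply Finset.sum_congr rfl
        intro a _
        push_cast
        ring
      rw [h1, hφΦ b c, hΦ']
      push_cast
      ring) (by
      intro b c
      rw [hΦ']
      simp only
      have h1 := mul_nonneg (by linarith : (0 : ℝ) ≤ 1 - η) (hΦ0 b c)
      linarith) (by
      intro b c
      rw [hΦ']
      simp only
      have h1 := mul_le_mul_of_nonneg_left (hΦ1 b c) (by linarith : (0 : ℝ) ≤ 1 - η)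
      linarith) c0 hc00 hc01 (by
      intro b c
      rw [hgsum b]
      have h1 : muhat (g b) c = (m b : ℂ) * (((1 - η : ℝ) : ℂ) * muhat (ν b) c +
          (η : ℂ) * muhat μ c) := by
        unfold muhat
        rw [hg, Finset.mul_sum, Finset.mul_sum, ← Finset.sum_add_distrib, Finset.mul_sum]
        apply Finset.sum_congr rfl
        intro a _
        push_cast
        ring
      rw [h1, norm_mul, Complex.norm_real, Real.norm_eq_abs, abs_of_nonneg (hm0 b)]
      apply mul_le_mul_of_nonneg_left _ (hm0 b)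
      refine (norm_add_le _ _).trans ?_
      rw [norm_mul, norm_mul, Complex.norm_real, Complex.norm_real, Real.norm_eq_abs,
        Real.norm_eq_abs, abs_of_nonneg (by linarith : (0 : ℝ) ≤ 1 - η), abs_of_pos hη0]
      have h2 := mul_le_mul_of_nonneg_left (hdom b c) (by linarith : (0 : ℝ) ≤ 1 - η)
      have h3 : (1 - η) * Φ b c ≤ 1 - η :=
        mul_le_of_le_one_right (by linarith) (hΦ1 b c)
      rw [hΦ']
      simp only
      split_ifs with hc
      · have h4 : ‖muhat μ c‖ ≤ 1 := by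
          have h5 := norm_muhat_le' μ h0 c
          rwa [hμ] at h5
        have h6 := mul_le_mul_of_nonneg_left h4 hη0.le
        linarith
      · have h4 := mul_le_mul_of_nonneg_left (hρ c hc) hη0.le
        have h5 : c0 * ((1 - η) * Φ b c + η) = ((1 - η) * Φ b c + η) -
            (η * (1 - ρ)) * ((1 - η) * Φ b c + η) := by rw [hc0]; ring
        have h6 : (η * (1 - ρ)) * ((1 - η) * Φ b c + η) ≤ (η * (1 - ρ)) * 1 :=
          mul_le_mul_of_nonneg_left (by linarith) hηρ.le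
        rw [h5]
        linarith) s hs0.le hs1 y (by linarith) _ ε hε
  simp only [hgsum]
  exact hs

end Pool.Agent.MP0a1886
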