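import Pool.Agent.MP0a1886.Min.Ent13
import Pool.Agent.MP0a1886.Min.LevMixT

/-! The level of distribution below half the entropy (MP_0a1886_pr). -/

set_option autoImplicit false
set_option linter.unusedSectionVars false
open Finset Polynomial

namespace Pool.Agent.MP0a1886

variable {p : ℕ} [hp : Fact p.Prime]

/-- the entropy in base `p` -/
noncomputable def ent (ν : ZMod p → ℝ) : ℝ := ∑ a, ν a * (-Real.log (ν a) / Real.log p)

lemma ent_le_one (ν : ZMod p → ℝ) (hν0 : ∀ a, 0 ≤ ν a) (hν1 : ∑ a, ν a = 1) : ent ν ≤ 1 := by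
  have hp0 : (0 : ℝ) < p := by exact_mod_cast hp.out.pos
  have hp1 : (1 : ℝ) < p := by exact_mod_cast hp.out.one_lt
  have hlogp : 0 < Real.log p := Real.log_pos hp1
  have h1 : ∀ a, ν a * (-Real.log (ν a) / Real.log p) ≤
      ν a + (1 / p - ν a) / Real.log p := by
    intro a
    rcases (hν0 a).eq_or_lt with h | h
    · rw [← h]
      simp only [zero_mul, zero_add, sub_zero]
      positivity
    · have h2 := Real.log_le_sub_one_of_pos (x := 1 / (p * ν a)) (by positivity)
      have h3 : Real.log (1 / (p * ν a)) = -(Real.log p + Real.log (ν a)) := by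
        rw [one_div, Real.log_inv, Real.log_mul hp0.ne' h.ne']
      rw [h3] at h2
      have h4 : ν a * -Real.log (ν a) ≤ ν a * Real.log p + (1 / p - ν a) := by
        have h5 := mul_le_mul_of_nonneg_left h2 h.le
        have h6 : ν a * (1 / (p * ν a) - 1) = 1 / p - ν a := by field_simp
        rw [h6] at h5
        linarith
      calc ν a * (-Real.log (ν a) / Real.log p) = (ν a * -Real.log (ν a)) / Real.log p := by ring
        _ ≤ (ν a * Real.log p + (1 / p - ν a)) / Real.log p :=
            div_le_div_of_nonneg_right h4 hlogp.le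
        _ = _ := by field_simp
  unfold ent
  refine (Finset.sum_le_sum fun a _ => h1 a).trans (le_of_eq ?_)
  rw [Finset.sum_add_distrib, hν1, ← Finset.sum_div, Finset.sum_sub_distrib, hν1,
    Finset.sum_const, Finset.card_univ, ZMod.card, nsmul_eq_mul]
  have h2 : (p : ℝ) * (1 / p) = 1 := by field_simp
  rw [h2]
  simp

/-- the existence of the exponent -/
lemma exists_s7 {B : Type} [Fintype B] (m : B → ℝ) (hm0 : ∀ b, 0 ≤ m b) (hm1 : ∑ b, m b = 1)
    (Dm : B → Bool) (ν φ : B → ZMod p → ℝ) (hν0 : ∀ b a, 0 ≤ ν b a) (hν1 : ∀ b, ∑ a, ν b a = 1)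
    (hφ0 : ∀ b a, 0 ≤ φ b a) (κ : B → ℝ)
    (hκ : ∀ b, Dm b = true → φ b 0 ≤ (p : ℝ) ^ (-κ b)) (z : ℝ)
    (hz : 2 * z < ∑ b, m b * (if Dm b then 2 * κ b else ent (ν b))) :
    ∃ s : ℝ, 0 < s ∧ s ≤ 1 ∧
    (p : ℝ) ^ (s * (2 * z)) * (Gw m Dm ν φ s true * Gw m Dm ν φ s false) < 1 := by
  have hp0 : (0 : ℝ) < p := by exact_mod_cast hp.out.pos
  have hp1 : (1 : ℝ) < p := by exact_mod_cast hp.out.one_lt
  have hlogp : 0 < Real.log p := Real.log_pos hp1
  obtain ⟨w1, hw1⟩ : ∃ w1 : B × Option (ZMod p) → ℝ, w1 = fun q => match q.2 with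
    | none => if Dm q.1 then m q.1 else 0
    | some a => if Dm q.1 then 0 else m q.1 * ν q.1 a := ⟨_, rfl⟩
  obtain ⟨u1, hu1⟩ : ∃ u1 : B × Option (ZMod p) → ℝ, u1 = fun q => match q.2 with
    | none => if Dm q.1 then φ q.1 0 else 1
    | some a => ν q.1 a := ⟨_, rfl⟩
  obtain ⟨k1, hk1⟩ : ∃ k1 : B × Option (ZMod p) → ℝ, k1 = fun q => match q.2 with
    | none => if Dm q.1 then κ q.1 else 0
    | some a => -Real.log (ν q.1 a) / Real.log p := ⟨_, rfl⟩
  obtain ⟨u2, hu2⟩ : ∃ u2 : B → ℝ, u2 = fun b => if Dm b then φ b 0 else 1 := ⟨_, rfl⟩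
  obtain ⟨k2, hk2⟩ : ∃ k2 : B → ℝ, k2 = fun b => if Dm b then κ b else 0 := ⟨_, rfl⟩
  have hs1 : ∀ f : B × Option (ZMod p) → ℝ, ∑ q, f q =
      ∑ b, (f (b, none) + ∑ a, f (b, some a)) := by
    intro f
    rw [Fintype.sum_prod_type]
    apply Finset.sum_congr rfl
    intro b _
    rw [Fintype.sum_option]
  have hu10 : ∀ q, 0 ≤ u1 q := by
    rintro ⟨b, (_ | a)⟩
    · rw [hu1]
      simp only
      split_ifs
      · exact hφ0 b 0
      · exact zero_le_one
    · rw [hu1]
      exact hν0 b a
  have hu20 : ∀ b, 0 ≤ u2 b := by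
    intro b
    rw [hu2]
    simp only
    split_ifs
    · exact hφ0 b 0
    · exact zero_le_one
  have hw10 : ∀ q, 0 ≤ w1 q := by
    rintro ⟨b, (_ | a)⟩
    · rw [hw1]
      simp only
      split_ifs
      · exact hm0 b
      · exact le_rfl
    · rw [hw1]
      simp only
      split_ifs
      · exact le_rfl
      · exact mul_nonneg (hm0 b) (hν0 b a)
  have hw11 : ∑ q, w1 q = 1 := by
    rw [hs1, ← hm1]
    apply Finset.sum_congr rfl
    intro b _
    rw [hw1]
    simp only
    by_cases h : Dm b = true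
    · simp [h]
    · simp only [h]
      rw [if_neg (by simp)]
      simp only [Bool.false_eq_true, if_false]
      rw [← Finset.mul_sum, hν1 b]
      ring
  have hb1 : ∀ q, u1 q ≤ (p : ℝ) ^ (-k1 q) := by
    rintro ⟨b, (_ | a)⟩
    · rw [hu1, hk1]
      simp only
      split_ifs with h
      · exact hκ b h
      · rw [neg_zero, Real.rpow_zero]
    · rw [hu1, hk1]
      simp only
      rcases (hν0 b a).eq_or_lt with h | h
      · rw [← h]
        exact Real.rpow_nonneg hp0.le _
      · apply le_of_eq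
        rw [Real.rpow_def_of_pos hp0]
        have h2 : Real.log p * -(-Real.log (ν b a) / Real.log p) = Real.log (ν b a) := by
          field_simp
        rw [h2, Real.exp_log h]
  have hb2 : ∀ b, u2 b ≤ (p : ℝ) ^ (-k2 b) := by
    intro b
    rw [hu2, hk2]
    simp only
    split_ifs with h
    · exact hκ b h
    · rw [neg_zero, Real.rpow_zero]
  obtain ⟨s, hs0, hs1', hs⟩ := exists_s6 (p := p) (B := (B × Option (ZMod p)) × B)
    (fun q => w1 q.1 * m q.2) (fun q => k1 q.1 + k2 q.2) (fun q => u1 q.1 * u2 q.2)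
    (fun q => mul_nonneg (hw10 _) (hm0 _))
    (by
      rw [Fintype.sum_prod_type]
      simp only
      simp_rw [← Finset.mul_sum]
      rw [hm1]
      simp only [mul_one]
      exact hw11)
    (fun q => mul_nonneg (hu10 _) (hu20 _))
    (fun q => by
      rw [neg_add, Real.rpow_add hp0]
      exact mul_le_mul (hb1 _) (hb2 _) (hu20 _) (Real.rpow_nonneg hp0.le _))
    (y := 2 * z) (by
      refine lt_of_lt_of_eq hz ?_
      have e1 : ∑ q : (B × Option (ZMod p)) × B, w1 q.1 * m q.2 * (k1 q.1 + k2 q.2) =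
          ∑ q, w1 q * k1 q + ∑ b, m b * k2 b := by
        rw [Fintype.sum_prod_type]
        simp only
        have e2 : ∀ (q : B × Option (ZMod p)), ∑ b, w1 q * m b * (k1 q + k2 b) =
            w1 q * k1 q + w1 q * ∑ b, m b * k2 b := by
          intro q
          have e3 : ∀ b, w1 q * m b * (k1 q + k2 b) = (w1 q * k1 q) * m b +
              w1 q * (m b * k2 b) := fun b => by ring
          rw [Finset.sum_congr rfl (fun b _ => e3 b), Finset.sum_add_distrib, ← Finset.mul_sum,
            ← Finset.mul_sum, hm1, mul_one]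
        rw [Finset.sum_congr rfl (fun q _ => e2 q), Finset.sum_add_distrib, ← Finset.sum_mul,
          hw11, one_mul]
      rw [e1, hs1, ← Finset.sum_add_distrib]
      apply Finset.sum_congr rfl
      intro b _
      rw [hw1, hk1, hk2]
      simp only
      by_cases h : Dm b = true
      · simp only [h, if_true]
        simp only [zero_mul, Finset.sum_const_zero]
        ring
      · simp only [h]
        simp only [Bool.false_eq_true, if_false]
        unfold ent
        rw [Finset.mul_sum]
        simp only [mul_zero, zero_add, add_zero]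
        apply Finset.sum_congr rfl
        intro a _
        ring)
  refine ⟨s, hs0, hs1', ?_⟩
  have e1 : Gw m Dm ν φ s true * Gw m Dm ν φ s false =
      ∑ q : (B × Option (ZMod p)) × B, w1 q.1 * m q.2 * (u1 q.1 * u2 q.2) ^ s := by
    have e2 : ∀ q : (B × Option (ZMod p)) × B, w1 q.1 * m q.2 * (u1 q.1 * u2 q.2) ^ s =
        (w1 q.1 * u1 q.1 ^ s) * (m q.2 * u2 q.2 ^ s) := by
      intro q
      rw [Real.mul_rpow (hu10 _) (hu20 _)]
      ring
    rw [Finset.sum_congr rfl (fun q _ => e2 q), Fintype.sum_prod_type]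
    simp only
    simp_rw [← Finset.mul_sum]
    rw [← Finset.sum_mul]
    congr 1
    · rw [hs1]
      unfold Gw
      apply Finset.sum_congr rfl
      intro b _
      rw [hw1, hu1]
      simp only
      by_cases h : Dm b = true
      · simp [h]
      · simp only [h]
        simp only [Bool.false_eq_true, if_false, if_true]
        rw [Finset.mul_sum, zero_mul, zero_add]
        apply Finset.sum_congr rfl
        intro a _
        ring
    · unfold Gw
      apply Finset.sum_congr rfl
      intro b _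
      rw [hu2]
      simp only
      by_cases h : Dm b = true
      · simp [h]
      · simp [h]
  rw [e1]
  exact hs

end Pool.Agent.MP0a1886
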