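import Pool.Agent.MP0a1886.Min.Ent14

/-! The level of distribution of a convex combination of laws, with the entropies
(MP_0a1886_pr). -/

set_option autoImplicit false
set_option linter.unusedSectionVars false
open Finset Polynomial

namespace Pool.Agent.MP0a1886

variable {p : ℕ} [hp : Fact p.Prime]

/-- the level of distribution of a convex combination of laws `ν_b`: the contribution of a component
is given by a dominating law or by half the entropy -/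
theorem level_ent0 {B : Type} [Fintype B] (μ : ZMod p → ℝ) (h0 : ∀ a, 0 ≤ μ a)
    (hμ : ∑ a, μ a = 1) (hlt : ∀ a, μ a < 1)
    (m : B → ℝ) (Dm : B → Bool) (ν φ Φ : B → ZMod p → ℝ) (hm0 : ∀ b, 0 ≤ m b)
    (hν0 : ∀ b a, 0 ≤ ν b a)
    (hν : ∀ b, ∑ a, ν b a = 1) (hmix : ∀ a, μ a = ∑ b, m b * ν b a)
    (hφ0 : ∀ b a, 0 ≤ φ b a) (hφ1 : ∀ b, ∑ a, φ b a = 1)
    (hφΦ : ∀ b c, muhat (φ b) c = (Φ b c : ℂ)) (hdom : ∀ b c, ‖muhat (ν b) c‖ ≤ Φ b c)
    (κ : B → ℝ) (hκ : ∀ b, Dm b = true → φ b 0 ≤ (p : ℝ) ^ (-κ b))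
    (hκ' : ∀ b, Dm b = false → κ b ≤ ent (ν b) / 2) (y : ℝ) (hy : y < ∑ b, m b * κ b)
    (ε : ℝ) (hε : 0 < ε) :
    ∃ C c : ℝ, 0 < c ∧ ∀ n m k : ℕ, 1 ≤ k → ε * n ≤ m → (k : ℝ) ≤ y * n →
      ∀ H : Finset (ZMod p)[X],
      (∀ h ∈ H, h.Monic ∧ h.natDegree = k ∧ Fac (fun d => m < d) h) →
      ∑ h ∈ H, |Pr μ n (fun f => h ∣ f ∧ f ≠ 0) - ((p : ℝ) ^ k)⁻¹| ≤ C * Real.exp (-(c * n)) := by
  classical
  rcases le_or_gt y 0 with hy0 | hy0
  · refine ⟨0, 1, one_pos, ?_⟩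
    intro n m k hk1 _ hk
    have h1 : (1 : ℝ) ≤ k := by exact_mod_cast hk1
    have h2 : y * n ≤ 0 := mul_nonpos_of_nonpos_of_nonneg hy0 (Nat.cast_nonneg n)
    linarith
  have hp0 : (0 : ℝ) < p := by exact_mod_cast hp.out.pos
  have hp1 : (1 : ℝ) < p := by exact_mod_cast hp.out.one_lt
  have hmw : ∀ b, ∑ a, m b * ν b a = m b := fun b => by rw [← Finset.mul_sum, hν b, mul_one]
  have hm1 : ∑ b, m b = 1 := by
    rw [← hμ, Finset.sum_congr rfl (fun a _ => hmix a), Finset.sum_comm]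
    exact Finset.sum_congr rfl fun b _ => (hmw b).symm
  have hΦ0 : ∀ b c, 0 ≤ Φ b c := fun b c => (norm_nonneg _).trans (hdom b c)
  have hΦ1 : ∀ b c, Φ b c ≤ 1 := fun b c => by
    have h1 := norm_muhat_le' (φ b) (hφ0 b) c
    rw [hφ1 b, hφΦ b c, Complex.norm_real, Real.norm_eq_abs] at h1
    exact (le_abs_self _).trans h1
  have hΦz : ∀ b, Φ b 0 = 1 := fun b => by
    have h1 := muhat_zero (φ b) (hφ1 b)
    rw [hφΦ b 0] at h1
    exact_mod_cast h1
  -- the value at zero is at least `1 / p`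
  have hφz : ∀ b, 1 ≤ (p : ℝ) * φ b 0 := fun b => by
    have h3 : ∑ c, Φ b c = (p : ℝ) * φ b 0 := by
      have h4 := sum_muhat (φ b)
      rw [Finset.sum_congr rfl (fun c _ => hφΦ b c)] at h4
      exact_mod_cast h4
    rw [← h3, ← hΦz b]
    exact Finset.single_le_sum (f := fun c => Φ b c) (fun c _ => hΦ0 b c) (Finset.mem_univ 0)
  have hκ1 : ∀ b, Dm b = true → κ b ≤ 1 := fun b hb => by
    by_contra h
    push Not at h
    have h1 : (p : ℝ) ^ (-κ b) < (p : ℝ) ^ (-1 : ℝ) :=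
      Real.rpow_lt_rpow_of_exponent_lt hp1 (by linarith)
    rw [Real.rpow_neg_one] at h1
    have h2 : (p : ℝ) * φ b 0 < (p : ℝ) * (p : ℝ)⁻¹ :=
      mul_lt_mul_of_pos_left (lt_of_le_of_lt (hκ b hb) h1) hp0
    rw [mul_inv_cancel₀ hp0.ne'] at h2
    linarith [hφz b]
  obtain ⟨K, hK⟩ : ∃ K, K = ∑ b, m b * κ b := ⟨_, rfl⟩
  rw [← hK] at hy
  have hK1 : K ≤ 1 := by
    rw [hK, ← hm1]
    apply Finset.sum_le_sum
    intro b _
    apply mul_le_of_le_one_right (hm0 b)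
    cases hb : Dm b
    · have h2 := hκ' b hb
      have h3 := ent_le_one (ν b) (hν0 b) (hν b)
      linarith
    · exact hκ1 b hb
  have hy1 : y < 1 := by linarith
  obtain ⟨d, hd⟩ : ∃ d, d = (K - y) / 4 := ⟨_, rfl⟩
  have hd0 : 0 < d := by rw [hd]; linarith
  -- the largest Fourier coefficient
  obtain ⟨ρ, hρ0, hρ1, hρ⟩ : ∃ ρ : ℝ, 0 ≤ ρ ∧ ρ < 1 ∧ ∀ c : ZMod p, c ≠ 0 → ‖muhat μ c‖ ≤ ρ := by
    obtain ⟨c1, hc1⟩ : ∃ c : ZMod p, c ≠ 0 := ⟨1, one_ne_zero⟩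
    have hne : ((Finset.univ : Finset (ZMod p)).erase 0).Nonempty :=
      ⟨c1, Finset.mem_erase.2 ⟨hc1, Finset.mem_univ _⟩⟩
    obtain ⟨c0, hc0, hmax⟩ := Finset.exists_max_image _ (fun c => ‖muhat μ c‖) hne
    refine ⟨‖muhat μ c0‖, norm_nonneg _, mw_lt_one μ h0 hμ hlt c0 (Finset.mem_erase.1 hc0).1, ?_⟩
    intro c hc
    exact hmax c (Finset.mem_erase.2 ⟨hc, Finset.mem_univ _⟩)
  -- the perturbation
  have hpd : 1 < (p : ℝ) ^ (d / 2) := Real.one_lt_rpow hp1 (by linarith)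
  obtain ⟨η, hη⟩ : ∃ η, η = min (1 / 2) (((p : ℝ) ^ (d / 2) - 1) / p) := ⟨_, rfl⟩
  have hη0 : 0 < η := by
    rw [hη]
    exact lt_min (by norm_num) (div_pos (by linarith) hp0)
  have hη1 : η ≤ 1 / 2 := by rw [hη]; exact min_le_left _ _
  have hη3 : 1 + η * p ≤ (p : ℝ) ^ (d / 2) := by
    have h1 : η ≤ ((p : ℝ) ^ (d / 2) - 1) / p := by rw [hη]; exact min_le_right _ _
    rw [le_div_iff₀ hp0] at h1
    linarith
  have hη2 : η ≤ ((p : ℝ) ^ d - 1) / p := by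
    have h1 : (p : ℝ) ^ (d / 2) ≤ (p : ℝ) ^ d :=
      Real.rpow_le_rpow_of_exponent_le hp1.le (by linarith)
    rw [le_div_iff₀ hp0]
    linarith
  obtain ⟨φ', hφ'⟩ : ∃ φ' : B → ZMod p → ℝ,
      φ' = fun b a => (1 - η) * φ b a + η * (if a = 0 then 1 else 0) := ⟨_, rfl⟩
  obtain ⟨Φ', hΦ'⟩ : ∃ Φ' : B → ZMod p → ℝ, Φ' = fun b c => (1 - η) * Φ b c + η := ⟨_, rfl⟩
  obtain ⟨lam, hlam⟩ : ∃ lam : B → ZMod p → ℝ,
      lam = fun b a => η * μ a + (1 - η) * ν b a := ⟨_, rfl⟩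
  have hlam1 : ∀ b, ∑ a, lam b a = 1 := by
    intro b
    rw [hlam]
    simp only
    rw [Finset.sum_add_distrib, ← Finset.mul_sum, ← Finset.mul_sum, hν b, hμ]
    ring
  have hlam0 : ∀ b a, 0 ≤ lam b a := by
    intro b a
    rw [hlam]
    simp only
    have h1 := mul_nonneg (by linarith : (0 : ℝ) ≤ 1 - η) (hν0 b a)
    have h2 := mul_nonneg hη0.le (h0 a)
    linarith
  have hmixl : ∀ a, μ a = ∑ b, m b * lam b a := by
    intro a
    rw [hlam]
    simp only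
    have h1 : ∀ b, m b * (η * μ a + (1 - η) * ν b a) =
        (1 - η) * (m b * ν b a) + (η * μ a) * m b := fun b => by ring
    rw [Finset.sum_congr rfl (fun b _ => h1 b), Finset.sum_add_distrib, ← Finset.mul_sum,
      ← Finset.mul_sum, hm1, ← hmix a]
    ring
  have hu : ∀ b, Dm b = true → φ' b 0 ≤ (p : ℝ) ^ (-(κ b - d)) := by
    intro b hb
    have h1 : (p : ℝ) ^ (-(κ b - d)) = (p : ℝ) ^ (-κ b) * (p : ℝ) ^ d := by
      rw [← Real.rpow_add hp0]
      congr 1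
      ring
    have h2 : η * p ≤ (p : ℝ) ^ d - 1 := by
      rw [le_div_iff₀ hp0] at hη2
      exact hη2
    have h3 : (p : ℝ)⁻¹ ≤ (p : ℝ) ^ (-κ b) := by
      rw [← Real.rpow_neg_one]
      exact Real.rpow_le_rpow_of_exponent_le hp1.le (by linarith [hκ1 b hb])
    have h4 : η ≤ (p : ℝ) ^ (-κ b) * ((p : ℝ) ^ d - 1) := by
      calc η = (p : ℝ)⁻¹ * (η * p) := by field_simp
        _ ≤ (p : ℝ) ^ (-κ b) * ((p : ℝ) ^ d - 1) :=
            mul_le_mul h3 h2 (by positivity) (by positivity)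
    have h5 : φ' b 0 ≤ φ b 0 + η := by
      rw [hφ']
      simp only [if_true, mul_one]
      have := mul_nonneg hη0.le (hφ0 b 0)
      linarith
    rw [h1]
    have h6 := hκ b hb
    linarith
  have hφ'0 : ∀ b a, 0 ≤ φ' b a := by
    intro b a
    rw [hφ']
    simp only
    have h1 := mul_nonneg (by linarith : (0 : ℝ) ≤ 1 - η) (hφ0 b a)
    split_ifs <;> linarith
  have hφ'1 : ∀ b, ∑ a, φ' b a = 1 := by
    intro b
    rw [hφ']
    simp only
    rw [Finset.sum_add_distrib, ← Finset.mul_sum, ← Finset.mul_sum, hφ1 b,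
      Finset.sum_ite_eq' Finset.univ (0 : ZMod p), if_pos (Finset.mem_univ _)]
    ring
  have hφΦ' : ∀ b c, muhat (φ' b) c = (Φ' b c : ℂ) := by
    intro b c
    have h1 : muhat (φ' b) c = ((1 - η : ℝ) : ℂ) * muhat (φ b) c + (η : ℂ) := by
      unfold muhat
      rw [hφ', Finset.mul_sum]
      have h2 : (η : ℂ) = ∑ a : ZMod p, ((η * (if a = 0 then 1 else 0) : ℝ) : ℂ) *
          (ZMod.stdAddChar (a * c) : ℂ) := by
        rw [Finset.sum_eq_single (0 : ZMod p)]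
        · simp
        · intro b _ hb
          simp [hb]
        · simp
      rw [h2, ← Finset.sum_add_distrib]
      apply Finset.sum_congr rfl
      intro a _
      push_cast
      ring
    rw [h1, hφΦ b c, hΦ']
    push_cast
    ring
  have hΦ'0 : ∀ b c, 0 ≤ Φ' b c := by
    intro b c
    rw [hΦ']
    simp only
    have h1 := mul_nonneg (by linarith : (0 : ℝ) ≤ 1 - η) (hΦ0 b c)
    linarith
  have hΦ'1 : ∀ b c, Φ' b c ≤ 1 := by
    intro b c
    rw [hΦ']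
    simp only
    have h1 := mul_le_mul_of_nonneg_left (hΦ1 b c) (by linarith : (0 : ℝ) ≤ 1 - η)
    linarith
  obtain ⟨cA, hcA⟩ : ∃ cA, cA = 1 - η * (1 - ρ) := ⟨_, rfl⟩
  have hηρ : 0 < η * (1 - ρ) := mul_pos hη0 (by linarith)
  have hηρ1 : η * (1 - ρ) ≤ 1 / 2 := by nlinarith
  have hcA0 : 0 < cA := by rw [hcA]; linarith
  have hcA1 : cA < 1 := by rw [hcA]; linarith
  obtain ⟨η', hη'⟩ : ∃ η', η' = η * ((1 + ρ) / 2) := ⟨_, rfl⟩
  have hη'0 : 0 ≤ η' := by rw [hη']; positivity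
  have hη'η : η' < η := by
    rw [hη']
    exact mul_lt_of_lt_one_right hη0 (by linarith)
  have hη'1 : 0 < 1 - η' := by linarith
  obtain ⟨c0, hc0⟩ : ∃ c0, c0 = max cA (max (2 * ρ / (1 + ρ)) ((1 - η) / (1 - η'))) := ⟨_, rfl⟩
  have hcAc : cA ≤ c0 := by rw [hc0]; exact le_max_left _ _
  have hcBc : 2 * ρ / (1 + ρ) ≤ c0 := by
    rw [hc0]; exact (le_max_left _ _).trans (le_max_right _ _)
  have hcCc : (1 - η) / (1 - η') ≤ c0 := by
    rw [hc0]; exact (le_max_right _ _).trans (le_max_right _ _)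
  have hc00 : 0 < c0 := lt_of_lt_of_le hcA0 hcAc
  have hc01 : c0 < 1 := by
    rw [hc0, max_lt_iff, max_lt_iff]
    refine ⟨hcA1, ?_, ?_⟩
    · rw [div_lt_one (by linarith)]
      linarith
    · rw [div_lt_one hη'1]
      linarith
  have hS1 : 1 - η ≤ c0 * (1 - η') := by
    rw [div_le_iff₀ hη'1] at hcCc
    exact hcCc
  have hmu1 : ∀ c, ‖muhat μ c‖ ≤ 1 := by
    intro c
    have h5 := norm_muhat_le' μ h0 c
    rwa [hμ] at h5
  have hD : ∀ b, Dm b = true → ∀ c, ‖muhat (lam b) c‖ ≤ (if c = 0 then 1 else c0) * Φ' b c := by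
    intro b _ c
    have h1 : muhat (lam b) c = (η : ℂ) * muhat μ c + ((1 - η : ℝ) : ℂ) * muhat (ν b) c := by
      unfold muhat
      rw [hlam, Finset.mul_sum, Finset.mul_sum, ← Finset.sum_add_distrib]
      apply Finset.sum_congr rfl
      intro a _
      push_cast
      ring
    rw [h1]
    refine (norm_add_le _ _).trans ?_
    rw [norm_mul, norm_mul, Complex.norm_real, Complex.norm_real, Real.norm_eq_abs,
      Real.norm_eq_abs, abs_of_nonneg (by linarith : (0 : ℝ) ≤ 1 - η), abs_of_pos hη0]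
    have h2 := mul_le_mul_of_nonneg_left (hdom b c) (by linarith : (0 : ℝ) ≤ 1 - η)
    have h3 : (1 - η) * Φ b c ≤ 1 - η :=
      mul_le_of_le_one_right (by linarith) (hΦ1 b c)
    rw [hΦ']
    simp only
    split_ifs with hc
    · have h6 := mul_le_mul_of_nonneg_left (hmu1 c) hη0.le
      linarith
    · have h4 := mul_le_mul_of_nonneg_left (hρ c hc) hη0.le
      have h5 : cA * ((1 - η) * Φ b c + η) = ((1 - η) * Φ b c + η) -
          (η * (1 - ρ)) * ((1 - η) * Φ b c + η) := by rw [hcA]; ring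
      have h6 : (η * (1 - ρ)) * ((1 - η) * Φ b c + η) ≤ (η * (1 - ρ)) * 1 :=
        mul_le_mul_of_nonneg_left (by linarith) hηρ.le
      have h7 : cA * ((1 - η) * Φ b c + η) ≤ c0 * ((1 - η) * Φ b c + η) := by
        apply mul_le_mul_of_nonneg_right hcAc
        have h8 := mul_nonneg (by linarith : (0 : ℝ) ≤ 1 - η) (hΦ0 b c)
        linarith
      refine le_trans ?_ h7
      rw [h5]
      linarith
  have hS2 : ∀ c, c ≠ 0 → η * ‖muhat μ c‖ ≤ c0 * η' := by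
    intro c hc
    have h4 := mul_le_mul_of_nonneg_left (hρ c hc) hη0.le
    have h5 : 2 * ρ / (1 + ρ) * η' = η * ρ := by
      rw [hη']
      have : 1 + ρ ≠ 0 := by linarith
      field_simp
    have h6 := mul_le_mul_of_nonneg_right hcBc hη'0
    rw [h5] at h6
    linarith
  obtain ⟨z, hz⟩ : ∃ z, z = y + d := ⟨_, rfl⟩
  have hyz : y < z := by rw [hz]; linarith
  have hzsum : 2 * z < ∑ b, m b * (if Dm b then 2 * (κ b - d) else ent (ν b)) := by
    have h1 : ∀ b, m b * (2 * κ b) - m b * (2 * d) ≤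
        m b * (if Dm b then 2 * (κ b - d) else ent (ν b)) := by
      intro b
      rw [← mul_sub]
      apply mul_le_mul_of_nonneg_left _ (hm0 b)
      split_ifs with h
      · linarith
      · have h2 := hκ' b (by simpa using h)
        linarith
    have h2 := Finset.sum_le_sum (fun b (_ : b ∈ (Finset.univ : Finset B)) => h1 b)
    have h3 : ∑ b, (m b * (2 * κ b) - m b * (2 * d)) = 2 * K - 2 * d := by
      rw [Finset.sum_sub_distrib, ← Finset.sum_mul, hm1, one_mul, hK, Finset.mul_sum]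
      congr 1
      apply Finset.sum_congr rfl
      intro b _
      ring
    rw [h3] at h2
    refine lt_of_lt_of_le ?_ h2
    rw [hz]
    have h4 : 4 * d = K - y := by rw [hd]; ring
    linarith
  obtain ⟨s, hs0, hs1, hs⟩ := exists_s7 (p := p) m hm0 hm1 Dm ν φ' hν0 hν hφ'0
    (fun b => κ b - d) hu z hzsum
  have hηp : 1 + η * p ≤ (p : ℝ) ^ ((z - y) / 2) := by
    have : (z - y) / 2 = d / 2 := by rw [hz]; ring
    rw [this]
    exact hη3
  exact level_entg μ h0 hμ m hm0 Dm lam ν φ' Φ' hmixl hlam0 hlam1 hν0 hν hφ'0 hφ'1 hφΦ' hΦ'0 hΦ'1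
    η η' hη0.le (by linarith) hη'0 hη'η.le (fun b _ a => by rw [hlam]) c0 hc00 hc01 hD hS1 hS2
    s hs0 y z hy0 hyz hy1 hηp hs ε hε

end Pool.Agent.MP0a1886
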