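import Pool.Agent.MP0a1886.Min.Level

/-! The level of distribution with a comparison law for each component (MP_0a1886_pr). -/

set_option autoImplicit false
set_option linter.unusedSectionVars false
open Finset Polynomial

namespace Pool.Agent.MP0a1886

variable {p : ℕ} [hp : Fact p.Prime]

/-- the weight of a frequency -/
noncomputable def fwg (n : ℕ) (W : Fin (n + 1) → ZMod p → ℝ) (h : (ZMod p)[X]) (k : ℕ)
    (v : Fin k → ZMod p) : ℝ :=
  ∏ i : Fin (n + 1), W i (fn h k v (X ^ (i : ℕ)))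

/-- the error in the divisibility probability -/
lemma Prg_errg (n : ℕ) (g : Fin (n + 1) → ZMod p → ℝ)
    (W : Fin (n + 1) → ZMod p → ℝ)
    (hw : ∀ i c, ‖muhat (g i) c‖ ≤ (∑ a, g i a) * W i c)
    (h : (ZMod p)[X]) (hh : h.Monic) (k : ℕ) (hk : h.natDegree = k) :
    |Prg n g (fun f => h ∣ f) - (∏ i, ∑ a, g i a) * ((p : ℝ) ^ k)⁻¹| ≤
      (∏ i, ∑ a, g i a) * (((p : ℝ) ^ k)⁻¹ *
        ∑ v ∈ (Finset.univ : Finset (Fin k → ZMod p)).erase 0, fwg n W h k v) := by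
  classical
  have hp0 : (p : ℂ) ≠ 0 := by exact_mod_cast hp.out.ne_zero
  have hpr : (0 : ℝ) < p := by exact_mod_cast hp.out.pos
  have h2 := Prg_dvd n g h hh k hk
  rw [← Finset.add_sum_erase _ _ (Finset.mem_univ (0 : Fin k → ZMod p))] at h2
  have h3 : ∏ i : Fin (n + 1), muhat (g i) (fn h k 0 (X ^ (i : ℕ))) =
      ((∏ i, ∑ a, g i a : ℝ) : ℂ) := by
    push_cast
    apply Finset.prod_congr rfl
    intro i _
    rw [fn_zero, muhat_zero']
    push_cast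
    rfl
  rw [h3] at h2
  have h4 : ((Prg n g (fun f => h ∣ f) - (∏ i, ∑ a, g i a) * ((p : ℝ) ^ k)⁻¹ : ℝ) : ℂ)
      = ((p : ℂ) ^ k)⁻¹ * ∑ v ∈ (Finset.univ : Finset (Fin k → ZMod p)).erase 0,
      ∏ i : Fin (n + 1), muhat (g i) (fn h k v (X ^ (i : ℕ))) := by
    have h5 : ∑ v ∈ (Finset.univ : Finset (Fin k → ZMod p)).erase 0,
      ∏ i : Fin (n + 1), muhat (g i) (fn h k v (X ^ (i : ℕ)))
        = (p : ℂ) ^ k * (Prg n g (fun f => h ∣ f) : ℂ) - ((∏ i, ∑ a, g i a : ℝ) : ℂ) := by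
      rw [h2]; ring
    rw [h5]
    push_cast
    field_simp
  have h6 : |Prg n g (fun f => h ∣ f) - (∏ i, ∑ a, g i a) * ((p : ℝ) ^ k)⁻¹| =
      ‖((Prg n g (fun f => h ∣ f) - (∏ i, ∑ a, g i a) * ((p : ℝ) ^ k)⁻¹ : ℝ) : ℂ)‖ := by
    rw [Complex.norm_real, Real.norm_eq_abs]
  rw [h6, h4, norm_mul]
  have h7 : ‖((p : ℂ) ^ k)⁻¹‖ = ((p : ℝ) ^ k)⁻¹ := by
    rw [norm_inv, norm_pow, Complex.norm_natCast]
  rw [h7, ← mul_assoc, mul_comm (∏ i, ∑ a, g i a), mul_assoc]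
  apply mul_le_mul_of_nonneg_left _ (by positivity)
  rw [Finset.mul_sum]
  refine (norm_sum_le _ _).trans (Finset.sum_le_sum fun v _ => ?_)
  rw [norm_prod]
  unfold fwg
  rw [← Finset.prod_mul_distrib]
  apply Finset.prod_le_prod (fun _ _ => norm_nonneg _)
  intro i _
  exact hw i _

lemma fwg_nonneg (n : ℕ) (W : Fin (n + 1) → ZMod p → ℝ) (hW : ∀ i c, 0 ≤ W i c) (h : (ZMod p)[X])
    (k : ℕ) (v : Fin k → ZMod p) : 0 ≤ fwg n W h k v :=
  Finset.prod_nonneg fun _ _ => hW _ _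

lemma fwg_scale (n : ℕ) (Φ : Fin (n + 1) → ZMod p → ℝ) (c : ℝ) (h : (ZMod p)[X]) (k : ℕ)
    (v : Fin k → ZMod p) : fwg n (fun i a => (if a = 0 then 1 else c) * Φ i a) h k v =
      c ^ hw (fun i : Fin (n + 1) => fn h k v (X ^ (i : ℕ))) * fwg n Φ h k v := by
  unfold fwg
  rw [← prod_ite_hw, ← Finset.prod_mul_distrib]

lemma fwg_split (n : ℕ) (Φ : Fin (n + 1) → ZMod p → ℝ) (hw0 : ∀ i a, 0 ≤ Φ i a)
    (hw1 : ∀ i a, Φ i a ≤ 1) (c : ℝ) (hc0 : 0 ≤ c) (hc1 : c ≤ 1) (w0 : ℕ) (h : (ZMod p)[X]) (k : ℕ)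
    (v : Fin k → ZMod p) : fwg n (fun i a => (if a = 0 then 1 else c) * Φ i a) h k v ≤
      (if hw (fun i : Fin (n + 1) => fn h k v (X ^ (i : ℕ))) < w0 then 1 else 0) +
        c ^ w0 * fwg n Φ h k v := by
  have h1 := fwg_nonneg n Φ hw0 h k v
  have h2 : fwg n Φ h k v ≤ 1 := by
    unfold fwg
    exact Finset.prod_le_one (fun i _ => hw0 i _) (fun i _ => hw1 i _)
  rw [fwg_scale]
  split_ifs with h3
  · have h4 : c ^ hw (fun i : Fin (n + 1) => fn h k v (X ^ (i : ℕ))) * fwg n Φ h k v ≤ 1 := by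
      calc c ^ hw (fun i : Fin (n + 1) => fn h k v (X ^ (i : ℕ))) * fwg n Φ h k v ≤ 1 * 1 :=
            mul_le_mul (pow_le_one₀ hc0 hc1) h2 h1 zero_le_one
        _ = 1 := one_mul 1
    have h5 : 0 ≤ c ^ w0 * fwg n Φ h k v := mul_nonneg (pow_nonneg hc0 _) h1
    linarith
  · rw [zero_add]
    apply mul_le_mul_of_nonneg_right _ h1
    exact pow_le_pow_of_le_one hc0 hc1 (not_lt.1 h3)

lemma sum_fwg_eq (n : ℕ) (φ Φ : Fin (n + 1) → ZMod p → ℝ)
    (hφΦ : ∀ i c, muhat (φ i) c = (Φ i c : ℂ)) (h : (ZMod p)[X]) (hh : h.Monic) (k : ℕ)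
    (hk : h.natDegree = k) : ((p : ℝ) ^ k)⁻¹ * ∑ v : Fin k → ZMod p, fwg n Φ h k v =
      Prg n φ (fun f => h ∣ f) := by
  have hp0 : (p : ℝ) ^ k ≠ 0 := by
    have : (p : ℝ) ≠ 0 := by exact_mod_cast hp.out.ne_zero
    exact pow_ne_zero _ this
  have h1 := Prg_dvd n φ h hh k hk
  have h2 : ∑ v : Fin k → ZMod p, ∏ i : Fin (n + 1), muhat (φ i) (fn h k v (X ^ (i : ℕ)))
      = ((∑ v : Fin k → ZMod p, fwg n Φ h k v : ℝ) : ℂ) := by
    unfold fwg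
    push_cast
    apply Finset.sum_congr rfl
    intro v _
    apply Finset.prod_congr rfl
    intro i _
    exact hφΦ i _
  rw [h2] at h1
  have h3 : (p : ℝ) ^ k * Prg n φ (fun f => h ∣ f) =
      ∑ v : Fin k → ZMod p, fwg n Φ h k v := by exact_mod_cast h1
  rw [← h3]
  field_simp

/-- the value at zero of a measure whose Fourier coefficients are dominated -/
lemma g_zero_leg (g φ Φ : ZMod p → ℝ) (h0 : ∀ a, 0 ≤ g a)
    (hφΦ : ∀ c, muhat φ c = (Φ c : ℂ))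
    (hw : ∀ c, ‖muhat g c‖ ≤ (∑ a, g a) * Φ c) : g 0 ≤ (∑ a, g a) * φ 0 := by
  have hp0 : (0 : ℝ) < p := by exact_mod_cast hp.out.pos
  have h1 : (p : ℝ) * g 0 ≤ ∑ c, ‖muhat g c‖ := by
    have h2 : ‖∑ c, muhat g c‖ = (p : ℝ) * g 0 := by
      rw [sum_muhat, norm_mul, Complex.norm_natCast, Complex.norm_real, Real.norm_eq_abs,
        abs_of_nonneg (h0 0)]
    rw [← h2]
    exact norm_sum_le _ _
  have h3 : ∑ c, Φ c = (p : ℝ) * φ 0 := by
    have h4 := sum_muhat φ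
    rw [Finset.sum_congr rfl (fun c _ => hφΦ c)] at h4
    exact_mod_cast h4
  have h5 : ∑ c, ‖muhat g c‖ ≤ (∑ a, g a) * ((p : ℝ) * φ 0) := by
    rw [← h3, Finset.mul_sum]
    exact Finset.sum_le_sum fun c _ => hw c
  have h6 : (p : ℝ) * g 0 ≤ (p : ℝ) * ((∑ a, g a) * φ 0) := by
    calc (p : ℝ) * g 0 ≤ (∑ a, g a) * ((p : ℝ) * φ 0) := h1.trans h5
      _ = _ := by ring
  exact le_of_mul_le_mul_left h6 hp0

/-- the error for one product measure -/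
lemma D_leg (n k m R w0 : ℕ) (hR : n < (m + 1) * R)
    (g : Fin (n + 1) → ZMod p → ℝ) (h0 : ∀ i a, 0 ≤ g i a) (φ Φ : Fin (n + 1) → ZMod p → ℝ)
    (hφ0 : ∀ i a, 0 ≤ φ i a) (hφ1 : ∀ i, ∑ a, φ i a = 1)
    (hφΦ : ∀ i c, muhat (φ i) c = (Φ i c : ℂ)) (hΦ0 : ∀ i c, 0 ≤ Φ i c) (hΦ1 : ∀ i c, Φ i c ≤ 1)
    (c0 : ℝ) (hc0 : 0 < c0) (hc1 : c0 < 1)
    (hw : ∀ i c, ‖muhat (g i) c‖ ≤ (∑ a, g i a) * ((if c = 0 then 1 else c0) * Φ i c))
    (H : Finset (ZMod p)[X])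
    (hH : ∀ h ∈ H, h.Monic ∧ h.natDegree = k ∧ Fac (fun d => m < d) h) :
    ∑ h ∈ H, |Prg n g (fun f => h ∣ f ∧ f ≠ 0) - (∏ i, ∑ a, g i a) * ((p : ℝ) ^ k)⁻¹| ≤
    (∏ i, ∑ a, g i a) * (((p : ℝ) ^ k)⁻¹ *
      (∑ h ∈ H, ((Finset.univ.erase (0 : Fin k → ZMod p)).filter
      (fun v => Pool.Agent.MP0a1886.hw (fun i : Fin (n + 1) => fn h k v (X ^ (i : ℕ))) < w0)).card
        : ℕ) +
      c0 ^ w0 * 2 ^ R + 2 * (2 ^ R + 1) * min 1 ((p : ℝ) ^ k * ∏ i, φ i 0)) := by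
  classical
  have hp0 : (0 : ℝ) < p := by exact_mod_cast hp.out.pos
  have hpk : (0 : ℝ) < (p : ℝ) ^ k := by positivity
  obtain ⟨M, hM⟩ : ∃ M : ℝ, M = ∏ i, ∑ a, g i a := ⟨_, rfl⟩
  have hM0 : 0 ≤ M := by
    rw [hM]
    exact Finset.prod_nonneg fun i _ => Finset.sum_nonneg fun a _ => h0 i a
  have hHc : (H.card : ℝ) ≤ (p : ℝ) ^ k := by
    have h1 : H ⊆ mon p k := by
      intro h hh
      rw [mem_mon]
      exact ⟨(hH h hh).1, (hH h hh).2.1⟩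
    have h2 := Finset.card_le_card h1
    rw [card_mon] at h2
    exact_mod_cast h2
  have hphi0 : ∀ i, ∀ a : ZMod p, 0 ≤ φ i a := hφ0
  obtain ⟨Y, hY⟩ : ∃ Y : ℝ, Y = (p : ℝ) ^ k * ∏ i, φ i 0 := ⟨_, rfl⟩
  have hprod0 : 0 ≤ ∏ i, φ i 0 := Finset.prod_nonneg fun i _ => hphi0 i 0
  have hY0 : 0 ≤ Y := by
    rw [hY]
    exact mul_nonneg hpk.le hprod0
  obtain ⟨L, hL⟩ : ∃ L : ℝ, L = ((p : ℝ) ^ k)⁻¹ *
      (∑ h ∈ H, ((Finset.univ.erase (0 : Fin k → ZMod p)).filter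
      (fun v => Pool.Agent.MP0a1886.hw (fun i : Fin (n + 1) => fn h k v (X ^ (i : ℕ))) < w0)).card
        : ℕ) := ⟨_, rfl⟩
  have hL0 : 0 ≤ L := by
    rw [hL]
    exact mul_nonneg (inv_nonneg.2 hpk.le) (Nat.cast_nonneg _)
  rw [← hM, ← hY, ← hL]
  have h2R : (1 : ℝ) ≤ 2 ^ R := one_le_pow₀ (by norm_num)
  have hcw : 0 ≤ c0 ^ w0 := pow_nonneg hc0.le _
  have hcw1 : c0 ^ w0 ≤ 1 := pow_le_one₀ hc0.le hc1.le
  -- the trivial bound
  have hB1 : ∑ h ∈ H, |Prg n g (fun f => h ∣ f ∧ f ≠ 0) - M * ((p : ℝ) ^ k)⁻¹| ≤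
      M * (2 ^ R + 1) := by
    have h1 : ∀ h ∈ H, |Prg n g (fun f => h ∣ f ∧ f ≠ 0) - M * ((p : ℝ) ^ k)⁻¹| ≤
        Prg n g (fun f => h ∣ f ∧ f ≠ 0) + M * ((p : ℝ) ^ k)⁻¹ := by
      intro h _
      have h2 := Prg_nonneg g h0 (fun f => h ∣ f ∧ f ≠ 0)
      have h3 : 0 ≤ M * ((p : ℝ) ^ k)⁻¹ := mul_nonneg hM0 (inv_nonneg.2 hpk.le)
      rw [abs_le]
      constructor <;> linarith
    refine (Finset.sum_le_sum h1).trans ?_
    rw [Finset.sum_add_distrib, Finset.sum_const, nsmul_eq_mul]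
    have h4 := sum_dvd_le n m R hR g h0 H (fun h hh => ⟨(hH h hh).1, (hH h hh).2.2⟩)
    rw [← hM] at h4
    have h5 : (H.card : ℝ) * (M * ((p : ℝ) ^ k)⁻¹) ≤ M := by
      calc (H.card : ℝ) * (M * ((p : ℝ) ^ k)⁻¹) ≤ (p : ℝ) ^ k * (M * ((p : ℝ) ^ k)⁻¹) :=
            mul_le_mul_of_nonneg_right hHc (mul_nonneg hM0 (inv_nonneg.2 hpk.le))
        _ = M := by field_simp
    linarith
  -- the Fourier bound
  have hB2 : ∑ h ∈ H, |Prg n g (fun f => h ∣ f ∧ f ≠ 0) - M * ((p : ℝ) ^ k)⁻¹| ≤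
      M * (L + c0 ^ w0 * 2 ^ R + 2 * Y) := by
    have hz : Prg n g (fun f => f = 0) ≤ M * ∏ i, φ i 0 := by
      rw [Prg_zero, hM, ← Finset.prod_mul_distrib]
      apply Finset.prod_le_prod
      · intro i _
        exact h0 i 0
      · intro i _
        refine g_zero_leg (g i) (φ i) (Φ i) (h0 i) (hφΦ i) (fun c => (hw i c).trans ?_)
        apply mul_le_mul_of_nonneg_left _ (Finset.sum_nonneg fun a _ => h0 i a)
        have h2 : (if c = 0 then 1 else c0) ≤ 1 := by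
          split_ifs
          · exact le_rfl
          · exact hc1.le
        have h3 := mul_le_mul_of_nonneg_right h2 (hΦ0 i c)
        linarith
    have h1 : ∀ h ∈ H, |Prg n g (fun f => h ∣ f ∧ f ≠ 0) - M * ((p : ℝ) ^ k)⁻¹| ≤
        M * (((p : ℝ) ^ k)⁻¹ * (((Finset.univ.erase (0 : Fin k → ZMod p)).filter
          (fun v => Pool.Agent.MP0a1886.hw
            (fun i : Fin (n + 1) => fn h k v (X ^ (i : ℕ))) < w0)).card : ℝ) +
          c0 ^ w0 * (Prg n φ (fun f => h ∣ f ∧ f ≠ 0) +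
            ∏ i, φ i 0)) + M * ∏ i, φ i 0 := by
      intro h hh
      obtain ⟨hm, hd, hF⟩ := hH h hh
      have h2 := Prg_errg n g (fun i a => (if a = 0 then 1 else c0) * Φ i a) hw h hm k hd
      rw [← hM, Prg_split] at h2
      have h3 : ∑ v ∈ (Finset.univ : Finset (Fin k → ZMod p)).erase 0,
          fwg n (fun i a => (if a = 0 then 1 else c0) * Φ i a) h k v ≤
          (((Finset.univ.erase (0 : Fin k → ZMod p)).filter
          (fun v => Pool.Agent.MP0a1886.hw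
            (fun i : Fin (n + 1) => fn h k v (X ^ (i : ℕ))) < w0)).card : ℝ) +
          c0 ^ w0 * ∑ v : Fin k → ZMod p, fwg n Φ h k v := by
        refine (Finset.sum_le_sum fun v _ =>
          fwg_split n Φ hΦ0 hΦ1 c0 hc0.le hc1.le w0 h k v).trans ?_
        rw [Finset.sum_add_distrib, ← Finset.mul_sum]
        apply add_le_add
        · rw [Finset.sum_ite, Finset.sum_const_zero, add_zero, Finset.sum_const, nsmul_eq_mul,
            mul_one]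
        · apply mul_le_mul_of_nonneg_left _ hcw
          exact Finset.sum_le_sum_of_subset_of_nonneg (Finset.erase_subset _ _)
            (fun v _ _ => fwg_nonneg n Φ hΦ0 h k v)
      have h4 : ((p : ℝ) ^ k)⁻¹ * ∑ v ∈ (Finset.univ : Finset (Fin k → ZMod p)).erase 0,
          fwg n (fun i a => (if a = 0 then 1 else c0) * Φ i a) h k v ≤ ((p : ℝ) ^ k)⁻¹ *
          (((Finset.univ.erase (0 : Fin k → ZMod p)).filter
          (fun v => Pool.Agent.MP0a1886.hw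
            (fun i : Fin (n + 1) => fn h k v (X ^ (i : ℕ))) < w0)).card : ℝ) +
          c0 ^ w0 * (Prg n φ (fun f => h ∣ f ∧ f ≠ 0) +
            ∏ i, φ i 0) := by
        have h5 := mul_le_mul_of_nonneg_left h3 (inv_nonneg.2 hpk.le)
        refine h5.trans (le_of_eq ?_)
        rw [mul_add, ← mul_assoc, mul_comm _ (c0 ^ w0), mul_assoc (c0 ^ w0),
          sum_fwg_eq n φ Φ hφΦ h hm k hd, Prg_split, Prg_zero]
      have h6 := mul_le_mul_of_nonneg_left h4 hM0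
      have h7 := Prg_nonneg g h0 (fun f => f = 0)
      rw [abs_le] at h2 ⊢
      obtain ⟨h2a, h2b⟩ := h2
      constructor <;> linarith
    refine (Finset.sum_le_sum h1).trans ?_
    rw [Finset.sum_add_distrib, ← Finset.mul_sum, Finset.sum_add_distrib, ← Finset.mul_sum,
      ← Finset.mul_sum, Finset.sum_add_distrib, Finset.sum_const, Finset.sum_const,
      nsmul_eq_mul, nsmul_eq_mul]
    have h4 := sum_dvd_le n m R hR φ hphi0 H
      (fun h hh => ⟨(hH h hh).1, (hH h hh).2.2⟩)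
    have h5 : ∏ i : Fin (n + 1), ∑ a : ZMod p, φ i a = 1 :=
      Finset.prod_eq_one fun i _ => hφ1 i
    rw [h5, one_mul] at h4
    have h6 : (H.card : ℝ) * ∏ i, φ i 0 ≤ Y := by
      rw [hY]
      exact mul_le_mul_of_nonneg_right hHc hprod0
    have h7 : ((p : ℝ) ^ k)⁻¹ * ∑ h ∈ H,
        (((Finset.univ.erase (0 : Fin k → ZMod p)).filter
          (fun v => Pool.Agent.MP0a1886.hw
            (fun i : Fin (n + 1) => fn h k v (X ^ (i : ℕ))) < w0)).card : ℝ) = L := by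
      rw [hL]
      push_cast
      rfl
    rw [h7]
    have h8 : (H.card : ℝ) * (M * ∏ i, φ i 0) ≤ M * Y := by
      calc _ = M * ((H.card : ℝ) * ∏ i, φ i 0) := by ring
        _ ≤ _ := mul_le_mul_of_nonneg_left h6 hM0
    have h9 : c0 ^ w0 * (∑ h ∈ H, Prg n φ (fun f => h ∣ f ∧ f ≠ 0) +
        (H.card : ℝ) * ∏ i, φ i 0) ≤ c0 ^ w0 * 2 ^ R + Y := by
      calc _ ≤ c0 ^ w0 * (2 ^ R + Y) :=
            mul_le_mul_of_nonneg_left (add_le_add h4 h6) hcw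
        _ = c0 ^ w0 * 2 ^ R + c0 ^ w0 * Y := by ring
        _ ≤ c0 ^ w0 * 2 ^ R + 1 * Y := by
            have := mul_le_mul_of_nonneg_right hcw1 hY0
            linarith
        _ = _ := by ring
    have h10 := mul_le_mul_of_nonneg_left h9 hM0
    calc _ ≤ M * (L + (c0 ^ w0 * 2 ^ R + Y)) + M * Y := by
          apply add_le_add _ h8
          apply mul_le_mul_of_nonneg_left _ hM0
          linarith
      _ = _ := by ring
  rcases le_total 1 Y with h1 | h1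
  · rw [min_eq_left h1]
    refine hB1.trans (mul_le_mul_of_nonneg_left ?_ hM0)
    have : 0 ≤ c0 ^ w0 * 2 ^ R := mul_nonneg hcw (by linarith)
    linarith
  · rw [min_eq_right h1]
    refine hB2.trans (mul_le_mul_of_nonneg_left ?_ hM0)
    nlinarith

/-- the error for a mixture -/
theorem level_coreg {B : Type} [Fintype B] (μ : ZMod p → ℝ) (g : B → ZMod p → ℝ)
    (hg : ∀ a, μ a = ∑ b, g b a) (hg0 : ∀ b a, 0 ≤ g b a) (hμ : ∑ a, μ a = 1)
    (φ Φ : B → ZMod p → ℝ)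
    (hφ0 : ∀ b a, 0 ≤ φ b a) (hφ1 : ∀ b, ∑ a, φ b a = 1)
    (hφΦ : ∀ b c, muhat (φ b) c = (Φ b c : ℂ)) (hΦ0 : ∀ b c, 0 ≤ Φ b c) (hΦ1 : ∀ b c, Φ b c ≤ 1)
    (c0 : ℝ) (hc0 : 0 < c0) (hc1 : c0 < 1)
    (hgw : ∀ b c, ‖muhat (g b) c‖ ≤ (∑ a, g b a) * ((if c = 0 then 1 else c0) * Φ b c))
    (s : ℝ) (hs0 : 0 ≤ s) (hs1 : s ≤ 1) (n k m R w0 : ℕ) (hR : n < (m + 1) * R) (hk : k ≤ n)
    (H : Finset (ZMod p)[X])
    (hH : ∀ h ∈ H, h.Monic ∧ h.natDegree = k ∧ Fac (fun d => m < d) h) :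
    ∑ h ∈ H, |Pr μ n (fun f => h ∣ f ∧ f ≠ 0) - ((p : ℝ) ^ k)⁻¹| ≤
      ((p : ℝ) ^ k)⁻¹ * (((Finset.univ.filter
        (fun α : Fin (n + 1) → ZMod p => hw α < w0)).card : ℝ) * (p : ℝ) ^ (k - min m (n - k))) +
      c0 ^ w0 * 2 ^ R +
      2 * (2 ^ R + 1) * (((p : ℝ) ^ k) ^ s * (∑ b, (∑ a, g b a) * φ b 0 ^ s) ^ (n + 1)) := by
  classical
  have hp0 : (0 : ℝ) < p := by exact_mod_cast hp.out.pos
  obtain ⟨mm, hmm⟩ : ∃ mm : B → ℝ, mm = fun b => ∑ a, g b a := ⟨_, rfl⟩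
  have hm0 : ∀ b, 0 ≤ mm b := by
    intro b; rw [hmm]; exact Finset.sum_nonneg fun a _ => hg0 b a
  have hm1 : ∑ b, mm b = 1 := by
    rw [← hμ, hmm, Finset.sum_comm]
    exact Finset.sum_congr rfl fun a _ => (hg a).symm
  obtain ⟨L, hL⟩ : ∃ L : ℝ, L = ((p : ℝ) ^ k)⁻¹ * (((Finset.univ.filter
        (fun α : Fin (n + 1) → ZMod p => hw α < w0)).card : ℝ) *
        (p : ℝ) ^ (k - min m (n - k))) := ⟨_, rfl⟩
  have hlow := low_count n k m w0 hk H hH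
  have hlow' : ((p : ℝ) ^ k)⁻¹ *
      ((∑ h ∈ H, ((Finset.univ.erase (0 : Fin k → ZMod p)).filter
      (fun v => hw (fun i : Fin (n + 1) => fn h k v (X ^ (i : ℕ))) < w0)).card : ℕ) : ℝ) ≤ L := by
    rw [hL]
    apply mul_le_mul_of_nonneg_left _ (by positivity)
    exact_mod_cast hlow
  obtain ⟨A, hA⟩ : ∃ A : ℝ, A = L + c0 ^ w0 * 2 ^ R := ⟨_, rfl⟩
  have hone : ∀ ω : Fin (n + 1) → B,
      ∑ h ∈ H, |Prg n (fun i => g (ω i)) (fun f => h ∣ f ∧ f ≠ 0) -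
        (∏ i, mm (ω i)) * ((p : ℝ) ^ k)⁻¹| ≤
      (∏ i, mm (ω i)) * A + 2 * (2 ^ R + 1) * ((p : ℝ) ^ k) ^ s *
        ((∏ i, mm (ω i)) * (∏ i, φ (ω i) 0) ^ s) := by
    intro ω
    have h1 := D_leg n k m R w0 hR (fun i => g (ω i)) (fun i a => hg0 (ω i) a)
      (fun i => φ (ω i)) (fun i => Φ (ω i)) (fun i => hφ0 _) (fun i => hφ1 _) (fun i => hφΦ _)
      (fun i => hΦ0 _) (fun i => hΦ1 _) c0 hc0 hc1 (fun i c => hgw (ω i) c)
      H hH
    have h2 : ∏ i, ∑ a, g (ω i) a = ∏ i, mm (ω i) := by rw [hmm]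
    rw [h2] at h1
    have hM0 : 0 ≤ ∏ i, mm (ω i) := Finset.prod_nonneg fun i _ => hm0 _
    have hφ0 : 0 ≤ ∏ i, φ (ω i) 0 :=
      Finset.prod_nonneg fun i _ => hφ0 _ 0
    refine h1.trans ?_
    have h3 : min 1 ((p : ℝ) ^ k * ∏ i, φ (ω i) 0) ≤
        ((p : ℝ) ^ k) ^ s * (∏ i, φ (ω i) 0) ^ s := by
      rw [← Real.mul_rpow (by positivity) hφ0]
      exact min_one_le_rpow (by positivity) hs0 hs1
    calc _ ≤ (∏ i, mm (ω i)) * (L + c0 ^ w0 * 2 ^ R + 2 * (2 ^ R + 1) *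
          (((p : ℝ) ^ k) ^ s * (∏ i, φ (ω i) 0) ^ s)) := by
          apply mul_le_mul_of_nonneg_left _ hM0
          have h4 := mul_le_mul_of_nonneg_left h3 (by positivity : (0 : ℝ) ≤ 2 * (2 ^ R + 1))
          linarith
      _ = _ := by rw [hA]; ring
  have hsplit : ∀ h : (ZMod p)[X], Pr μ n (fun f => h ∣ f ∧ f ≠ 0) - ((p : ℝ) ^ k)⁻¹ =
      ∑ ω : Fin (n + 1) → B, (Prg n (fun i => g (ω i)) (fun f => h ∣ f ∧ f ≠ 0) -
        (∏ i, mm (ω i)) * ((p : ℝ) ^ k)⁻¹) := by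
    intro h
    rw [Pr_mix μ g hg, Finset.sum_sub_distrib, ← Finset.sum_mul,
      sum_prod_pi (fun (_ : Fin (n + 1)) b => mm b)]
    simp [hm1]
  calc ∑ h ∈ H, |Pr μ n (fun f => h ∣ f ∧ f ≠ 0) - ((p : ℝ) ^ k)⁻¹|
      ≤ ∑ h ∈ H, ∑ ω : Fin (n + 1) → B, |Prg n (fun i => g (ω i)) (fun f => h ∣ f ∧ f ≠ 0) -
        (∏ i, mm (ω i)) * ((p : ℝ) ^ k)⁻¹| := by
        apply Finset.sum_le_sum
        intro h _
        rw [hsplit]
        exact Finset.abs_sum_le_sum_abs _ _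
    _ = ∑ ω : Fin (n + 1) → B, ∑ h ∈ H, |Prg n (fun i => g (ω i)) (fun f => h ∣ f ∧ f ≠ 0) -
        (∏ i, mm (ω i)) * ((p : ℝ) ^ k)⁻¹| := Finset.sum_comm
    _ ≤ ∑ ω : Fin (n + 1) → B, ((∏ i, mm (ω i)) * A + 2 * (2 ^ R + 1) * ((p : ℝ) ^ k) ^ s *
        ((∏ i, mm (ω i)) * (∏ i, φ (ω i) 0) ^ s)) :=
        Finset.sum_le_sum fun ω _ => hone ω
    _ = A + 2 * (2 ^ R + 1) * ((p : ℝ) ^ k) ^ s *
        (∑ b, mm b * φ b 0 ^ s) ^ (n + 1) := by
        rw [Finset.sum_add_distrib, ← Finset.sum_mul, ← Finset.mul_sum,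
          sum_prod_pi (fun (_ : Fin (n + 1)) b => mm b)]
        have h5 := sum_mix_prod mm hm1 (fun b => φ b 0)
          (fun b => hφ0 _ 0) s (n + 1) Finset.univ
        rw [Finset.card_univ, Fintype.card_fin] at h5
        rw [h5]
        simp [hm1]
    _ = _ := by rw [hA, hL, hmm]; ring

/-- the level of distribution for mixtures -/
theorem level_mixg {B : Type} [Fintype B] (μ : ZMod p → ℝ) (g : B → ZMod p → ℝ)
    (hg : ∀ a, μ a = ∑ b, g b a) (hg0 : ∀ b a, 0 ≤ g b a) (hμ : ∑ a, μ a = 1)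
    (φ Φ : B → ZMod p → ℝ)
    (hφ0 : ∀ b a, 0 ≤ φ b a) (hφ1 : ∀ b, ∑ a, φ b a = 1)
    (hφΦ : ∀ b c, muhat (φ b) c = (Φ b c : ℂ)) (hΦ0 : ∀ b c, 0 ≤ Φ b c) (hΦ1 : ∀ b c, Φ b c ≤ 1)
    (c0 : ℝ) (hc0 : 0 < c0) (hc1 : c0 < 1)
    (hgw : ∀ b c, ‖muhat (g b) c‖ ≤ (∑ a, g b a) * ((if c = 0 then 1 else c0) * Φ b c))
    (s : ℝ) (hs0 : 0 ≤ s) (hs1 : s ≤ 1) (y : ℝ) (hy1 : y < 1)
    (hΛ : (p : ℝ) ^ (s * y) * (∑ b, (∑ a, g b a) * φ b 0 ^ s) < 1)
    (ε : ℝ) (hε : 0 < ε) :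
    ∃ C c : ℝ, 0 < c ∧ ∀ n m k : ℕ, 1 ≤ k → ε * n ≤ m → (k : ℝ) ≤ y * n →
      ∀ H : Finset (ZMod p)[X],
      (∀ h ∈ H, h.Monic ∧ h.natDegree = k ∧ Fac (fun d => m < d) h) →
      ∑ h ∈ H, |Pr μ n (fun f => h ∣ f ∧ f ≠ 0) - ((p : ℝ) ^ k)⁻¹| ≤ C * Real.exp (-(c * n)) := by
  classical
  have hp0 : (0 : ℝ) < p := by exact_mod_cast hp.out.pos
  have hp1 : (1 : ℝ) < p := by exact_mod_cast hp.out.one_lt
  have hlogp : 0 < Real.log p := Real.log_pos hp1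
  obtain ⟨τ0, hτ0⟩ : ∃ τ0, τ0 = min ε (1 - y) := ⟨_, rfl⟩
  have hτ00 : 0 < τ0 := by rw [hτ0]; exact lt_min hε (by linarith)
  obtain ⟨τ, hτ⟩ : ∃ τ, τ = τ0 * Real.log p := ⟨_, rfl⟩
  have hτp : 0 < τ := by rw [hτ]; positivity
  obtain ⟨η, hη, hlow⟩ := low_exp (p := p) τ hτp
  obtain ⟨R, hRd⟩ : ∃ R : ℕ, R = ⌈1 / ε⌉₊ := ⟨_, rfl⟩
  have hRr : 1 / ε ≤ R := by rw [hRd]; exact Nat.le_ceil _
  have hR0 : (0 : ℝ) < R := lt_of_lt_of_le (by positivity) hRr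
  obtain ⟨Λ, hΛd⟩ : ∃ Λ, Λ = ∑ b, (∑ a, g b a) * φ b 0 ^ s := ⟨_, rfl⟩
  have hΛ0 : 0 ≤ Λ := by
    rw [hΛd]
    exact Finset.sum_nonneg fun b _ => mul_nonneg (Finset.sum_nonneg fun a _ => hg0 b a)
      (Real.rpow_nonneg (hφ0 b 0) s)
  obtain ⟨θ, hθ⟩ : ∃ θ, θ = max ((p : ℝ) ^ (s * y) * Λ) (1 / 2) := ⟨_, rfl⟩
  have hθ0 : 0 < θ := by rw [hθ]; exact lt_of_lt_of_le (by norm_num) (le_max_right _ _)
  have hθ1 : θ < 1 := by
    rw [hθ, max_lt_iff, hΛd]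
    exact ⟨hΛ, by norm_num⟩
  have hlθ : 0 < Real.log (1 / θ) := by
    apply Real.log_pos
    rw [lt_div_iff₀ hθ0, one_mul]
    exact hθ1
  have hlc : 0 < Real.log (1 / c0) := by
    apply Real.log_pos
    rw [lt_div_iff₀ hc0, one_mul]
    exact hc1
  obtain ⟨c, hc⟩ : ∃ c, c = min (τ / 2) (min (η * Real.log (1 / c0)) (Real.log (1 / θ))) :=
    ⟨_, rfl⟩
  have hcpos : 0 < c := by
    rw [hc]
    exact lt_min (by positivity) (lt_min (by positivity) hlθ)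
  refine ⟨Real.exp (τ / 4) + c0⁻¹ * 2 ^ R + 2 * (2 ^ R + 1) * Λ, c, hcpos, ?_⟩
  intro n m k hk1 hm hk H hH
  have hn0 : (0 : ℝ) ≤ n := Nat.cast_nonneg n
  have hexp : ∀ d : ℝ, c ≤ d → Real.exp (-(d * n)) ≤ Real.exp (-(c * n)) := by
    intro d hd
    apply Real.exp_le_exp.2
    have := mul_le_mul_of_nonneg_right hd hn0
    linarith
  rcases H.eq_empty_or_nonempty with hE | ⟨h0, hh0⟩
  · rw [hE, Finset.sum_empty]
    positivity
  -- k > m
  have hkm : m < k := by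
    obtain ⟨h1, h2, h3⟩ := hH h0 hh0
    have h4 : ¬ IsUnit h0 := by
      intro hu
      have h5 := Polynomial.natDegree_eq_zero_of_isUnit hu
      omega
    obtain ⟨P, hP, hPd⟩ := WfDvdMonoid.exists_irreducible_factor h4 h1.ne_zero
    have h5 := h3 P hP hPd
    have h6 := Polynomial.natDegree_le_of_dvd hPd h1.ne_zero
    omega
  have hnpos : 0 < n := by
    rcases Nat.eq_zero_or_pos n with h | h
    · rw [h] at hk
      have h1 : (1 : ℝ) ≤ k := by exact_mod_cast hk1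
      simp only [Nat.cast_zero, mul_zero] at hk
      linarith
    · exact h
  have hnr : (0 : ℝ) < n := by exact_mod_cast hnpos
  have hkn : k ≤ n := by
    have h1 : (k : ℝ) ≤ n := by nlinarith
    exact_mod_cast h1
  have hR : n < (m + 1) * R := by
    have h1 : (n : ℝ) < ((m : ℝ) + 1) * R := by
      calc (n : ℝ) < (ε * n + 1) * (1 / ε) := by
            have : (ε * n + 1) * (1 / ε) = n + 1 / ε := by field_simp
            rw [this]
            have : 0 < 1 / ε := by positivity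
            linarith
        _ ≤ ((m : ℝ) + 1) * R := by
            apply mul_le_mul _ hRr (by positivity) (by positivity)
            linarith
    exact_mod_cast h1
  obtain ⟨w0, hw0⟩ : ∃ w0 : ℕ, w0 = ⌊η * n⌋₊ := ⟨_, rfl⟩
  have hw1 : (w0 : ℝ) ≤ η * n := by rw [hw0]; exact Nat.floor_le (by positivity)
  have hw2 : η * n - 1 ≤ w0 := by
    rw [hw0]
    have := Nat.lt_floor_add_one (η * n)
    linarith
  have hcore := level_coreg μ g hg hg0 hμ φ Φ hφ0 hφ1 hφΦ hΦ0 hΦ1 c0 hc0 hc1 hgw s hs0 hs1 n k m R w0 hR hkn H hH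
  rw [← hΛd] at hcore
  refine hcore.trans ?_
  -- first term
  have t1 : ((p : ℝ) ^ k)⁻¹ * (((Finset.univ.filter
        (fun α : Fin (n + 1) → ZMod p => hw α < w0)).card : ℝ) * (p : ℝ) ^ (k - min m (n - k))) ≤
      Real.exp (τ / 4) * Real.exp (-(c * n)) := by
    have h1 := hlow n w0 hw1
    have h2 : ((p : ℝ) ^ k)⁻¹ * (p : ℝ) ^ (k - min m (n - k)) = ((p : ℝ) ^ (min m (n - k)))⁻¹ := by
      have h3 : min m (n - k) ≤ k := (min_le_left _ _).trans hkm.le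
      have h4 : (p : ℝ) ^ k = (p : ℝ) ^ (k - min m (n - k)) * (p : ℝ) ^ (min m (n - k)) := by
        rw [← pow_add, Nat.sub_add_cancel h3]
      rw [h4]
      field_simp
    have h5 : ((p : ℝ) ^ (min m (n - k)))⁻¹ ≤ Real.exp (-(τ * n)) := by
      have h6 : τ0 * n ≤ (min m (n - k) : ℕ) := by
        rw [Nat.cast_min, le_min_iff, Nat.cast_sub hkn]
        constructor
        · calc τ0 * n ≤ ε * n := by
                rw [hτ0]; exact mul_le_mul_of_nonneg_right (min_le_left _ _) hn0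
            _ ≤ m := hm
        · calc τ0 * n ≤ (1 - y) * n := by
                rw [hτ0]; exact mul_le_mul_of_nonneg_right (min_le_right _ _) hn0
            _ ≤ (n : ℝ) - k := by linarith
      have h7 : ((p : ℝ) ^ (min m (n - k)))⁻¹ =
          Real.exp (-(Real.log p * ((min m (n - k) : ℕ) : ℝ))) := by
        rw [Real.exp_neg, mul_comm, Real.exp_nat_mul, Real.exp_log hp0]
      rw [h7]
      apply Real.exp_le_exp.2
      rw [hτ]
      have := mul_le_mul_of_nonneg_left h6 hlogp.le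
      linarith
    calc _ = (((Finset.univ.filter
        (fun α : Fin (n + 1) → ZMod p => hw α < w0)).card : ℝ)) *
          (((p : ℝ) ^ k)⁻¹ * (p : ℝ) ^ (k - min m (n - k))) := by ring
      _ ≤ (Real.exp (τ / 4) * Real.exp (τ / 2 * n)) * Real.exp (-(τ * n)) := by
          rw [h2]
          exact mul_le_mul h1 h5 (by positivity) (by positivity)
      _ = Real.exp (τ / 4) * Real.exp (-(τ / 2 * n)) := by
          rw [mul_assoc, ← Real.exp_add]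
          congr 2
          ring
      _ ≤ _ := by
          apply mul_le_mul_of_nonneg_left (hexp _ _) (Real.exp_pos _).le
          rw [hc]; exact min_le_left _ _
  -- second term
  have t2 : c0 ^ w0 * 2 ^ R ≤ (c0⁻¹ * 2 ^ R) * Real.exp (-(c * n)) := by
    have h1 : c0 ^ w0 ≤ c0⁻¹ * Real.exp (-(η * Real.log (1 / c0) * n)) := by
      have h2 : c0 ^ w0 = Real.exp (-(Real.log (1 / c0) * w0)) := by
        rw [Real.exp_neg, mul_comm, Real.exp_nat_mul, Real.exp_log (by positivity), one_div,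
          inv_pow, inv_inv]
      have h3 : c0⁻¹ = Real.exp (Real.log (1 / c0)) := by
        rw [Real.exp_log (by positivity), one_div]
      rw [h2, h3, ← Real.exp_add]
      apply Real.exp_le_exp.2
      have := mul_le_mul_of_nonneg_left hw2 hlc.le
      linarith
    have h4 : Real.exp (-(η * Real.log (1 / c0) * n)) ≤ Real.exp (-(c * n)) := by
      apply hexp
      rw [hc]
      exact (min_le_right _ _).trans (min_le_left _ _)
    calc c0 ^ w0 * 2 ^ R ≤ (c0⁻¹ * Real.exp (-(η * Real.log (1 / c0) * n))) * 2 ^ R :=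
          mul_le_mul_of_nonneg_right h1 (by positivity)
      _ ≤ (c0⁻¹ * Real.exp (-(c * n))) * 2 ^ R := by
          apply mul_le_mul_of_nonneg_right _ (by positivity)
          exact mul_le_mul_of_nonneg_left h4 (by positivity)
      _ = _ := by ring
  -- third term
  have t3 : 2 * (2 ^ R + 1) * (((p : ℝ) ^ k) ^ s * Λ ^ (n + 1)) ≤
      (2 * (2 ^ R + 1) * Λ) * Real.exp (-(c * n)) := by
    have h1 : ((p : ℝ) ^ k) ^ s ≤ ((p : ℝ) ^ (s * y)) ^ n := by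
      rw [← Real.rpow_natCast, ← Real.rpow_mul hp0.le, ← Real.rpow_natCast, ← Real.rpow_mul hp0.le]
      apply Real.rpow_le_rpow_of_exponent_le hp1.le
      calc (k : ℝ) * s ≤ (y * n) * s := mul_le_mul_of_nonneg_right hk hs0
        _ = s * y * n := by ring
    have h2 : ((p : ℝ) ^ (s * y)) ^ n * Λ ^ n ≤ Real.exp (-(c * n)) := by
      rw [← mul_pow]
      calc ((p : ℝ) ^ (s * y) * Λ) ^ n ≤ θ ^ n := by
            apply pow_le_pow_left₀ (by positivity)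
            rw [hθ]; exact le_max_left _ _
        _ = Real.exp (-(Real.log (1 / θ) * n)) := by
            rw [Real.exp_neg, mul_comm, Real.exp_nat_mul, Real.exp_log (by positivity), one_div,
              inv_pow, inv_inv]
        _ ≤ _ := by
            apply hexp
            rw [hc]
            exact (min_le_right _ _).trans (min_le_right _ _)
    calc 2 * (2 ^ R + 1) * (((p : ℝ) ^ k) ^ s * Λ ^ (n + 1))
        ≤ 2 * (2 ^ R + 1) * (((p : ℝ) ^ (s * y)) ^ n * Λ ^ (n + 1)) := by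
          apply mul_le_mul_of_nonneg_left _ (by positivity)
          exact mul_le_mul_of_nonneg_right h1 (by positivity)
      _ = (2 * (2 ^ R + 1) * Λ) * (((p : ℝ) ^ (s * y)) ^ n * Λ ^ n) := by ring
      _ ≤ _ := mul_le_mul_of_nonneg_left h2 (by positivity)
  calc _ ≤ Real.exp (τ / 4) * Real.exp (-(c * n)) + (c0⁻¹ * 2 ^ R) * Real.exp (-(c * n)) +
        (2 * (2 ^ R + 1) * Λ) * Real.exp (-(c * n)) := add_le_add (add_le_add t1 t2) t3
    _ = _ := by ring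

end Pool.Agent.MP0a1886
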