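import Pool.Agent.MP0a1886.Min.Ent1
import Pool.Agent.MP0a1886.Min.LevF

/-! The level of distribution below half the entropy: positivity (MP_0a1886_pr). -/

set_option autoImplicit false
set_option linter.unusedSectionVars false
open Finset Polynomial

namespace Pool.Agent.MP0a1886

variable {p : ℕ} [hp : Fact p.Prime]

/-- the active coordinates -/
def act {N : ℕ} (P D σ : Fin N → Bool) (i : Fin N) : Bool := P i && !(D i) && !(σ i)

/-- the weight of a bit -/
noncomputable def pb1 (η : ℝ) (s : Bool) : ℝ := if s then η else 1 - η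

/-- the weight of a pattern -/
noncomputable def pb {N : ℕ} (η : ℝ) (σ : Fin N → Bool) : ℝ := ∏ i, pb1 η (σ i)

lemma pb1_nonneg {η : ℝ} (h0 : 0 ≤ η) (h1 : η ≤ 1) (s : Bool) : 0 ≤ pb1 η s := by
  unfold pb1
  split_ifs <;> linarith

lemma pb_nonneg {N : ℕ} {η : ℝ} (h0 : 0 ≤ η) (h1 : η ≤ 1) (σ : Fin N → Bool) : 0 ≤ pb η σ :=
  Finset.prod_nonneg fun _ _ => pb1_nonneg h0 h1 _

lemma sum_pb1 (η : ℝ) : ∑ s : Bool, pb1 η s = 1 := by
  rw [Fintype.sum_bool]
  simp [pb1]

lemma sum_pb (N : ℕ) (η : ℝ) : ∑ σ : Fin N → Bool, pb η σ = 1 := by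
  unfold pb
  rw [sum_prod_pi (fun (_ : Fin N) (s : Bool) => pb1 η s)]
  exact Finset.prod_eq_one fun _ _ => sum_pb1 η

/-- the polynomial with the coefficients at the places selected by `T` -/
noncomputable def mkp (n : ℕ) (T : Fin (n + 1) → Bool) (a : Fin (n + 1) → ZMod p) : (ZMod p)[X] :=
  rpoly n (fun i => if T i then a i else 0)

/-- the size of an atom -/
noncomputable def Ya {N : ℕ} (P D : Fin N → Bool) (ν φ : Fin N → ZMod p → ℝ)
    (a : Fin N → ZMod p) : ℝ :=
  ∏ i, if D i then φ i 0 else if P i then ν i (a i) else 1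

/-- the restricted weight -/
noncomputable def ra {N : ℕ} (θ : ℝ) (P D : Fin N → Bool) (ν φ : Fin N → ZMod p → ℝ)
    (a : Fin N → ZMod p) : ℝ := if Ya P D ν φ a ≤ θ then ∏ i, ν i (a i) else 0

/-- the Fourier transform of the restricted weight -/
noncomputable def VV (n : ℕ) (θ : ℝ) (P D σ : Fin (n + 1) → Bool)
    (ν φ : Fin (n + 1) → ZMod p → ℝ) (l : (ZMod p)[X] →ₗ[ZMod p] ZMod p) : ℂ :=
  ∑ a : Fin (n + 1) → ZMod p, ((ra θ P D ν φ a : ℝ) : ℂ) *
    ZMod.stdAddChar (l (mkp n (act P D σ) a))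

lemma lin_mkp (n : ℕ) (T : Fin (n + 1) → Bool) (a : Fin (n + 1) → ZMod p)
    (l : (ZMod p)[X] →ₗ[ZMod p] ZMod p) :
    l (mkp n T a) = ∑ i : Fin (n + 1), (if T i then a i else 0) * l (X ^ (i : ℕ)) := by
  unfold mkp rpoly lowPoly
  rw [map_sum]
  apply Finset.sum_congr rfl
  intro i _
  rw [← Polynomial.smul_eq_C_mul, map_smul, smul_eq_mul]

lemma mkp_add (n : ℕ) (a b : Fin (n + 1) → ZMod p) : rpoly n (a + b) = rpoly n a + rpoly n b := by
  unfold rpoly lowPoly
  rw [← Finset.sum_add_distrib]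
  apply Finset.sum_congr rfl
  intro i _
  rw [Pi.add_apply, Polynomial.C_add, add_mul]

lemma mkp_sub (n : ℕ) (a b : Fin (n + 1) → ZMod p) : rpoly n (a - b) = rpoly n a - rpoly n b := by
  unfold rpoly lowPoly
  rw [← Finset.sum_sub_distrib]
  apply Finset.sum_congr rfl
  intro i _
  rw [Pi.sub_apply, Polynomial.C_sub, sub_mul]

/-- the Fourier transform of a product law at masked places -/
lemma sum_mask_char (n : ℕ) (T : Fin (n + 1) → Bool) (u : Fin (n + 1) → ZMod p → ℝ)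
    (hu : ∀ i, ∑ a, u i a = 1) (l : (ZMod p)[X] →ₗ[ZMod p] ZMod p) :
    ∑ x : Fin (n + 1) → ZMod p, ((∏ i, u i (x i) : ℝ) : ℂ) * ZMod.stdAddChar (l (mkp n T x)) =
      ∏ i : Fin (n + 1), (if T i then muhat (u i) (l (X ^ (i : ℕ))) else 1) := by
  have h1 : ∏ i : Fin (n + 1), (if T i then muhat (u i) (l (X ^ (i : ℕ))) else 1) =
      ∏ i : Fin (n + 1), ∑ a : ZMod p, (u i a : ℂ) *
        (ZMod.stdAddChar ((if T i then a else 0) * l (X ^ (i : ℕ))) : ℂ) := by
    apply Finset.prod_congr rfl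
    intro i _
    by_cases h : T i = true
    · simp only [h, if_true]
      rfl
    · simp only [h]
      have h2 := hu i
      have h3 : ∑ a : ZMod p, (u i a : ℂ) = 1 := by exact_mod_cast h2
      simp [h3]
  rw [h1, ← sum_prod_pi (fun (i : Fin (n + 1)) (a : ZMod p) => (u i a : ℂ) *
        (ZMod.stdAddChar ((if T i then a else 0) * l (X ^ (i : ℕ))) : ℂ))]
  apply Finset.sum_congr rfl
  intro x _
  rw [lin_mkp, addChar_sum]
  push_cast
  rw [← Finset.prod_mul_distrib]

/-- the square of the Fourier transform is the Fourier transform of a difference -/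
lemma VV_sq (n : ℕ) (θ : ℝ) (P D σ : Fin (n + 1) → Bool)
    (ν φ : Fin (n + 1) → ZMod p → ℝ) (Φ : Fin (n + 1) → ZMod p → ℝ)
    (hφ1 : ∀ i, ∑ a, φ i a = 1) (hφΦ : ∀ i c, muhat (φ i) c = (Φ i c : ℂ))
    (l : (ZMod p)[X] →ₗ[ZMod p] ZMod p) :
    ((‖VV n θ P D σ ν φ l‖ ^ 2 * ∏ i : Fin (n + 1), (if D i then Φ i (l (X ^ (i : ℕ))) else 1) : ℝ)
      : ℂ) = ∑ a : Fin (n + 1) → ZMod p, ∑ b : Fin (n + 1) → ZMod p,
        ∑ z : Fin (n + 1) → ZMod p, ((ra θ P D ν φ a * ra θ P D ν φ b * ∏ i, φ i (z i) : ℝ) : ℂ) *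
          ZMod.stdAddChar (l (mkp n (act P D σ) a - mkp n (act P D σ) b + mkp n D z)) := by
  have h1 : (starRingEnd ℂ) (VV n θ P D σ ν φ l) = ∑ b : Fin (n + 1) → ZMod p,
      ((ra θ P D ν φ b : ℝ) : ℂ) * ZMod.stdAddChar (-(l (mkp n (act P D σ) b))) := by
    unfold VV
    rw [map_sum]
    apply Finset.sum_congr rfl
    intro b _
    rw [map_mul, Complex.conj_ofReal, AddChar.map_neg_eq_conj]
  have h2 : ((∏ i : Fin (n + 1), (if D i then Φ i (l (X ^ (i : ℕ))) else 1) : ℝ) : ℂ) =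
      ∑ z : Fin (n + 1) → ZMod p, ((∏ i, φ i (z i) : ℝ) : ℂ) *
        ZMod.stdAddChar (l (mkp n D z)) := by
    rw [sum_mask_char n D φ hφ1 l]
    push_cast
    apply Finset.prod_congr rfl
    intro i _
    by_cases h : D i = true
    · simp only [h, if_true]
      rw [hφΦ]
    · simp [h]
  have h3 : ((‖VV n θ P D σ ν φ l‖ ^ 2 : ℝ) : ℂ) =
      VV n θ P D σ ν φ l * (starRingEnd ℂ) (VV n θ P D σ ν φ l) := by
    rw [Complex.mul_conj']
    push_cast
    rfl
  rw [Complex.ofReal_mul, h2, h3, h1]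
  have h4 : ∀ a b z : Fin (n + 1) → ZMod p,
      ((ra θ P D ν φ a * ra θ P D ν φ b * ∏ i, φ i (z i) : ℝ) : ℂ) *
          (ZMod.stdAddChar (l (mkp n (act P D σ) a - mkp n (act P D σ) b + mkp n D z)) : ℂ) =
      (((ra θ P D ν φ a : ℝ) : ℂ) * ZMod.stdAddChar (l (mkp n (act P D σ) a))) *
        (((ra θ P D ν φ b : ℝ) : ℂ) * ZMod.stdAddChar (-(l (mkp n (act P D σ) b)))) *
        (((∏ i, φ i (z i) : ℝ) : ℂ) * ZMod.stdAddChar (l (mkp n D z))) := by
    intro a b z
    rw [map_add, map_sub, sub_eq_add_neg, AddChar.map_add_eq_mul, AddChar.map_add_eq_mul]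
    push_cast
    ring
  simp_rw [h4]
  simp_rw [← Finset.mul_sum, ← Finset.sum_mul]
  congr 1
  unfold VV
  rw [Finset.sum_mul_sum]

open Classical in
/-- summation over the frequencies -/
lemma pos_dvd (n : ℕ) (θ : ℝ) (P D σ : Fin (n + 1) → Bool)
    (ν φ : Fin (n + 1) → ZMod p → ℝ) (Φ : Fin (n + 1) → ZMod p → ℝ)
    (hφ1 : ∀ i, ∑ a, φ i a = 1) (hφΦ : ∀ i c, muhat (φ i) c = (Φ i c : ℂ))
    (h : (ZMod p)[X]) (hh : h.Monic) (k : ℕ) (hk : h.natDegree = k) :
    ((p : ℝ) ^ k)⁻¹ * ∑ v : Fin k → ZMod p, ‖VV n θ P D σ ν φ (fn h k v)‖ ^ 2 *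
      ∏ i : Fin (n + 1), (if D i then Φ i (fn h k v (X ^ (i : ℕ))) else 1) =
      ∑ a : Fin (n + 1) → ZMod p, ∑ b : Fin (n + 1) → ZMod p,
        ∑ z : Fin (n + 1) → ZMod p, (ra θ P D ν φ a * ra θ P D ν φ b * ∏ i, φ i (z i)) *
          (if h ∣ mkp n (act P D σ) a - mkp n (act P D σ) b + mkp n D z then 1 else 0) := by
  have hp0 : (p : ℝ) ^ k ≠ 0 := by
    have : (p : ℝ) ≠ 0 := by exact_mod_cast hp.out.ne_zero
    exact pow_ne_zero _ this
  rw [inv_mul_eq_iff_eq_mul₀ hp0]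
  have h1 : ((∑ v : Fin k → ZMod p, ‖VV n θ P D σ ν φ (fn h k v)‖ ^ 2 *
      ∏ i : Fin (n + 1), (if D i then Φ i (fn h k v (X ^ (i : ℕ))) else 1) : ℝ) : ℂ) =
      (((p : ℝ) ^ k * ∑ a : Fin (n + 1) → ZMod p, ∑ b : Fin (n + 1) → ZMod p,
        ∑ z : Fin (n + 1) → ZMod p, (ra θ P D ν φ a * ra θ P D ν φ b * ∏ i, φ i (z i)) *
          (if h ∣ mkp n (act P D σ) a - mkp n (act P D σ) b + mkp n D z then 1 else 0) : ℝ) : ℂ) := by
    rw [Complex.ofReal_sum]
    simp_rw [VV_sq n θ P D σ ν φ Φ hφ1 hφΦ]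
    rw [Finset.sum_comm, Complex.ofReal_mul, Complex.ofReal_sum, Finset.mul_sum]
    apply Finset.sum_congr rfl
    intro a _
    rw [Finset.sum_comm, Complex.ofReal_sum, Finset.mul_sum]
    apply Finset.sum_congr rfl
    intro b _
    rw [Finset.sum_comm, Complex.ofReal_sum, Finset.mul_sum]
    apply Finset.sum_congr rfl
    intro z _
    rw [← Finset.mul_sum, sum_fn h hh k hk, Complex.ofReal_mul]
    split_ifs
    · push_cast
      ring
    · push_cast
      ring
  exact_mod_cast h1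

lemma ra_nonneg {N : ℕ} (θ : ℝ) (P D : Fin N → Bool) (ν φ : Fin N → ZMod p → ℝ)
    (hν0 : ∀ i a, 0 ≤ ν i a) (a : Fin N → ZMod p) : 0 ≤ ra θ P D ν φ a := by
  unfold ra
  split_ifs
  · exact Finset.prod_nonneg fun i _ => hν0 i _
  · exact le_rfl

lemma ra_le {N : ℕ} (θ : ℝ) (P D : Fin N → Bool) (ν φ : Fin N → ZMod p → ℝ)
    (hν0 : ∀ i a, 0 ≤ ν i a) (a : Fin N → ZMod p) : ra θ P D ν φ a ≤ ∏ i, ν i (a i) := by
  unfold ra
  split_ifs
  · exact le_rfl
  · exact Finset.prod_nonneg fun i _ => hν0 i _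

lemma sum_pw {N : ℕ} (ν : Fin N → ZMod p → ℝ) (hν : ∀ i, ∑ a, ν i a = 1) :
    ∑ a : Fin N → ZMod p, ∏ i, ν i (a i) = 1 := by
  rw [sum_prod_pi (fun (i : Fin N) (a : ZMod p) => ν i a)]
  exact Finset.prod_eq_one fun i _ => hν i

/-- the size of the restricted weights -/
lemma ra_theta {N : ℕ} (θ : ℝ) (hθ : 0 ≤ θ) (P D : Fin N → Bool)
    (ν φ : Fin N → ZMod p → ℝ) (hν0 : ∀ i a, 0 ≤ ν i a) (b : Fin N → ZMod p) :
    ra θ P D ν φ b * ∏ i, (if D i then φ i 0 else 1) ≤
      θ * ∏ i, (if D i then ν i (b i) else if P i then 1 else ν i (b i)) := by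
  have h0 : 0 ≤ ∏ i, (if D i then ν i (b i) else if P i then 1 else ν i (b i)) := by
    apply Finset.prod_nonneg
    intro i _
    split_ifs
    · exact hν0 _ _
    · exact zero_le_one
    · exact hν0 _ _
  unfold ra
  split_ifs with h
  · have h1 : (∏ i, ν i (b i)) * ∏ i, (if D i then φ i 0 else 1) = Ya P D ν φ b *
        ∏ i, (if D i then ν i (b i) else if P i then 1 else ν i (b i)) := by
      unfold Ya
      rw [← Finset.prod_mul_distrib, ← Finset.prod_mul_distrib]
      apply Finset.prod_congr rfl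
      intro i _
      split_ifs <;> ring
    rw [h1]
    exact mul_le_mul_of_nonneg_right h h0
  · rw [zero_mul]
    exact mul_nonneg hθ h0

/-- the mass of the vectors with prescribed active coordinates, averaged over the patterns -/
lemma theta_le {N : ℕ} (θ : ℝ) (hθ : 0 ≤ θ) (η : ℝ) (hη0 : 0 ≤ η) (hη1 : η ≤ 1)
    (P D : Fin N → Bool)
    (ν φ : Fin N → ZMod p → ℝ) (hν0 : ∀ i a, 0 ≤ ν i a) (hν1 : ∀ i, ∑ a, ν i a = 1)
    (c : Fin N → ZMod p) :
    ∑ σ : Fin N → Bool, pb η σ * ∑ b : Fin N → ZMod p, ra θ P D ν φ b *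
      ((∏ i, if act P D σ i then (if b i = c i then (1 : ℝ) else 0) else 1) *
        ∏ i, (if D i then φ i 0 else 1)) ≤ θ * (1 + η * p) ^ N := by
  have h1 : ∑ σ : Fin N → Bool, pb η σ * ∑ b : Fin N → ZMod p, ra θ P D ν φ b *
      ((∏ i, if act P D σ i then (if b i = c i then (1 : ℝ) else 0) else 1) *
        ∏ i, (if D i then φ i 0 else 1)) =
      ∑ b : Fin N → ZMod p, (ra θ P D ν φ b * ∏ i, (if D i then φ i 0 else 1)) *
        ∏ i, (if (P i && !(D i)) then (1 - η) * (if b i = c i then (1 : ℝ) else 0) + η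
          else 1) := by
    have h2 : ∀ b : Fin N → ZMod p, ∑ σ : Fin N → Bool, pb η σ *
        (∏ i, if act P D σ i then (if b i = c i then (1 : ℝ) else 0) else 1) =
        ∏ i, (if (P i && !(D i)) then (1 - η) * (if b i = c i then (1 : ℝ) else 0) + η
          else 1) := by
      intro b
      have h3 : ∀ σ : Fin N → Bool, pb η σ *
          (∏ i, if act P D σ i then (if b i = c i then (1 : ℝ) else 0) else 1) =
          ∏ i, (pb1 η (σ i) * (if (P i && !(D i) && !(σ i)) then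
            (if b i = c i then (1 : ℝ) else 0) else 1)) := by
        intro σ
        unfold pb act
        rw [Finset.prod_mul_distrib]
      rw [Finset.sum_congr rfl (fun σ _ => h3 σ),
        sum_prod_pi (fun (i : Fin N) (t : Bool) => pb1 η t * (if (P i && !(D i) && !t) then
            (if b i = c i then (1 : ℝ) else 0) else 1))]
      apply Finset.prod_congr rfl
      intro i _
      rw [Fintype.sum_bool]
      unfold pb1
      cases hD : D i <;> cases hP : P i <;> simp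
      ring
    simp_rw [Finset.mul_sum]
    rw [Finset.sum_comm]
    apply Finset.sum_congr rfl
    intro b _
    rw [← h2 b, Finset.mul_sum]
    apply Finset.sum_congr rfl
    intro σ _
    ring
  rw [h1]
  have h4 : ∀ b : Fin N → ZMod p, (ra θ P D ν φ b * ∏ i, (if D i then φ i 0 else 1)) *
        (∏ i, (if (P i && !(D i)) then (1 - η) * (if b i = c i then (1 : ℝ) else 0) + η
          else 1)) ≤ θ * ∏ i, (if D i then ν i (b i) else if P i then
            (if b i = c i then (1 : ℝ) else 0) + η else ν i (b i)) := by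
    intro b
    have h5 := ra_theta θ hθ P D ν φ hν0 b
    have h6 : ∀ i, 0 ≤ (if (P i && !(D i)) then (1 - η) * (if b i = c i then (1 : ℝ) else 0) + η
          else 1) := by
      intro i
      have : 0 ≤ 1 - η := by linarith
      split_ifs <;> positivity
    have h7 : ∀ i, (if (P i && !(D i)) then (1 - η) * (if b i = c i then (1 : ℝ) else 0) + η
          else 1) ≤ (if (P i && !(D i)) then (if b i = c i then (1 : ℝ) else 0) + η else 1) := by
      intro i
      split_ifs <;> linarith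
    have h8 := Finset.prod_le_prod (s := Finset.univ) (fun i _ => h6 i) (fun i _ => h7 i)
    have h9 : 0 ≤ ∏ i, (if D i then ν i (b i) else if P i then 1 else ν i (b i)) := by
      apply Finset.prod_nonneg
      intro i _
      split_ifs
      · exact hν0 _ _
      · exact zero_le_one
      · exact hν0 _ _
    refine (mul_le_mul h5 h8 (Finset.prod_nonneg fun i _ => h6 i)
      (mul_nonneg hθ h9)).trans (le_of_eq ?_)
    rw [mul_assoc, ← Finset.prod_mul_distrib]
    congr 1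
    apply Finset.prod_congr rfl
    intro i _
    cases hD : D i <;> cases hP : P i <;> simp
  refine (Finset.sum_le_sum fun b _ => h4 b).trans ?_
  rw [← Finset.mul_sum]
  apply mul_le_mul_of_nonneg_left _ hθ
  rw [sum_prod_pi (fun (i : Fin N) (x : ZMod p) => if D i then ν i x else if P i then
            (if x = c i then (1 : ℝ) else 0) + η else ν i x)]
  have hp0 : (0 : ℝ) < p := by exact_mod_cast hp.out.pos
  have hηp : 0 ≤ η * p := by positivity
  have h10 : ∀ i, ∑ x : ZMod p, (if D i then ν i x else if P i then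
            (if x = c i then (1 : ℝ) else 0) + η else ν i x) ≤ 1 + η * p := by
    intro i
    cases hD : D i
    · cases hP : P i
      · simp only [Bool.false_eq_true, if_false]
        rw [hν1 i]
        linarith
      · simp only [Bool.false_eq_true, if_false, if_true]
        rw [Finset.sum_add_distrib, Finset.sum_ite_eq' Finset.univ (c i),
          if_pos (Finset.mem_univ _), Finset.sum_const, Finset.card_univ, ZMod.card, nsmul_eq_mul]
        linarith
    · simp only [if_true]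
      rw [hν1 i]
      linarith
  have h11 : ∀ i, 0 ≤ ∑ x : ZMod p, (if D i then ν i x else if P i then
            (if x = c i then (1 : ℝ) else 0) + η else ν i x) := by
    intro i
    apply Finset.sum_nonneg
    intro x _
    split_ifs <;> first | exact hν0 _ _ | linarith
  refine (Finset.prod_le_prod (fun i _ => h11 i) (fun i _ => h10 i)).trans (le_of_eq ?_)
  rw [Finset.prod_const, Finset.card_univ, Fintype.card_fin]

open Classical in
/-- the collisions -/
noncomputable def coll (n : ℕ) (θ : ℝ) (P D σ : Fin (n + 1) → Bool)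
    (ν φ : Fin (n + 1) → ZMod p → ℝ) : ℝ :=
  ∑ a : Fin (n + 1) → ZMod p, ∑ b : Fin (n + 1) → ZMod p,
        ∑ z : Fin (n + 1) → ZMod p, (ra θ P D ν φ a * ra θ P D ν φ b * ∏ i, φ i (z i)) *
          (if mkp n (act P D σ) a - mkp n (act P D σ) b + mkp n D z = 0 then 1 else 0)

/-- the collisions for fixed patterns -/
lemma coll_fix (n : ℕ) (θ : ℝ) (P D σ : Fin (n + 1) → Bool)
    (ν φ : Fin (n + 1) → ZMod p → ℝ) (hν0 : ∀ i a, 0 ≤ ν i a)
    (hφ0 : ∀ i a, 0 ≤ φ i a) (hφ1 : ∀ i, ∑ a, φ i a = 1) :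
    coll n θ P D σ ν φ ≤ ∑ a : Fin (n + 1) → ZMod p, ra θ P D ν φ a *
      ∑ b : Fin (n + 1) → ZMod p, ra θ P D ν φ b *
      ((∏ i, if act P D σ i then (if b i = a i then (1 : ℝ) else 0) else 1) *
        ∏ i, (if D i then φ i 0 else 1)) := by
  classical
  unfold coll
  apply Finset.sum_le_sum
  intro a _
  rw [Finset.mul_sum]
  apply Finset.sum_le_sum
  intro b _
  have hra := ra_nonneg θ P D ν φ hν0 a
  have hrb := ra_nonneg θ P D ν φ hν0 b
  have h1 : ∀ z : Fin (n + 1) → ZMod p, (ra θ P D ν φ a * ra θ P D ν φ b * ∏ i, φ i (z i)) *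
      (if mkp n (act P D σ) a - mkp n (act P D σ) b + mkp n D z = 0 then 1 else 0) ≤
      (ra θ P D ν φ a * ra θ P D ν φ b *
        (∏ i, if act P D σ i then (if b i = a i then (1 : ℝ) else 0) else 1)) *
      ∏ i, (φ i (z i) * (if D i then (if z i = 0 then (1 : ℝ) else 0) else 1)) := by
    intro z
    have hz0 : 0 ≤ ∏ i, φ i (z i) := Finset.prod_nonneg fun i _ => hφ0 i _
    split_ifs with h0
    · have h2 : rpoly n ((fun i => if act P D σ i then a i else 0) -
          (fun i => if act P D σ i then b i else 0) + (fun i => if D i then z i else 0)) = 0 := by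
        rw [mkp_add, mkp_sub]
        exact h0
      rw [rpoly_eq_zero] at h2
      have h3 : (∏ i, if act P D σ i then (if b i = a i then (1 : ℝ) else 0) else 1) = 1 := by
        apply Finset.prod_eq_one
        intro i _
        by_cases hA : act P D σ i = true
        · have h4 := congrFun h2 i
          have hD : D i = false := by
            unfold act at hA
            simp at hA
            exact hA.1.2
          simp [hA, hD] at h4
          rw [if_pos hA, if_pos (sub_eq_zero.1 h4).symm]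
        · simp [hA]
      have h5 : (∏ i, (φ i (z i) * (if D i then (if z i = 0 then (1 : ℝ) else 0) else 1))) =
          ∏ i, φ i (z i) := by
        apply Finset.prod_congr rfl
        intro i _
        by_cases hD : D i = true
        · have hA : act P D σ i = false := by unfold act; simp [hD]
          have h4 := congrFun h2 i
          simp [hA, hD] at h4
          rw [if_pos hD, if_pos h4, mul_one]
        · rw [if_neg hD, mul_one]
      rw [h3, h5, mul_one, mul_one]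
    · rw [mul_zero]
      apply mul_nonneg
      · apply mul_nonneg (mul_nonneg hra hrb)
        apply Finset.prod_nonneg
        intro i _
        split_ifs <;> norm_num
      · apply Finset.prod_nonneg
        intro i _
        apply mul_nonneg (hφ0 _ _)
        split_ifs <;> norm_num
  refine (Finset.sum_le_sum fun z _ => h1 z).trans (le_of_eq ?_)
  rw [← Finset.mul_sum, sum_prod_pi (fun (i : Fin (n + 1)) (x : ZMod p) =>
    φ i x * (if D i then (if x = 0 then (1 : ℝ) else 0) else 1))]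
  have h6 : ∀ i, ∑ x : ZMod p, φ i x * (if D i then (if x = 0 then (1 : ℝ) else 0) else 1) =
      if D i then φ i 0 else 1 := by
    intro i
    by_cases hD : D i = true
    · simp [hD]
    · simp [hD, hφ1 i]
  simp_rw [h6]
  ring

/-- the collisions, averaged over the patterns -/
lemma coll_avg (n : ℕ) (θ : ℝ) (hθ : 0 ≤ θ) (η : ℝ) (hη0 : 0 ≤ η) (hη1 : η ≤ 1)
    (P D : Fin (n + 1) → Bool)
    (ν φ : Fin (n + 1) → ZMod p → ℝ) (hν0 : ∀ i a, 0 ≤ ν i a) (hν1 : ∀ i, ∑ a, ν i a = 1)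
    (hφ0 : ∀ i a, 0 ≤ φ i a) (hφ1 : ∀ i, ∑ a, φ i a = 1) :
    ∑ σ : Fin (n + 1) → Bool, pb η σ * coll n θ P D σ ν φ ≤ θ * (1 + η * p) ^ (n + 1) := by
  have hp0 : (0 : ℝ) < p := by exact_mod_cast hp.out.pos
  have hT0 : 0 ≤ θ * (1 + η * p) ^ (n + 1) := by positivity
  have h1 : ∑ σ : Fin (n + 1) → Bool, pb η σ * coll n θ P D σ ν φ ≤
      ∑ σ : Fin (n + 1) → Bool, pb η σ * ∑ a : Fin (n + 1) → ZMod p, ra θ P D ν φ a *
      ∑ b : Fin (n + 1) → ZMod p, ra θ P D ν φ b *
      ((∏ i, if act P D σ i then (if b i = a i then (1 : ℝ) else 0) else 1) *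
        ∏ i, (if D i then φ i 0 else 1)) := by
    apply Finset.sum_le_sum
    intro σ _
    exact mul_le_mul_of_nonneg_left (coll_fix n θ P D σ ν φ hν0 hφ0 hφ1) (pb_nonneg hη0 hη1 σ)
  refine h1.trans ?_
  have h2 : ∑ σ : Fin (n + 1) → Bool, pb η σ * ∑ a : Fin (n + 1) → ZMod p, ra θ P D ν φ a *
      ∑ b : Fin (n + 1) → ZMod p, ra θ P D ν φ b *
      ((∏ i, if act P D σ i then (if b i = a i then (1 : ℝ) else 0) else 1) *
        ∏ i, (if D i then φ i 0 else 1)) =
      ∑ a : Fin (n + 1) → ZMod p, ra θ P D ν φ a * ∑ σ : Fin (n + 1) → Bool, pb η σ *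
      ∑ b : Fin (n + 1) → ZMod p, ra θ P D ν φ b *
      ((∏ i, if act P D σ i then (if b i = a i then (1 : ℝ) else 0) else 1) *
        ∏ i, (if D i then φ i 0 else 1)) := by
    rw [Finset.sum_congr rfl (fun σ _ => Finset.mul_sum _ _ _), Finset.sum_comm]
    apply Finset.sum_congr rfl
    intro a _
    rw [Finset.mul_sum]
    apply Finset.sum_congr rfl
    intro σ _
    ring
  rw [h2]
  calc _ ≤ ∑ a : Fin (n + 1) → ZMod p, (∏ i, ν i (a i)) * (θ * (1 + η * p) ^ (n + 1)) := by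
        apply Finset.sum_le_sum
        intro a _
        have h3 := theta_le θ hθ η hη0 hη1 P D ν φ hν0 hν1 a
        calc _ ≤ ra θ P D ν φ a * (θ * (1 + η * p) ^ (n + 1)) :=
              mul_le_mul_of_nonneg_left h3 (ra_nonneg θ P D ν φ hν0 a)
          _ ≤ _ := mul_le_mul_of_nonneg_right (ra_le θ P D ν φ hν0 a) hT0
    _ = _ := by rw [← Finset.sum_mul, sum_pw ν hν1, one_mul]

open Classical in
/-- the positive part, summed over the moduli -/
lemma pos_sum (n m R k : ℕ) (hR : n < (m + 1) * R) (θ : ℝ)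
    (P D σ : Fin (n + 1) → Bool)
    (ν φ : Fin (n + 1) → ZMod p → ℝ) (Φ : Fin (n + 1) → ZMod p → ℝ)
    (hν0 : ∀ i a, 0 ≤ ν i a) (hν1 : ∀ i, ∑ a, ν i a = 1)
    (hφ0 : ∀ i a, 0 ≤ φ i a) (hφ1 : ∀ i, ∑ a, φ i a = 1)
    (hφΦ : ∀ i c, muhat (φ i) c = (Φ i c : ℂ)) (H : Finset (ZMod p)[X])
    (hH : ∀ h ∈ H, h.Monic ∧ h.natDegree = k ∧ Fac (fun d => m < d) h) :
    ∑ h ∈ H, ((p : ℝ) ^ k)⁻¹ * ∑ v : Fin k → ZMod p, ‖VV n θ P D σ ν φ (fn h k v)‖ ^ 2 *
      ∏ i : Fin (n + 1), (if D i then Φ i (fn h k v (X ^ (i : ℕ))) else 1) ≤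
      2 ^ R + (H.card : ℝ) * coll n θ P D σ ν φ := by
  have h1 : ∀ h ∈ H, ((p : ℝ) ^ k)⁻¹ * ∑ v : Fin k → ZMod p, ‖VV n θ P D σ ν φ (fn h k v)‖ ^ 2 *
      ∏ i : Fin (n + 1), (if D i then Φ i (fn h k v (X ^ (i : ℕ))) else 1) =
      ∑ a : Fin (n + 1) → ZMod p, ∑ b : Fin (n + 1) → ZMod p,
        ∑ z : Fin (n + 1) → ZMod p, (ra θ P D ν φ a * ra θ P D ν φ b * ∏ i, φ i (z i)) *
          (if h ∣ mkp n (act P D σ) a - mkp n (act P D σ) b + mkp n D z then 1 else 0) :=
    fun h hh => pos_dvd n θ P D σ ν φ Φ hφ1 hφΦ h (hH h hh).1 k (hH h hh).2.1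
  rw [Finset.sum_congr rfl h1, Finset.sum_comm]
  have h2 : ∀ a b z : Fin (n + 1) → ZMod p,
      ∑ h ∈ H, (ra θ P D ν φ a * ra θ P D ν φ b * ∏ i, φ i (z i)) *
          (if h ∣ mkp n (act P D σ) a - mkp n (act P D σ) b + mkp n D z then (1 : ℝ) else 0) ≤
      (∏ i, ν i (a i)) * (∏ i, ν i (b i)) * (∏ i, φ i (z i)) * 2 ^ R +
      (H.card : ℝ) * ((ra θ P D ν φ a * ra θ P D ν φ b * ∏ i, φ i (z i)) *
          (if mkp n (act P D σ) a - mkp n (act P D σ) b + mkp n D z = 0 then 1 else 0)) := by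
    intro a b z
    obtain ⟨f, hf⟩ : ∃ f, f = mkp n (act P D σ) a - mkp n (act P D σ) b + mkp n D z := ⟨_, rfl⟩
    have hdeg : f.natDegree ≤ n := by
      rw [hf]
      have h3 : mkp n (act P D σ) a - mkp n (act P D σ) b + mkp n D z =
          rpoly n ((fun i => if act P D σ i then a i else 0) -
          (fun i => if act P D σ i then b i else 0) + (fun i => if D i then z i else 0)) := by
        rw [mkp_add, mkp_sub]
        rfl
      rw [h3]
      exact natDegree_rpoly_le n _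
    rw [← hf]
    have ha := ra_nonneg θ P D ν φ hν0 a
    have hb := ra_nonneg θ P D ν φ hν0 b
    have ha' := ra_le θ P D ν φ hν0 a
    have hb' := ra_le θ P D ν φ hν0 b
    have hz0 : 0 ≤ ∏ i, φ i (z i) := Finset.prod_nonneg fun i _ => hφ0 i _
    have hw0 : 0 ≤ ra θ P D ν φ a * ra θ P D ν φ b * ∏ i, φ i (z i) :=
      mul_nonneg (mul_nonneg ha hb) hz0
    have hw1 : ra θ P D ν φ a * ra θ P D ν φ b * ∏ i, φ i (z i) ≤
        (∏ i, ν i (a i)) * (∏ i, ν i (b i)) * (∏ i, φ i (z i)) :=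
      mul_le_mul_of_nonneg_right (mul_le_mul ha' hb' hb (ha.trans ha')) hz0
    rw [← Finset.mul_sum]
    have hc : ∑ h ∈ H, (if h ∣ f then (1 : ℝ) else 0) = ((H.filter (fun h => h ∣ f)).card : ℝ) := by
      rw [Finset.sum_ite, Finset.sum_const_zero, add_zero, Finset.sum_const, nsmul_eq_mul, mul_one]
    rw [hc]
    by_cases h0 : f = 0
    · rw [if_pos h0, mul_one]
      have h4 : ((H.filter (fun h => h ∣ f)).card : ℝ) ≤ H.card := by
        exact_mod_cast Finset.card_filter_le _ _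
      have h5 := mul_le_mul_of_nonneg_left h4 hw0
      have h6 : 0 ≤ (∏ i, ν i (a i)) * (∏ i, ν i (b i)) * (∏ i, φ i (z i)) * 2 ^ R :=
        mul_nonneg (hw0.trans hw1) (by positivity)
      linarith
    · rw [if_neg h0, mul_zero, mul_zero, add_zero]
      have h4 := card_dvd_le n m R hR f h0 hdeg (H.filter (fun h => h ∣ f)) (by
        intro h hh
        obtain ⟨h5, h6⟩ := Finset.mem_filter.1 hh
        exact ⟨(hH h h5).1, (hH h h5).2.2, h6⟩)
      exact mul_le_mul hw1 h4 (Nat.cast_nonneg _) (hw0.trans hw1)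
  have h3 : ∑ a : Fin (n + 1) → ZMod p, ∑ h ∈ H, ∑ b : Fin (n + 1) → ZMod p,
        ∑ z : Fin (n + 1) → ZMod p, (ra θ P D ν φ a * ra θ P D ν φ b * ∏ i, φ i (z i)) *
          (if h ∣ mkp n (act P D σ) a - mkp n (act P D σ) b + mkp n D z then (1 : ℝ) else 0) ≤
      ∑ a : Fin (n + 1) → ZMod p, ∑ b : Fin (n + 1) → ZMod p,
        ∑ z : Fin (n + 1) → ZMod p, ((∏ i, ν i (a i)) * (∏ i, ν i (b i)) * (∏ i, φ i (z i)) * 2 ^ R +
      (H.card : ℝ) * ((ra θ P D ν φ a * ra θ P D ν φ b * ∏ i, φ i (z i)) *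
          (if mkp n (act P D σ) a - mkp n (act P D σ) b + mkp n D z = 0 then 1 else 0))) := by
    apply Finset.sum_le_sum
    intro a _
    rw [Finset.sum_comm]
    apply Finset.sum_le_sum
    intro b _
    rw [Finset.sum_comm]
    exact Finset.sum_le_sum fun z _ => h2 a b z
  refine h3.trans ?_
  simp_rw [Finset.sum_add_distrib, ← Finset.mul_sum, ← Finset.sum_mul]
  apply add_le_add
  · simp_rw [← Finset.mul_sum, sum_pw φ hφ1, mul_one]
    simp_rw [← Finset.mul_sum, sum_pw ν hν1, mul_one]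
    rw [sum_pw ν hν1, one_mul]
  · unfold coll
    exact le_rfl

end Pool.Agent.MP0a1886
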