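import Pool.Agent.MP0a1886.Min.Ent2

/-! The level of distribution below half the entropy: the decomposition (MP_0a1886_pr). -/

set_option autoImplicit false
set_option linter.unusedSectionVars false
open Finset Polynomial

namespace Pool.Agent.MP0a1886

variable {p : ℕ} [hp : Fact p.Prime]

/-- the resampled places -/
def rs {N : ℕ} (P P' D σ τ : Fin N → Bool) (i : Fin N) : Bool :=
  !(act P D σ i) && !(act P' D τ i)

lemma rs_comm {N : ℕ} (P P' D σ τ : Fin N → Bool) : rs P P' D σ τ = rs P' P D τ σ := by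
  funext i
  unfold rs
  exact Bool.and_comm _ _

lemma split3 {N : ℕ} (u ν : Fin N → ZMod p → ℝ) (hu : ∀ i, ∑ a, u i a = 1)
    (hν : ∀ i, ∑ a, ν i a = 1) (T P : Fin N → Bool) (F : (Fin N → ZMod p) → ℝ) :
    ∑ a : Fin N → ZMod p, ∑ b : Fin N → ZMod p, ∑ x : Fin N → ZMod p,
      (∏ i, ν i (a i)) * (∏ i, ν i (b i)) * (∏ i, u i (x i)) *
      F (fun i => if T i then x i else if P i then a i else b i) =
    ∑ ε : Fin N → ZMod p, (∏ i, if T i then u i (ε i) else ν i (ε i)) * F ε := by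
  obtain ⟨G, hG⟩ : ∃ G : (Fin N → ZMod p) → ℝ, G = fun c => ∑ x : Fin N → ZMod p,
    (∏ i, u i (x i)) * F (fun i => if T i then x i else c i) := ⟨_, rfl⟩
  have h1 : ∑ a : Fin N → ZMod p, ∑ b : Fin N → ZMod p, ∑ x : Fin N → ZMod p,
      (∏ i, ν i (a i)) * (∏ i, ν i (b i)) * (∏ i, u i (x i)) *
      F (fun i => if T i then x i else if P i then a i else b i) =
      ∑ a : Fin N → ZMod p, ∑ b : Fin N → ZMod p, (∏ i, ν i (a i)) * (∏ i, ν i (b i)) *
        G (fun i => if (!(P i)) then b i else a i) := by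
    apply Finset.sum_congr rfl
    intro a _
    apply Finset.sum_congr rfl
    intro b _
    rw [hG]
    simp only
    rw [Finset.mul_sum]
    apply Finset.sum_congr rfl
    intro x _
    rw [← mul_assoc]
    congr 2
    funext i
    by_cases h : T i = true
    · simp [h]
    · by_cases h' : P i = true
      · simp [h, h']
      · simp [h, h']
  rw [h1, resample ν ν hν hν (fun i => !(P i)) G]
  have h2 : ∀ ε : Fin N → ZMod p, (∏ i, if (!(P i)) then ν i (ε i) else ν i (ε i)) =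
      ∏ i, ν i (ε i) := by
    intro ε
    apply Finset.prod_congr rfl
    intro i _
    split_ifs <;> rfl
  simp_rw [h2]
  rw [hG, ← resample u ν hu hν T F]
  apply Finset.sum_congr rfl
  intro a _
  simp only
  rw [Finset.mul_sum]
  apply Finset.sum_congr rfl
  intro x _
  ring

/-- the law of one coefficient after averaging over the patterns -/
noncomputable def Lw {N : ℕ} (η : ℝ) (D : Fin N → Bool) (u ν : Fin N → ZMod p → ℝ) (i : Fin N)
    (a : ZMod p) : ℝ := if D i then u i a else η * u i a + (1 - η) * ν i a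

lemma avg_pat {N : ℕ} (η : ℝ) (P P' D : Fin N → Bool) (hP : ∀ i, P' i = !(P i))
    (u ν : Fin N → ZMod p → ℝ) (ε : Fin N → ZMod p) :
    ∑ σ : Fin N → Bool, ∑ τ : Fin N → Bool, pb η σ * pb η τ *
      (∏ i, if rs P P' D σ τ i then u i (ε i) else ν i (ε i)) = ∏ i, Lw η D u ν i (ε i) := by
  obtain ⟨q, hq⟩ : ∃ q : Fin N → Bool → Bool → ℝ, q = fun i s t =>
    if (!(P i && !(D i) && !s) && !(P' i && !(D i) && !t)) then u i (ε i) else ν i (ε i) :=
    ⟨_, rfl⟩
  have h1 : ∀ σ τ : Fin N → Bool, pb η σ * pb η τ *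
      (∏ i, if rs P P' D σ τ i then u i (ε i) else ν i (ε i)) =
      ∏ i, pb1 η (σ i) * (pb1 η (τ i) * q i (σ i) (τ i)) := by
    intro σ τ
    unfold pb
    rw [Finset.prod_mul_distrib, Finset.prod_mul_distrib, mul_assoc]
    congr 2
    rw [hq]
    rfl
  simp_rw [h1]
  have h2 : ∀ σ : Fin N → Bool, ∑ τ : Fin N → Bool, ∏ i, pb1 η (σ i) *
      (pb1 η (τ i) * q i (σ i) (τ i)) =
      ∏ i, ∑ t : Bool, pb1 η (σ i) * (pb1 η t * q i (σ i) t) := fun σ =>
    sum_prod_pi (fun (i : Fin N) (t : Bool) => pb1 η (σ i) * (pb1 η t * q i (σ i) t))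
  simp_rw [h2]
  rw [sum_prod_pi (fun (i : Fin N) (s : Bool) => ∑ t : Bool, pb1 η s * (pb1 η t * q i s t))]
  apply Finset.prod_congr rfl
  intro i _
  rw [Fintype.sum_bool, Fintype.sum_bool, Fintype.sum_bool, hq]
  unfold Lw pb1
  simp only [hP i]
  by_cases hD : D i = true
  · by_cases hPi : P i = true
    · simp [hD, hPi]
      ring
    · simp [hD, hPi]
      ring
  · by_cases hPi : P i = true
    · simp [hD, hPi]
      ring
    · simp [hD, hPi]
      ring

/-- the random polynomial built from the pieces -/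
lemma mix_poly (n : ℕ) (P P' D σ τ : Fin (n + 1) → Bool) (hP : ∀ i, P' i = !(P i))
    (a b x : Fin (n + 1) → ZMod p) :
    rpoly n (fun i => if rs P P' D σ τ i then x i else if P i then a i else b i) =
      mkp n (act P D σ) a + mkp n (act P' D τ) b + mkp n (rs P P' D σ τ) x := by
  unfold mkp
  rw [← mkp_add, ← mkp_add]
  congr 1
  funext i
  rw [Pi.add_apply, Pi.add_apply]
  unfold rs act
  rw [hP i]
  cases P i <;> cases D i <;> cases σ i <;> cases τ i <;> simp

open Classical in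
/-- the probability of an event in terms of the pieces -/
lemma Prg_pieces (n : ℕ) (η : ℝ) (P P' D : Fin (n + 1) → Bool) (hP : ∀ i, P' i = !(P i))
    (u ν : Fin (n + 1) → ZMod p → ℝ) (hu : ∀ i, ∑ a, u i a = 1) (hν : ∀ i, ∑ a, ν i a = 1)
    (E : (ZMod p)[X] → Prop) :
    Prg n (Lw η D u ν) E = ∑ σ : Fin (n + 1) → Bool, ∑ τ : Fin (n + 1) → Bool, pb η σ * pb η τ *
      ∑ a : Fin (n + 1) → ZMod p, ∑ b : Fin (n + 1) → ZMod p, ∑ x : Fin (n + 1) → ZMod p,
      (∏ i, ν i (a i)) * (∏ i, ν i (b i)) * (∏ i, u i (x i)) *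
      (if E (mkp n (act P D σ) a + mkp n (act P' D τ) b + mkp n (rs P P' D σ τ) x)
        then 1 else 0) := by
  have h1 : ∀ σ τ : Fin (n + 1) → Bool,
      ∑ a : Fin (n + 1) → ZMod p, ∑ b : Fin (n + 1) → ZMod p, ∑ x : Fin (n + 1) → ZMod p,
      (∏ i, ν i (a i)) * (∏ i, ν i (b i)) * (∏ i, u i (x i)) *
      (if E (mkp n (act P D σ) a + mkp n (act P' D τ) b + mkp n (rs P P' D σ τ) x)
        then (1 : ℝ) else 0) = ∑ ε : Fin (n + 1) → ZMod p,
        (∏ i, if rs P P' D σ τ i then u i (ε i) else ν i (ε i)) *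
        (if E (rpoly n ε) then 1 else 0) := by
    intro σ τ
    rw [← split3 u ν hu hν (rs P P' D σ τ) P (fun ε => if E (rpoly n ε) then 1 else 0)]
    simp only [mix_poly n P P' D σ τ hP]
  simp_rw [h1, Finset.mul_sum]
  have h2 : ∀ σ : Fin (n + 1) → Bool, ∑ τ : Fin (n + 1) → Bool, ∑ ε : Fin (n + 1) → ZMod p,
      pb η σ * pb η τ * ((∏ i, if rs P P' D σ τ i then u i (ε i) else ν i (ε i)) *
        (if E (rpoly n ε) then 1 else 0)) = ∑ ε : Fin (n + 1) → ZMod p,
        ∑ τ : Fin (n + 1) → Bool,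
      pb η σ * pb η τ * ((∏ i, if rs P P' D σ τ i then u i (ε i) else ν i (ε i)) *
        (if E (rpoly n ε) then 1 else 0)) := fun σ => Finset.sum_comm
  simp_rw [h2]
  rw [Finset.sum_comm]
  unfold Prg
  apply Finset.sum_congr rfl
  intro ε _
  have h3 : ∀ σ τ : Fin (n + 1) → Bool,
      pb η σ * pb η τ * ((∏ i, if rs P P' D σ τ i then u i (ε i) else ν i (ε i)) *
        (if E (rpoly n ε) then (1 : ℝ) else 0)) =
      (if E (rpoly n ε) then (1 : ℝ) else 0) * (pb η σ * pb η τ *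
        (∏ i, if rs P P' D σ τ i then u i (ε i) else ν i (ε i))) := fun σ τ => by ring
  simp_rw [h3, ← Finset.mul_sum, avg_pat η P P' D hP u ν ε]
  split_ifs <;> simp

end Pool.Agent.MP0a1886
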