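import Pool.Agent.MP0a1886.Min.Ent3

/-! The level of distribution below half the entropy: the bound for one environment
(MP_0a1886_pr). -/

set_option autoImplicit false
set_option linter.unusedSectionVars false
open Finset Polynomial

namespace Pool.Agent.MP0a1886

variable {p : ℕ} [hp : Fact p.Prime]

/-- the absolute value of the Fourier transform of the resampled part -/
noncomputable def XX (n : ℕ) (P P' D : Fin (n + 1) → Bool) (u : Fin (n + 1) → ZMod p → ℝ)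
    (σ τ : Fin (n + 1) → Bool) (l : (ZMod p)[X] →ₗ[ZMod p] ZMod p) : ℝ :=
  ∏ i : Fin (n + 1), (if rs P P' D σ τ i then ‖muhat (u i) (l (X ^ (i : ℕ)))‖ else 1)

/-- the polynomial built from the pieces -/
noncomputable def fp (n : ℕ) (P P' D σ τ : Fin (n + 1) → Bool)
    (a b x : Fin (n + 1) → ZMod p) : (ZMod p)[X] :=
  mkp n (act P D σ) a + mkp n (act P' D τ) b + mkp n (rs P P' D σ τ) x

open Classical in
lemma fourier_pieces (n : ℕ) (θ : ℝ) (P P' D σ τ : Fin (n + 1) → Bool)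
    (u ν φ : Fin (n + 1) → ZMod p → ℝ) (hu : ∀ i, ∑ a, u i a = 1)
    (h : (ZMod p)[X]) (hh : h.Monic) (k : ℕ) (hk : h.natDegree = k) :
    |∑ a : Fin (n + 1) → ZMod p, ∑ b : Fin (n + 1) → ZMod p, ∑ x : Fin (n + 1) → ZMod p,
      ra θ P D ν φ a * ra θ P' D ν φ b * (∏ i, u i (x i)) *
      ((if h ∣ fp n P P' D σ τ a b x then 1 else 0) - ((p : ℝ) ^ k)⁻¹)| ≤
    ((p : ℝ) ^ k)⁻¹ * ∑ v ∈ (Finset.univ : Finset (Fin k → ZMod p)).erase 0,
      ‖VV n θ P D σ ν φ (fn h k v)‖ * ‖VV n θ P' D τ ν φ (fn h k v)‖ *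
        XX n P P' D u σ τ (fn h k v) := by
  have hpr : (0 : ℝ) < p := by exact_mod_cast hp.out.pos
  have hpk : (0 : ℝ) < (p : ℝ) ^ k := by positivity
  have hpc : (p : ℂ) ^ k ≠ 0 := by
    have : (p : ℂ) ≠ 0 := by exact_mod_cast hp.out.ne_zero
    exact pow_ne_zero _ this
  -- one frequency
  have h1 : ∀ v : Fin k → ZMod p, VV n θ P D σ ν φ (fn h k v) * VV n θ P' D τ ν φ (fn h k v) *
      (∏ i : Fin (n + 1), (if rs P P' D σ τ i then muhat (u i) (fn h k v (X ^ (i : ℕ))) else 1)) =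
      ∑ a : Fin (n + 1) → ZMod p, ∑ b : Fin (n + 1) → ZMod p, ∑ x : Fin (n + 1) → ZMod p,
      ((ra θ P D ν φ a * ra θ P' D ν φ b * (∏ i, u i (x i)) : ℝ) : ℂ) *
        ZMod.stdAddChar (fn h k v (fp n P P' D σ τ a b x)) := by
    intro v
    rw [← sum_mask_char n (rs P P' D σ τ) u hu (fn h k v)]
    have h2 : ∀ a b x : Fin (n + 1) → ZMod p,
        ((ra θ P D ν φ a * ra θ P' D ν φ b * (∏ i, u i (x i)) : ℝ) : ℂ) *
          (ZMod.stdAddChar (fn h k v (fp n P P' D σ τ a b x)) : ℂ) =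
        (((ra θ P D ν φ a : ℝ) : ℂ) * ZMod.stdAddChar (fn h k v (mkp n (act P D σ) a))) *
        (((ra θ P' D ν φ b : ℝ) : ℂ) * ZMod.stdAddChar (fn h k v (mkp n (act P' D τ) b))) *
        (((∏ i, u i (x i) : ℝ) : ℂ) *
          ZMod.stdAddChar (fn h k v (mkp n (rs P P' D σ τ) x))) := by
      intro a b x
      unfold fp
      rw [LinearMap.map_add, LinearMap.map_add, AddChar.map_add_eq_mul, AddChar.map_add_eq_mul]
      push_cast
      ring
    simp_rw [h2]
    simp_rw [← Finset.mul_sum, ← Finset.sum_mul]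
    congr 1
    unfold VV
    rw [Finset.sum_mul_sum]
  -- all frequencies
  have h3 : ∑ v : Fin k → ZMod p, ∑ a : Fin (n + 1) → ZMod p, ∑ b : Fin (n + 1) → ZMod p,
      ∑ x : Fin (n + 1) → ZMod p,
      ((ra θ P D ν φ a * ra θ P' D ν φ b * (∏ i, u i (x i)) : ℝ) : ℂ) *
        (ZMod.stdAddChar (fn h k v (fp n P P' D σ τ a b x)) : ℂ) =
      ∑ a : Fin (n + 1) → ZMod p, ∑ b : Fin (n + 1) → ZMod p, ∑ x : Fin (n + 1) → ZMod p,
      ((ra θ P D ν φ a * ra θ P' D ν φ b * (∏ i, u i (x i)) : ℝ) : ℂ) *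
        (if h ∣ fp n P P' D σ τ a b x then (p : ℂ) ^ k else 0) := by
    rw [Finset.sum_comm]
    apply Finset.sum_congr rfl
    intro a _
    rw [Finset.sum_comm]
    apply Finset.sum_congr rfl
    intro b _
    rw [Finset.sum_comm]
    apply Finset.sum_congr rfl
    intro x _
    rw [← Finset.mul_sum, sum_fn h hh k hk]
  have h4 : ∑ v ∈ (Finset.univ : Finset (Fin k → ZMod p)).erase 0,
      ∑ a : Fin (n + 1) → ZMod p, ∑ b : Fin (n + 1) → ZMod p, ∑ x : Fin (n + 1) → ZMod p,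
      ((ra θ P D ν φ a * ra θ P' D ν φ b * (∏ i, u i (x i)) : ℝ) : ℂ) *
        (ZMod.stdAddChar (fn h k v (fp n P P' D σ τ a b x)) : ℂ) =
      ∑ a : Fin (n + 1) → ZMod p, ∑ b : Fin (n + 1) → ZMod p, ∑ x : Fin (n + 1) → ZMod p,
      ((ra θ P D ν φ a * ra θ P' D ν φ b * (∏ i, u i (x i)) : ℝ) : ℂ) *
        ((if h ∣ fp n P P' D σ τ a b x then (p : ℂ) ^ k else 0) - 1) := by
    have h5 := Finset.add_sum_erase Finset.univ (fun v : Fin k → ZMod p =>
      ∑ a : Fin (n + 1) → ZMod p, ∑ b : Fin (n + 1) → ZMod p, ∑ x : Fin (n + 1) → ZMod p,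
      ((ra θ P D ν φ a * ra θ P' D ν φ b * (∏ i, u i (x i)) : ℝ) : ℂ) *
        (ZMod.stdAddChar (fn h k v (fp n P P' D σ τ a b x)) : ℂ)) (Finset.mem_univ 0)
    rw [h3] at h5
    simp only [fn_zero, AddChar.map_zero_eq_one, mul_one] at h5
    simp_rw [mul_sub, mul_one, Finset.sum_sub_distrib]
    rw [← h5]
    ring
  have h6 : ((∑ a : Fin (n + 1) → ZMod p, ∑ b : Fin (n + 1) → ZMod p,
      ∑ x : Fin (n + 1) → ZMod p,
      ra θ P D ν φ a * ra θ P' D ν φ b * (∏ i, u i (x i)) *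
      ((if h ∣ fp n P P' D σ τ a b x then 1 else 0) - ((p : ℝ) ^ k)⁻¹) : ℝ) : ℂ) =
      ((p : ℂ) ^ k)⁻¹ * ∑ v ∈ (Finset.univ : Finset (Fin k → ZMod p)).erase 0,
        VV n θ P D σ ν φ (fn h k v) * VV n θ P' D τ ν φ (fn h k v) *
      (∏ i : Fin (n + 1), (if rs P P' D σ τ i then muhat (u i) (fn h k v (X ^ (i : ℕ)))
        else 1)) := by
    rw [Finset.sum_congr rfl (fun v _ => h1 v), h4]
    rw [Complex.ofReal_sum, Finset.mul_sum]
    apply Finset.sum_congr rfl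
    intro a _
    rw [Complex.ofReal_sum, Finset.mul_sum]
    apply Finset.sum_congr rfl
    intro b _
    rw [Complex.ofReal_sum, Finset.mul_sum]
    apply Finset.sum_congr rfl
    intro x _
    split_ifs
    · push_cast
      field_simp
    · push_cast
      field_simp
      ring
  rw [← Real.norm_eq_abs, ← Complex.norm_real, h6, norm_mul]
  have h7 : ‖((p : ℂ) ^ k)⁻¹‖ = ((p : ℝ) ^ k)⁻¹ := by
    rw [norm_inv, norm_pow, Complex.norm_natCast]
  rw [h7]
  apply mul_le_mul_of_nonneg_left _ (by positivity)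
  refine (norm_sum_le _ _).trans (Finset.sum_le_sum fun v _ => le_of_eq ?_)
  rw [norm_mul, norm_mul, norm_prod]
  congr 1
  unfold XX
  apply Finset.prod_congr rfl
  intro i _
  split_ifs
  · rfl
  · exact norm_one

lemma norm_VV_le (n : ℕ) (θ : ℝ) (P D σ : Fin (n + 1) → Bool)
    (ν φ : Fin (n + 1) → ZMod p → ℝ) (hν0 : ∀ i a, 0 ≤ ν i a) (hν1 : ∀ i, ∑ a, ν i a = 1)
    (l : (ZMod p)[X] →ₗ[ZMod p] ZMod p) : ‖VV n θ P D σ ν φ l‖ ≤ 1 := by
  unfold VV
  refine (norm_sum_le _ _).trans ?_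
  rw [← sum_pw ν hν1]
  apply Finset.sum_le_sum
  intro a _
  rw [norm_mul, Complex.norm_real, Real.norm_eq_abs, abs_of_nonneg (ra_nonneg θ P D ν φ hν0 a)]
  have h1 : ‖(ZMod.stdAddChar (l (mkp n (act P D σ) a)) : ℂ)‖ = 1 := by simp
  rw [h1, mul_one]
  exact ra_le θ P D ν φ hν0 a

/-- resampling of some coordinates, for an arbitrary finite alphabet -/
lemma resampleG {α : Type} [Fintype α] {N : ℕ} (u ν : Fin N → α → ℝ) (hu : ∀ i, ∑ a, u i a = 1)
    (hν : ∀ i, ∑ a, ν i a = 1) (T : Fin N → Bool) (F : (Fin N → α) → ℝ) :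
    ∑ a : Fin N → α, ∑ x : Fin N → α, (∏ i, ν i (a i)) * (∏ i, u i (x i)) *
      F (fun i => if T i then x i else a i) =
    ∑ ε : Fin N → α, (∏ i, if T i then u i (ε i) else ν i (ε i)) * F ε := by
  classical
  obtain ⟨e, he⟩ : ∃ e : ((Fin N → α) × (Fin N → α)) → ((Fin N → α) × (Fin N → α)),
      e = fun q => (fun i => if T i then q.2 i else q.1 i, fun i => if T i then q.1 i else q.2 i) :=
    ⟨_, rfl⟩
  have hinv : Function.Involutive e := by
    intro q
    rw [he]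
    apply Prod.ext
    · funext i
      by_cases h : T i = true <;> simp [h]
    · funext i
      by_cases h : T i = true <;> simp [h]
  rw [← Fintype.sum_prod_type' (fun (a x : Fin N → α) => (∏ i, ν i (a i)) *
      (∏ i, u i (x i)) * F (fun i => if T i then x i else a i))]
  have h1 : ∑ q : (Fin N → α) × (Fin N → α), (∏ i, ν i (q.1 i)) * (∏ i, u i (q.2 i)) *
      F (fun i => if T i then q.2 i else q.1 i) =
      ∑ q : (Fin N → α) × (Fin N → α),
        (∏ i, if T i then u i (q.1 i) else ν i (q.1 i)) *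
        (∏ i, if T i then ν i (q.2 i) else u i (q.2 i)) * F q.1 := by
    apply Fintype.sum_equiv (Equiv.ofBijective e hinv.bijective)
    intro q
    simp only [Equiv.ofBijective_apply]
    rw [he]
    simp only
    have h2 : (∏ i, if T i then u i (if T i then q.2 i else q.1 i) else
        ν i (if T i then q.2 i else q.1 i)) *
        (∏ i, if T i then ν i (if T i then q.1 i else q.2 i) else
          u i (if T i then q.1 i else q.2 i)) = (∏ i, ν i (q.1 i)) * (∏ i, u i (q.2 i)) := by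
      rw [← Finset.prod_mul_distrib, ← Finset.prod_mul_distrib]
      apply Finset.prod_congr rfl
      intro i _
      by_cases h : T i = true
      · simp [h, mul_comm]
      · simp [h]
    rw [h2]
  rw [h1, Fintype.sum_prod_type' (fun (x y : Fin N → α) =>
        (∏ i, if T i then u i (x i) else ν i (x i)) *
        (∏ i, if T i then ν i (y i) else u i (y i)) * F x)]
  apply Finset.sum_congr rfl
  intro x _
  have h3 : ∑ y : Fin N → α, (∏ i, if T i then ν i (y i) else u i (y i)) = 1 := by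
    rw [sum_prod_pi (fun (i : Fin N) (c : α) => if T i then ν i c else u i c)]
    apply Finset.prod_eq_one
    intro i _
    by_cases h : T i = true
    · simp [h, hν i]
    · simp [h, hu i]
  calc ∑ y : Fin N → α, (∏ i, if T i then u i (x i) else ν i (x i)) *
        (∏ i, if T i then ν i (y i) else u i (y i)) * F x
      = (∏ i, if T i then u i (x i) else ν i (x i)) * F x *
        ∑ y : Fin N → α, (∏ i, if T i then ν i (y i) else u i (y i)) := by
        rw [Finset.mul_sum]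
        apply Finset.sum_congr rfl
        intro y _
        ring
    _ = _ := by rw [h3, mul_one]

/-- change of the weights of the patterns at the relevant places -/
lemma change_pat {N : ℕ} (η η' : ℝ) (hη0' : 0 ≤ η') (hη1' : η' ≤ 1) (hη0 : 0 ≤ η) (hη1 : η ≤ 1)
    (A : Fin N → Bool) (r : Fin N → ℝ)
    (hr0 : ∀ i, 0 ≤ r i) (hr1 : ∀ i, A i = false → r i = 1) (c : ℝ)
    (h1 : 1 - η ≤ c * (1 - η')) (h2 : ∀ i, A i = true → η * r i ≤ c * η')
    (g : (Fin N → Bool) → ℝ) (hg0 : ∀ σ, 0 ≤ g σ)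
    (hg : ∀ σ σ' : Fin N → Bool, (∀ i, A i = true → σ i = σ' i) → g σ = g σ') :
    ∑ σ : Fin N → Bool, pb η σ * ((∏ i, if σ i then r i else 1) * g σ) ≤
      (∏ i, if A i then c else 1) * ∑ σ : Fin N → Bool, pb η' σ * g σ := by
  have h3 := resampleG (fun _ : Fin N => pb1 η') (fun _ : Fin N => pb1 η)
    (fun _ => sum_pb1 η') (fun _ => sum_pb1 η) (fun i => !(A i))
    (fun σ => (∏ i, if σ i then r i else 1) * g σ)
  have h4 : ∀ a x : Fin N → Bool, (∏ i, if (if (!(A i)) then x i else a i) then r i else 1) *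
      g (fun i => if (!(A i)) then x i else a i) = (∏ i, if a i then r i else 1) * g a := by
    intro a x
    congr 1
    · apply Finset.prod_congr rfl
      intro i _
      cases hA : A i
      · rw [hr1 i hA]
        simp
      · simp
    · apply hg
      intro i hi
      simp [hi]
  simp only [h4] at h3
  have h5 : ∑ a : Fin N → Bool, ∑ x : Fin N → Bool, (∏ i, pb1 η (a i)) * (∏ i, pb1 η' (x i)) *
      ((∏ i, if a i then r i else 1) * g a) =
      ∑ σ : Fin N → Bool, pb η σ * ((∏ i, if σ i then r i else 1) * g σ) := by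
    apply Finset.sum_congr rfl
    intro a _
    rw [← Finset.sum_mul, ← Finset.mul_sum]
    have h6 : ∑ x : Fin N → Bool, ∏ i, pb1 η' (x i) = 1 := sum_pb N η'
    rw [h6, mul_one]
    rfl
  rw [h5] at h3
  rw [h3, Finset.mul_sum]
  apply Finset.sum_le_sum
  intro σ _
  rw [← mul_assoc, ← mul_assoc]
  apply mul_le_mul_of_nonneg_right _ (hg0 σ)
  unfold pb
  rw [← Finset.prod_mul_distrib, ← Finset.prod_mul_distrib]
  apply Finset.prod_le_prod
  · intro i _
    apply mul_nonneg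
    · split_ifs
      · exact pb1_nonneg hη0' hη1' _
      · exact pb1_nonneg hη0 hη1 _
    · split_ifs
      · exact hr0 i
      · exact zero_le_one
  · intro i _
    cases hA : A i
    · rw [hr1 i hA]
      simp
    · have h7 := h2 i hA
      cases hs : σ i
      · simp [pb1]
        linarith
      · simp [pb1]
        linarith

/-- the Fourier transform depends only on the pattern at the relevant places -/
lemma VV_congr (n : ℕ) (θ : ℝ) (P D σ σ' : Fin (n + 1) → Bool)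
    (ν φ : Fin (n + 1) → ZMod p → ℝ) (l : (ZMod p)[X] →ₗ[ZMod p] ZMod p)
    (h : ∀ i : Fin (n + 1), P i = true → D i = false → l (X ^ (i : ℕ)) ≠ 0 → σ i = σ' i) :
    VV n θ P D σ ν φ l = VV n θ P D σ' ν φ l := by
  unfold VV
  apply Finset.sum_congr rfl
  intro a _
  have h0 : l (mkp n (act P D σ) a) = l (mkp n (act P D σ') a) := by
    rw [lin_mkp, lin_mkp]
    apply Finset.sum_congr rfl
    intro i _
    by_cases hw : l (X ^ (i : ℕ)) = 0
    · rw [hw, mul_zero, mul_zero]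
    · congr 1
      unfold act
      cases hP : P i
      · simp
      · cases hD : D i
        · rw [h i hP hD hw]
        · simp
  rw [h0]

/-- the decay on the side of the restricted weight -/
noncomputable def dP {N : ℕ} (P D : Fin N → Bool) (u : Fin N → ZMod p → ℝ)
    (i : Fin N) (c : ZMod p) : ℝ :=
  if (P i && !(D i)) then ‖muhat (u i) c‖ else 1

/-- the decay on the other side and at the dominated places -/
noncomputable def dQ {N : ℕ} (P D : Fin N → Bool) (u : Fin N → ZMod p → ℝ) (c1 : ℝ) (t : Bool)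
    (i : Fin N) (c : ZMod p) : ℝ :=
  if D i then (if c = 0 then 1 else c1) else if P i then 1 else if t then ‖muhat (u i) c‖ else 1

lemma dQ_nonneg {N : ℕ} (P D : Fin N → Bool) (u : Fin N → ZMod p → ℝ) (c1 : ℝ) (hc1 : 0 ≤ c1)
    (t : Bool) (i : Fin N) (c : ZMod p) : 0 ≤ dQ P D u c1 t i c := by
  unfold dQ
  split_ifs <;> first | exact zero_le_one | exact hc1 | exact norm_nonneg _

/-- the part of the comparison law -/
noncomputable def PF (n : ℕ) (D : Fin (n + 1) → Bool) (Φ : Fin (n + 1) → ZMod p → ℝ)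
    (l : (ZMod p)[X] →ₗ[ZMod p] ZMod p) : ℝ :=
  ∏ i : Fin (n + 1), (if D i then Φ i (l (X ^ (i : ℕ))) else 1)

lemma PF_nonneg (n : ℕ) (D : Fin (n + 1) → Bool) (Φ : Fin (n + 1) → ZMod p → ℝ)
    (hΦ0 : ∀ i c, 0 ≤ Φ i c) (l : (ZMod p)[X] →ₗ[ZMod p] ZMod p) : 0 ≤ PF n D Φ l := by
  unfold PF
  apply Finset.prod_nonneg
  intro i _
  split_ifs
  · exact hΦ0 _ _
  · exact zero_le_one

lemma PF_le_one (n : ℕ) (D : Fin (n + 1) → Bool) (Φ : Fin (n + 1) → ZMod p → ℝ)
    (hΦ0 : ∀ i c, 0 ≤ Φ i c) (hΦ1 : ∀ i c, Φ i c ≤ 1) (l : (ZMod p)[X] →ₗ[ZMod p] ZMod p) :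
    PF n D Φ l ≤ 1 := by
  unfold PF
  apply Finset.prod_le_one
  · intro i _
    split_ifs
    · exact hΦ0 _ _
    · exact zero_le_one
  · intro i _
    split_ifs
    · exact hΦ1 _ _
    · exact le_rfl

lemma XX_le (n : ℕ) (P P' D : Fin (n + 1) → Bool) (hP : ∀ i, P' i = !(P i))
    (u Φ : Fin (n + 1) → ZMod p → ℝ) (c1 : ℝ)
    (huD : ∀ i, D i = true → ∀ c, ‖muhat (u i) c‖ ≤ (if c = 0 then 1 else c1) * Φ i c)
    (σ τ : Fin (n + 1) → Bool) (l : (ZMod p)[X] →ₗ[ZMod p] ZMod p) :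
    XX n P P' D u σ τ l ≤ PF n D Φ l *
      ((∏ i, if σ i then dP P D u i (l (X ^ (i : ℕ))) else 1) *
        ∏ i, dQ P D u c1 (τ i) i (l (X ^ (i : ℕ)))) := by
  unfold XX PF
  rw [← Finset.prod_mul_distrib, ← Finset.prod_mul_distrib]
  apply Finset.prod_le_prod
  · intro i _
    split_ifs
    · exact norm_nonneg _
    · exact zero_le_one
  · intro i _
    unfold rs act dP dQ
    rw [hP i]
    by_cases hD : D i = true
    · have h1 := huD i hD (l (X ^ (i : ℕ)))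
      rw [mul_comm] at h1
      simpa [hD] using h1
    · have hDf : D i = false := by simpa using hD
      cases hPi : P i <;> cases hs : σ i <;> cases ht : τ i <;> simp [hDf]

/-- averaging over the pattern of the other side -/
lemma sum_dQ_le {N : ℕ} (η η' : ℝ) (hη0 : 0 ≤ η) (hη1 : η ≤ 1) (P D : Fin N → Bool)
    (u : Fin N → ZMod p → ℝ) (c1 : ℝ) (hc1 : 0 ≤ c1) (hu1 : ∀ i c, ‖muhat (u i) c‖ ≤ 1)
    (h1 : 1 - η ≤ c1 * (1 - η'))
    (huS : ∀ i, D i = false → ∀ c, c ≠ 0 → η * ‖muhat (u i) c‖ ≤ c1 * η')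
    (w : Fin N → ZMod p) :
    ∑ τ : Fin N → Bool, pb η τ * ∏ i, dQ P D u c1 (τ i) i (w i) ≤
      ∏ i, (if (D i || !(P i)) then (if w i = 0 then 1 else c1) else 1) := by
  have h2 : ∀ τ : Fin N → Bool, pb η τ * ∏ i, dQ P D u c1 (τ i) i (w i) =
      ∏ i, pb1 η (τ i) * dQ P D u c1 (τ i) i (w i) := by
    intro τ
    unfold pb
    rw [Finset.prod_mul_distrib]
  simp_rw [h2]
  rw [sum_prod_pi (fun (i : Fin N) (t : Bool) => pb1 η t * dQ P D u c1 t i (w i))]
  apply Finset.prod_le_prod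
  · intro i _
    exact Finset.sum_nonneg fun t _ =>
      mul_nonneg (pb1_nonneg hη0 hη1 t) (dQ_nonneg P D u c1 hc1 t i _)
  · intro i _
    rw [Fintype.sum_bool]
    unfold pb1 dQ
    cases hD : D i
    · cases hPi : P i
      · by_cases hw : w i = 0
        · have h3 := mul_le_mul_of_nonneg_left (hu1 i (w i)) hη0
          rw [hw] at h3 ⊢
          simp
          linarith
        · have h3 := huS i hD (w i) hw
          simp [hw]
          linarith
      · simp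
    · by_cases hw : w i = 0
      · simp [hw]
      · simp [hw]
        apply le_of_eq
        ring

/-- the bound for one frequency -/
lemma freq_le (n : ℕ) (θ : ℝ) (η η' : ℝ) (hη0 : 0 ≤ η) (hη1 : η ≤ 1) (hη0' : 0 ≤ η')
    (hη1' : η' ≤ 1)
    (P P' D : Fin (n + 1) → Bool) (hP : ∀ i, P' i = !(P i))
    (u ν φ Φ : Fin (n + 1) → ZMod p → ℝ) (hu : ∀ i, ∑ a, u i a = 1)
    (hΦ0 : ∀ i c, 0 ≤ Φ i c)
    (c1 : ℝ) (hc1 : 0 ≤ c1) (hu1 : ∀ i c, ‖muhat (u i) c‖ ≤ 1)
    (huD : ∀ i, D i = true → ∀ c, ‖muhat (u i) c‖ ≤ (if c = 0 then 1 else c1) * Φ i c)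
    (h1 : 1 - η ≤ c1 * (1 - η'))
    (huS : ∀ i, D i = false → ∀ c, c ≠ 0 → η * ‖muhat (u i) c‖ ≤ c1 * η')
    (l : (ZMod p)[X] →ₗ[ZMod p] ZMod p) :
    ∑ σ : Fin (n + 1) → Bool, ∑ τ : Fin (n + 1) → Bool, pb η σ * pb η τ *
        (‖VV n θ P D σ ν φ l‖ ^ 2 * XX n P P' D u σ τ l) ≤
      c1 ^ hw (fun i : Fin (n + 1) => l (X ^ (i : ℕ))) *
        ∑ σ : Fin (n + 1) → Bool, pb η' σ * (‖VV n θ P D σ ν φ l‖ ^ 2 * PF n D Φ l) := by
  have hPF0 := PF_nonneg n D Φ hΦ0 l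
  have hpb := fun σ : Fin (n + 1) → Bool => pb_nonneg hη0 hη1 σ
  obtain ⟨w, hw⟩ : ∃ w : Fin (n + 1) → ZMod p, w = fun i : Fin (n + 1) => l (X ^ (i : ℕ)) :=
    ⟨_, rfl⟩
  obtain ⟨Q, hQ⟩ : ∃ Q : ℝ, Q = ∏ i, (if (D i || !(P i)) then (if w i = 0 then 1 else c1)
    else (1 : ℝ)) := ⟨_, rfl⟩
  have hQ0 : 0 ≤ Q := by
    rw [hQ]
    apply Finset.prod_nonneg
    intro i _
    split_ifs <;> first | exact zero_le_one | exact hc1
  have s1 : ∑ σ : Fin (n + 1) → Bool, ∑ τ : Fin (n + 1) → Bool, pb η σ * pb η τ *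
        (‖VV n θ P D σ ν φ l‖ ^ 2 * XX n P P' D u σ τ l) ≤
      ∑ σ : Fin (n + 1) → Bool, (pb η σ * ((∏ i, if σ i then dP P D u i (w i) else 1) *
        ‖VV n θ P D σ ν φ l‖ ^ 2)) * (PF n D Φ l * Q) := by
    apply Finset.sum_le_sum
    intro σ _
    have hd0 : 0 ≤ ∏ i, (if σ i then dP P D u i (w i) else 1) := by
      apply Finset.prod_nonneg
      intro i _
      unfold dP
      split_ifs <;> first | exact zero_le_one | exact norm_nonneg _
    have h3 : 0 ≤ (pb η σ * ((∏ i, if σ i then dP P D u i (w i) else 1) *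
        ‖VV n θ P D σ ν φ l‖ ^ 2)) * PF n D Φ l :=
      mul_nonneg (mul_nonneg (hpb σ) (mul_nonneg hd0 (sq_nonneg _))) hPF0
    have h4 := sum_dQ_le η η' hη0 hη1 P D u c1 hc1 hu1 h1 huS w
    rw [← hQ] at h4
    have h5 := mul_le_mul_of_nonneg_left h4 h3
    refine le_trans ?_ (h5.trans (le_of_eq (by ring)))
    rw [Finset.mul_sum]
    apply Finset.sum_le_sum
    intro τ _
    have h6 := XX_le n P P' D hP u Φ c1 huD σ τ l
    have h7 : 0 ≤ pb η σ * pb η τ * ‖VV n θ P D σ ν φ l‖ ^ 2 :=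
      mul_nonneg (mul_nonneg (hpb σ) (hpb τ)) (sq_nonneg _)
    have h8 := mul_le_mul_of_nonneg_left h6 h7
    rw [hw]
    calc _ = pb η σ * pb η τ * ‖VV n θ P D σ ν φ l‖ ^ 2 * XX n P P' D u σ τ l := by ring
      _ ≤ _ := h8
      _ = _ := by ring
  refine s1.trans ?_
  rw [← Finset.sum_mul]
  have s2 := change_pat η η' hη0' hη1' hη0 hη1
    (fun i : Fin (n + 1) => P i && !(D i) && decide (w i ≠ 0))
    (fun i => dP P D u i (w i)) (by
      intro i
      unfold dP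
      split_ifs
      · exact norm_nonneg _
      · exact zero_le_one) (by
      intro i hi
      unfold dP
      split_ifs with h
      · have hwi : w i = 0 := by
          by_contra hne
          simp [h, hne] at hi
        rw [hwi, muhat_zero (u i) (hu i), norm_one]
      · rfl) c1 h1 (by
      intro i hi
      have h3 : P i = true ∧ D i = false ∧ w i ≠ 0 := by
        simp at hi
        exact ⟨hi.1.1, hi.1.2, hi.2⟩
      unfold dP
      rw [h3.1, h3.2.1]
      simp only [Bool.not_false, Bool.and_self, if_true]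
      exact huS i h3.2.1 (w i) h3.2.2)
    (fun σ => ‖VV n θ P D σ ν φ l‖ ^ 2) (fun σ => sq_nonneg _) (by
      intro σ σ' h
      rw [VV_congr n θ P D σ σ' ν φ l (by
        intro i h3 h4 h5
        apply h i
        rw [h3, h4, hw]
        simp [h5])])
  have h9 := mul_le_mul_of_nonneg_right s2 (mul_nonneg hPF0 hQ0)
  refine h9.trans (le_of_eq ?_)
  have h10 : (∏ i : Fin (n + 1), (if (P i && !(D i) && decide (w i ≠ 0)) then c1 else 1)) * Q =
      c1 ^ Pool.Agent.MP0a1886.hw w := by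
    rw [hQ, ← Finset.prod_mul_distrib]
    have h11 : c1 ^ Pool.Agent.MP0a1886.hw w = ∏ i, (if w i ≠ 0 then c1 else 1) := by
      unfold Pool.Agent.MP0a1886.hw
      rw [Finset.prod_ite, Finset.prod_const_one, mul_one, Finset.prod_const]
    rw [h11]
    apply Finset.prod_congr rfl
    intro i _
    by_cases hwi : w i = 0
    · cases hPi : P i <;> cases hDi : D i <;> simp [hwi]
    · cases hPi : P i <;> cases hDi : D i <;> simp [hwi]
  have h12 : ∑ σ : Fin (n + 1) → Bool, pb η' σ * (‖VV n θ P D σ ν φ l‖ ^ 2 * PF n D Φ l) =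
      (∑ σ : Fin (n + 1) → Bool, pb η' σ * ‖VV n θ P D σ ν φ l‖ ^ 2) * PF n D Φ l := by
    rw [Finset.sum_mul]
    apply Finset.sum_congr rfl
    intro σ _
    ring
  rw [h12, ← hw, ← h10]
  ring

/-- one side of the bilinear estimate -/
lemma side_le (n m R k w0 : ℕ) (hR : n < (m + 1) * R) (θ : ℝ) (hθ : 0 ≤ θ)
    (η η' : ℝ) (hη0 : 0 ≤ η) (hη1 : η ≤ 1) (hη0' : 0 ≤ η') (hη1' : η' ≤ 1)
    (P P' D : Fin (n + 1) → Bool) (hP : ∀ i, P' i = !(P i))
    (u ν φ Φ : Fin (n + 1) → ZMod p → ℝ) (hu : ∀ i, ∑ a, u i a = 1)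
    (hν0 : ∀ i a, 0 ≤ ν i a) (hν1 : ∀ i, ∑ a, ν i a = 1)
    (hφ0 : ∀ i a, 0 ≤ φ i a) (hφ1 : ∀ i, ∑ a, φ i a = 1)
    (hφΦ : ∀ i c, muhat (φ i) c = (Φ i c : ℂ)) (hΦ0 : ∀ i c, 0 ≤ Φ i c) (hΦ1 : ∀ i c, Φ i c ≤ 1)
    (c1 : ℝ) (hc0 : 0 ≤ c1) (hc1 : c1 ≤ 1) (hu1 : ∀ i c, ‖muhat (u i) c‖ ≤ 1)
    (huD : ∀ i, D i = true → ∀ c, ‖muhat (u i) c‖ ≤ (if c = 0 then 1 else c1) * Φ i c)
    (h1η : 1 - η ≤ c1 * (1 - η'))
    (huS : ∀ i, D i = false → ∀ c, c ≠ 0 → η * ‖muhat (u i) c‖ ≤ c1 * η')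
    (H : Finset (ZMod p)[X])
    (hH : ∀ h ∈ H, h.Monic ∧ h.natDegree = k ∧ Fac (fun d => m < d) h) :
    ∑ h ∈ H, ((p : ℝ) ^ k)⁻¹ * ∑ v ∈ (Finset.univ : Finset (Fin k → ZMod p)).erase 0,
      ∑ σ : Fin (n + 1) → Bool, ∑ τ : Fin (n + 1) → Bool, pb η σ * pb η τ *
        (‖VV n θ P D σ ν φ (fn h k v)‖ ^ 2 * XX n P P' D u σ τ (fn h k v)) ≤
    ((p : ℝ) ^ k)⁻¹ * ((∑ h ∈ H, ((Finset.univ.erase (0 : Fin k → ZMod p)).filter
      (fun v => hw (fun i : Fin (n + 1) => fn h k v (X ^ (i : ℕ))) < w0)).card : ℕ) : ℝ) +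
      c1 ^ w0 * (2 ^ R + (H.card : ℝ) * (θ * (1 + η' * p) ^ (n + 1))) := by
  classical
  have hpr : (0 : ℝ) < p := by exact_mod_cast hp.out.pos
  have hpk : (0 : ℝ) < (p : ℝ) ^ k := by positivity
  -- the function of one frequency
  obtain ⟨G, hG⟩ : ∃ G : ((ZMod p)[X] →ₗ[ZMod p] ZMod p) → ℝ, G = fun l =>
    ∑ σ : Fin (n + 1) → Bool, pb η' σ * (‖VV n θ P D σ ν φ l‖ ^ 2 * PF n D Φ l) := ⟨_, rfl⟩
  have hPF0 := PF_nonneg n D Φ hΦ0
  have hPF1 := PF_le_one n D Φ hΦ0 hΦ1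
  have hpb := fun σ : Fin (n + 1) → Bool => pb_nonneg hη0' hη1' σ
  have hG0 : ∀ l, 0 ≤ G l := by
    intro l
    rw [hG]
    exact Finset.sum_nonneg fun σ _ => mul_nonneg (hpb σ) (mul_nonneg (sq_nonneg _) (hPF0 l))
  have hG1 : ∀ l, G l ≤ 1 := by
    intro l
    rw [hG]
    simp only
    rw [← sum_pb (n + 1) η']
    apply Finset.sum_le_sum
    intro σ _
    apply mul_le_of_le_one_right (hpb σ)
    have h1 := norm_VV_le n θ P D σ ν φ hν0 hν1 l
    have h2 : ‖VV n θ P D σ ν φ l‖ ^ 2 ≤ 1 := pow_le_one₀ (norm_nonneg _) h1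
    calc _ ≤ 1 * 1 := mul_le_mul h2 (hPF1 l) (hPF0 l) zero_le_one
      _ = 1 := one_mul 1
  have hv : ∀ (h : (ZMod p)[X]) (v : Fin k → ZMod p),
      ∑ σ : Fin (n + 1) → Bool, ∑ τ : Fin (n + 1) → Bool, pb η σ * pb η τ *
        (‖VV n θ P D σ ν φ (fn h k v)‖ ^ 2 * XX n P P' D u σ τ (fn h k v)) ≤
      (if hw (fun i : Fin (n + 1) => fn h k v (X ^ (i : ℕ))) < w0 then 1 else 0) +
        c1 ^ w0 * G (fn h k v) := by
    intro h v
    have h1 := freq_le n θ η η' hη0 hη1 hη0' hη1' P P' D hP u ν φ Φ hu hΦ0 c1 hc0 hu1 huD h1η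
      huS (fn h k v)
    refine h1.trans ?_
    have h2 : ∑ σ : Fin (n + 1) → Bool, pb η' σ * (‖VV n θ P D σ ν φ (fn h k v)‖ ^ 2 *
          PF n D Φ (fn h k v)) = G (fn h k v) := by rw [hG]
    rw [h2]
    have h3 := hG0 (fn h k v)
    have h4 := hG1 (fn h k v)
    have h5 : (0 : ℝ) ≤ c1 ^ w0 := pow_nonneg hc0 _
    split_ifs with h6
    · have h7 : c1 ^ hw (fun i : Fin (n + 1) => fn h k v (X ^ (i : ℕ))) ≤ 1 :=
        pow_le_one₀ hc0 hc1
      have h8 : 0 ≤ c1 ^ hw (fun i : Fin (n + 1) => fn h k v (X ^ (i : ℕ))) :=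
        pow_nonneg hc0 _
      calc _ ≤ 1 * 1 := mul_le_mul h7 h4 h3 zero_le_one
        _ ≤ 1 + c1 ^ w0 * G (fn h k v) := by
            have := mul_nonneg h5 h3
            linarith
    · rw [zero_add]
      apply mul_le_mul_of_nonneg_right _ h3
      exact pow_le_pow_of_le_one hc0 hc1 (not_lt.1 h6)
  have h1 : ∑ h ∈ H, ((p : ℝ) ^ k)⁻¹ * ∑ v ∈ (Finset.univ : Finset (Fin k → ZMod p)).erase 0,
      ∑ σ : Fin (n + 1) → Bool, ∑ τ : Fin (n + 1) → Bool, pb η σ * pb η τ *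
        (‖VV n θ P D σ ν φ (fn h k v)‖ ^ 2 * XX n P P' D u σ τ (fn h k v)) ≤
      ∑ h ∈ H, (((p : ℝ) ^ k)⁻¹ * (((Finset.univ.erase (0 : Fin k → ZMod p)).filter
      (fun v => hw (fun i : Fin (n + 1) => fn h k v (X ^ (i : ℕ))) < w0)).card : ℝ) +
      c1 ^ w0 * (((p : ℝ) ^ k)⁻¹ * ∑ v : Fin k → ZMod p, G (fn h k v))) := by
    apply Finset.sum_le_sum
    intro h _
    have h2 : ∑ v ∈ (Finset.univ : Finset (Fin k → ZMod p)).erase 0,
      ∑ σ : Fin (n + 1) → Bool, ∑ τ : Fin (n + 1) → Bool, pb η σ * pb η τ *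
        (‖VV n θ P D σ ν φ (fn h k v)‖ ^ 2 * XX n P P' D u σ τ (fn h k v)) ≤
        (((Finset.univ.erase (0 : Fin k → ZMod p)).filter
      (fun v => hw (fun i : Fin (n + 1) => fn h k v (X ^ (i : ℕ))) < w0)).card : ℝ) +
      c1 ^ w0 * ∑ v : Fin k → ZMod p, G (fn h k v) := by
      refine (Finset.sum_le_sum fun v _ => hv h v).trans ?_
      rw [Finset.sum_add_distrib, ← Finset.mul_sum]
      apply add_le_add
      · rw [Finset.sum_ite, Finset.sum_const_zero, add_zero, Finset.sum_const, nsmul_eq_mul,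
          mul_one]
      · apply mul_le_mul_of_nonneg_left _ (pow_nonneg hc0 _)
        exact Finset.sum_le_sum_of_subset_of_nonneg (Finset.erase_subset _ _)
          (fun v _ _ => hG0 _)
    calc _ ≤ _ := mul_le_mul_of_nonneg_left h2 (by positivity)
      _ = _ := by ring
  refine h1.trans ?_
  rw [Finset.sum_add_distrib, ← Finset.mul_sum, ← Finset.mul_sum]
  apply add_le_add
  · push_cast
    exact le_rfl
  · apply mul_le_mul_of_nonneg_left _ (pow_nonneg hc0 _)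
    have h2 : ∀ h ∈ H, ((p : ℝ) ^ k)⁻¹ * ∑ v : Fin k → ZMod p, G (fn h k v) =
        ∑ σ : Fin (n + 1) → Bool, pb η' σ * (((p : ℝ) ^ k)⁻¹ * ∑ v : Fin k → ZMod p,
          ‖VV n θ P D σ ν φ (fn h k v)‖ ^ 2 * PF n D Φ (fn h k v)) := by
      intro h _
      rw [hG]
      simp only
      rw [Finset.sum_comm, Finset.mul_sum]
      apply Finset.sum_congr rfl
      intro σ _
      rw [← Finset.mul_sum]
      ring
    rw [Finset.sum_congr rfl h2, Finset.sum_comm]
    calc ∑ σ : Fin (n + 1) → Bool, ∑ h ∈ H, pb η' σ * (((p : ℝ) ^ k)⁻¹ *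
          ∑ v : Fin k → ZMod p, ‖VV n θ P D σ ν φ (fn h k v)‖ ^ 2 * PF n D Φ (fn h k v))
        ≤ ∑ σ : Fin (n + 1) → Bool, pb η' σ * (2 ^ R + (H.card : ℝ) * coll n θ P D σ ν φ) := by
          apply Finset.sum_le_sum
          intro σ _
          rw [← Finset.mul_sum]
          apply mul_le_mul_of_nonneg_left _ (hpb σ)
          exact pos_sum n m R k hR θ P D σ ν φ Φ hν0 hν1 hφ0 hφ1 hφΦ H hH
      _ = 2 ^ R + (H.card : ℝ) * ∑ σ : Fin (n + 1) → Bool, pb η' σ * coll n θ P D σ ν φ := by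
          simp_rw [mul_add]
          rw [Finset.sum_add_distrib, ← Finset.sum_mul, sum_pb, one_mul, Finset.mul_sum]
          congr 1
          apply Finset.sum_congr rfl
          intro σ _
          ring
      _ ≤ _ := by
          have h3 := coll_avg n θ hθ η' hη0' hη1' P D ν φ hν0 hν1 hφ0 hφ1
          have h4 := mul_le_mul_of_nonneg_left h3 (Nat.cast_nonneg (α := ℝ) H.card)
          linarith

end Pool.Agent.MP0a1886
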