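import Pool.Agent.MP0a1886.Min.Ent4

/-! The level of distribution below half the entropy: the error for one environment
(MP_0a1886_pr). -/

set_option autoImplicit false
set_option linter.unusedSectionVars false
open Finset Polynomial

namespace Pool.Agent.MP0a1886

variable {p : ℕ} [hp : Fact p.Prime]

lemma fp_eq (n : ℕ) (P P' D σ τ : Fin (n + 1) → Bool) (hP : ∀ i, P' i = !(P i))
    (a b x : Fin (n + 1) → ZMod p) : fp n P P' D σ τ a b x =
      rpoly n (fun i => if rs P P' D σ τ i then x i else if P i then a i else b i) :=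
  (mix_poly n P P' D σ τ hP a b x).symm

open Classical in
/-- the probability of the zero polynomial, for fixed patterns -/
lemma zero_fix (n : ℕ) (θ : ℝ) (P P' D σ τ : Fin (n + 1) → Bool)
    (hP : ∀ i, P' i = !(P i)) (u ν φ : Fin (n + 1) → ZMod p → ℝ)
    (hu0 : ∀ i a, 0 ≤ u i a) (hu : ∀ i, ∑ a, u i a = 1)
    (hν0 : ∀ i a, 0 ≤ ν i a) (hν1 : ∀ i, ∑ a, ν i a = 1)
    (huφ : ∀ i, D i = true → u i 0 ≤ φ i 0) :
    ∑ a : Fin (n + 1) → ZMod p, ∑ b : Fin (n + 1) → ZMod p, ∑ x : Fin (n + 1) → ZMod p,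
      ra θ P D ν φ a * ra θ P' D ν φ b * (∏ i, u i (x i)) *
      (if fp n P P' D σ τ a b x = 0 then 1 else 0) ≤
    ∑ a : Fin (n + 1) → ZMod p, ra θ P D ν φ a *
      ((∏ i, if act P D σ i then (if a i = (0 : Fin (n + 1) → ZMod p) i then (1 : ℝ) else 0)
        else 1) * ∏ i, (if D i then φ i 0 else 1)) := by
  -- consequences of the vanishing
  have hz : ∀ a b x : Fin (n + 1) → ZMod p, fp n P P' D σ τ a b x = 0 →
      (∀ i, act P D σ i = true → a i = 0) ∧ (∀ i, D i = true → x i = 0) := by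
    intro a b x h
    rw [fp_eq n P P' D σ τ hP, rpoly_eq_zero] at h
    constructor
    · intro i hi
      have h1 := congrFun h i
      simp only [Pi.zero_apply] at h1
      have hi' := hi
      unfold act at hi'
      have hPi : P i = true := by
        simp at hi'
        exact hi'.1.1
      have hr : rs P P' D σ τ i = false := by
        unfold rs
        rw [hi]
        simp
      rw [hr, hPi] at h1
      simpa using h1
    · intro i hi
      have h1 := congrFun h i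
      simp only [Pi.zero_apply] at h1
      have hr : rs P P' D σ τ i = true := by
        unfold rs act
        simp [hi]
      rw [hr] at h1
      simpa using h1
  apply Finset.sum_le_sum
  intro a _
  have ha := ra_nonneg θ P D ν φ hν0 a
  obtain ⟨A, hA⟩ : ∃ A : ℝ, A = ∏ i, (if act P D σ i then
    (if a i = (0 : Fin (n + 1) → ZMod p) i then (1 : ℝ) else 0) else 1) := ⟨_, rfl⟩
  have hA0 : 0 ≤ A := by
    rw [hA]
    apply Finset.prod_nonneg
    intro i _
    split_ifs <;> norm_num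
  have h1 : ∀ b x : Fin (n + 1) → ZMod p,
      ra θ P D ν φ a * ra θ P' D ν φ b * (∏ i, u i (x i)) *
        (if fp n P P' D σ τ a b x = 0 then 1 else 0) ≤
      (ra θ P D ν φ a * A) * (∏ i, ν i (b i)) *
        ∏ i, (u i (x i) * (if D i then (if x i = 0 then (1 : ℝ) else 0) else 1)) := by
    intro b x
    have hb := ra_nonneg θ P' D ν φ hν0 b
    have hb' := ra_le θ P' D ν φ hν0 b
    have hx0 : 0 ≤ ∏ i, u i (x i) := Finset.prod_nonneg fun i _ => hu0 i _
    split_ifs with h2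
    · obtain ⟨h3, h4⟩ := hz a b x h2
      have h5 : A = 1 := by
        rw [hA]
        apply Finset.prod_eq_one
        intro i _
        by_cases hAi : act P D σ i = true
        · rw [if_pos hAi, if_pos (show a i = (0 : Fin (n + 1) → ZMod p) i from h3 i hAi)]
        · rw [if_neg hAi]
      have h6 : (∏ i, u i (x i) * (if D i then (if x i = 0 then (1 : ℝ) else 0) else 1)) =
          ∏ i, u i (x i) := by
        apply Finset.prod_congr rfl
        intro i _
        by_cases hD : D i = true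
        · rw [if_pos hD, if_pos (h4 i hD), mul_one]
        · rw [if_neg hD, mul_one]
      rw [h5, h6, mul_one, mul_one]
      exact mul_le_mul_of_nonneg_right (mul_le_mul_of_nonneg_left hb' ha) hx0
    · rw [mul_zero]
      apply mul_nonneg
      · exact mul_nonneg (mul_nonneg ha hA0) (hb.trans hb')
      · apply Finset.prod_nonneg
        intro i _
        apply mul_nonneg (hu0 i _)
        split_ifs <;> norm_num
  refine (Finset.sum_le_sum fun b _ => Finset.sum_le_sum fun x _ => h1 b x).trans ?_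
  have h7 : ∑ b : Fin (n + 1) → ZMod p, ∑ x : Fin (n + 1) → ZMod p,
      (ra θ P D ν φ a * A) * (∏ i, ν i (b i)) *
        ∏ i, (u i (x i) * (if D i then (if x i = 0 then (1 : ℝ) else 0) else 1)) =
      (ra θ P D ν φ a * A) * ∏ i, (if D i then u i 0 else 1) := by
    simp_rw [← Finset.mul_sum, ← Finset.sum_mul]
    rw [← Finset.mul_sum, sum_pw ν hν1, mul_one, sum_prod_pi (fun (i : Fin (n + 1)) (c : ZMod p) =>
        u i c * (if D i then (if c = 0 then (1 : ℝ) else 0) else 1))]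
    congr 1
    apply Finset.prod_congr rfl
    intro i _
    by_cases hD : D i = true
    · simp [hD]
    · simp [hD, hu i]
  rw [h7, ← hA, mul_assoc]
  apply mul_le_mul_of_nonneg_left _ ha
  apply mul_le_mul_of_nonneg_left _ hA0
  apply Finset.prod_le_prod
  · intro i _
    split_ifs
    · exact hu0 i 0
    · exact zero_le_one
  · intro i _
    split_ifs with hD
    · exact huφ i hD
    · exact le_rfl

/-- the mass of the atypical vectors -/
noncomputable def bd {N : ℕ} (θ : ℝ) (P D : Fin N → Bool) (ν φ : Fin N → ZMod p → ℝ) : ℝ :=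
  1 - ∑ a : Fin N → ZMod p, ra θ P D ν φ a

lemma sum_ra_nonneg {N : ℕ} (θ : ℝ) (P D : Fin N → Bool) (ν φ : Fin N → ZMod p → ℝ)
    (hν0 : ∀ i a, 0 ≤ ν i a) : 0 ≤ ∑ a : Fin N → ZMod p, ra θ P D ν φ a :=
  Finset.sum_nonneg fun a _ => ra_nonneg θ P D ν φ hν0 a

lemma sum_ra_le {N : ℕ} (θ : ℝ) (P D : Fin N → Bool) (ν φ : Fin N → ZMod p → ℝ)
    (hν0 : ∀ i a, 0 ≤ ν i a) (hν1 : ∀ i, ∑ a, ν i a = 1) :
    ∑ a : Fin N → ZMod p, ra θ P D ν φ a ≤ 1 := by
  rw [← sum_pw ν hν1]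
  exact Finset.sum_le_sum fun a _ => ra_le θ P D ν φ hν0 a

open Classical in
/-- the contribution of the atypical vectors -/
lemma bad_le (n m R k : ℕ) (hR : n < (m + 1) * R) (θ : ℝ)
    (P P' D σ τ : Fin (n + 1) → Bool)
    (hP : ∀ i, P' i = !(P i)) (u ν φ : Fin (n + 1) → ZMod p → ℝ)
    (hu0 : ∀ i a, 0 ≤ u i a) (hu : ∀ i, ∑ a, u i a = 1)
    (hν0 : ∀ i a, 0 ≤ ν i a) (hν1 : ∀ i, ∑ a, ν i a = 1)
    (H : Finset (ZMod p)[X])
    (hH : ∀ h ∈ H, h.Monic ∧ h.natDegree = k ∧ Fac (fun d => m < d) h) :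
    ∑ h ∈ H, ∑ a : Fin (n + 1) → ZMod p, ∑ b : Fin (n + 1) → ZMod p,
      ∑ x : Fin (n + 1) → ZMod p,
      ((∏ i, ν i (a i)) * (∏ i, ν i (b i)) - ra θ P D ν φ a * ra θ P' D ν φ b) *
      (∏ i, u i (x i)) *
      ((if h ∣ fp n P P' D σ τ a b x ∧ fp n P P' D σ τ a b x ≠ 0 then 1 else 0) +
        ((p : ℝ) ^ k)⁻¹) ≤
    (2 ^ R + 1) * (bd θ P D ν φ + bd θ P' D ν φ) := by
  have hpr : (0 : ℝ) < p := by exact_mod_cast hp.out.pos
  have hpk : (0 : ℝ) < (p : ℝ) ^ k := by positivity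
  have hHc : (H.card : ℝ) ≤ (p : ℝ) ^ k := by
    have h1 : H ⊆ mon p k := by
      intro h hh
      rw [mem_mon]
      exact ⟨(hH h hh).1, (hH h hh).2.1⟩
    have h2 := Finset.card_le_card h1
    rw [card_mon] at h2
    exact_mod_cast h2
  rw [Finset.sum_comm]
  have h2 : ∀ a b x : Fin (n + 1) → ZMod p,
      ∑ h ∈ H, ((∏ i, ν i (a i)) * (∏ i, ν i (b i)) - ra θ P D ν φ a * ra θ P' D ν φ b) *
      (∏ i, u i (x i)) *
      ((if h ∣ fp n P P' D σ τ a b x ∧ fp n P P' D σ τ a b x ≠ 0 then (1 : ℝ) else 0) +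
        ((p : ℝ) ^ k)⁻¹) ≤
      ((∏ i, ν i (a i)) * (∏ i, ν i (b i)) - ra θ P D ν φ a * ra θ P' D ν φ b) *
      (∏ i, u i (x i)) * (2 ^ R + 1) := by
    intro a b x
    obtain ⟨f, hf⟩ : ∃ f, f = fp n P P' D σ τ a b x := ⟨_, rfl⟩
    have hdeg : f.natDegree ≤ n := by
      rw [hf, fp_eq n P P' D σ τ hP]
      exact natDegree_rpoly_le n _
    rw [← hf, ← Finset.mul_sum]
    have ha := ra_nonneg θ P D ν φ hν0 a
    have hb := ra_nonneg θ P' D ν φ hν0 b
    have ha' := ra_le θ P D ν φ hν0 a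
    have hb' := ra_le θ P' D ν φ hν0 b
    have hx0 : 0 ≤ ∏ i, u i (x i) := Finset.prod_nonneg fun i _ => hu0 i _
    have hw0 : 0 ≤ ((∏ i, ν i (a i)) * (∏ i, ν i (b i)) -
        ra θ P D ν φ a * ra θ P' D ν φ b) * (∏ i, u i (x i)) := by
      apply mul_nonneg _ hx0
      rw [sub_nonneg]
      exact mul_le_mul ha' hb' hb (ha.trans ha')
    apply mul_le_mul_of_nonneg_left _ hw0
    rw [Finset.sum_add_distrib, Finset.sum_const, nsmul_eq_mul]
    have h5 : (H.card : ℝ) * ((p : ℝ) ^ k)⁻¹ ≤ 1 := by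
      calc _ ≤ (p : ℝ) ^ k * ((p : ℝ) ^ k)⁻¹ :=
            mul_le_mul_of_nonneg_right hHc (inv_nonneg.2 hpk.le)
        _ = 1 := mul_inv_cancel₀ hpk.ne'
    have hc : ∑ h ∈ H, (if h ∣ f ∧ f ≠ 0 then (1 : ℝ) else 0) =
        ((H.filter (fun h => h ∣ f ∧ f ≠ 0)).card : ℝ) := by
      rw [Finset.sum_ite, Finset.sum_const_zero, add_zero, Finset.sum_const, nsmul_eq_mul, mul_one]
    rw [hc]
    apply add_le_add _ h5
    by_cases h0 : f = 0
    · have h6 : H.filter (fun h => h ∣ f ∧ f ≠ 0) = ∅ := by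
        rw [Finset.filter_eq_empty_iff]
        intro h _ h'
        exact h'.2 h0
      rw [h6, Finset.card_empty]
      simp
    · exact card_dvd_le n m R hR f h0 hdeg (H.filter (fun h => h ∣ f ∧ f ≠ 0)) (by
        intro h hh
        obtain ⟨h5, h6, _⟩ := Finset.mem_filter.1 hh
        exact ⟨(hH h h5).1, (hH h h5).2.2, h6⟩)
  have h3 : ∑ a : Fin (n + 1) → ZMod p, ∑ h ∈ H, ∑ b : Fin (n + 1) → ZMod p,
      ∑ x : Fin (n + 1) → ZMod p,
      ((∏ i, ν i (a i)) * (∏ i, ν i (b i)) - ra θ P D ν φ a * ra θ P' D ν φ b) *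
      (∏ i, u i (x i)) *
      ((if h ∣ fp n P P' D σ τ a b x ∧ fp n P P' D σ τ a b x ≠ 0 then (1 : ℝ) else 0) +
        ((p : ℝ) ^ k)⁻¹) ≤
      ∑ a : Fin (n + 1) → ZMod p, ∑ b : Fin (n + 1) → ZMod p,
      ∑ x : Fin (n + 1) → ZMod p,
      ((∏ i, ν i (a i)) * (∏ i, ν i (b i)) - ra θ P D ν φ a * ra θ P' D ν φ b) *
      (∏ i, u i (x i)) * (2 ^ R + 1) := by
    apply Finset.sum_le_sum
    intro a _
    rw [Finset.sum_comm]
    apply Finset.sum_le_sum
    intro b _
    rw [Finset.sum_comm]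
    exact Finset.sum_le_sum fun x _ => h2 a b x
  refine h3.trans ?_
  have h4 : ∑ a : Fin (n + 1) → ZMod p, ∑ b : Fin (n + 1) → ZMod p,
      ∑ x : Fin (n + 1) → ZMod p,
      ((∏ i, ν i (a i)) * (∏ i, ν i (b i)) - ra θ P D ν φ a * ra θ P' D ν φ b) *
      (∏ i, u i (x i)) * ((2 : ℝ) ^ R + 1) = (1 - (∑ a : Fin (n + 1) → ZMod p, ra θ P D ν φ a) *
        (∑ b : Fin (n + 1) → ZMod p, ra θ P' D ν φ b)) * (2 ^ R + 1) := by
    simp_rw [← Finset.sum_mul, ← Finset.mul_sum]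
    rw [sum_pw u hu]
    congr 1
    simp only [mul_one]
    simp_rw [Finset.sum_sub_distrib, ← Finset.mul_sum, sum_pw ν hν1, mul_one]
    rw [sum_pw ν hν1, ← Finset.sum_mul]
  rw [h4, mul_comm]
  apply mul_le_mul_of_nonneg_left _ (by positivity)
  unfold bd
  have hA0 := sum_ra_nonneg θ P D ν φ hν0
  have hA1 := sum_ra_le θ P D ν φ hν0 hν1
  have hB0 := sum_ra_nonneg θ P' D ν φ hν0
  have hB1 := sum_ra_le θ P' D ν φ hν0 hν1
  nlinarith

end Pool.Agent.MP0a1886
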