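import Pool.Agent.MP0a1886.Min.Ent5

/-! The level of distribution below half the entropy: summation over the environments
(MP_0a1886_pr). -/

set_option autoImplicit false
set_option linter.unusedSectionVars false
open Finset Polynomial

namespace Pool.Agent.MP0a1886

variable {p : ℕ} [hp : Fact p.Prime]

/-- the number of frequencies of small weight, summed over the moduli -/
noncomputable def lowS (n k w0 : ℕ) (H : Finset (ZMod p)[X]) : ℕ :=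
  ∑ h ∈ H, ((Finset.univ.erase (0 : Fin k → ZMod p)).filter
      (fun v => hw (fun i : Fin (n + 1) => fn h k v (X ^ (i : ℕ))) < w0)).card

/-- the bound for fixed patterns and one modulus -/
lemma one_le (n k : ℕ) (θ : ℝ) (P P' D σ τ : Fin (n + 1) → Bool)
    (u ν φ : Fin (n + 1) → ZMod p → ℝ)
    (hu0 : ∀ i a, 0 ≤ u i a) (hu : ∀ i, ∑ a, u i a = 1)
    (hν0 : ∀ i a, 0 ≤ ν i a) (h : (ZMod p)[X]) (hh : h.Monic) (hk : h.natDegree = k)
    [∀ f : (ZMod p)[X], Decidable (h ∣ f ∧ f ≠ 0)] [∀ f : (ZMod p)[X], Decidable (f = 0)] :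
    |∑ a : Fin (n + 1) → ZMod p, ∑ b : Fin (n + 1) → ZMod p, ∑ x : Fin (n + 1) → ZMod p,
      (∏ i, ν i (a i)) * (∏ i, ν i (b i)) * (∏ i, u i (x i)) *
      ((if h ∣ fp n P P' D σ τ a b x ∧ fp n P P' D σ τ a b x ≠ 0 then 1 else 0) -
        ((p : ℝ) ^ k)⁻¹)| ≤
    ((p : ℝ) ^ k)⁻¹ * ∑ v ∈ (Finset.univ : Finset (Fin k → ZMod p)).erase 0,
      ‖VV n θ P D σ ν φ (fn h k v)‖ * ‖VV n θ P' D τ ν φ (fn h k v)‖ *
        XX n P P' D u σ τ (fn h k v) +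
    ∑ a : Fin (n + 1) → ZMod p, ∑ b : Fin (n + 1) → ZMod p, ∑ x : Fin (n + 1) → ZMod p,
      ra θ P D ν φ a * ra θ P' D ν φ b * (∏ i, u i (x i)) *
      (if fp n P P' D σ τ a b x = 0 then 1 else 0) +
    ∑ a : Fin (n + 1) → ZMod p, ∑ b : Fin (n + 1) → ZMod p,
      ∑ x : Fin (n + 1) → ZMod p,
      ((∏ i, ν i (a i)) * (∏ i, ν i (b i)) - ra θ P D ν φ a * ra θ P' D ν φ b) *
      (∏ i, u i (x i)) *
      ((if h ∣ fp n P P' D σ τ a b x ∧ fp n P P' D σ τ a b x ≠ 0 then 1 else 0) +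
        ((p : ℝ) ^ k)⁻¹) := by
  classical
  have hpr : (0 : ℝ) < p := by exact_mod_cast hp.out.pos
  have hq0 : (0 : ℝ) ≤ ((p : ℝ) ^ k)⁻¹ := by positivity
  have h1 := fourier_pieces n θ P P' D σ τ u ν φ hu h hh k hk
  obtain ⟨A, hA⟩ : ∃ A, A = ∑ a : Fin (n + 1) → ZMod p, ∑ b : Fin (n + 1) → ZMod p,
      ∑ x : Fin (n + 1) → ZMod p,
      ra θ P D ν φ a * ra θ P' D ν φ b * (∏ i, u i (x i)) *
      ((if h ∣ fp n P P' D σ τ a b x then 1 else 0) - ((p : ℝ) ^ k)⁻¹) := ⟨_, rfl⟩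
  rw [← hA] at h1
  have h2 : ∑ a : Fin (n + 1) → ZMod p, ∑ b : Fin (n + 1) → ZMod p, ∑ x : Fin (n + 1) → ZMod p,
      (∏ i, ν i (a i)) * (∏ i, ν i (b i)) * (∏ i, u i (x i)) *
      ((if h ∣ fp n P P' D σ τ a b x ∧ fp n P P' D σ τ a b x ≠ 0 then 1 else 0) -
        ((p : ℝ) ^ k)⁻¹) = A -
      ∑ a : Fin (n + 1) → ZMod p, ∑ b : Fin (n + 1) → ZMod p, ∑ x : Fin (n + 1) → ZMod p,
      ra θ P D ν φ a * ra θ P' D ν φ b * (∏ i, u i (x i)) *
      (if fp n P P' D σ τ a b x = 0 then 1 else 0) +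
      ∑ a : Fin (n + 1) → ZMod p, ∑ b : Fin (n + 1) → ZMod p,
      ∑ x : Fin (n + 1) → ZMod p,
      ((∏ i, ν i (a i)) * (∏ i, ν i (b i)) - ra θ P D ν φ a * ra θ P' D ν φ b) *
      (∏ i, u i (x i)) *
      ((if h ∣ fp n P P' D σ τ a b x ∧ fp n P P' D σ τ a b x ≠ 0 then 1 else 0) -
        ((p : ℝ) ^ k)⁻¹) := by
    rw [hA]
    simp_rw [← Finset.sum_sub_distrib, ← Finset.sum_add_distrib]
    apply Finset.sum_congr rfl
    intro a _
    apply Finset.sum_congr rfl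
    intro b _
    apply Finset.sum_congr rfl
    intro x _
    by_cases h0 : fp n P P' D σ τ a b x = 0
    · rw [if_neg (fun h' => h'.2 h0), if_pos (by rw [h0]; exact dvd_zero h), if_pos h0]
      ring
    · by_cases h3 : h ∣ fp n P P' D σ τ a b x
      · rw [if_pos ⟨h3, h0⟩, if_pos h3, if_neg h0]
        ring
      · rw [if_neg (fun h' => h3 h'.1), if_neg h3, if_neg h0]
        ring
  rw [h2]
  have hb : |∑ a : Fin (n + 1) → ZMod p, ∑ b : Fin (n + 1) → ZMod p,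
      ∑ x : Fin (n + 1) → ZMod p,
      ((∏ i, ν i (a i)) * (∏ i, ν i (b i)) - ra θ P D ν φ a * ra θ P' D ν φ b) *
      (∏ i, u i (x i)) *
      ((if h ∣ fp n P P' D σ τ a b x ∧ fp n P P' D σ τ a b x ≠ 0 then 1 else 0) -
        ((p : ℝ) ^ k)⁻¹)| ≤
      ∑ a : Fin (n + 1) → ZMod p, ∑ b : Fin (n + 1) → ZMod p,
      ∑ x : Fin (n + 1) → ZMod p,
      ((∏ i, ν i (a i)) * (∏ i, ν i (b i)) - ra θ P D ν φ a * ra θ P' D ν φ b) *
      (∏ i, u i (x i)) *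
      ((if h ∣ fp n P P' D σ τ a b x ∧ fp n P P' D σ τ a b x ≠ 0 then 1 else 0) +
        ((p : ℝ) ^ k)⁻¹) := by
    refine (Finset.abs_sum_le_sum_abs _ _).trans (Finset.sum_le_sum fun a _ => ?_)
    refine (Finset.abs_sum_le_sum_abs _ _).trans (Finset.sum_le_sum fun b _ => ?_)
    refine (Finset.abs_sum_le_sum_abs _ _).trans (Finset.sum_le_sum fun x _ => ?_)
    have ha := ra_nonneg θ P D ν φ hν0 a
    have hb := ra_nonneg θ P' D ν φ hν0 b
    have ha' := ra_le θ P D ν φ hν0 a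
    have hb' := ra_le θ P' D ν φ hν0 b
    have hx0 : 0 ≤ ∏ i, u i (x i) := Finset.prod_nonneg fun i _ => hu0 i _
    have hw0 : 0 ≤ ((∏ i, ν i (a i)) * (∏ i, ν i (b i)) -
        ra θ P D ν φ a * ra θ P' D ν φ b) * (∏ i, u i (x i)) := by
      apply mul_nonneg _ hx0
      rw [sub_nonneg]
      exact mul_le_mul ha' hb' hb (ha.trans ha')
    rw [abs_mul, abs_of_nonneg hw0]
    apply mul_le_mul_of_nonneg_left _ hw0
    rw [abs_le]
    split_ifs <;> constructor <;> linarith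
  have hz : 0 ≤ ∑ a : Fin (n + 1) → ZMod p, ∑ b : Fin (n + 1) → ZMod p,
      ∑ x : Fin (n + 1) → ZMod p,
      ra θ P D ν φ a * ra θ P' D ν φ b * (∏ i, u i (x i)) *
      (if fp n P P' D σ τ a b x = 0 then (1 : ℝ) else 0) := by
    apply Finset.sum_nonneg
    intro a _
    apply Finset.sum_nonneg
    intro b _
    apply Finset.sum_nonneg
    intro x _
    apply mul_nonneg
    · exact mul_nonneg (mul_nonneg (ra_nonneg θ P D ν φ hν0 a) (ra_nonneg θ P' D ν φ hν0 b))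
        (Finset.prod_nonneg fun i _ => hu0 i _)
    · split_ifs <;> norm_num
  obtain ⟨Z, hZ⟩ : ∃ Z, Z = ∑ a : Fin (n + 1) → ZMod p, ∑ b : Fin (n + 1) → ZMod p,
      ∑ x : Fin (n + 1) → ZMod p,
      ra θ P D ν φ a * ra θ P' D ν φ b * (∏ i, u i (x i)) *
      (if fp n P P' D σ τ a b x = 0 then (1 : ℝ) else 0) := ⟨_, rfl⟩
  rw [← hZ] at hz ⊢
  obtain ⟨B, hB⟩ : ∃ B, B = ∑ a : Fin (n + 1) → ZMod p, ∑ b : Fin (n + 1) → ZMod p,
      ∑ x : Fin (n + 1) → ZMod p,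
      ((∏ i, ν i (a i)) * (∏ i, ν i (b i)) - ra θ P D ν φ a * ra θ P' D ν φ b) *
      (∏ i, u i (x i)) *
      ((if h ∣ fp n P P' D σ τ a b x ∧ fp n P P' D σ τ a b x ≠ 0 then 1 else 0) -
        ((p : ℝ) ^ k)⁻¹) := ⟨_, rfl⟩
  rw [← hB] at hb ⊢
  have h4 := abs_add_le (A - Z) B
  have h5 := abs_sub A Z
  rw [abs_of_nonneg hz] at h5
  linarith

lemma sum3_sub {A : Type*} [Fintype A] (w1 w2 w3 : A → ℝ) (h1 : ∑ a, w1 a = 1)
    (h2 : ∑ a, w2 a = 1) (h3 : ∑ a, w3 a = 1) (I : A → A → A → ℝ) (c : ℝ) :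
    ∑ a : A, ∑ b : A, ∑ x : A, w1 a * w2 b * w3 x * (I a b x - c) =
      ∑ a : A, ∑ b : A, ∑ x : A, w1 a * w2 b * w3 x * I a b x - c := by
  have h : ∑ a : A, ∑ b : A, ∑ x : A, w1 a * w2 b * w3 x * c = c := by
    have e1 : ∀ a b : A, ∑ x : A, w1 a * w2 b * w3 x * c = w1 a * w2 b * c := by
      intro a b
      rw [← Finset.sum_mul, ← Finset.mul_sum, h3, mul_one]
    have e2 : ∀ a : A, ∑ b : A, w1 a * w2 b * c = w1 a * c := by
      intro a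
      rw [← Finset.sum_mul, ← Finset.mul_sum, h2, mul_one]
    simp_rw [e1, e2]
    rw [← Finset.sum_mul, h1, one_mul]
  simp_rw [mul_sub, Finset.sum_sub_distrib]
  rw [h]

lemma sum2_sub {S : Type*} [Fintype S] (q : S → ℝ) (hq : ∑ s, q s = 1) (J : S → S → ℝ)
    (c : ℝ) : ∑ s : S, ∑ t : S, q s * q t * (J s t - c) =
      ∑ s : S, ∑ t : S, q s * q t * J s t - c := by
  have h : ∑ s : S, ∑ t : S, q s * q t * c = c := by
    have e1 : ∀ s : S, ∑ t : S, q s * q t * c = q s * c := by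
      intro s
      rw [← Finset.sum_mul, ← Finset.mul_sum, hq, mul_one]
    simp_rw [e1]
    rw [← Finset.sum_mul, hq, one_mul]
  simp_rw [mul_sub, Finset.sum_sub_distrib]
  rw [h]

open Classical in
lemma dev_pieces (n : ℕ) (η : ℝ) (P P' D : Fin (n + 1) → Bool) (hP : ∀ i, P' i = !(P i))
    (u ν : Fin (n + 1) → ZMod p → ℝ) (hu : ∀ i, ∑ a, u i a = 1) (hν : ∀ i, ∑ a, ν i a = 1)
    (E : (ZMod p)[X] → Prop) (c : ℝ) :
    Prg n (Lw η D u ν) E - c = ∑ σ : Fin (n + 1) → Bool, ∑ τ : Fin (n + 1) → Bool,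
      pb η σ * pb η τ *
      ∑ a : Fin (n + 1) → ZMod p, ∑ b : Fin (n + 1) → ZMod p, ∑ x : Fin (n + 1) → ZMod p,
      (∏ i, ν i (a i)) * (∏ i, ν i (b i)) * (∏ i, u i (x i)) *
      ((if E (fp n P P' D σ τ a b x) then 1 else 0) - c) := by
  rw [Prg_pieces n η P P' D hP u ν hu hν E,
    ← sum2_sub (fun σ : Fin (n + 1) → Bool => pb η σ) (sum_pb (n + 1) η) _ c]
  apply Finset.sum_congr rfl
  intro σ _
  apply Finset.sum_congr rfl
  intro τ _
  rw [sum3_sub (fun a : Fin (n + 1) → ZMod p => ∏ i, ν i (a i)) (fun a => ∏ i, ν i (a i))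
    (fun a => ∏ i, u i (a i)) (sum_pw ν hν) (sum_pw ν hν) (sum_pw u hu)
    (fun a b x => if E (fp n P P' D σ τ a b x) then 1 else 0) c]
  rfl

end Pool.Agent.MP0a1886
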