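import Pool.Agent.MP0a1886.Min.Ent6

/-! The level of distribution below half the entropy: the bound for one environment
(MP_0a1886_pr). -/

set_option autoImplicit false
set_option linter.unusedSectionVars false
open Finset Polynomial

namespace Pool.Agent.MP0a1886

variable {p : ℕ} [hp : Fact p.Prime]

/-- the Fourier part of the bound -/
noncomputable def Fh (n k : ℕ) (θ : ℝ) (P P' D : Fin (n + 1) → Bool)
    (u ν φ : Fin (n + 1) → ZMod p → ℝ) (h : (ZMod p)[X]) (σ τ : Fin (n + 1) → Bool) : ℝ :=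
  ((p : ℝ) ^ k)⁻¹ * ∑ v ∈ (Finset.univ : Finset (Fin k → ZMod p)).erase 0,
      ‖VV n θ P D σ ν φ (fn h k v)‖ * ‖VV n θ P' D τ ν φ (fn h k v)‖ *
        XX n P P' D u σ τ (fn h k v)

open Classical in
/-- the contribution of the zero polynomial -/
noncomputable def Zh (n : ℕ) (θ : ℝ) (P P' D : Fin (n + 1) → Bool)
    (u ν φ : Fin (n + 1) → ZMod p → ℝ) (σ τ : Fin (n + 1) → Bool) : ℝ :=
    ∑ a : Fin (n + 1) → ZMod p, ∑ b : Fin (n + 1) → ZMod p, ∑ x : Fin (n + 1) → ZMod p,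
      ra θ P D ν φ a * ra θ P' D ν φ b * (∏ i, u i (x i)) *
      (if fp n P P' D σ τ a b x = 0 then 1 else 0)

open Classical in
/-- the contribution of the atypical vectors -/
noncomputable def Bh (n : ℕ) (θ c : ℝ) (P P' D : Fin (n + 1) → Bool)
    (u ν φ : Fin (n + 1) → ZMod p → ℝ) (E : (ZMod p)[X] → Prop) (σ τ : Fin (n + 1) → Bool) : ℝ :=
    ∑ a : Fin (n + 1) → ZMod p, ∑ b : Fin (n + 1) → ZMod p,
      ∑ x : Fin (n + 1) → ZMod p,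
      ((∏ i, ν i (a i)) * (∏ i, ν i (b i)) - ra θ P D ν φ a * ra θ P' D ν φ b) *
      (∏ i, u i (x i)) *
      ((if E (fp n P P' D σ τ a b x) then 1 else 0) + c)

open Classical in
/-- the deviation for given patterns -/
noncomputable def Tt (n : ℕ) (c : ℝ) (P P' D : Fin (n + 1) → Bool)
    (u ν : Fin (n + 1) → ZMod p → ℝ) (E : (ZMod p)[X] → Prop) (σ τ : Fin (n + 1) → Bool) : ℝ :=
    ∑ a : Fin (n + 1) → ZMod p, ∑ b : Fin (n + 1) → ZMod p, ∑ x : Fin (n + 1) → ZMod p,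
      (∏ i, ν i (a i)) * (∏ i, ν i (b i)) * (∏ i, u i (x i)) *
      ((if E (fp n P P' D σ τ a b x) then 1 else 0) - c)

lemma dev_Tt (n : ℕ) (η : ℝ) (P P' D : Fin (n + 1) → Bool) (hP : ∀ i, P' i = !(P i))
    (u ν : Fin (n + 1) → ZMod p → ℝ) (hu : ∀ i, ∑ a, u i a = 1) (hν : ∀ i, ∑ a, ν i a = 1)
    (E : (ZMod p)[X] → Prop) (c : ℝ) :
    Prg n (Lw η D u ν) E - c = ∑ σ : Fin (n + 1) → Bool, ∑ τ : Fin (n + 1) → Bool,
      pb η σ * pb η τ * Tt n c P P' D u ν E σ τ := by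
  unfold Tt
  exact dev_pieces n η P P' D hP u ν hu hν E c

lemma Tt_le (n k : ℕ) (θ : ℝ) (P P' D σ τ : Fin (n + 1) → Bool)
    (u ν φ : Fin (n + 1) → ZMod p → ℝ)
    (hu0 : ∀ i a, 0 ≤ u i a) (hu : ∀ i, ∑ a, u i a = 1)
    (hν0 : ∀ i a, 0 ≤ ν i a) (h : (ZMod p)[X]) (hh : h.Monic) (hk : h.natDegree = k) :
    |Tt n ((p : ℝ) ^ k)⁻¹ P P' D u ν (fun f => h ∣ f ∧ f ≠ 0) σ τ| ≤
      Fh n k θ P P' D u ν φ h σ τ + Zh n θ P P' D u ν φ σ τ +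
        Bh n θ ((p : ℝ) ^ k)⁻¹ P P' D u ν φ (fun f => h ∣ f ∧ f ≠ 0) σ τ := by
  unfold Tt Fh Zh Bh
  exact @one_le p hp n k θ P P' D σ τ u ν φ hu0 hu hν0 h hh hk
    (fun f => Classical.propDecidable (h ∣ f ∧ f ≠ 0)) (fun f => inferInstance)

lemma one_le_abs (n k : ℕ) (θ η : ℝ) (hη0 : 0 ≤ η) (hη1 : η ≤ 1)
    (P P' D : Fin (n + 1) → Bool) (hP : ∀ i, P' i = !(P i))
    (u ν φ : Fin (n + 1) → ZMod p → ℝ)
    (hu0 : ∀ i a, 0 ≤ u i a) (hu : ∀ i, ∑ a, u i a = 1)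
    (hν0 : ∀ i a, 0 ≤ ν i a) (hν1 : ∀ i, ∑ a, ν i a = 1)
    (h : (ZMod p)[X]) (hm : h.Monic) (hd : h.natDegree = k) :
    |Prg n (Lw η D u ν) (fun f => h ∣ f ∧ f ≠ 0) - ((p : ℝ) ^ k)⁻¹| ≤
      ∑ σ : Fin (n + 1) → Bool, ∑ τ : Fin (n + 1) → Bool, pb η σ * pb η τ *
        (Fh n k θ P P' D u ν φ h σ τ + Zh n θ P P' D u ν φ σ τ +
          Bh n θ ((p : ℝ) ^ k)⁻¹ P P' D u ν φ (fun f => h ∣ f ∧ f ≠ 0) σ τ) := by
  have hpb := fun σ : Fin (n + 1) → Bool => pb_nonneg hη0 hη1 σ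
  rw [dev_Tt n η P P' D hP u ν hu hν1 (fun f => h ∣ f ∧ f ≠ 0) ((p : ℝ) ^ k)⁻¹]
  refine (Finset.abs_sum_le_sum_abs _ _).trans (Finset.sum_le_sum fun σ _ => ?_)
  refine (Finset.abs_sum_le_sum_abs _ _).trans (Finset.sum_le_sum fun τ _ => ?_)
  rw [abs_mul, abs_of_nonneg (mul_nonneg (hpb σ) (hpb τ))]
  exact mul_le_mul_of_nonneg_left (Tt_le n k θ P P' D σ τ u ν φ hu0 hu hν0 h hm hd)
    (mul_nonneg (hpb σ) (hpb τ))

/-- the contribution of the zero polynomial, averaged over the patterns -/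
lemma Zh_sum (n : ℕ) (θ : ℝ) (hθ : 0 ≤ θ)
    (η : ℝ) (hη0 : 0 ≤ η) (hη1 : η ≤ 1)
    (P P' D : Fin (n + 1) → Bool) (hP : ∀ i, P' i = !(P i))
    (u ν φ : Fin (n + 1) → ZMod p → ℝ)
    (hu0 : ∀ i a, 0 ≤ u i a) (hu : ∀ i, ∑ a, u i a = 1)
    (hν0 : ∀ i a, 0 ≤ ν i a) (hν1 : ∀ i, ∑ a, ν i a = 1)
    (huφ : ∀ i, D i = true → u i 0 ≤ φ i 0) :
    ∑ σ : Fin (n + 1) → Bool, ∑ τ : Fin (n + 1) → Bool, pb η σ * pb η τ *
        Zh n θ P P' D u ν φ σ τ ≤ θ * (1 + η * p) ^ (n + 1) := by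
  have hpb := fun σ : Fin (n + 1) → Bool => pb_nonneg hη0 hη1 σ
  obtain ⟨W, hW⟩ : ∃ W : (Fin (n + 1) → Bool) → ℝ, W = fun σ =>
    ∑ a : Fin (n + 1) → ZMod p, ra θ P D ν φ a *
      ((∏ i, if act P D σ i then (if a i = (0 : Fin (n + 1) → ZMod p) i then (1 : ℝ) else 0)
        else 1) * ∏ i, (if D i then φ i 0 else 1)) := ⟨_, rfl⟩
  have h1 : ∑ σ : Fin (n + 1) → Bool, ∑ τ : Fin (n + 1) → Bool, pb η σ * pb η τ *
        Zh n θ P P' D u ν φ σ τ ≤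
        ∑ σ : Fin (n + 1) → Bool, ∑ τ : Fin (n + 1) → Bool, pb η σ * pb η τ * W σ := by
    apply Finset.sum_le_sum
    intro σ _
    apply Finset.sum_le_sum
    intro τ _
    apply mul_le_mul_of_nonneg_left _ (mul_nonneg (hpb σ) (hpb τ))
    unfold Zh
    rw [hW]
    exact zero_fix n θ P P' D σ τ hP u ν φ hu0 hu hν0 hν1 huφ
  have h2 : ∑ σ : Fin (n + 1) → Bool, ∑ τ : Fin (n + 1) → Bool, pb η σ * pb η τ * W σ =
      ∑ σ : Fin (n + 1) → Bool, pb η σ * W σ := by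
    apply Finset.sum_congr rfl
    intro σ _
    rw [← Finset.sum_mul, ← Finset.mul_sum, sum_pb, mul_one]
  rw [h2] at h1
  refine h1.trans ?_
  rw [hW]
  exact theta_le θ hθ η hη0 hη1 P D ν φ hν0 hν1 0

lemma ite_inst (c : Prop) (i j : Decidable c) (x y : ℝ) : @ite ℝ c i x y = @ite ℝ c j x y := by
  rw [Subsingleton.elim i j]

/-- the atypical vectors for fixed patterns -/
lemma Bh_sum_h (n m R k : ℕ) (hR : n < (m + 1) * R) (θ : ℝ)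
    (P P' D σ τ : Fin (n + 1) → Bool)
    (hP : ∀ i, P' i = !(P i)) (u ν φ : Fin (n + 1) → ZMod p → ℝ)
    (hu0 : ∀ i a, 0 ≤ u i a) (hu : ∀ i, ∑ a, u i a = 1)
    (hν0 : ∀ i a, 0 ≤ ν i a) (hν1 : ∀ i, ∑ a, ν i a = 1)
    (H : Finset (ZMod p)[X])
    (hH : ∀ h ∈ H, h.Monic ∧ h.natDegree = k ∧ Fac (fun d => m < d) h) :
    ∑ h ∈ H, Bh n θ ((p : ℝ) ^ k)⁻¹ P P' D u ν φ (fun f => h ∣ f ∧ f ≠ 0) σ τ ≤
    (2 ^ R + 1) * (bd θ P D ν φ + bd θ P' D ν φ) := by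
  classical
  have h1 := bad_le n m R k hR θ P P' D σ τ hP u ν φ hu0 hu hν0 hν1 H hH
  refine le_trans (le_of_eq ?_) h1
  apply Finset.sum_congr rfl
  intro h _
  unfold Bh
  apply Finset.sum_congr rfl
  intro a _
  apply Finset.sum_congr rfl
  intro b _
  apply Finset.sum_congr rfl
  intro x _
  congr 2
  exact ite_inst _ _ _ _ _

/-- the atypical vectors -/
lemma Bh_sum (n m R k : ℕ) (hR : n < (m + 1) * R) (θ : ℝ)
    (η : ℝ) (hη0 : 0 ≤ η) (hη1 : η ≤ 1)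
    (P P' D : Fin (n + 1) → Bool)
    (hP : ∀ i, P' i = !(P i)) (u ν φ : Fin (n + 1) → ZMod p → ℝ)
    (hu0 : ∀ i a, 0 ≤ u i a) (hu : ∀ i, ∑ a, u i a = 1)
    (hν0 : ∀ i a, 0 ≤ ν i a) (hν1 : ∀ i, ∑ a, ν i a = 1)
    (H : Finset (ZMod p)[X])
    (hH : ∀ h ∈ H, h.Monic ∧ h.natDegree = k ∧ Fac (fun d => m < d) h) :
    ∑ h ∈ H, ∑ σ : Fin (n + 1) → Bool, ∑ τ : Fin (n + 1) → Bool, pb η σ * pb η τ *
        Bh n θ ((p : ℝ) ^ k)⁻¹ P P' D u ν φ (fun f => h ∣ f ∧ f ≠ 0) σ τ ≤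
      (2 ^ R + 1) * (bd θ P D ν φ + bd θ P' D ν φ) := by
  have hpb := fun σ : Fin (n + 1) → Bool => pb_nonneg hη0 hη1 σ
  rw [Finset.sum_comm]
  have h1 : ∑ σ : Fin (n + 1) → Bool, ∑ h ∈ H, ∑ τ : Fin (n + 1) → Bool, pb η σ * pb η τ *
      Bh n θ ((p : ℝ) ^ k)⁻¹ P P' D u ν φ (fun f => h ∣ f ∧ f ≠ 0) σ τ ≤
      ∑ σ : Fin (n + 1) → Bool, ∑ τ : Fin (n + 1) → Bool, pb η σ * pb η τ *
      ((2 ^ R + 1) * (bd θ P D ν φ + bd θ P' D ν φ)) := by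
    apply Finset.sum_le_sum
    intro σ _
    rw [Finset.sum_comm]
    apply Finset.sum_le_sum
    intro τ _
    rw [← Finset.mul_sum]
    exact mul_le_mul_of_nonneg_left
      (Bh_sum_h n m R k hR θ P P' D σ τ hP u ν φ hu0 hu hν0 hν1 H hH)
      (mul_nonneg (hpb σ) (hpb τ))
  refine h1.trans (le_of_eq ?_)
  have h2 : ∀ σ : Fin (n + 1) → Bool, ∑ τ : Fin (n + 1) → Bool, pb η σ * pb η τ *
      (((2 : ℝ) ^ R + 1) * (bd θ P D ν φ + bd θ P' D ν φ)) =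
      pb η σ * ((2 ^ R + 1) * (bd θ P D ν φ + bd θ P' D ν φ)) := by
    intro σ
    rw [← Finset.sum_mul, ← Finset.mul_sum, sum_pb, mul_one]
  simp_rw [h2]
  rw [← Finset.sum_mul, sum_pb, one_mul]

end Pool.Agent.MP0a1886
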