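import Pool.Agent.MP0a1886.Min.Ent7

/-! The level of distribution below half the entropy: the bound for one environment
(MP_0a1886_pr). -/

set_option autoImplicit false
set_option linter.unusedSectionVars false
open Finset Polynomial

namespace Pool.Agent.MP0a1886

variable {p : ℕ} [hp : Fact p.Prime]

/-- exchange of the summations over the frequencies and the patterns -/
lemma swap3 {S V : Type*} [Fintype S] (q : S → ℝ) (W : Finset V) (c : ℝ) (f : V → S → S → ℝ) :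
    ∑ s : S, ∑ t : S, q s * q t * (c * ∑ v ∈ W, f v s t) =
      c * ∑ v ∈ W, ∑ s : S, ∑ t : S, q s * q t * f v s t := by
  have e1 : ∑ v ∈ W, ∑ s : S, ∑ t : S, q s * q t * f v s t =
      ∑ s : S, ∑ t : S, q s * q t * ∑ v ∈ W, f v s t := by
    rw [Finset.sum_comm]
    apply Finset.sum_congr rfl
    intro s _
    rw [Finset.sum_comm]
    apply Finset.sum_congr rfl
    intro t _
    rw [Finset.mul_sum]
  rw [e1, Finset.mul_sum]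
  apply Finset.sum_congr rfl
  intro s _
  rw [Finset.mul_sum]
  apply Finset.sum_congr rfl
  intro t _
  ring

/-- the inequality between the two means, summed over the patterns -/
lemma amgm_sum {S : Type*} [Fintype S] (q : S → ℝ) (hq : ∀ s, 0 ≤ q s) (A B : S → ℝ)
    (X Y : S → S → ℝ) (hX : ∀ s t, 0 ≤ X s t) (hXY : ∀ s t, Y t s = X s t) :
    ∑ s : S, ∑ t : S, q s * q t * (A s * B t * X s t) ≤
      (∑ s : S, ∑ t : S, q s * q t * (A s ^ 2 * X s t) +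
        ∑ s : S, ∑ t : S, q s * q t * (B s ^ 2 * Y s t)) / 2 := by
  have h3 : ∑ s : S, ∑ t : S, q s * q t * (B s ^ 2 * Y s t) =
      ∑ s : S, ∑ t : S, q s * q t * (B t ^ 2 * X s t) := by
    rw [Finset.sum_comm]
    apply Finset.sum_congr rfl
    intro s _
    apply Finset.sum_congr rfl
    intro t _
    rw [hXY s t]
    ring
  rw [h3, ← Finset.sum_add_distrib, Finset.sum_div]
  apply Finset.sum_le_sum
  intro s _
  rw [← Finset.sum_add_distrib, Finset.sum_div]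
  apply Finset.sum_le_sum
  intro t _
  have h5 : A s * B t ≤ (A s ^ 2 + B t ^ 2) / 2 := by nlinarith [sq_nonneg (A s - B t)]
  have h6 := mul_le_mul_of_nonneg_left (mul_le_mul_of_nonneg_right h5 (hX s t))
    (mul_nonneg (hq s) (hq t))
  refine h6.trans (le_of_eq ?_)
  ring

lemma XX_nonneg (n : ℕ) (P P' D : Fin (n + 1) → Bool) (u : Fin (n + 1) → ZMod p → ℝ)
    (σ τ : Fin (n + 1) → Bool) (l : (ZMod p)[X] →ₗ[ZMod p] ZMod p) :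
    0 ≤ XX n P P' D u σ τ l := by
  unfold XX
  apply Finset.prod_nonneg
  intro i _
  split_ifs
  · exact norm_nonneg _
  · exact zero_le_one

/-- the two sides of the Fourier part -/
lemma Fh_two (n k : ℕ) (θ : ℝ)
    (η : ℝ) (hη0 : 0 ≤ η) (hη1 : η ≤ 1) (P P' D : Fin (n + 1) → Bool)
    (u ν φ : Fin (n + 1) → ZMod p → ℝ) (h : (ZMod p)[X]) :
    ∑ σ : Fin (n + 1) → Bool, ∑ τ : Fin (n + 1) → Bool, pb η σ * pb η τ *
        Fh n k θ P P' D u ν φ h σ τ ≤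
      (((p : ℝ) ^ k)⁻¹ * ∑ v ∈ (Finset.univ : Finset (Fin k → ZMod p)).erase 0,
      ∑ σ : Fin (n + 1) → Bool, ∑ τ : Fin (n + 1) → Bool, pb η σ * pb η τ *
        (‖VV n θ P D σ ν φ (fn h k v)‖ ^ 2 * XX n P P' D u σ τ (fn h k v)) +
        ((p : ℝ) ^ k)⁻¹ * ∑ v ∈ (Finset.univ : Finset (Fin k → ZMod p)).erase 0,
      ∑ σ : Fin (n + 1) → Bool, ∑ τ : Fin (n + 1) → Bool, pb η σ * pb η τ *
        (‖VV n θ P' D σ ν φ (fn h k v)‖ ^ 2 * XX n P' P D u σ τ (fn h k v))) / 2 := by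
  have hpr : (0 : ℝ) < p := by exact_mod_cast hp.out.pos
  have hpb := fun σ : Fin (n + 1) → Bool => pb_nonneg hη0 hη1 σ
  unfold Fh
  rw [swap3 (fun σ : Fin (n + 1) → Bool => pb η σ)
    ((Finset.univ : Finset (Fin k → ZMod p)).erase 0) ((p : ℝ) ^ k)⁻¹
    (fun v σ τ => ‖VV n θ P D σ ν φ (fn h k v)‖ * ‖VV n θ P' D τ ν φ (fn h k v)‖ *
        XX n P P' D u σ τ (fn h k v))]
  rw [← mul_add, ← Finset.sum_add_distrib, mul_div_assoc, Finset.sum_div]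
  apply mul_le_mul_of_nonneg_left _ (by positivity)
  apply Finset.sum_le_sum
  intro v _
  exact amgm_sum (fun σ : Fin (n + 1) → Bool => pb η σ) hpb
    (fun σ => ‖VV n θ P D σ ν φ (fn h k v)‖) (fun τ => ‖VV n θ P' D τ ν φ (fn h k v)‖)
    (fun σ τ => XX n P P' D u σ τ (fn h k v)) (fun σ τ => XX n P' P D u σ τ (fn h k v))
    (fun σ τ => XX_nonneg n P P' D u σ τ _) (fun σ τ => by
      simp only [XX]
      rw [rs_comm P' P D τ σ])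

/-- the Fourier part -/
lemma Fh_sum (n m R k w0 : ℕ) (hR : n < (m + 1) * R) (θ : ℝ) (hθ : 0 ≤ θ)
    (η η' : ℝ) (hη0 : 0 ≤ η) (hη1 : η ≤ 1) (hη0' : 0 ≤ η') (hη1' : η' ≤ 1)
    (P P' D : Fin (n + 1) → Bool) (hP : ∀ i, P' i = !(P i))
    (u ν φ Φ : Fin (n + 1) → ZMod p → ℝ) (hu : ∀ i, ∑ a, u i a = 1)
    (hν0 : ∀ i a, 0 ≤ ν i a) (hν1 : ∀ i, ∑ a, ν i a = 1)
    (hφ0 : ∀ i a, 0 ≤ φ i a) (hφ1 : ∀ i, ∑ a, φ i a = 1)
    (hφΦ : ∀ i c, muhat (φ i) c = (Φ i c : ℂ)) (hΦ0 : ∀ i c, 0 ≤ Φ i c) (hΦ1 : ∀ i c, Φ i c ≤ 1)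
    (c1 : ℝ) (hc0 : 0 ≤ c1) (hc1 : c1 ≤ 1) (hu1 : ∀ i c, ‖muhat (u i) c‖ ≤ 1)
    (huD : ∀ i, D i = true → ∀ c, ‖muhat (u i) c‖ ≤ (if c = 0 then 1 else c1) * Φ i c)
    (h1η : 1 - η ≤ c1 * (1 - η'))
    (huS : ∀ i, D i = false → ∀ c, c ≠ 0 → η * ‖muhat (u i) c‖ ≤ c1 * η')
    (H : Finset (ZMod p)[X])
    (hH : ∀ h ∈ H, h.Monic ∧ h.natDegree = k ∧ Fac (fun d => m < d) h) :
    ∑ h ∈ H, ∑ σ : Fin (n + 1) → Bool, ∑ τ : Fin (n + 1) → Bool, pb η σ * pb η τ *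
        Fh n k θ P P' D u ν φ h σ τ ≤
      ((p : ℝ) ^ k)⁻¹ * (lowS n k w0 H : ℝ) +
      c1 ^ w0 * (2 ^ R + (H.card : ℝ) * (θ * (1 + η' * p) ^ (n + 1))) := by
  have hP2 : ∀ i, P i = !(P' i) := by
    intro i
    rw [hP i]
    simp
  have s1 := side_le n m R k w0 hR θ hθ η η' hη0 hη1 hη0' hη1' P P' D hP u ν φ Φ hu hν0 hν1 hφ0
    hφ1 hφΦ hΦ0 hΦ1 c1 hc0 hc1 hu1 huD h1η huS H hH
  have s2 := side_le n m R k w0 hR θ hθ η η' hη0 hη1 hη0' hη1' P' P D hP2 u ν φ Φ hu hν0 hν1 hφ0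
    hφ1 hφΦ hΦ0 hΦ1 c1 hc0 hc1 hu1 huD h1η huS H hH
  have h1 := Finset.sum_le_sum (fun h (_ : h ∈ H) =>
    Fh_two n k θ η hη0 hη1 P P' D u ν φ h)
  refine h1.trans ?_
  rw [← Finset.sum_div, Finset.sum_add_distrib]
  have hL : (∑ h ∈ H, ((Finset.univ.erase (0 : Fin k → ZMod p)).filter
      (fun v => hw (fun i : Fin (n + 1) => fn h k v (X ^ (i : ℕ))) < w0)).card : ℕ) =
      lowS n k w0 H := rfl
  rw [hL] at s1 s2
  obtain ⟨Z1, hZ1⟩ : ∃ Z1 : ℝ, Z1 = ∑ h ∈ H, ((p : ℝ) ^ k)⁻¹ *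
      ∑ v ∈ (Finset.univ : Finset (Fin k → ZMod p)).erase 0,
      ∑ σ : Fin (n + 1) → Bool, ∑ τ : Fin (n + 1) → Bool, pb η σ * pb η τ *
        (‖VV n θ P D σ ν φ (fn h k v)‖ ^ 2 * XX n P P' D u σ τ (fn h k v)) := ⟨_, rfl⟩
  obtain ⟨Z2, hZ2⟩ : ∃ Z2 : ℝ, Z2 = ∑ h ∈ H, ((p : ℝ) ^ k)⁻¹ *
      ∑ v ∈ (Finset.univ : Finset (Fin k → ZMod p)).erase 0,
      ∑ σ : Fin (n + 1) → Bool, ∑ τ : Fin (n + 1) → Bool, pb η σ * pb η τ *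
        (‖VV n θ P' D σ ν φ (fn h k v)‖ ^ 2 * XX n P' P D u σ τ (fn h k v)) := ⟨_, rfl⟩
  rw [← hZ1] at s1
  rw [← hZ2] at s2
  rw [← hZ1, ← hZ2]
  linarith

/-- the bound for one environment -/
theorem env_le (n m R k w0 : ℕ) (hR : n < (m + 1) * R) (θ : ℝ) (hθ : 0 ≤ θ)
    (η η' : ℝ) (hη0 : 0 ≤ η) (hη1 : η ≤ 1) (hη0' : 0 ≤ η') (hηη : η' ≤ η)
    (P P' D : Fin (n + 1) → Bool) (hP : ∀ i, P' i = !(P i))
    (u ν φ Φ : Fin (n + 1) → ZMod p → ℝ)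
    (hu0 : ∀ i a, 0 ≤ u i a) (hu : ∀ i, ∑ a, u i a = 1)
    (hν0 : ∀ i a, 0 ≤ ν i a) (hν1 : ∀ i, ∑ a, ν i a = 1)
    (hφ0 : ∀ i a, 0 ≤ φ i a) (hφ1 : ∀ i, ∑ a, φ i a = 1)
    (hφΦ : ∀ i c, muhat (φ i) c = (Φ i c : ℂ)) (hΦ0 : ∀ i c, 0 ≤ Φ i c) (hΦ1 : ∀ i c, Φ i c ≤ 1)
    (huφ : ∀ i, D i = true → u i 0 ≤ φ i 0)
    (c1 : ℝ) (hc0 : 0 ≤ c1) (hc1 : c1 ≤ 1) (hu1 : ∀ i c, ‖muhat (u i) c‖ ≤ 1)
    (huD : ∀ i, D i = true → ∀ c, ‖muhat (u i) c‖ ≤ (if c = 0 then 1 else c1) * Φ i c)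
    (h1η : 1 - η ≤ c1 * (1 - η'))
    (huS : ∀ i, D i = false → ∀ c, c ≠ 0 → η * ‖muhat (u i) c‖ ≤ c1 * η')
    (H : Finset (ZMod p)[X])
    (hH : ∀ h ∈ H, h.Monic ∧ h.natDegree = k ∧ Fac (fun d => m < d) h) :
    ∑ h ∈ H, |Prg n (Lw η D u ν) (fun f => h ∣ f ∧ f ≠ 0) - ((p : ℝ) ^ k)⁻¹| ≤
      ((p : ℝ) ^ k)⁻¹ * (lowS n k w0 H : ℝ) +
      c1 ^ w0 * (2 ^ R + (H.card : ℝ) * (θ * (1 + η * p) ^ (n + 1))) +
      (H.card : ℝ) * (θ * (1 + η * p) ^ (n + 1)) +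
      (2 ^ R + 1) * (bd θ P D ν φ + bd θ P' D ν φ) := by
  have hp0 : (0 : ℝ) < p := by exact_mod_cast hp.out.pos
  have hone : ∀ h ∈ H, |Prg n (Lw η D u ν) (fun f => h ∣ f ∧ f ≠ 0) - ((p : ℝ) ^ k)⁻¹| ≤
      ∑ σ : Fin (n + 1) → Bool, ∑ τ : Fin (n + 1) → Bool, pb η σ * pb η τ *
        Fh n k θ P P' D u ν φ h σ τ + ∑ σ : Fin (n + 1) → Bool, ∑ τ : Fin (n + 1) → Bool,
        pb η σ * pb η τ * Zh n θ P P' D u ν φ σ τ +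
      ∑ σ : Fin (n + 1) → Bool, ∑ τ : Fin (n + 1) → Bool, pb η σ * pb η τ *
          Bh n θ ((p : ℝ) ^ k)⁻¹ P P' D u ν φ (fun f => h ∣ f ∧ f ≠ 0) σ τ := by
    intro h hh
    obtain ⟨hm, hd, _⟩ := hH h hh
    refine (one_le_abs n k θ η hη0 hη1 P P' D hP u ν φ hu0 hu hν0 hν1 h hm hd).trans
      (le_of_eq ?_)
    simp_rw [mul_add, Finset.sum_add_distrib]
  refine (Finset.sum_le_sum hone).trans ?_
  rw [Finset.sum_add_distrib, Finset.sum_add_distrib, Finset.sum_const, nsmul_eq_mul]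
  have hF := Fh_sum n m R k w0 hR θ hθ η η' hη0 hη1 hη0' (hηη.trans hη1) P P' D hP u ν φ Φ hu hν0
    hν1 hφ0 hφ1 hφΦ hΦ0 hΦ1 c1 hc0 hc1 hu1 huD h1η huS H hH
  have hZ := mul_le_mul_of_nonneg_left
    (Zh_sum n θ hθ η hη0 hη1 P P' D hP u ν φ hu0 hu hν0 hν1 huφ)
    (Nat.cast_nonneg (α := ℝ) H.card)
  have hB := Bh_sum n m R k hR θ η hη0 hη1 P P' D hP u ν φ hu0 hu hν0 hν1 H hH
  have hT : θ * (1 + η' * p) ^ (n + 1) ≤ θ * (1 + η * p) ^ (n + 1) := by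
    apply mul_le_mul_of_nonneg_left _ hθ
    apply pow_le_pow_left₀ (by positivity)
    have := mul_le_mul_of_nonneg_right hηη hp0.le
    linarith
  have hT2 : c1 ^ w0 * (2 ^ R + (H.card : ℝ) * (θ * (1 + η' * p) ^ (n + 1))) ≤
      c1 ^ w0 * (2 ^ R + (H.card : ℝ) * (θ * (1 + η * p) ^ (n + 1))) := by
    apply mul_le_mul_of_nonneg_left _ (pow_nonneg hc0 _)
    have := mul_le_mul_of_nonneg_left hT (Nat.cast_nonneg (α := ℝ) H.card)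
    linarith
  linarith

end Pool.Agent.MP0a1886
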