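import Pool.Agent.MP0a1886.Min.Ent8

/-! The level of distribution and the entropy: the atypical vectors (MP_0a1886_pr). -/

set_option autoImplicit false
set_option linter.unusedSectionVars false
open Finset Polynomial

namespace Pool.Agent.MP0a1886

variable {p : ℕ} [hp : Fact p.Prime]

/-- Markov's inequality for the atypical vectors -/
lemma bd_pow {N : ℕ} (θ s : ℝ) (hθ : 0 < θ) (hs : 0 ≤ s) (P D : Fin N → Bool)
    (ν φ : Fin N → ZMod p → ℝ) (hν0 : ∀ i a, 0 ≤ ν i a) (hν1 : ∀ i, ∑ a, ν i a = 1)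
    (hφ0 : ∀ i a, 0 ≤ φ i a) :
    bd θ P D ν φ ≤ θ ^ (-s) * ∏ i, (if D i then φ i 0 ^ s else
      if P i then ∑ a, ν i a * ν i a ^ s else 1) := by
  have hy0 : ∀ (a : Fin N → ZMod p) (i : Fin N),
      0 ≤ (if D i then φ i 0 else if P i then ν i (a i) else 1) := by
    intro a i
    split_ifs
    · exact hφ0 i 0
    · exact hν0 i _
    · exact zero_le_one
  have hθs : 0 < θ ^ (-s) := Real.rpow_pos_of_pos hθ _
  have h1 : ∀ a : Fin N → ZMod p, (∏ i, ν i (a i)) - ra θ P D ν φ a ≤
      θ ^ (-s) * ∏ i, (ν i (a i) * (if D i then φ i 0 ^ s else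
        if P i then ν i (a i) ^ s else 1)) := by
    intro a
    have hp0 : 0 ≤ ∏ i, ν i (a i) := Finset.prod_nonneg fun i _ => hν0 i _
    have hYs : Ya P D ν φ a ^ s = ∏ i, (if D i then φ i 0 ^ s else
        if P i then ν i (a i) ^ s else 1) := by
      unfold Ya
      rw [← Real.finsetProd_rpow _ _ (fun i _ => hy0 a i)]
      apply Finset.prod_congr rfl
      intro i _
      split_ifs
      · rfl
      · rfl
      · exact Real.one_rpow s
    have hY0 : 0 ≤ Ya P D ν φ a := by
      unfold Ya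
      exact Finset.prod_nonneg fun i _ => hy0 a i
    rw [Finset.prod_mul_distrib, ← hYs]
    unfold ra
    split_ifs with h
    · rw [sub_self]
      exact mul_nonneg hθs.le (mul_nonneg hp0 (Real.rpow_nonneg hY0 s))
    · rw [sub_zero]
      push Not at h
      have h2 : 1 ≤ θ ^ (-s) * Ya P D ν φ a ^ s := by
        rw [Real.rpow_neg hθ.le, inv_mul_eq_div, one_le_div (Real.rpow_pos_of_pos hθ s)]
        exact Real.rpow_le_rpow hθ.le h.le hs
      calc ∏ i, ν i (a i) = (∏ i, ν i (a i)) * 1 := by ring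
        _ ≤ (∏ i, ν i (a i)) * (θ ^ (-s) * Ya P D ν φ a ^ s) :=
            mul_le_mul_of_nonneg_left h2 hp0
        _ = _ := by ring
  have e0 : bd θ P D ν φ =
      ∑ a : Fin N → ZMod p, ((∏ i, ν i (a i)) - ra θ P D ν φ a) := by
    unfold bd
    rw [Finset.sum_sub_distrib, sum_pw ν hν1]
  rw [e0]
  refine (Finset.sum_le_sum fun a _ => h1 a).trans (le_of_eq ?_)
  rw [← Finset.mul_sum]
  congr 1
  rw [sum_prod_pi (fun (i : Fin N) (c : ZMod p) => ν i c * (if D i then φ i 0 ^ s else
        if P i then ν i c ^ s else 1))]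
  apply Finset.prod_congr rfl
  intro i _
  split_ifs
  · rw [← Finset.sum_mul, hν1 i, one_mul]
  · rfl
  · rw [← Finset.sum_mul, hν1 i, one_mul]

end Pool.Agent.MP0a1886
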