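import Pool.Agent.MP0a1886.Min.Fin

/-! Laws with a large uniform component (MP_0a1886_pr). -/

set_option autoImplicit false
set_option linter.unusedSectionVars false
open Finset Polynomial

namespace Pool.Agent.MP0a1886

variable {p : ℕ} [hp : Fact p.Prime]

/-- the two components of a law with `μ(a) ≥ q / p` -/
noncomputable def cmp2 (μ : ZMod p → ℝ) (q : ℝ) : Bool → ZMod p → ℝ
  | true => fun _ => q / p
  | false => fun a => μ a - q / p

/-- the weights of the two components -/
noncomputable def w2 (p : ℕ) : Bool → ZMod p → ℝ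
  | true => fun c => if c = 0 then 1 else 0
  | false => fun _ => 1

lemma sum_const_q (q : ℝ) : ∑ _a : ZMod p, q / p = q := by
  have hp0 : (p : ℝ) ≠ 0 := by exact_mod_cast hp.out.ne_zero
  rw [Finset.sum_const, Finset.card_univ, ZMod.card, nsmul_eq_mul]
  field_simp

lemma muhat_const (x : ℝ) (c : ZMod p) (hc : c ≠ 0) : muhat (fun _ : ZMod p => x) c = 0 := by
  unfold muhat
  rw [← Finset.mul_sum, AddChar.sum_mulShift _ (ZMod.isPrimitive_stdAddChar p), if_neg hc]
  simp

lemma norm_muhat_le (μ : ZMod p → ℝ) (h0 : ∀ a, 0 ≤ μ a) (c : ZMod p) :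
    ‖muhat μ c‖ ≤ ∑ a, μ a := by
  unfold muhat
  refine (norm_sum_le _ _).trans (Finset.sum_le_sum fun a _ => ?_)
  rw [norm_mul, AddChar.norm_apply, mul_one, Complex.norm_real, Real.norm_eq_abs,
    abs_of_nonneg (h0 a)]

lemma exists_s {δ : ℝ} (hδ0 : 0 ≤ δ) (hδ : 6 * δ < 1) : ∃ s : ℝ, 0 < s ∧ s ≤ 1 ∧
    ((1 - δ) + δ * (p : ℝ) ^ s) ^ 6 < (p : ℝ) ^ s := by
  have hp2 : (2 : ℝ) ≤ p := by exact_mod_cast hp.out.two_le
  have hp0 : (0 : ℝ) < p := by linarith
  have hlog : (1 / 2 : ℝ) < Real.log p := by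
    have h1 : Real.log 2 ≤ Real.log p := Real.log_le_log (by norm_num) hp2
    have h2 := Real.log_two_gt_d9
    linarith
  obtain ⟨u, hu⟩ : ∃ u, u = (1 - 6 * δ) / 2 := ⟨_, rfl⟩
  have hu0 : 0 < u := by rw [hu]; linarith
  have hu1 : u ≤ 1 / 2 := by rw [hu]; linarith
  refine ⟨u / Real.log p, by positivity, ?_, ?_⟩
  · rw [div_le_one (by linarith)]
    linarith
  · have hps : (p : ℝ) ^ (u / Real.log p) = Real.exp u := by
      rw [Real.rpow_def_of_pos hp0]
      congr 1
      field_simp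
    rw [hps]
    have h1 : (1 - δ) + δ * Real.exp u ≤ Real.exp (δ * (Real.exp u - 1)) := by
      have h2 := Real.add_one_le_exp (δ * (Real.exp u - 1))
      linarith
    have h0 : 0 ≤ (1 - δ) + δ * Real.exp u := by
      have := Real.exp_pos u
      have h3 : 0 ≤ δ * Real.exp u := by positivity
      linarith
    have h2 : Real.exp u - 1 ≤ u + u ^ 2 := by
      have h3 := Real.abs_exp_sub_one_sub_id_le (x := u) (by rw [abs_of_pos hu0]; linarith)
      have h4 := (abs_le.1 h3).2
      linarith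
    calc ((1 - δ) + δ * Real.exp u) ^ 6 ≤ Real.exp (δ * (Real.exp u - 1)) ^ 6 :=
          pow_le_pow_left₀ h0 h1 6
      _ = Real.exp (6 * (δ * (Real.exp u - 1))) := by
          rw [← Real.exp_nat_mul]
          norm_num
      _ < Real.exp u := by
          apply Real.exp_lt_exp.2
          have h3 : 6 * (δ * (Real.exp u - 1)) ≤ 6 * (δ * (u + u ^ 2)) := by
            have := mul_le_mul_of_nonneg_left h2 hδ0
            linarith
          have h4 : 6 * (δ * (u + u ^ 2)) = (6 * δ) * (1 + u) * u := by ring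
          have h5 : (6 * δ) * (1 + u) < 1 := by nlinarith
          nlinarith

/-- laws with `μ(a) ≥ q / p`, `q > 5 / 6`, are good -/
theorem good_full (μ : ZMod p → ℝ) (hμ : ∑ a, μ a = 1) (q : ℝ) (hq : 5 / 6 < q)
    (hmin : ∀ a, q / p ≤ μ a) : Good μ := by
  have hp0 : (0 : ℝ) < p := by exact_mod_cast hp.out.pos
  have hq1 : q ≤ 1 := by
    rw [← hμ, ← sum_const_q (p := p) q]
    exact Finset.sum_le_sum fun a _ => hmin a
  obtain ⟨s, hs0, hs1, hs⟩ := exists_s (p := p) (δ := 1 - q) (by linarith) (by linarith)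
  have hm : ∑ a, cmp2 μ q false a = 1 - q := by
    change ∑ a, (μ a - q / p) = 1 - q
    rw [Finset.sum_sub_distrib, hμ, sum_const_q]
  have hmt : ∑ a, cmp2 μ q true a = q := sum_const_q q
  apply good_mix μ (cmp2 μ q) (w2 p) (s := s) (hs0 := hs0) (hs1 := hs1) (hμ := hμ)
  · intro a
    rw [Fintype.sum_bool]
    change μ a = q / p + (μ a - q / p)
    ring
  · rintro (_ | _) a
    · change 0 ≤ μ a - q / p
      linarith [hmin a]
    · change 0 ≤ q / p
      have : 0 < q := by linarith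
      positivity
  · rintro (_ | _) a
    · exact zero_le_one
    · change 0 ≤ if a = 0 then (1 : ℝ) else 0
      split_ifs <;> norm_num
  · rintro (_ | _) a
    · exact le_rfl
    · change (if a = 0 then (1 : ℝ) else 0) ≤ 1
      split_ifs <;> norm_num
  · rintro (_ | _)
    · rfl
    · change (if (0 : ZMod p) = 0 then (1 : ℝ) else 0) = 1
      rw [if_pos rfl]
  · rintro (_ | _) c
    · change _ ≤ _ * (1 : ℝ)
      rw [mul_one]
      apply norm_muhat_le
      intro a
      change 0 ≤ μ a - q / p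
      linarith [hmin a]
    · change _ ≤ _ * (if c = 0 then (1 : ℝ) else 0)
      split_ifs with hc
      · rw [mul_one]
        apply norm_muhat_le
        intro a
        change 0 ≤ q / p
        have : 0 < q := by linarith
        positivity
      · rw [mul_zero]
        have h1 : muhat (cmp2 μ q true) c = 0 := muhat_const _ c hc
        rw [h1, norm_zero]
  · rw [Fintype.sum_bool, hm, hmt]
    have h1 : ∑ c : ZMod p, w2 p true c = 1 := by
      change ∑ c : ZMod p, (if c = 0 then (1 : ℝ) else 0) = 1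
      rw [Finset.sum_ite_eq' Finset.univ (0 : ZMod p)]
      simp
    have h2 : ∑ c : ZMod p, w2 p false c = p := by
      change ∑ _c : ZMod p, (1 : ℝ) = p
      rw [Finset.sum_const, Finset.card_univ, ZMod.card, nsmul_eq_mul, mul_one]
    rw [h1, h2, Real.one_rpow, mul_one]
    have h3 : (1 - (1 - q)) + (1 - q) * (p : ℝ) ^ s = q + (1 - q) * (p : ℝ) ^ s := by ring
    rw [← h3]
    exact hs

lemma lt_one_of_min (μ : ZMod p → ℝ) (hμ : ∑ a, μ a = 1) (q : ℝ) (hq : 0 < q)
    (hmin : ∀ a, q / p ≤ μ a) (a : ZMod p) : μ a < 1 := by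
  classical
  have hp0 : (0 : ℝ) < p := by exact_mod_cast hp.out.pos
  have h1 : ∀ b, 0 < μ b := fun b => lt_of_lt_of_le (by positivity) (hmin b)
  obtain ⟨b, hb⟩ : ∃ b : ZMod p, b ≠ a := exists_ne a
  have h2 : μ a + μ b ≤ ∑ c, μ c := by
    rw [← Finset.sum_pair hb.symm]
    exact Finset.sum_le_sum_of_subset_of_nonneg (Finset.subset_univ _)
      (fun c _ _ => (h1 c).le)
  rw [hμ] at h2
  linarith [h1 b]

/-- the comparison with permutations -/
theorem full_cmp (μ : ZMod p → ℝ) (hμ : ∑ a, μ a = 1) (q : ℝ) (hq : 5 / 6 < q)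
    (hmin : ∀ a, q / p ≤ μ a) (x : ℝ) (hx : 0 < x) :
    ∀ ε : ℝ, 0 < ε → ∃ N : ℕ, ∀ n m : ℕ, N ≤ n → x * n ≤ m →
      |Pr μ n (Fac (fun d => d ≤ m)) - cperm n m| ≤ ε := by
  have hp0 : (0 : ℝ) < p := by exact_mod_cast hp.out.pos
  have hq0 : 0 < q := by linarith
  refine good_cmp μ (fun a => ?_) hμ (lt_one_of_min μ hμ q hq0 hmin) (fun c hc => ?_) x hx
  · exact le_trans (by positivity) (hmin a)
  · exact good_full (mus μ c) (sum_mus hμ hc) q hq (fun a => hmin (c * a))

end Pool.Agent.MP0a1886
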