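import Pool.Agent.MP0a1886.Min.Full

/-! Laws with a large near-uniform component (MP_0a1886_pr). -/

set_option autoImplicit false
set_option linter.unusedSectionVars false
open Finset Polynomial

namespace Pool.Agent.MP0a1886

variable {p : ℕ} [hp : Fact p.Prime]

lemma exists_s4 {q L : ℝ} (hq0 : 0 ≤ q) (hq1 : q ≤ 1) (hL1 : 1 ≤ L) (hLp : L ≤ p)
    (h : L ^ (6 * q) < (p : ℝ) ^ (6 * q - 5)) : ∃ s : ℝ, 0 < s ∧ s ≤ 1 ∧
    (q * L ^ s + (1 - q) * (p : ℝ) ^ s) ^ 6 < (p : ℝ) ^ s := by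
  have hp2 : (2 : ℝ) ≤ p := by exact_mod_cast hp.out.two_le
  have hp0 : (0 : ℝ) < p := by linarith
  have hL0 : 0 < L := by linarith
  obtain ⟨b, hb⟩ : ∃ b, b = Real.log p := ⟨_, rfl⟩
  obtain ⟨a, ha⟩ : ∃ a, a = Real.log L := ⟨_, rfl⟩
  have hb0 : 0 < b := by rw [hb]; exact Real.log_pos (by linarith)
  have ha0 : 0 ≤ a := by rw [ha]; exact Real.log_nonneg hL1
  have hab : a ≤ b := by rw [ha, hb]; exact Real.log_le_log hL0 hLp
  have h1 : (6 * q) * a < (6 * q - 5) * b := by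
    have h2 := Real.log_lt_log (by positivity) h
    rw [Real.log_rpow hL0, Real.log_rpow hp0, ← ha, ← hb] at h2
    exact h2
  obtain ⟨D, hD⟩ : ∃ D, D = (6 * q - 5) * b - (6 * q) * a := ⟨_, rfl⟩
  have hD0 : 0 < D := by rw [hD]; linarith
  have hDb : D ≤ b := by
    rw [hD]
    have : 0 ≤ (6 * q) * a := by positivity
    nlinarith
  obtain ⟨s, hs⟩ : ∃ s, s = min 1 (min (1 / b) (D / (12 * b ^ 2))) := ⟨_, rfl⟩
  have hs0 : 0 < s := by
    rw [hs]
    exact lt_min one_pos (lt_min (by positivity) (by positivity))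
  have hs1 : s ≤ 1 := by rw [hs]; exact min_le_left _ _
  have hsb : s * b ≤ 1 := by
    have h2 : s ≤ 1 / b := by rw [hs]; exact (min_le_right _ _).trans (min_le_left _ _)
    rw [le_div_iff₀ hb0] at h2
    exact h2
  have hsD : 12 * b ^ 2 * s ≤ D := by
    have h2 : s ≤ D / (12 * b ^ 2) := by
      rw [hs]; exact (min_le_right _ _).trans (min_le_right _ _)
    rw [le_div_iff₀ (by positivity)] at h2
    linarith
  refine ⟨s, hs0, hs1, ?_⟩
  have e1 : L ^ s = Real.exp (s * a) := by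
    rw [Real.rpow_def_of_pos hL0, ← ha, mul_comm]
  have e2 : (p : ℝ) ^ s = Real.exp (s * b) := by
    rw [Real.rpow_def_of_pos hp0, ← hb, mul_comm]
  rw [e1, e2]
  have hexp : ∀ x : ℝ, 0 ≤ x → x ≤ 1 → Real.exp x ≤ 1 + x + x ^ 2 := by
    intro x hx0 hx1
    have h3 := Real.abs_exp_sub_one_sub_id_le (x := x) (by rw [abs_of_nonneg hx0]; exact hx1)
    have h4 := (abs_le.1 h3).2
    linarith
  have hsa0 : 0 ≤ s * a := by positivity
  have hsb0 : 0 ≤ s * b := by positivity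
  have hsab : s * a ≤ s * b := mul_le_mul_of_nonneg_left hab hs0.le
  have h3 := hexp (s * a) hsa0 (hsab.trans hsb)
  have h4 := hexp (s * b) hsb0 hsb
  have h5 : (s * a) ^ 2 ≤ (s * b) ^ 2 := pow_le_pow_left₀ hsa0 hsab 2
  obtain ⟨T, hT⟩ : ∃ T, T = s * (q * a + (1 - q) * b) + (s * b) ^ 2 := ⟨_, rfl⟩
  have h6 : q * Real.exp (s * a) + (1 - q) * Real.exp (s * b) ≤ Real.exp T := by
    have h7 := Real.add_one_le_exp T
    have h8 : q * Real.exp (s * a) ≤ q * (1 + s * a + (s * b) ^ 2) :=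
      mul_le_mul_of_nonneg_left (by linarith) hq0
    have h9 : (1 - q) * Real.exp (s * b) ≤ (1 - q) * (1 + s * b + (s * b) ^ 2) :=
      mul_le_mul_of_nonneg_left h4 (by linarith)
    have h10 : q * (1 + s * a + (s * b) ^ 2) + (1 - q) * (1 + s * b + (s * b) ^ 2) = T + 1 := by
      rw [hT]; ring
    linarith
  have h0 : 0 ≤ q * Real.exp (s * a) + (1 - q) * Real.exp (s * b) := by
    have h7 : 0 ≤ q * Real.exp (s * a) := by positivity
    have h8 : 0 ≤ (1 - q) * Real.exp (s * b) := mul_nonneg (by linarith) (Real.exp_pos _).le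
    linarith
  calc (q * Real.exp (s * a) + (1 - q) * Real.exp (s * b)) ^ 6 ≤ Real.exp T ^ 6 :=
        pow_le_pow_left₀ h0 h6 6
    _ = Real.exp (6 * T) := by
        rw [← Real.exp_nat_mul]
        norm_num
    _ < Real.exp (s * b) := by
        apply Real.exp_lt_exp.2
        have h7 : 6 * T = s * (b - D) + 6 * (s * b) ^ 2 := by rw [hT, hD]; ring
        have h8 : 12 * (s * b) ^ 2 ≤ s * D := by
          calc 12 * (s * b) ^ 2 = s * (12 * b ^ 2 * s) := by ring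
            _ ≤ s * D := mul_le_mul_of_nonneg_left hsD hs0.le
        have h9 : 0 < s * D := by positivity
        rw [h7]
        nlinarith

/-- the two components of a law `μ ≥ q ν` -/
noncomputable def cmq (μ ν : ZMod p → ℝ) (q : ℝ) : Bool → ZMod p → ℝ
  | true => fun a => q * ν a
  | false => fun a => μ a - q * ν a

/-- the weights of the two components -/
noncomputable def wq (ν : ZMod p → ℝ) : Bool → ZMod p → ℝ
  | true => fun c => ‖muhat ν c‖
  | false => fun _ => 1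

/-- laws `μ ≥ q ν` with `(∑ |ν^(c)|) ^ (6 q) < p ^ (6 q - 5)` are good -/
theorem good_gen (μ ν : ZMod p → ℝ) (hμ : ∑ a, μ a = 1) (hν0 : ∀ a, 0 ≤ ν a) (hν : ∑ a, ν a = 1)
    (q : ℝ) (hq0 : 0 ≤ q) (hq : ∀ a, q * ν a ≤ μ a)
    (hL : (∑ c, ‖muhat ν c‖) ^ (6 * q) < (p : ℝ) ^ (6 * q - 5)) : Good μ := by
  have hp0 : (0 : ℝ) < p := by exact_mod_cast hp.out.pos
  have hq1 : q ≤ 1 := by
    rw [← hμ, ← mul_one q, ← hν, Finset.mul_sum]
    exact Finset.sum_le_sum fun a _ => hq a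
  have hz : ‖muhat ν 0‖ = 1 := by rw [muhat_zero ν hν, norm_one]
  have hle : ∀ c, ‖muhat ν c‖ ≤ 1 := fun c => by
    have := norm_muhat_le ν hν0 c
    rwa [hν] at this
  have hL1 : 1 ≤ ∑ c, ‖muhat ν c‖ := by
    rw [← hz]
    exact Finset.single_le_sum (f := fun c => ‖muhat ν c‖) (fun c _ => norm_nonneg _)
      (Finset.mem_univ 0)
  have hLp : ∑ c, ‖muhat ν c‖ ≤ p := by
    calc ∑ c, ‖muhat ν c‖ ≤ ∑ _c : ZMod p, (1 : ℝ) := Finset.sum_le_sum fun c _ => hle c
      _ = p := by rw [Finset.sum_const, Finset.card_univ, ZMod.card, nsmul_eq_mul, mul_one]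
  obtain ⟨s, hs0, hs1, hs⟩ := exists_s4 (p := p) hq0 hq1 hL1 hLp hL
  have hm : ∑ a, cmq μ ν q false a = 1 - q := by
    change ∑ a, (μ a - q * ν a) = 1 - q
    rw [Finset.sum_sub_distrib, hμ, ← Finset.mul_sum, hν, mul_one]
  have hmt : ∑ a, cmq μ ν q true a = q := by
    change ∑ a, q * ν a = q
    rw [← Finset.mul_sum, hν, mul_one]
  apply good_mix μ (cmq μ ν q) (wq ν) (s := s) (hs0 := hs0) (hs1 := hs1) (hμ := hμ)
  · intro a
    rw [Fintype.sum_bool]
    change μ a = q * ν a + (μ a - q * ν a)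
    ring
  · rintro (_ | _) a
    · change 0 ≤ μ a - q * ν a
      linarith [hq a]
    · exact mul_nonneg hq0 (hν0 a)
  · rintro (_ | _) a
    · exact zero_le_one
    · exact norm_nonneg _
  · rintro (_ | _) a
    · exact le_rfl
    · exact hle a
  · rintro (_ | _)
    · rfl
    · exact hz
  · rintro (_ | _) c
    · change _ ≤ _ * (1 : ℝ)
      rw [mul_one]
      apply norm_muhat_le
      intro a
      change 0 ≤ μ a - q * ν a
      linarith [hq a]
    · rw [hmt]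
      change ‖muhat (fun a => q * ν a) c‖ ≤ q * ‖muhat ν c‖
      have h1 : muhat (fun a => q * ν a) c = (q : ℂ) * muhat ν c := by
        unfold muhat
        rw [Finset.mul_sum]
        apply Finset.sum_congr rfl
        intro a _
        push_cast
        ring
      rw [h1, norm_mul, Complex.norm_real, Real.norm_eq_abs, abs_of_nonneg hq0]
  · rw [Fintype.sum_bool, hm, hmt]
    have h2 : ∑ c : ZMod p, wq ν false c = p := by
      change ∑ _c : ZMod p, (1 : ℝ) = p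
      rw [Finset.sum_const, Finset.card_univ, ZMod.card, nsmul_eq_mul, mul_one]
    rw [h2]
    exact hs

/-- the comparison with permutations -/
theorem full_cmp_gen (μ ν : ZMod p → ℝ) (h0 : ∀ a, 0 ≤ μ a) (hμ : ∑ a, μ a = 1)
    (hlt : ∀ a, μ a < 1) (hν0 : ∀ a, 0 ≤ ν a) (hν : ∑ a, ν a = 1)
    (q : ℝ) (hq0 : 0 ≤ q) (hq : ∀ a, q * ν a ≤ μ a)
    (hL : (∑ c, ‖muhat ν c‖) ^ (6 * q) < (p : ℝ) ^ (6 * q - 5)) (x : ℝ) (hx : 0 < x) :
    ∀ ε : ℝ, 0 < ε → ∃ N : ℕ, ∀ n m : ℕ, N ≤ n → x * n ≤ m →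
      |Pr μ n (Fac (fun d => d ≤ m)) - cperm n m| ≤ ε := by
  refine good_cmp μ h0 hμ hlt (fun c hc => ?_) x hx
  apply good_gen (mus μ c) (mus ν c) (sum_mus hμ hc) (mus_nonneg hν0 c) (sum_mus hν hc) q hq0
    (fun a => hq (c * a))
  have h1 := sum_mw_mus ν hc 1
  unfold mw at h1
  simp only [Real.rpow_one] at h1
  rw [h1]
  exact hL

end Pool.Agent.MP0a1886
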