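import Pool.Agent.MP0a1886.Min.Good

/-! The generic frequencies with exponent `t` for weights which depend on the position
(MP_0a1886_pr, mixtures of laws). -/

set_option autoImplicit false
set_option linter.unusedSectionVars false
open Finset Polynomial

namespace Pool.Agent.MP0a1886

variable {p : ℕ} [hp : Fact p.Prime]

/-- the bound for the sum over a set of frequencies, by interpolation -/
lemma set_interp {n h r : ℕ} (hr : r ≤ h) (w : Fin n → ZMod p → ℝ)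
    (h0 : ∀ i a, 0 ≤ w i a) {t : ℝ} (ht1 : 1 ≤ t) (ht2 : t < 2) {T : ℝ} (hT : 0 < T)
    {M : ℝ} {S : PA p} (hS : TB n h M S) (s : Finset (Fin n → ZMod p))
    (hs : ∀ α ∈ s, α ∉ bad p n r) :
    ((p : ℝ) ^ n)⁻¹ * ∑ α ∈ s, (∏ i, w i (α i)) * ‖SH n α S‖ ≤
      M * (T ^ (1 - t) * ((Real.sqrt p ^ (2 - t)) ^ r)⁻¹ * ∑ α ∈ s, ∏ i, w i (α i) ^ t + T) := by
  classical
  have hp0 : (0 : ℝ) < p := by exact_mod_cast hp.out.pos
  have hq0 := sqrt_p_pos (p := p)
  have hM := hS.nonneg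
  rcases eq_or_lt_of_le hM with hM0 | hM0
  · have hz : ∑ α ∈ s, (∏ i, w i (α i)) * ‖SH n α S‖ = 0 := by
      apply Finset.sum_eq_zero
      intro α hα
      have h2 := hS.2 r hr α (hs α hα)
      rw [← hM0] at h2
      simp only [zero_mul, zero_div] at h2
      have h3 : ‖SH n α S‖ = 0 := le_antisymm h2 (norm_nonneg _)
      rw [h3, mul_zero]
    rw [hz, ← hM0]
    simp
  obtain ⟨a, ha⟩ : ∃ a : (Fin n → ZMod p) → ℝ, a = fun α => ‖SH n α S‖ / (M * (p : ℝ) ^ n) :=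
    ⟨_, rfl⟩
  obtain ⟨W, hW⟩ : ∃ W : (Fin n → ZMod p) → ℝ, W = fun α => ∏ i, w i (α i) := ⟨_, rfl⟩
  have hW0 : ∀ α, 0 ≤ W α := fun α => by
    rw [hW]
    exact Finset.prod_nonneg fun _ _ => h0 _ _
  have ha0 : ∀ α, 0 ≤ a α := fun α => by rw [ha]; positivity
  have hasum : ∑ α, a α ^ 2 ≤ 1 := by
    have h2 : ∑ α, a α ^ 2 = (∑ α, ‖SH n α S‖ ^ 2) / (M * (p : ℝ) ^ n) ^ 2 := by
      rw [Finset.sum_div]
      apply Finset.sum_congr rfl
      intro α _
      rw [ha, div_pow]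
    rw [h2, parseval hS.1, div_le_one (by positivity)]
    have h3 : ∀ f ∈ mon p n, (S.coeff f) ^ 2 ≤ M ^ 2 := by
      intro f _
      rw [← sq_abs]
      exact pow_le_pow_left₀ (abs_nonneg _) (hS.1.2 f) 2
    have h4 := Finset.sum_le_card_nsmul _ _ _ h3
    rw [card_mon, nsmul_eq_mul] at h4
    push_cast at h4
    calc (p : ℝ) ^ n * ∑ f ∈ mon p n, (S.coeff f) ^ 2 ≤ (p : ℝ) ^ n * ((p : ℝ) ^ n * M ^ 2) :=
          mul_le_mul_of_nonneg_left h4 (by positivity)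
      _ = (M * (p : ℝ) ^ n) ^ 2 := by ring
  have hasum' : ∑ α ∈ s, a α ^ 2 ≤ 1 :=
    (Finset.sum_le_sum_of_subset_of_nonneg (Finset.subset_univ s)
      (fun _ _ _ => by positivity)).trans hasum
  have hak : ∀ α ∈ s, a α ≤ (Real.sqrt p ^ r)⁻¹ := by
    intro α hα
    rw [ha]
    have h2 := hS.2 r hr α (hs α hα)
    simp only
    rw [div_le_iff₀ (by positivity)]
    calc ‖SH n α S‖ ≤ M * (p : ℝ) ^ n / Real.sqrt p ^ r := h2
      _ = (Real.sqrt p ^ r)⁻¹ * (M * (p : ℝ) ^ n) := by ring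
  have h2 := interp_sum s W a (κ := (Real.sqrt p ^ r)⁻¹) (T := T) (t := t)
    (fun α _ => hW0 α) (fun α _ => ha0 α) hak hT ht1 ht2.le hasum'
  have hκ : ((Real.sqrt p ^ r)⁻¹) ^ (2 - t) = ((Real.sqrt p ^ (2 - t)) ^ r)⁻¹ := by
    rw [Real.inv_rpow (by positivity), ← Real.rpow_natCast, ← Real.rpow_natCast,
      ← Real.rpow_mul hq0.le, ← Real.rpow_mul hq0.le, mul_comm]
  rw [hκ] at h2
  have h3 : ∀ α, W α ^ t = ∏ i, w i (α i) ^ t := fun α => by
    rw [hW]
    exact (Real.finsetProd_rpow _ _ (fun _ _ => h0 _ _) t).symm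
  rw [Finset.sum_congr rfl (fun α _ => h3 α)] at h2
  have h4 : ((p : ℝ) ^ n)⁻¹ * ∑ α ∈ s, (∏ i, w i (α i)) * ‖SH n α S‖ =
      M * ∑ α ∈ s, W α * a α := by
    rw [Finset.mul_sum, Finset.mul_sum]
    apply Finset.sum_congr rfl
    intro α _
    rw [ha, hW]
    field_simp
  rw [h4]
  exact mul_le_mul_of_nonneg_left h2 hM

open Classical in
/-- the bound for one component of the mixture, exponent `t` -/
theorem generic_le_t {n h ρ : ℕ} (hρ : ρ ≤ h) (hh : 2 * h ≤ n) (w : Fin n → ZMod p → ℝ)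
    (h0 : ∀ i a, 0 ≤ w i a) (h1 : ∀ i a, w i a ≤ 1) {t : ℝ} (ht1 : 1 ≤ t) (ht2 : t < 2)
    (T : ℕ → ℝ) (hT : ∀ r, 0 < T r) {M : ℝ} {S : PA p} (hS : TB n h M S) :
    ((p : ℝ) ^ n)⁻¹ * ∑ α ∈ Finset.univ.filter (fun α : Fin n → ZMod p => α ∉ bad p n ρ),
        (∏ i, w i (α i)) * ‖SH n α S‖ ≤
      M * ((T h ^ (1 - t) * ((Real.sqrt p ^ (2 - t)) ^ h)⁻¹ * (∏ i, ∑ c, w i c ^ t) + T h) +
        ∑ r ∈ Finset.Ico ρ h, (∑ k ∈ Finset.range (r + 2),
          T r ^ (1 - t) * ((Real.sqrt p ^ (2 - t)) ^ r)⁻¹ *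
            ∏ i ∈ Jw n (r + 1) k, ∑ c, w i c ^ t + T r)) := by
  have hp0 : (0 : ℝ) < p := by exact_mod_cast hp.out.pos
  have hq0 := sqrt_p_pos (p := p)
  have hM := hS.nonneg
  have hw0 : ∀ i a, 0 ≤ w i a ^ t := fun i a => Real.rpow_nonneg (h0 i a) t
  have hw1 : ∀ i a, w i a ^ t ≤ 1 := fun i a => Real.rpow_le_one (h0 i a) (h1 i a) (by linarith)
  set G : ℕ → ℝ := fun r => ((p : ℝ) ^ n)⁻¹ *
    ∑ α ∈ Finset.univ.filter (fun α : Fin n → ZMod p => α ∉ bad p n r),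
      (∏ i, w i (α i)) * ‖SH n α S‖ with hG
  have hW : ∀ α : Fin n → ZMod p, 0 ≤ ∏ i, w i (α i) ^ t := fun α =>
    Finset.prod_nonneg fun _ _ => hw0 _ _
  have hgen : G h ≤ M * (T h ^ (1 - t) * ((Real.sqrt p ^ (2 - t)) ^ h)⁻¹ *
      (∏ i, ∑ c, w i c ^ t) + T h) := by
    refine (set_interp le_rfl w h0 ht1 ht2 (hT h) hS _
      (fun α hα => (Finset.mem_filter.1 hα).2)).trans ?_
    apply mul_le_mul_of_nonneg_left _ hM
    apply add_le_add _ le_rfl
    have hTh := hT h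
    apply mul_le_mul_of_nonneg_left _ (by positivity)
    rw [← sum_prod_pi (fun i c => w i c ^ t)]
    exact Finset.sum_le_sum_of_subset_of_nonneg (Finset.filter_subset _ _) (fun α _ _ => hW α)
  have hlayer : ∀ r, r < h → G r ≤ G (r + 1) + M * (∑ k ∈ Finset.range (r + 2),
      T r ^ (1 - t) * ((Real.sqrt p ^ (2 - t)) ^ r)⁻¹ *
        ∏ i ∈ Jw n (r + 1) k, ∑ c, w i c ^ t + T r) := by
    intro r hr
    have h2 : G r = G (r + 1) + ((p : ℝ) ^ n)⁻¹ *
        ∑ α ∈ (bad p n (r + 1)).filter (fun α => α ∉ bad p n r),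
          (∏ i, w i (α i)) * ‖SH n α S‖ := by
      rw [hG]
      simp only
      rw [← mul_add, ← Finset.sum_union]
      · congr 1
        apply Finset.sum_congr _ (fun _ _ => rfl)
        ext α
        simp only [Finset.mem_filter, Finset.mem_univ, true_and, Finset.mem_union]
        constructor
        · intro h3
          by_cases h4 : α ∈ bad p n (r + 1)
          · exact Or.inr ⟨h4, h3⟩
          · exact Or.inl h4
        · rintro (h3 | h3)
          · intro h4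
            exact h3 (bad_mono (by omega) h4)
          · exact h3.2
      · rw [Finset.disjoint_left]
        intro α h3 h4
        exact (Finset.mem_filter.1 h3).2 (Finset.mem_filter.1 h4).1
    rw [h2]
    apply add_le_add le_rfl
    refine (set_interp hr.le w h0 ht1 ht2 (hT r) hS _
      (fun α hα => (Finset.mem_filter.1 hα).2)).trans ?_
    apply mul_le_mul_of_nonneg_left _ hM
    apply add_le_add _ le_rfl
    rw [← Finset.mul_sum]
    have hTr := hT r
    apply mul_le_mul_of_nonneg_left _ (by positivity)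
    refine (Finset.sum_le_sum_of_subset_of_nonneg (Finset.filter_subset _ _)
      (fun α _ _ => hW α)).trans ?_
    exact sum_bad' (fun i c => w i c ^ t) hw0 hw1 (r + 1) (by omega)
  have hind : ∀ j ρ : ℕ, ρ + j = h → G ρ ≤
      M * ((T h ^ (1 - t) * ((Real.sqrt p ^ (2 - t)) ^ h)⁻¹ * (∏ i, ∑ c, w i c ^ t) + T h) +
        ∑ r ∈ Finset.Ico ρ h, (∑ k ∈ Finset.range (r + 2),
          T r ^ (1 - t) * ((Real.sqrt p ^ (2 - t)) ^ r)⁻¹ *
            ∏ i ∈ Jw n (r + 1) k, ∑ c, w i c ^ t + T r)) := by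
    intro j
    induction j with
    | zero =>
      intro ρ hρ
      rw [add_zero] at hρ
      subst hρ
      rw [Finset.Ico_self, Finset.sum_empty, add_zero]
      exact hgen
    | succ j ih =>
      intro ρ hρ
      have h2 := hlayer ρ (by omega)
      have h3 := ih (ρ + 1) (by omega)
      rw [Finset.sum_eq_sum_Ico_succ_bot (by omega : ρ < h)]
      refine h2.trans ?_
      linarith
  exact hind (h - ρ) ρ (by omega)

end Pool.Agent.MP0a1886
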