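import Pool.Agent.MP0a1886.Min.Mix

/-! The generic frequencies for mixtures of laws (MP_0a1886_pr, laws with full support). -/

set_option autoImplicit false
set_option linter.unusedSectionVars false
open Finset Polynomial

namespace Pool.Agent.MP0a1886

variable {p : ℕ} [hp : Fact p.Prime]

open Classical in
/-- the bound for one component of the mixture -/
theorem generic_le {n h ρ : ℕ} (hρ : ρ ≤ h) (hh : 2 * h ≤ n) (w : Fin n → ZMod p → ℝ)
    (h0 : ∀ i a, 0 ≤ w i a) (h1 : ∀ i a, w i a ≤ 1) {M : ℝ} {S : PA p} (hS : TB n h M S) :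
    ((p : ℝ) ^ n)⁻¹ * ∑ α ∈ Finset.univ.filter (fun α : Fin n → ZMod p => α ∉ bad p n ρ),
        (∏ i, w i (α i)) * ‖SH n α S‖ ≤
      M * ((Real.sqrt p ^ h)⁻¹ * (∏ i, ∑ c, w i c) +
        ∑ r ∈ Finset.Ico ρ h, ∑ k ∈ Finset.range (r + 2),
          (Real.sqrt p ^ r)⁻¹ * ∏ i ∈ Jw n (r + 1) k, ∑ c, w i c) := by
  have hp0 : (0 : ℝ) < p := by exact_mod_cast hp.out.pos
  have hq0 := sqrt_p_pos (p := p)
  have hM := hS.nonneg
  set G : ℕ → ℝ := fun r => ((p : ℝ) ^ n)⁻¹ *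
    ∑ α ∈ Finset.univ.filter (fun α : Fin n → ZMod p => α ∉ bad p n r),
      (∏ i, w i (α i)) * ‖SH n α S‖ with hG
  have hW : ∀ α : Fin n → ZMod p, 0 ≤ ∏ i, w i (α i) := fun α =>
    Finset.prod_nonneg fun _ _ => h0 _ _
  -- a set of frequencies outside `bad r`
  have hset : ∀ r ≤ h, ∀ s : Finset (Fin n → ZMod p), (∀ α ∈ s, α ∉ bad p n r) →
      ((p : ℝ) ^ n)⁻¹ * ∑ α ∈ s, (∏ i, w i (α i)) * ‖SH n α S‖ ≤
        M * ((Real.sqrt p ^ r)⁻¹ * ∑ α ∈ s, ∏ i, w i (α i)) := by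
    intro r hr s hs
    calc ((p : ℝ) ^ n)⁻¹ * ∑ α ∈ s, (∏ i, w i (α i)) * ‖SH n α S‖
        ≤ ((p : ℝ) ^ n)⁻¹ * ∑ α ∈ s, (∏ i, w i (α i)) * (M * (p : ℝ) ^ n / Real.sqrt p ^ r) := by
          apply mul_le_mul_of_nonneg_left _ (by positivity)
          apply Finset.sum_le_sum
          intro α hα
          exact mul_le_mul_of_nonneg_left (hS.2 r hr α (hs α hα)) (hW α)
      _ = M * ((Real.sqrt p ^ r)⁻¹ * ∑ α ∈ s, ∏ i, w i (α i)) := by
          rw [← Finset.sum_mul]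
          field_simp
  have hgen : G h ≤ M * ((Real.sqrt p ^ h)⁻¹ * ∏ i, ∑ c, w i c) := by
    refine (hset h le_rfl _ (fun α hα => (Finset.mem_filter.1 hα).2)).trans ?_
    apply mul_le_mul_of_nonneg_left _ hM
    apply mul_le_mul_of_nonneg_left _ (by positivity)
    rw [← sum_prod_pi (fun i c => w i c)]
    exact Finset.sum_le_sum_of_subset_of_nonneg (Finset.filter_subset _ _) (fun α _ _ => hW α)
  have hlayer : ∀ r, r < h → G r ≤ G (r + 1) + M * ∑ k ∈ Finset.range (r + 2),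
      (Real.sqrt p ^ r)⁻¹ * ∏ i ∈ Jw n (r + 1) k, ∑ c, w i c := by
    intro r hr
    have h2 : G r = G (r + 1) + ((p : ℝ) ^ n)⁻¹ *
        ∑ α ∈ (bad p n (r + 1)).filter (fun α => α ∉ bad p n r),
          (∏ i, w i (α i)) * ‖SH n α S‖ := by
      rw [hG]
      simp only
      rw [← mul_add, ← Finset.sum_union]
      · congr 1
        apply Finset.sum_congr _ (fun _ _ => rfl)
        ext α
        simp only [Finset.mem_filter, Finset.mem_univ, true_and, Finset.mem_union]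
        constructor
        · intro h3
          by_cases h4 : α ∈ bad p n (r + 1)
          · exact Or.inr ⟨h4, h3⟩
          · exact Or.inl h4
        · rintro (h3 | h3)
          · intro h4
            exact h3 (bad_mono (by omega) h4)
          · exact h3.2
      · rw [Finset.disjoint_left]
        intro α h3 h4
        exact (Finset.mem_filter.1 h3).2 (Finset.mem_filter.1 h4).1
    rw [h2]
    apply add_le_add le_rfl
    refine (hset r hr.le _ (fun α hα => (Finset.mem_filter.1 hα).2)).trans ?_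
    apply mul_le_mul_of_nonneg_left _ hM
    rw [← Finset.mul_sum]
    apply mul_le_mul_of_nonneg_left _ (by positivity)
    refine (Finset.sum_le_sum_of_subset_of_nonneg (Finset.filter_subset _ _)
      (fun α _ _ => hW α)).trans ?_
    exact sum_bad' w h0 h1 (r + 1) (by omega)
  have hind : ∀ j ρ : ℕ, ρ + j = h → G ρ ≤ M * ((Real.sqrt p ^ h)⁻¹ * (∏ i, ∑ c, w i c) +
        ∑ r ∈ Finset.Ico ρ h, ∑ k ∈ Finset.range (r + 2),
          (Real.sqrt p ^ r)⁻¹ * ∏ i ∈ Jw n (r + 1) k, ∑ c, w i c) := by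
    intro j
    induction j with
    | zero =>
      intro ρ hρ
      rw [add_zero] at hρ
      subst hρ
      rw [Finset.Ico_self, Finset.sum_empty, add_zero]
      exact hgen
    | succ j ih =>
      intro ρ hρ
      have h2 := hlayer ρ (by omega)
      have h3 := ih (ρ + 1) (by omega)
      rw [Finset.sum_eq_sum_Ico_succ_bot (by omega : ρ < h)]
      refine h2.trans ?_
      linarith
  exact hind (h - ρ) ρ (by omega)

/-! ### truncation -/

lemma min_one_add {x y : ℝ} (hx : 0 ≤ x) (hy : 0 ≤ y) :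
    min 1 (x + y) ≤ min 1 x + min 1 y := by
  rcases le_total 1 x with h | h
  · rw [min_eq_left h]
    have : 0 ≤ min 1 y := le_min zero_le_one hy
    exact (min_le_left _ _).trans (by linarith)
  · rcases le_total 1 y with h' | h'
    · rw [min_eq_left h']
      have : 0 ≤ min 1 x := le_min zero_le_one hx
      exact (min_le_left _ _).trans (by linarith)
    · rw [min_eq_right h, min_eq_right h']
      exact min_le_right _ _

lemma min_one_sum {ι : Type*} (s : Finset ι) (x : ι → ℝ) (hx : ∀ i ∈ s, 0 ≤ x i) :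
    min 1 (∑ i ∈ s, x i) ≤ ∑ i ∈ s, min 1 (x i) := by
  classical
  induction s using Finset.induction_on with
  | empty => simp
  | insert a s ha ih =>
    rw [Finset.sum_insert ha, Finset.sum_insert ha]
    refine (min_one_add (hx a (Finset.mem_insert_self a s))
      (Finset.sum_nonneg fun i hi => hx i (Finset.mem_insert_of_mem hi))).trans ?_
    exact add_le_add le_rfl (ih fun i hi => hx i (Finset.mem_insert_of_mem hi))

lemma min_one_le_rpow {x s : ℝ} (hx : 0 ≤ x) (hs0 : 0 ≤ s) (hs1 : s ≤ 1) : min 1 x ≤ x ^ s := by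
  rcases le_total 1 x with h | h
  · rw [min_eq_left h]
    exact Real.one_le_rpow h hs0
  · rw [min_eq_right h]
    rcases eq_or_lt_of_le hx with h0 | h0
    · rw [← h0]
      exact Real.rpow_nonneg le_rfl s
    · calc x = x ^ (1 : ℝ) := (Real.rpow_one x).symm
        _ ≤ x ^ s := Real.rpow_le_rpow_of_exponent_ge h0 h hs1

/-- the expectation of a product over a set of coordinates -/
lemma sum_mix_prod {B : Type} [Fintype B] (m : B → ℝ) (hm : ∑ b, m b = 1) (L : B → ℝ)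
    (hL : ∀ b, 0 ≤ L b) (s : ℝ) (n : ℕ) (J : Finset (Fin n)) :
    ∑ ω : Fin n → B, (∏ i, m (ω i)) * (∏ i ∈ J, L (ω i)) ^ s =
      (∑ b, m b * L b ^ s) ^ J.card := by
  classical
  have h1 : ∀ ω : Fin n → B, (∏ i, m (ω i)) * (∏ i ∈ J, L (ω i)) ^ s =
      ∏ i, (m (ω i) * if i ∈ J then L (ω i) ^ s else 1) := by
    intro ω
    rw [Finset.prod_mul_distrib, Finset.prod_ite_mem, Finset.univ_inter,
      Real.finsetProd_rpow _ _ (fun _ _ => hL _)]
  rw [Finset.sum_congr rfl (fun ω _ => h1 ω),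
    sum_prod_pi (fun (i : Fin n) b => m b * if i ∈ J then L b ^ s else 1)]
  have h2 : ∀ i : Fin n, ∑ b, (m b * if i ∈ J then L b ^ s else 1) =
      if i ∈ J then ∑ b, m b * L b ^ s else 1 := by
    intro i
    split_ifs
    · rfl
    · simp [hm]
  rw [Finset.prod_congr rfl (fun i _ => h2 i), Finset.prod_ite_mem, Finset.univ_inter,
    Finset.prod_const]

/-- the property of the law which is used in the assembly -/
def Good (μ : ZMod p → ℝ) : Prop :=
  ∃ C θ : ℝ, 0 < C ∧ 0 < θ ∧ θ < 1 ∧ ∀ (n ρ : ℕ) (M : ℝ) (S : PA p), ρ ≤ n / 3 →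
    TB n (n / 3) M S → (∀ α ∈ bad p n ρ, α ≠ 0 → SH n α S = 0) →
    |EM μ n S - tot p S / (p : ℝ) ^ n| ≤ C * M * ((n : ℝ) + 2) ^ 2 * θ ^ ρ

/-- the estimate for mixtures -/
theorem good_mix {B : Type} [Fintype B] (μ : ZMod p → ℝ) (g w : B → ZMod p → ℝ)
    (hg : ∀ a, μ a = ∑ b, g b a) (hg0 : ∀ b a, 0 ≤ g b a) (hμ : ∑ a, μ a = 1)
    (hw0 : ∀ b a, 0 ≤ w b a) (hw1 : ∀ b a, w b a ≤ 1) (hwz : ∀ b, w b 0 = 1)
    (hgw : ∀ b c, ‖muhat (g b) c‖ ≤ (∑ a, g b a) * w b c)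
    (s : ℝ) (hs0 : 0 < s) (hs1 : s ≤ 1)
    (hL : (∑ b, (∑ a, g b a) * (∑ c, w b c) ^ s) ^ 6 < (p : ℝ) ^ s) : Good μ := by
  classical
  have hp0 : (0 : ℝ) < p := by exact_mod_cast hp.out.pos
  have hq0 := sqrt_p_pos (p := p)
  obtain ⟨q, hq⟩ : ∃ q, q = Real.sqrt (p : ℝ) := ⟨_, rfl⟩
  rw [← hq] at hq0
  have hqq : q ^ 2 = p := by rw [hq]; exact Real.sq_sqrt hp0.le
  set m : B → ℝ := fun b => ∑ a, g b a with hm
  set L : B → ℝ := fun b => ∑ c, w b c with hLdef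
  have hm0 : ∀ b, 0 ≤ m b := fun b => Finset.sum_nonneg fun a _ => hg0 b a
  have hm1 : ∑ b, m b = 1 := by
    rw [← hμ, hm, Finset.sum_comm]
    exact Finset.sum_congr rfl fun a _ => (hg a).symm
  have hL1 : ∀ b, 1 ≤ L b := by
    intro b
    rw [← hwz b]
    exact Finset.single_le_sum (f := fun c => w b c) (fun c _ => hw0 b c) (Finset.mem_univ 0)
  have hL0 : ∀ b, 0 ≤ L b := fun b => zero_le_one.trans (hL1 b)
  obtain ⟨Λ, hΛ⟩ : ∃ Λ, Λ = ∑ b, m b * L b ^ s := ⟨_, rfl⟩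
  have hL' : Λ ^ 6 < (p : ℝ) ^ s := by rw [hΛ]; exact hL
  have hΛ1 : 1 ≤ Λ := by
    rw [hΛ, ← hm1]
    apply Finset.sum_le_sum
    intro b _
    exact le_mul_of_one_le_right (hm0 b) (Real.one_le_rpow (hL1 b) hs0.le)
  have hΛ0 : 0 < Λ := by linarith
  obtain ⟨Q, hQ⟩ : ∃ Q, Q = q ^ s := ⟨_, rfl⟩
  have hQ0 : 0 < Q := by rw [hQ]; positivity
  have hQQ : Q ^ 2 = (p : ℝ) ^ s := by
    rw [hQ, ← Real.rpow_natCast, ← Real.rpow_mul hq0.le, mul_comm, Real.rpow_mul hq0.le,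
      Real.rpow_natCast, hqq]
  have hΛQ : Λ ^ 3 < Q := by
    apply lt_of_pow_lt_pow_left₀ 2 hQ0.le
    rw [hQQ, ← pow_mul]
    exact hL'
  obtain ⟨θ, hθ⟩ : ∃ θ, θ = Λ ^ 3 / Q := ⟨_, rfl⟩
  have hθ0 : 0 < θ := by rw [hθ]; positivity
  have hθ1 : θ < 1 := by rw [hθ, div_lt_one hQ0]; exact hΛQ
  refine ⟨2 * Λ ^ 2, θ, by positivity, hθ0, hθ1, ?_⟩
  intro n ρ M S hρ hS hz
  have hM := hS.nonneg
  obtain ⟨h, hh⟩ : ∃ h, h = n / 3 := ⟨_, rfl⟩
  rw [← hh] at hρ hS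
  rw [EM_mix μ g hg n S]
  -- one component
  set x : ℕ → (Fin n → B) → Finset (Fin n) → ℝ := fun r ω J => (q ^ r)⁻¹ * ∏ i ∈ J, L (ω i)
    with hx
  have hx0 : ∀ r ω J, 0 ≤ x r ω J := fun r ω J =>
    mul_nonneg (by positivity) (Finset.prod_nonneg fun _ _ => hL0 _)
  have hone : ∀ ω : Fin n → B, |EMg n (fun i => g (ω i)) S -
      (∏ i, m (ω i)) * (tot p S / (p : ℝ) ^ n)| ≤
      2 * M * ((∏ i, m (ω i)) * (x h ω Finset.univ ^ s +
        ∑ r ∈ Finset.Ico ρ h, ∑ k ∈ Finset.range (r + 2), x r ω (Jw n (r + 1) k) ^ s)) := by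
    intro ω
    have hmω : 0 ≤ ∏ i, m (ω i) := Finset.prod_nonneg fun _ _ => hm0 _
    set X : ℝ := x h ω Finset.univ +
      ∑ r ∈ Finset.Ico ρ h, ∑ k ∈ Finset.range (r + 2), x r ω (Jw n (r + 1) k) with hX
    have e1 : |EMg n (fun i => g (ω i)) S - (∏ i, m (ω i)) * (tot p S / (p : ℝ) ^ n)| ≤
        (∏ i, m (ω i)) * (M * X) := by
      refine (EMg_main (fun i => g (ω i)) (fun i => w (ω i)) (fun i c => hgw (ω i) c) hS.1
        hz).trans ?_
      apply mul_le_mul_of_nonneg_left _ hmω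
      refine (generic_le hρ (by omega) (fun i => w (ω i)) (fun i => hw0 (ω i))
        (fun i => hw1 (ω i)) hS).trans (le_of_eq ?_)
      rw [hX, hx, ← hq]
    have e2 : |EMg n (fun i => g (ω i)) S - (∏ i, m (ω i)) * (tot p S / (p : ℝ) ^ n)| ≤
        (∏ i, m (ω i)) * (2 * M) := by
      have h3 := EMg_abs_le (fun i => g (ω i)) (fun i => hg0 (ω i)) hS.1
      have h4 : |(∏ i, m (ω i)) * (tot p S / (p : ℝ) ^ n)| ≤ (∏ i, m (ω i)) * M := by
        rw [abs_mul, abs_of_nonneg hmω]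
        exact mul_le_mul_of_nonneg_left (tot_abs_le hS.1) hmω
      refine (abs_sub _ _).trans ?_
      calc |EMg n (fun i => g (ω i)) S| + |(∏ i, m (ω i)) * (tot p S / (p : ℝ) ^ n)|
          ≤ (∏ i, m (ω i)) * M + (∏ i, m (ω i)) * M := add_le_add h3 h4
        _ = (∏ i, m (ω i)) * (2 * M) := by ring
    have hX0 : 0 ≤ X := add_nonneg (hx0 _ _ _)
      (Finset.sum_nonneg fun _ _ => Finset.sum_nonneg fun _ _ => hx0 _ _ _)
    have e3 : |EMg n (fun i => g (ω i)) S - (∏ i, m (ω i)) * (tot p S / (p : ℝ) ^ n)| ≤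
        2 * M * ((∏ i, m (ω i)) * min 1 X) := by
      rcases le_total 1 X with h3 | h3
      · rw [min_eq_left h3]
        refine e2.trans (le_of_eq (by ring))
      · rw [min_eq_right h3]
        refine e1.trans ?_
        have h4 : 0 ≤ (∏ i, m (ω i)) * (M * X) := by positivity
        calc (∏ i, m (ω i)) * (M * X) ≤ 2 * ((∏ i, m (ω i)) * (M * X)) := by linarith
          _ = 2 * M * ((∏ i, m (ω i)) * X) := by ring
    refine e3.trans ?_
    apply mul_le_mul_of_nonneg_left _ (by positivity)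
    apply mul_le_mul_of_nonneg_left _ hmω
    rw [hX]
    refine (min_one_add (hx0 _ _ _)
      (Finset.sum_nonneg fun _ _ => Finset.sum_nonneg fun _ _ => hx0 _ _ _)).trans ?_
    apply add_le_add (min_one_le_rpow (hx0 _ _ _) hs0.le hs1)
    refine (min_one_sum _ _ (fun _ _ => Finset.sum_nonneg fun _ _ => hx0 _ _ _)).trans ?_
    apply Finset.sum_le_sum
    intro r _
    refine (min_one_sum _ _ (fun _ _ => hx0 _ _ _)).trans ?_
    exact Finset.sum_le_sum fun k _ => min_one_le_rpow (hx0 _ _ _) hs0.le hs1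
  -- the expectation of one term
  have hterm : ∀ (r : ℕ) (J : Finset (Fin n)),
      ∑ ω : Fin n → B, (∏ i, m (ω i)) * x r ω J ^ s = (Q ^ r)⁻¹ * Λ ^ J.card := by
    intro r J
    have h3 : ∀ ω : Fin n → B, (∏ i, m (ω i)) * x r ω J ^ s =
        (Q ^ r)⁻¹ * ((∏ i, m (ω i)) * (∏ i ∈ J, L (ω i)) ^ s) := by
      intro ω
      rw [hx]
      simp only
      rw [Real.mul_rpow (by positivity) (Finset.prod_nonneg fun _ _ => hL0 _),
        Real.inv_rpow (by positivity)]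
      have h4 : (q ^ r) ^ s = Q ^ r := by
        rw [hQ, ← Real.rpow_natCast, ← Real.rpow_natCast, ← Real.rpow_mul hq0.le,
          ← Real.rpow_mul hq0.le, mul_comm]
      rw [h4]
      ring
    rw [Finset.sum_congr rfl (fun ω _ => h3 ω), ← Finset.mul_sum,
      sum_mix_prod m hm1 L hL0 s n J, ← hΛ]
  -- the total
  have hsplit : ∑ ω : Fin n → B, EMg n (fun i => g (ω i)) S - tot p S / (p : ℝ) ^ n =
      ∑ ω : Fin n → B, (EMg n (fun i => g (ω i)) S -
        (∏ i, m (ω i)) * (tot p S / (p : ℝ) ^ n)) := by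
    rw [Finset.sum_sub_distrib, ← Finset.sum_mul, sum_prod_pi (fun (_ : Fin n) b => m b)]
    simp [hm1]
  rw [hsplit]
  refine (Finset.abs_sum_le_sum_abs _ _).trans ((Finset.sum_le_sum fun ω _ => hone ω).trans ?_)
  rw [← Finset.mul_sum]
  have hsum : ∑ ω : Fin n → B, (∏ i, m (ω i)) * (x h ω Finset.univ ^ s +
      ∑ r ∈ Finset.Ico ρ h, ∑ k ∈ Finset.range (r + 2), x r ω (Jw n (r + 1) k) ^ s) =
      (Q ^ h)⁻¹ * Λ ^ n + ∑ r ∈ Finset.Ico ρ h, ∑ k ∈ Finset.range (r + 2),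
        (Q ^ r)⁻¹ * Λ ^ (Jw n (r + 1) k).card := by
    simp_rw [mul_add, Finset.sum_add_distrib, Finset.mul_sum]
    rw [hterm h Finset.univ, Finset.card_univ, Fintype.card_fin, Finset.sum_comm]
    congr 1
    apply Finset.sum_congr rfl
    intro r _
    rw [Finset.sum_comm]
    apply Finset.sum_congr rfl
    intro k _
    exact hterm r (Jw n (r + 1) k)
  rw [hsum]
  have hpow : ∀ r e : ℕ, ρ ≤ r → e ≤ 3 * r + 2 → (Q ^ r)⁻¹ * Λ ^ e ≤ Λ ^ 2 * θ ^ ρ := by
    intro r e hr he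
    calc (Q ^ r)⁻¹ * Λ ^ e ≤ (Q ^ r)⁻¹ * Λ ^ (3 * r + 2) := by
          apply mul_le_mul_of_nonneg_left _ (by positivity)
          exact pow_le_pow_right₀ hΛ1 he
      _ = Λ ^ 2 * θ ^ r := by
          rw [hθ, div_pow, pow_add, pow_mul]
          field_simp
      _ ≤ Λ ^ 2 * θ ^ ρ := by
          apply mul_le_mul_of_nonneg_left _ (by positivity)
          exact pow_le_pow_of_le_one hθ0.le hθ1.le hr
  have hA : (Q ^ h)⁻¹ * Λ ^ n ≤ Λ ^ 2 * θ ^ ρ := hpow h n hρ (by omega)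
  have hB : ∑ r ∈ Finset.Ico ρ h, ∑ k ∈ Finset.range (r + 2),
      (Q ^ r)⁻¹ * Λ ^ (Jw n (r + 1) k).card ≤ n * ((n + 2) * (Λ ^ 2 * θ ^ ρ)) := by
    have h3 : ∀ r ∈ Finset.Ico ρ h, ∑ k ∈ Finset.range (r + 2),
        (Q ^ r)⁻¹ * Λ ^ (Jw n (r + 1) k).card ≤ ((n : ℝ) + 2) * (Λ ^ 2 * θ ^ ρ) := by
      intro r hr
      rw [Finset.mem_Ico] at hr
      have h4 : ∀ k ∈ Finset.range (r + 2), (Q ^ r)⁻¹ * Λ ^ (Jw n (r + 1) k).card ≤
          Λ ^ 2 * θ ^ ρ := by
        intro k hk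
        rw [Finset.mem_range] at hk
        apply hpow r _ hr.1
        rw [card_Jw (by omega) (by omega)]
        omega
      refine (Finset.sum_le_card_nsmul _ _ _ h4).trans ?_
      rw [Finset.card_range, nsmul_eq_mul]
      apply mul_le_mul_of_nonneg_right _ (by positivity)
      push_cast
      have : (r : ℝ) ≤ n := by exact_mod_cast (by omega : r ≤ n)
      linarith
    refine (Finset.sum_le_card_nsmul _ _ _ h3).trans ?_
    rw [nsmul_eq_mul]
    apply mul_le_mul_of_nonneg_right _ (by positivity)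
    rw [Nat.card_Ico]
    exact_mod_cast (by omega : h - ρ ≤ n)
  have hn0 : (0 : ℝ) ≤ n := by positivity
  have hT0 : 0 ≤ Λ ^ 2 * θ ^ ρ := by positivity
  calc 2 * M * ((Q ^ h)⁻¹ * Λ ^ n + ∑ r ∈ Finset.Ico ρ h, ∑ k ∈ Finset.range (r + 2),
        (Q ^ r)⁻¹ * Λ ^ (Jw n (r + 1) k).card)
      ≤ 2 * M * (Λ ^ 2 * θ ^ ρ + n * ((n + 2) * (Λ ^ 2 * θ ^ ρ))) := by
        apply mul_le_mul_of_nonneg_left (add_le_add hA hB) (by positivity)
    _ ≤ 2 * M * (((n : ℝ) + 2) ^ 2 * (Λ ^ 2 * θ ^ ρ)) := by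
        apply mul_le_mul_of_nonneg_left _ (by positivity)
        nlinarith
    _ = 2 * Λ ^ 2 * M * ((n : ℝ) + 2) ^ 2 * θ ^ ρ := by ring

end Pool.Agent.MP0a1886
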