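import Pool.Agent.MP0a1886.Min.GenT

/-! Mixtures of laws, exponent `t` (MP_0a1886_pr). -/

set_option autoImplicit false
set_option linter.unusedSectionVars false
open Finset Polynomial

namespace Pool.Agent.MP0a1886

variable {p : ℕ} [hp : Fact p.Prime]

/-- the estimate for mixtures, exponent `t` -/
theorem good_mix_t {B : Type} [Fintype B] (μ : ZMod p → ℝ) (g w : B → ZMod p → ℝ)
    (hg : ∀ a, μ a = ∑ b, g b a) (hg0 : ∀ b a, 0 ≤ g b a) (hμ : ∑ a, μ a = 1)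
    (hw0 : ∀ b a, 0 ≤ w b a) (hw1 : ∀ b a, w b a ≤ 1) (hwz : ∀ b, w b 0 = 1)
    (hgw : ∀ b c, ‖muhat (g b) c‖ ≤ (∑ a, g b a) * w b c)
    (t : ℝ) (ht1 : 1 ≤ t) (ht2 : t < 2) (s : ℝ) (hs0 : 0 < s) (hs1 : s ≤ 1)
    (hL : (∑ b, (∑ a, g b a) * (∑ c, w b c ^ t) ^ s) ^ 6 < ((p : ℝ) ^ (2 - t)) ^ s) :
    Good μ := by
  classical
  have hp0 : (0 : ℝ) < p := by exact_mod_cast hp.out.pos
  have hq0 := sqrt_p_pos (p := p)
  obtain ⟨q, hq⟩ : ∃ q, q = Real.sqrt (p : ℝ) := ⟨_, rfl⟩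
  rw [← hq] at hq0
  have hqq : q ^ 2 = p := by rw [hq]; exact Real.sq_sqrt hp0.le
  set m : B → ℝ := fun b => ∑ a, g b a with hm
  set L : B → ℝ := fun b => ∑ c, w b c ^ t with hLdef
  have hm0 : ∀ b, 0 ≤ m b := fun b => Finset.sum_nonneg fun a _ => hg0 b a
  have hm1 : ∑ b, m b = 1 := by
    rw [← hμ, hm, Finset.sum_comm]
    exact Finset.sum_congr rfl fun a _ => (hg a).symm
  have hL1 : ∀ b, 1 ≤ L b := by
    intro b
    have h1 : (1 : ℝ) = w b 0 ^ t := by rw [hwz b, Real.one_rpow]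
    rw [h1]
    exact Finset.single_le_sum (f := fun c => w b c ^ t)
      (fun c _ => Real.rpow_nonneg (hw0 b c) t) (Finset.mem_univ 0)
  have hL0 : ∀ b, 0 ≤ L b := fun b => zero_le_one.trans (hL1 b)
  obtain ⟨Λ, hΛ⟩ : ∃ Λ, Λ = ∑ b, m b * L b ^ s := ⟨_, rfl⟩
  have hL' : Λ ^ 6 < ((p : ℝ) ^ (2 - t)) ^ s := by rw [hΛ]; exact hL
  have hΛ1 : 1 ≤ Λ := by
    rw [hΛ, ← hm1]
    apply Finset.sum_le_sum
    intro b _
    exact le_mul_of_one_le_right (hm0 b) (Real.one_le_rpow (hL1 b) hs0.le)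
  have hΛ0 : 0 < Λ := by linarith
  obtain ⟨Q, hQ⟩ : ∃ Q, Q = q ^ (2 - t) := ⟨_, rfl⟩
  have hQ0 : 0 < Q := by rw [hQ]; positivity
  have hQQ : Q ^ 2 = (p : ℝ) ^ (2 - t) := by
    rw [hQ, ← Real.rpow_natCast, ← Real.rpow_mul hq0.le, mul_comm, Real.rpow_mul hq0.le,
      Real.rpow_natCast, hqq]
  obtain ⟨P, hP⟩ : ∃ P, P = Q ^ s := ⟨_, rfl⟩
  have hP0 : 0 < P := by rw [hP]; positivity
  have hPP : P ^ 2 = ((p : ℝ) ^ (2 - t)) ^ s := by
    rw [hP, ← hQQ, ← Real.rpow_natCast, ← Real.rpow_natCast, ← Real.rpow_mul hQ0.le,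
      ← Real.rpow_mul hQ0.le, mul_comm]
  have hΛP : Λ ^ 3 < P := by
    apply lt_of_pow_lt_pow_left₀ 2 hP0.le
    rw [hPP, ← pow_mul]
    exact hL'
  obtain ⟨θ, hθ⟩ : ∃ θ, θ = Real.sqrt (Λ ^ 3 / P) := ⟨_, rfl⟩
  have hg0' : 0 < Λ ^ 3 / P := by positivity
  have hg1' : Λ ^ 3 / P < 1 := by rw [div_lt_one hP0]; exact hΛP
  have hθ0 : 0 < θ := by rw [hθ]; exact Real.sqrt_pos.2 hg0'
  have hθ1 : θ < 1 := by
    rw [hθ, Real.sqrt_lt' one_pos]
    simpa using hg1'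
  have hθθ : θ ^ 2 = Λ ^ 3 / P := by rw [hθ]; exact Real.sq_sqrt hg0'.le
  refine ⟨2 * (Λ ^ 2 + 1), θ, by positivity, hθ0, hθ1, ?_⟩
  intro n ρ M S hρ hS hz
  have hM := hS.nonneg
  obtain ⟨h, hh⟩ : ∃ h, h = n / 3 := ⟨_, rfl⟩
  rw [← hh] at hρ hS
  rw [EM_mix μ g hg n S]
  -- one component
  set x : ℕ → (Fin n → B) → Finset (Fin n) → ℝ := fun r ω J =>
    (θ ^ r) ^ (1 - t) * (Q ^ r)⁻¹ * ∏ i ∈ J, L (ω i) with hx
  have hx0 : ∀ r ω J, 0 ≤ x r ω J := fun r ω J =>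
    mul_nonneg (by positivity) (Finset.prod_nonneg fun _ _ => hL0 _)
  have hθr0 : ∀ r : ℕ, 0 ≤ θ ^ r := fun r => by positivity
  have hθr1 : ∀ r : ℕ, θ ^ r ≤ 1 := fun r => pow_le_one₀ hθ0.le hθ1.le
  have hone : ∀ ω : Fin n → B, |EMg n (fun i => g (ω i)) S -
      (∏ i, m (ω i)) * (tot p S / (p : ℝ) ^ n)| ≤
      2 * M * ((∏ i, m (ω i)) * ((x h ω Finset.univ ^ s + θ ^ h) +
        ∑ r ∈ Finset.Ico ρ h, (∑ k ∈ Finset.range (r + 2), x r ω (Jw n (r + 1) k) ^ s +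
          θ ^ r))) := by
    intro ω
    have hmω : 0 ≤ ∏ i, m (ω i) := Finset.prod_nonneg fun _ _ => hm0 _
    set X : ℝ := (x h ω Finset.univ + θ ^ h) +
      ∑ r ∈ Finset.Ico ρ h, (∑ k ∈ Finset.range (r + 2), x r ω (Jw n (r + 1) k) + θ ^ r) with hX
    have e1 : |EMg n (fun i => g (ω i)) S - (∏ i, m (ω i)) * (tot p S / (p : ℝ) ^ n)| ≤
        (∏ i, m (ω i)) * (M * X) := by
      refine (EMg_main (fun i => g (ω i)) (fun i => w (ω i)) (fun i c => hgw (ω i) c) hS.1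
        hz).trans ?_
      apply mul_le_mul_of_nonneg_left _ hmω
      refine (generic_le_t hρ (by omega) (fun i => w (ω i)) (fun i => hw0 (ω i))
        (fun i => hw1 (ω i)) ht1 ht2 (fun r => θ ^ r) (fun r => by positivity) hS).trans
        (le_of_eq ?_)
      rw [hX, hx, ← hq, ← hQ]
    have e2 : |EMg n (fun i => g (ω i)) S - (∏ i, m (ω i)) * (tot p S / (p : ℝ) ^ n)| ≤
        (∏ i, m (ω i)) * (2 * M) := by
      have h3 := EMg_abs_le (fun i => g (ω i)) (fun i => hg0 (ω i)) hS.1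
      have h4 : |(∏ i, m (ω i)) * (tot p S / (p : ℝ) ^ n)| ≤ (∏ i, m (ω i)) * M := by
        rw [abs_mul, abs_of_nonneg hmω]
        exact mul_le_mul_of_nonneg_left (tot_abs_le hS.1) hmω
      refine (abs_sub _ _).trans ?_
      calc |EMg n (fun i => g (ω i)) S| + |(∏ i, m (ω i)) * (tot p S / (p : ℝ) ^ n)|
          ≤ (∏ i, m (ω i)) * M + (∏ i, m (ω i)) * M := add_le_add h3 h4
        _ = (∏ i, m (ω i)) * (2 * M) := by ring
    have hX1 : ∀ r, 0 ≤ ∑ k ∈ Finset.range (r + 2), x r ω (Jw n (r + 1) k) := fun r =>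
      Finset.sum_nonneg fun _ _ => hx0 _ _ _
    have hX2 : 0 ≤ ∑ r ∈ Finset.Ico ρ h,
        (∑ k ∈ Finset.range (r + 2), x r ω (Jw n (r + 1) k) + θ ^ r) :=
      Finset.sum_nonneg fun r _ => add_nonneg (hX1 r) (hθr0 r)
    have hX3 : 0 ≤ x h ω Finset.univ + θ ^ h := add_nonneg (hx0 _ _ _) (hθr0 h)
    have hX0 : 0 ≤ X := add_nonneg hX3 hX2
    have e3 : |EMg n (fun i => g (ω i)) S - (∏ i, m (ω i)) * (tot p S / (p : ℝ) ^ n)| ≤
        2 * M * ((∏ i, m (ω i)) * min 1 X) := by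
      rcases le_total 1 X with h3 | h3
      · rw [min_eq_left h3]
        refine e2.trans (le_of_eq (by ring))
      · rw [min_eq_right h3]
        refine e1.trans ?_
        have h4 : 0 ≤ (∏ i, m (ω i)) * (M * X) := by positivity
        calc (∏ i, m (ω i)) * (M * X) ≤ 2 * ((∏ i, m (ω i)) * (M * X)) := by linarith
          _ = 2 * M * ((∏ i, m (ω i)) * X) := by ring
    refine e3.trans ?_
    apply mul_le_mul_of_nonneg_left _ (by positivity)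
    apply mul_le_mul_of_nonneg_left _ hmω
    rw [hX]
    refine (min_one_add hX3 hX2).trans ?_
    apply add_le_add
    · refine (min_one_add (hx0 _ _ _) (hθr0 h)).trans ?_
      exact add_le_add (min_one_le_rpow (hx0 _ _ _) hs0.le hs1) (min_le_right _ _)
    · refine (min_one_sum _ _ (fun r _ => add_nonneg (hX1 r) (hθr0 r))).trans ?_
      apply Finset.sum_le_sum
      intro r _
      refine (min_one_add (hX1 r) (hθr0 r)).trans ?_
      apply add_le_add _ (min_le_right _ _)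
      refine (min_one_sum _ _ (fun _ _ => hx0 _ _ _)).trans ?_
      exact Finset.sum_le_sum fun k _ => min_one_le_rpow (hx0 _ _ _) hs0.le hs1
  -- the expectation of one term
  have hthp : ∀ r : ℕ, ((θ ^ r) ^ (1 - t)) ^ s ≤ (θ ^ r)⁻¹ := by
    intro r
    rw [← Real.rpow_mul (by positivity), ← Real.rpow_neg_one]
    apply Real.rpow_le_rpow_of_exponent_ge (by positivity) (hθr1 r)
    nlinarith
  have hterm : ∀ (r : ℕ) (J : Finset (Fin n)),
      ∑ ω : Fin n → B, (∏ i, m (ω i)) * x r ω J ^ s ≤ (θ ^ r)⁻¹ * (P ^ r)⁻¹ * Λ ^ J.card := by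
    intro r J
    have h3 : ∀ ω : Fin n → B, (∏ i, m (ω i)) * x r ω J ^ s =
        ((θ ^ r) ^ (1 - t)) ^ s * (P ^ r)⁻¹ * ((∏ i, m (ω i)) * (∏ i ∈ J, L (ω i)) ^ s) := by
      intro ω
      rw [hx]
      simp only
      rw [Real.mul_rpow (by positivity) (Finset.prod_nonneg fun _ _ => hL0 _),
        Real.mul_rpow (by positivity) (by positivity), Real.inv_rpow (by positivity)]
      have h4 : (Q ^ r) ^ s = P ^ r := by
        rw [hP, ← Real.rpow_natCast, ← Real.rpow_natCast, ← Real.rpow_mul hQ0.le,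
          ← Real.rpow_mul hQ0.le, mul_comm]
      rw [h4]
      ring
    rw [Finset.sum_congr rfl (fun ω _ => h3 ω), ← Finset.mul_sum,
      sum_mix_prod m hm1 L hL0 s n J, ← hΛ]
    apply mul_le_mul_of_nonneg_right _ (by positivity)
    exact mul_le_mul_of_nonneg_right (hthp r) (by positivity)
  -- the total
  have hsplit : ∑ ω : Fin n → B, EMg n (fun i => g (ω i)) S - tot p S / (p : ℝ) ^ n =
      ∑ ω : Fin n → B, (EMg n (fun i => g (ω i)) S -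
        (∏ i, m (ω i)) * (tot p S / (p : ℝ) ^ n)) := by
    rw [Finset.sum_sub_distrib, ← Finset.sum_mul, sum_prod_pi (fun (_ : Fin n) b => m b)]
    simp [hm1]
  rw [hsplit]
  refine (Finset.abs_sum_le_sum_abs _ _).trans ((Finset.sum_le_sum fun ω _ => hone ω).trans ?_)
  rw [← Finset.mul_sum]
  have hmtot : ∑ ω : Fin n → B, ∏ i, m (ω i) = 1 := by
    rw [sum_prod_pi (fun (_ : Fin n) b => m b)]
    simp [hm1]
  have hsum : ∑ ω : Fin n → B, (∏ i, m (ω i)) * ((x h ω Finset.univ ^ s + θ ^ h) +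
      ∑ r ∈ Finset.Ico ρ h, (∑ k ∈ Finset.range (r + 2), x r ω (Jw n (r + 1) k) ^ s +
        θ ^ r)) ≤
      ((θ ^ h)⁻¹ * (P ^ h)⁻¹ * Λ ^ n + θ ^ h) +
        ∑ r ∈ Finset.Ico ρ h, (∑ k ∈ Finset.range (r + 2),
        (θ ^ r)⁻¹ * (P ^ r)⁻¹ * Λ ^ (Jw n (r + 1) k).card + θ ^ r) := by
    have e1 : ∀ c : ℝ, ∑ ω : Fin n → B, (∏ i, m (ω i)) * c = c := by
      intro c
      rw [← Finset.sum_mul, hmtot, one_mul]
    have e0 : ∀ ω : Fin n → B, (∏ i, m (ω i)) * ((x h ω Finset.univ ^ s + θ ^ h) +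
        ∑ r ∈ Finset.Ico ρ h, (∑ k ∈ Finset.range (r + 2), x r ω (Jw n (r + 1) k) ^ s +
        θ ^ r)) = ((∏ i, m (ω i)) * x h ω Finset.univ ^ s + (∏ i, m (ω i)) * θ ^ h) +
        ∑ r ∈ Finset.Ico ρ h, (∑ k ∈ Finset.range (r + 2),
          (∏ i, m (ω i)) * x r ω (Jw n (r + 1) k) ^ s + (∏ i, m (ω i)) * θ ^ r) := by
      intro ω
      rw [mul_add, mul_add, Finset.mul_sum]
      congr 1
      apply Finset.sum_congr rfl
      intro r _
      rw [mul_add, Finset.mul_sum]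
    rw [Finset.sum_congr rfl (fun ω _ => e0 ω), Finset.sum_add_distrib, Finset.sum_add_distrib,
      e1, Finset.sum_comm]
    apply add_le_add
    · apply add_le_add _ le_rfl
      have h3 := hterm h Finset.univ
      rw [Finset.card_univ, Fintype.card_fin] at h3
      exact h3
    · apply Finset.sum_le_sum
      intro r _
      rw [Finset.sum_add_distrib, e1, Finset.sum_comm]
      apply add_le_add _ le_rfl
      apply Finset.sum_le_sum
      intro k _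
      exact hterm r (Jw n (r + 1) k)
  refine (mul_le_mul_of_nonneg_left hsum (by positivity)).trans ?_
  have hpow : ∀ r e : ℕ, ρ ≤ r → e ≤ 3 * r + 2 →
      (θ ^ r)⁻¹ * (P ^ r)⁻¹ * Λ ^ e ≤ Λ ^ 2 * θ ^ ρ := by
    intro r e hr he
    calc (θ ^ r)⁻¹ * (P ^ r)⁻¹ * Λ ^ e ≤ (θ ^ r)⁻¹ * (P ^ r)⁻¹ * Λ ^ (3 * r + 2) := by
          apply mul_le_mul_of_nonneg_left _ (by positivity)
          exact pow_le_pow_right₀ hΛ1 he
      _ = Λ ^ 2 * ((θ ^ r)⁻¹ * (Λ ^ 3 / P) ^ r) := by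
          rw [div_pow, pow_add, pow_mul]
          field_simp
      _ = Λ ^ 2 * θ ^ r := by
          rw [← hθθ, ← pow_mul, mul_comm 2 r, pow_mul]
          field_simp
      _ ≤ Λ ^ 2 * θ ^ ρ := by
          apply mul_le_mul_of_nonneg_left _ (by positivity)
          exact pow_le_pow_of_le_one hθ0.le hθ1.le hr
  have hA : (θ ^ h)⁻¹ * (P ^ h)⁻¹ * Λ ^ n + θ ^ h ≤ Λ ^ 2 * θ ^ ρ + θ ^ ρ :=
    add_le_add (hpow h n hρ (by omega)) (pow_le_pow_of_le_one hθ0.le hθ1.le hρ)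
  have hB : ∑ r ∈ Finset.Ico ρ h, (∑ k ∈ Finset.range (r + 2),
      (θ ^ r)⁻¹ * (P ^ r)⁻¹ * Λ ^ (Jw n (r + 1) k).card + θ ^ r) ≤
      n * ((n + 2) * (Λ ^ 2 * θ ^ ρ) + θ ^ ρ) := by
    have h3 : ∀ r ∈ Finset.Ico ρ h, ∑ k ∈ Finset.range (r + 2),
        (θ ^ r)⁻¹ * (P ^ r)⁻¹ * Λ ^ (Jw n (r + 1) k).card + θ ^ r ≤
          ((n : ℝ) + 2) * (Λ ^ 2 * θ ^ ρ) + θ ^ ρ := by
      intro r hr
      rw [Finset.mem_Ico] at hr
      apply add_le_add _ (pow_le_pow_of_le_one hθ0.le hθ1.le hr.1)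
      have h4 : ∀ k ∈ Finset.range (r + 2), (θ ^ r)⁻¹ * (P ^ r)⁻¹ *
          Λ ^ (Jw n (r + 1) k).card ≤ Λ ^ 2 * θ ^ ρ := by
        intro k hk
        rw [Finset.mem_range] at hk
        apply hpow r _ hr.1
        rw [card_Jw (by omega) (by omega)]
        omega
      refine (Finset.sum_le_card_nsmul _ _ _ h4).trans ?_
      rw [Finset.card_range, nsmul_eq_mul]
      apply mul_le_mul_of_nonneg_right _ (by positivity)
      push_cast
      have : (r : ℝ) ≤ n := by exact_mod_cast (by omega : r ≤ n)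
      linarith
    refine (Finset.sum_le_card_nsmul _ _ _ h3).trans ?_
    rw [nsmul_eq_mul]
    apply mul_le_mul_of_nonneg_right _ (by positivity)
    rw [Nat.card_Ico]
    exact_mod_cast (by omega : h - ρ ≤ n)
  have hn0 : (0 : ℝ) ≤ n := by positivity
  have hT0 : 0 ≤ Λ ^ 2 * θ ^ ρ := by positivity
  have hT1 : 0 ≤ θ ^ ρ := by positivity
  calc 2 * M * (((θ ^ h)⁻¹ * (P ^ h)⁻¹ * Λ ^ n + θ ^ h) + ∑ r ∈ Finset.Ico ρ h,
        (∑ k ∈ Finset.range (r + 2), (θ ^ r)⁻¹ * (P ^ r)⁻¹ * Λ ^ (Jw n (r + 1) k).card +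
          θ ^ r))
      ≤ 2 * M * ((Λ ^ 2 * θ ^ ρ + θ ^ ρ) + n * ((n + 2) * (Λ ^ 2 * θ ^ ρ) + θ ^ ρ)) := by
        apply mul_le_mul_of_nonneg_left (add_le_add hA hB) (by positivity)
    _ ≤ 2 * M * (((n : ℝ) + 2) ^ 2 * (Λ ^ 2 * θ ^ ρ) + ((n : ℝ) + 2) ^ 2 * θ ^ ρ) := by
        apply mul_le_mul_of_nonneg_left _ (by positivity)
        have e1 : Λ ^ 2 * θ ^ ρ + n * ((n + 2) * (Λ ^ 2 * θ ^ ρ)) ≤
            ((n : ℝ) + 2) ^ 2 * (Λ ^ 2 * θ ^ ρ) := by nlinarith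
        have e2 : θ ^ ρ + n * θ ^ ρ ≤ ((n : ℝ) + 2) ^ 2 * θ ^ ρ := by
          have e3 : (1 : ℝ) + n ≤ ((n : ℝ) + 2) ^ 2 := by nlinarith
          have e4 := mul_le_mul_of_nonneg_right e3 hT1
          linarith
        nlinarith
    _ = 2 * (Λ ^ 2 + 1) * M * ((n : ℝ) + 2) ^ 2 * θ ^ ρ := by ring

end Pool.Agent.MP0a1886
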