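import Pool.Agent.MP0a1886.Min.LevF

/-! Frequencies sorted by the order of the recurrence (MP_0a1886_pr). -/

set_option autoImplicit false
set_option linter.unusedSectionVars false
open Finset Polynomial

namespace Pool.Agent.MP0a1886

variable {p : ℕ} [hp : Fact p.Prime]

/-- `g` is monic and annihilates the functional `l` -/
def Ann (l : (ZMod p)[X] →ₗ[ZMod p] ZMod p) (g : (ZMod p)[X]) : Prop :=
  g.Monic ∧ ∀ f, l (g * f) = 0

/-- an annihilator of least degree -/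
noncomputable def ann (l : (ZMod p)[X] →ₗ[ZMod p] ZMod p) : (ZMod p)[X] := by
  classical
  exact if h : ∃ g, Ann l g ∧ ∀ g', Ann l g' → g.natDegree ≤ g'.natDegree then h.choose else 1

lemma ann_spec {l : (ZMod p)[X] →ₗ[ZMod p] ZMod p} {h : (ZMod p)[X]} (hh : Ann l h) :
    Ann l (ann l) ∧ ∀ g', Ann l g' → (ann l).natDegree ≤ g'.natDegree := by
  classical
  have hex : ∃ g, Ann l g ∧ ∀ g', Ann l g' → g.natDegree ≤ g'.natDegree := by
    have hd : ∃ d, ∃ g, Ann l g ∧ g.natDegree = d := ⟨_, h, hh, rfl⟩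
    obtain ⟨g, hg, hgd⟩ := Nat.find_spec hd
    refine ⟨g, hg, fun g' hg' => ?_⟩
    rw [hgd]
    exact Nat.find_min' hd ⟨g', hg', rfl⟩
  unfold ann
  rw [dif_pos hex]
  exact hex.choose_spec

lemma ann_dvd {l : (ZMod p)[X] →ₗ[ZMod p] ZMod p} {h : (ZMod p)[X]} (hh : Ann l h) :
    ann l ∣ h := by
  obtain ⟨⟨hm, hz⟩, hmin⟩ := ann_spec hh
  rw [← Polynomial.modByMonic_eq_zero_iff_dvd hm]
  by_contra hne
  obtain ⟨r, hr⟩ : ∃ r, r = h %ₘ ann l := ⟨_, rfl⟩
  rw [← hr] at hne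
  have hr' : r = h - ann l * (h /ₘ ann l) := by
    rw [hr]
    exact eq_sub_of_add_eq (Polynomial.modByMonic_add_div h (ann l))
  have hc : r.leadingCoeff⁻¹ ≠ 0 := inv_ne_zero (Polynomial.leadingCoeff_ne_zero.2 hne)
  have hmon : (C (r.leadingCoeff⁻¹) * r).Monic := by
    rw [mul_comm]
    exact Polynomial.monic_mul_leadingCoeff_inv hne
  have hA : Ann l (C (r.leadingCoeff⁻¹) * r) := by
    refine ⟨hmon, fun f => ?_⟩
    have h1 : C (r.leadingCoeff⁻¹) * r * f = r.leadingCoeff⁻¹ • (h * f - ann l *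
        ((h /ₘ ann l) * f)) := by
      rw [Polynomial.smul_eq_C_mul]
      nth_rewrite 2 [hr']
      ring
    rw [h1, map_smul, map_sub, hh.2, hz, sub_zero, smul_zero]
  have hlt : (C (r.leadingCoeff⁻¹) * r).natDegree < (ann l).natDegree := by
    rw [Polynomial.natDegree_C_mul hc]
    apply Polynomial.natDegree_lt_natDegree hne
    rw [hr]
    exact Polynomial.degree_modByMonic_lt h hm
  exact absurd (hmin _ hA) (not_le.2 hlt)

lemma eq_of_window {l l' : (ZMod p)[X] →ₗ[ZMod p] ZMod p} {g g' : (ZMod p)[X]} {j : ℕ}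
    (hg : Ann l g) (hg' : Ann l' g') (hj : g.natDegree ≤ j) (hj' : g'.natDegree ≤ j)
    (h : ∀ i : Fin (2 * j), l (X ^ (i : ℕ)) = l' (X ^ (i : ℕ))) : l = l' := by
  apply LinearMap.ext
  intro f
  have hG : (g * g').Monic := hg.1.mul hg'.1
  have hGd : (g * g').natDegree ≤ 2 * j := by
    rw [hg.1.natDegree_mul hg'.1]
    omega
  obtain ⟨r, hr⟩ : ∃ r, r = f %ₘ (g * g') := ⟨_, rfl⟩
  have hf : f = r + g * g' * (f /ₘ (g * g')) := by
    rw [hr]
    exact (Polynomial.modByMonic_add_div f (g * g')).symm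
  have h1 : l (g * g' * (f /ₘ (g * g'))) = 0 := by
    rw [mul_assoc]
    exact hg.2 _
  have h2 : l' (g * g' * (f /ₘ (g * g'))) = 0 := by
    rw [mul_comm g g', mul_assoc]
    exact hg'.2 _
  rw [hf, map_add, map_add, h1, h2, add_zero, add_zero]
  by_cases hr0 : r = 0
  · rw [hr0, map_zero, map_zero]
  · have hrd : r.natDegree < 2 * j := by
      refine lt_of_lt_of_le ?_ hGd
      apply Polynomial.natDegree_lt_natDegree hr0
      rw [hr]
      exact Polynomial.degree_modByMonic_lt f hG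
    rw [← fa_of_values l r hrd, ← fa_of_values l' r hrd]
    congr 1
    rw [show (fun i : Fin (2 * j) => l (X ^ (i : ℕ))) = fun i : Fin (2 * j) => l' (X ^ (i : ℕ)) from
      funext h]

lemma Ann_fn (h : (ZMod p)[X]) (hh : h.Monic) (k : ℕ) (v : Fin k → ZMod p) :
    Ann (fn h k v) h := ⟨hh, fn_mul h hh k v⟩

lemma ann_deg_gt {m k : ℕ} {h : (ZMod p)[X]} (hh : h.Monic) (hk : h.natDegree = k)
    (hF : Fac (fun d => m < d) h) {v : Fin k → ZMod p} (hv : v ≠ 0) :
    m < (ann (fn h k v)).natDegree ∧ (ann (fn h k v)).natDegree ≤ k := by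
  have hA := Ann_fn h hh k v
  obtain ⟨⟨hm, hz⟩, hmin⟩ := ann_spec hA
  have hdvd := ann_dvd hA
  refine ⟨?_, (hmin h hA).trans_eq hk⟩
  have hpos : 0 < (ann (fn h k v)).natDegree := by
    rw [Nat.pos_iff_ne_zero]
    intro h0
    have h1 : ann (fn h k v) = 1 := hm.natDegree_eq_zero.1 h0
    apply hv
    funext t
    have h2 := hz (X ^ (t : ℕ))
    rw [h1, one_mul, fn_X_pow h hh k hk v t] at h2
    exact h2
  obtain ⟨P, hP, hPd⟩ := Polynomial.exists_irreducible_of_natDegree_pos hpos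
  exact (hF P hP (hPd.trans hdvd)).trans_le (Polynomial.natDegree_le_of_dvd hPd hm.ne_zero)

open Classical in
/-- the sum over the frequencies of the moduli in `H`, sorted by the order of the recurrence -/
theorem strat (n k m : ℕ) (W : ℕ → ZMod p → ℝ) (hW0 : ∀ i c, 0 ≤ W i c)
    (hW1 : ∀ i c, W i c ≤ 1) (H : Finset (ZMod p)[X])
    (hH : ∀ h ∈ H, h.Monic ∧ h.natDegree = k ∧ Fac (fun d => m < d) h) :
    ∑ h ∈ H, ∑ v ∈ (Finset.univ : Finset (Fin k → ZMod p)).erase 0,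
      ∏ i ∈ Finset.range (n + 1), W i (fn h k v (X ^ i)) ≤
    ∑ j ∈ Finset.Ioc m k, (p : ℝ) ^ (k - j) * ((p : ℝ) ^ (2 * j - min (2 * j) (n + 1)) *
      ∏ i ∈ Finset.range (min (2 * j) (n + 1)), ∑ c, W i c) := by
  rw [← Finset.sum_product']
  have hmaps : ∀ z ∈ H ×ˢ (Finset.univ : Finset (Fin k → ZMod p)).erase 0,
      (ann (fn z.1 k z.2)).natDegree ∈ Finset.Ioc m k := by
    intro z hz
    rw [Finset.mem_product, Finset.mem_erase] at hz
    obtain ⟨h1, h2, h3⟩ := hH z.1 hz.1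
    rw [Finset.mem_Ioc]
    exact ann_deg_gt h1 h2 h3 hz.2.1
  rw [← Finset.sum_fiberwise_of_maps_to hmaps]
  apply Finset.sum_le_sum
  intro j hj
  obtain ⟨M, hM⟩ : ∃ M, M = min (2 * j) (n + 1) := ⟨_, rfl⟩
  rw [← hM]
  have hM1 : M ≤ n + 1 := by omega
  have hM2 : M ≤ 2 * j := by omega
  obtain ⟨G, hG⟩ : ∃ G : (Fin (2 * j) → ZMod p) × (ZMod p)[X] → ℝ,
      G = fun y => ∏ i : Fin (2 * j), if (i : ℕ) < M then W i (y.1 i) else 1 := ⟨_, rfl⟩
  have hG0 : ∀ y, 0 ≤ G y := by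
    intro y
    rw [hG]
    apply Finset.prod_nonneg
    intro i _
    split_ifs
    · exact hW0 _ _
    · exact zero_le_one
  obtain ⟨Φ, hΦ⟩ : ∃ Φ : (ZMod p)[X] × (Fin k → ZMod p) → (Fin (2 * j) → ZMod p) × (ZMod p)[X],
      Φ = fun z : (ZMod p)[X] × (Fin k → ZMod p) =>
        (fun i : Fin (2 * j) => fn z.1 k z.2 (X ^ (i : ℕ)), z.1 /ₘ ann (fn z.1 k z.2)) := ⟨_, rfl⟩
  obtain ⟨Z, hZ⟩ : ∃ Z : Finset ((ZMod p)[X] × (Fin k → ZMod p)),
      Z = (H ×ˢ (Finset.univ : Finset (Fin k → ZMod p)).erase 0).filter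
      (fun z => (ann (fn z.1 k z.2)).natDegree = j) := ⟨_, rfl⟩
  rw [← hZ]
  have hZm : ∀ z ∈ Z, z.1.Monic ∧ z.1.natDegree = k ∧ (ann (fn z.1 k z.2)).natDegree = j ∧
      Ann (fn z.1 k z.2) (ann (fn z.1 k z.2)) ∧
      ann (fn z.1 k z.2) * (z.1 /ₘ ann (fn z.1 k z.2)) = z.1 := by
    intro z hz
    rw [hZ, Finset.mem_filter, Finset.mem_product] at hz
    obtain ⟨h1, h2, h3⟩ := hH z.1 hz.1.1
    have hA := Ann_fn z.1 h1 k z.2
    have hs := ann_spec hA
    refine ⟨h1, h2, hz.2, hs.1, ?_⟩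
    have h4 := Polynomial.modByMonic_add_div z.1 (ann (fn z.1 k z.2))
    rw [(Polynomial.modByMonic_eq_zero_iff_dvd hs.1.1).2 (ann_dvd hA), zero_add] at h4
    exact h4
  have hinj : Set.InjOn Φ Z := by
    intro z hz z' hz' he
    obtain ⟨a1, a2, a3, a4, a5⟩ := hZm z hz
    obtain ⟨b1, b2, b3, b4, b5⟩ := hZm z' hz'
    rw [hΦ] at he
    simp only [Prod.mk.injEq] at he
    have h1 : fn z.1 k z.2 = fn z'.1 k z'.2 :=
      eq_of_window a4 b4 a3.le b3.le (fun i => congrFun he.1 i)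
    have h2 : z.1 = z'.1 := by
      rw [← a5, ← b5, he.2, h1]
    obtain ⟨z1, z2⟩ := z
    obtain ⟨w1, w2⟩ := z'
    simp only at h1 h2 a1 a2
    subst h2
    rw [fn_injective z1 a1 k a2 h1]
  have hmem : ∀ z ∈ Z, Φ z ∈ (Finset.univ : Finset (Fin (2 * j) → ZMod p)) ×ˢ mon p (k - j) := by
    intro z hz
    obtain ⟨a1, a2, a3, a4, a5⟩ := hZm z hz
    rw [hΦ, Finset.mem_product]
    refine ⟨Finset.mem_univ _, ?_⟩
    have h1 := mem_mon_of_mul (p := p) (a := j) (n := k) (mem_mon.2 ⟨a4.1, a3⟩)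
      (g := z.1 /ₘ ann (fn z.1 k z.2)) (by rw [a5]; exact mem_mon.2 ⟨a1, a2⟩)
    exact h1.2
  have hle : ∀ z ∈ Z, ∏ i ∈ Finset.range (n + 1), W i (fn z.1 k z.2 (X ^ i)) ≤ G (Φ z) := by
    intro z _
    have h1 : G (Φ z) = ∏ i ∈ Finset.range M, W i (fn z.1 k z.2 (X ^ i)) := by
      rw [hG, hΦ]
      simp only
      rw [Fin.prod_univ_eq_prod_range (fun i => if i < M then W i (fn z.1 k z.2 (X ^ i)) else 1)
        (2 * j), ← Finset.prod_filter]
      congr 1
      ext i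
      rw [Finset.mem_filter, Finset.mem_range, Finset.mem_range]
      omega
    rw [h1, ← Finset.prod_range_mul_prod_Ico _ hM1]
    apply mul_le_of_le_one_right
    · exact Finset.prod_nonneg fun i _ => hW0 _ _
    · exact Finset.prod_le_one (fun i _ => hW0 _ _) (fun i _ => hW1 _ _)
  calc ∑ z ∈ Z, ∏ i ∈ Finset.range (n + 1), W i (fn z.1 k z.2 (X ^ i))
      ≤ ∑ z ∈ Z, G (Φ z) := Finset.sum_le_sum hle
    _ = ∑ y ∈ Z.image Φ, G y := (Finset.sum_image (fun z hz z' hz' h => hinj hz hz' h)).symm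
    _ ≤ ∑ y ∈ (Finset.univ : Finset (Fin (2 * j) → ZMod p)) ×ˢ mon p (k - j), G y := by
        apply Finset.sum_le_sum_of_subset_of_nonneg
        · intro y hy
          obtain ⟨z, hz, rfl⟩ := Finset.mem_image.1 hy
          exact hmem z hz
        · intro y _ _
          exact hG0 y
    _ = (p : ℝ) ^ (k - j) * ((p : ℝ) ^ (2 * j - M) * ∏ i ∈ Finset.range M, ∑ c, W i c) := by
        rw [Finset.sum_product, hG]
        simp only [Finset.sum_const, card_mon, nsmul_eq_mul]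
        rw [← Finset.mul_sum, sum_prod_pi (fun (i : Fin (2 * j)) c =>
          if (i : ℕ) < M then W i c else 1)]
        push_cast
        congr 1
        have h1 : ∀ i : Fin (2 * j), ∑ c : ZMod p, (if (i : ℕ) < M then W i c else 1) =
            if (i : ℕ) < M then ∑ c, W i c else (p : ℝ) := by
          intro i
          split_ifs
          · rfl
          · rw [Finset.sum_const, Finset.card_univ, ZMod.card, nsmul_eq_mul, mul_one]
        rw [Finset.prod_congr rfl (fun i _ => h1 i),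
          Fin.prod_univ_eq_prod_range (fun i => if i < M then ∑ c, W i c else (p : ℝ)) (2 * j),
          ← Finset.prod_range_mul_prod_Ico _ hM2, mul_comm]
        congr 1
        · rw [Finset.prod_congr rfl (g := fun _ => (p : ℝ)), Finset.prod_const, Nat.card_Ico]
          intro i hi
          rw [if_neg (not_lt.2 (Finset.mem_Ico.1 hi).1)]
        · apply Finset.prod_congr rfl
          intro i hi
          rw [if_pos (Finset.mem_range.1 hi)]

end Pool.Agent.MP0a1886
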