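import Pool.Agent.MP0a1886.Min.L1a
import Pool.Agent.MP0a1886.Min.Core

/-! The level of distribution from the sums of the Fourier coefficients (MP_0a1886_pr). -/

set_option autoImplicit false
set_option linter.unusedSectionVars false
open Finset Polynomial

namespace Pool.Agent.MP0a1886

variable {p : ℕ} [hp : Fact p.Prime]

/-- the first `t` coordinates -/
def Jt (n t : ℕ) : Finset (Fin (n + 1)) := Finset.univ.filter (fun i => (i : ℕ) < t)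

lemma prod_Jt (n t : ℕ) (S : ℕ → ℝ) :
    ∏ i ∈ Jt n t, S i = ∏ i ∈ Finset.range (min t (n + 1)), S i := by
  unfold Jt
  rw [Finset.prod_filter, Fin.prod_univ_eq_prod_range (fun i => if i < t then S i else 1) (n + 1),
    ← Finset.prod_filter]
  congr 1
  ext i
  rw [Finset.mem_filter, Finset.mem_range, Finset.mem_range]
  omega

lemma card_Jt (n t : ℕ) : (Jt n t).card = min t (n + 1) := by
  unfold Jt
  rw [Finset.card_filter, Fin.sum_univ_eq_sum_range (fun i => if i < t then 1 else 0) (n + 1),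
    ← Finset.card_filter]
  have h : (Finset.range (n + 1)).filter (fun i => i < t) = Finset.range (min t (n + 1)) := by
    ext i
    rw [Finset.mem_filter, Finset.mem_range, Finset.mem_range]
    omega
  rw [h, Finset.card_range]

/-- the error for one product measure -/
lemma D_le1 (n k m R : ℕ) (hR : n < (m + 1) * R)
    (g : Fin (n + 1) → ZMod p → ℝ) (h0 : ∀ i a, 0 ≤ g i a) (W : Fin (n + 1) → ZMod p → ℝ)
    (hW0 : ∀ i c, 0 ≤ W i c) (hW1 : ∀ i c, W i c ≤ 1)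
    (hw : ∀ i c, ‖muhat (g i) c‖ ≤ (∑ a, g i a) * W i c)
    (H : Finset (ZMod p)[X])
    (hH : ∀ h ∈ H, h.Monic ∧ h.natDegree = k ∧ Fac (fun d => m < d) h) :
    ∑ h ∈ H, |Prg n g (fun f => h ∣ f ∧ f ≠ 0) - (∏ i, ∑ a, g i a) * ((p : ℝ) ^ k)⁻¹| ≤
    (∏ i, ∑ a, g i a) * ((2 ^ R + 1) * min 1 (∑ j ∈ Finset.Ioc m k, (p : ℝ) ^ j *
      ∏ i ∈ Jt n (2 * j), ((∑ c, W i c) / p) + (p : ℝ) ^ k * ∏ i, ((∑ c, W i c) / p))) := by
  classical
  have hp0 : (0 : ℝ) < p := by exact_mod_cast hp.out.pos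
  have hpk : (0 : ℝ) < (p : ℝ) ^ k := by positivity
  obtain ⟨M, hM⟩ : ∃ M : ℝ, M = ∏ i, ∑ a, g i a := ⟨_, rfl⟩
  have hM0 : 0 ≤ M := by
    rw [hM]
    exact Finset.prod_nonneg fun i _ => Finset.sum_nonneg fun a _ => h0 i a
  have hHc : (H.card : ℝ) ≤ (p : ℝ) ^ k := by
    have h1 : H ⊆ mon p k := by
      intro h hh
      rw [mem_mon]
      exact ⟨(hH h hh).1, (hH h hh).2.1⟩
    have h2 := Finset.card_le_card h1
    rw [card_mon] at h2
    exact_mod_cast h2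
  obtain ⟨T, hT⟩ : ∃ T : ℝ, T = ∑ j ∈ Finset.Ioc m k, (p : ℝ) ^ j *
      ∏ i ∈ Jt n (2 * j), ((∑ c, W i c) / p) := ⟨_, rfl⟩
  obtain ⟨U, hU⟩ : ∃ U : ℝ, U = (p : ℝ) ^ k * ∏ i, ((∑ c, W i c) / p) := ⟨_, rfl⟩
  have hS0 : ∀ i, 0 ≤ (∑ c, W i c) / (p : ℝ) := fun i =>
    div_nonneg (Finset.sum_nonneg fun c _ => hW0 i c) hp0.le
  have hT0 : 0 ≤ T := by
    rw [hT]
    exact Finset.sum_nonneg fun j _ => mul_nonneg (by positivity)
      (Finset.prod_nonneg fun i _ => hS0 i)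
  have hU0 : 0 ≤ U := by
    rw [hU]
    exact mul_nonneg (by positivity) (Finset.prod_nonneg fun i _ => hS0 i)
  rw [← hM, ← hT, ← hU]
  have h2R : (1 : ℝ) ≤ 2 ^ R := one_le_pow₀ (by norm_num)
  -- the trivial bound
  have hB1 : ∑ h ∈ H, |Prg n g (fun f => h ∣ f ∧ f ≠ 0) - M * ((p : ℝ) ^ k)⁻¹| ≤
      M * (2 ^ R + 1) := by
    have h1 : ∀ h ∈ H, |Prg n g (fun f => h ∣ f ∧ f ≠ 0) - M * ((p : ℝ) ^ k)⁻¹| ≤
        Prg n g (fun f => h ∣ f ∧ f ≠ 0) + M * ((p : ℝ) ^ k)⁻¹ := by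
      intro h _
      have h2 := Prg_nonneg g h0 (fun f => h ∣ f ∧ f ≠ 0)
      have h3 : 0 ≤ M * ((p : ℝ) ^ k)⁻¹ := by positivity
      rw [abs_le]
      constructor <;> linarith
    refine (Finset.sum_le_sum h1).trans ?_
    rw [Finset.sum_add_distrib, Finset.sum_const, nsmul_eq_mul]
    have h4 := sum_dvd_le n m R hR g h0 H (fun h hh => ⟨(hH h hh).1, (hH h hh).2.2⟩)
    rw [← hM] at h4
    have h5 : (H.card : ℝ) * (M * ((p : ℝ) ^ k)⁻¹) ≤ M := by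
      calc (H.card : ℝ) * (M * ((p : ℝ) ^ k)⁻¹) ≤ (p : ℝ) ^ k * (M * ((p : ℝ) ^ k)⁻¹) :=
            mul_le_mul_of_nonneg_right hHc (by positivity)
        _ = M := by field_simp
    linarith
  -- the value at zero
  have hz : Prg n g (fun f => f = 0) ≤ M * ∏ i, ((∑ c, W i c) / (p : ℝ)) := by
    rw [Prg_zero, hM, ← Finset.prod_mul_distrib]
    apply Finset.prod_le_prod
    · intro i _
      exact h0 i 0
    · intro i _
      have h2 : ‖∑ c, muhat (g i) c‖ = (p : ℝ) * g i 0 := by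
        rw [sum_muhat, norm_mul, Complex.norm_natCast, Complex.norm_real, Real.norm_eq_abs,
          abs_of_nonneg (h0 i 0)]
      have h3 : (p : ℝ) * g i 0 ≤ (∑ a, g i a) * ∑ c, W i c := by
        rw [← h2, Finset.mul_sum]
        exact (norm_sum_le _ _).trans (Finset.sum_le_sum fun c _ => hw i c)
      rw [← mul_div_assoc, le_div_iff₀ hp0]
      linarith
  -- the Fourier bound
  have hB2 : ∑ h ∈ H, |Prg n g (fun f => h ∣ f ∧ f ≠ 0) - M * ((p : ℝ) ^ k)⁻¹| ≤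
      M * (T + U) := by
    have h1 : ∀ h ∈ H, |Prg n g (fun f => h ∣ f ∧ f ≠ 0) - M * ((p : ℝ) ^ k)⁻¹| ≤
        M * (((p : ℝ) ^ k)⁻¹ * ∑ v ∈ (Finset.univ : Finset (Fin k → ZMod p)).erase 0,
          fwg n W h k v) + M * ∏ i, ((∑ c, W i c) / (p : ℝ)) := by
      intro h hh
      obtain ⟨hm, hd, hF⟩ := hH h hh
      have h2 := Prg_errg n g W hw h hm k hd
      rw [← hM, Prg_split] at h2
      have h7 := Prg_nonneg g h0 (fun f => f = 0)
      rw [abs_le] at h2 ⊢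
      obtain ⟨h2a, h2b⟩ := h2
      constructor <;> linarith
    refine (Finset.sum_le_sum h1).trans ?_
    rw [Finset.sum_add_distrib, ← Finset.mul_sum, ← Finset.mul_sum, Finset.sum_const,
      nsmul_eq_mul]
    obtain ⟨W', hW'⟩ : ∃ W' : ℕ → ZMod p → ℝ, W' = fun i c =>
        if h : i < n + 1 then W ⟨i, h⟩ c else 0 := ⟨_, rfl⟩
    have hWW : ∀ (i : Fin (n + 1)) (c : ZMod p), W' i c = W i c := by
      intro i c
      rw [hW']
      simp only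
      rw [dif_pos i.2]
    have h3 := strat n k m W' (by
        intro i c
        rw [hW']
        simp only
        split_ifs
        · exact hW0 _ _
        · exact le_rfl) (by
        intro i c
        rw [hW']
        simp only
        split_ifs
        · exact hW1 _ _
        · exact zero_le_one) H hH
    have h4 : ∑ h ∈ H, ∑ v ∈ (Finset.univ : Finset (Fin k → ZMod p)).erase 0, fwg n W h k v =
        ∑ h ∈ H, ∑ v ∈ (Finset.univ : Finset (Fin k → ZMod p)).erase 0,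
          ∏ i ∈ Finset.range (n + 1), W' i (fn h k v (X ^ i)) := by
      apply Finset.sum_congr rfl
      intro h _
      apply Finset.sum_congr rfl
      intro v _
      unfold fwg
      rw [← Fin.prod_univ_eq_prod_range (fun i => W' i (fn h k v (X ^ i))) (n + 1)]
      exact Finset.prod_congr rfl fun i _ => (hWW i _).symm
    have h5 : ((p : ℝ) ^ k)⁻¹ * ∑ h ∈ H,
        ∑ v ∈ (Finset.univ : Finset (Fin k → ZMod p)).erase 0, fwg n W h k v ≤ T := by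
      rw [h4]
      refine (mul_le_mul_of_nonneg_left h3 (inv_nonneg.2 hpk.le)).trans (le_of_eq ?_)
      rw [hT, Finset.mul_sum]
      apply Finset.sum_congr rfl
      intro j hj
      have hjk := (Finset.mem_Ioc.1 hj).2
      have e1 : ∏ i ∈ Jt n (2 * j), ((∑ c, W i c) / (p : ℝ)) =
          (∏ i ∈ Finset.range (min (2 * j) (n + 1)), ∑ c, W' i c) /
            (p : ℝ) ^ (min (2 * j) (n + 1)) := by
        rw [← prod_Jt n (2 * j) (fun i => ∑ c, W' i c), Finset.prod_div_distrib,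
          Finset.prod_const, card_Jt]
        congr 1
        apply Finset.prod_congr rfl
        intro i _
        exact Finset.sum_congr rfl fun c _ => (hWW i c).symm
      rw [e1]
      obtain ⟨P, hP⟩ : ∃ P, P = ∏ i ∈ Finset.range (min (2 * j) (n + 1)), ∑ c, W' i c :=
        ⟨_, rfl⟩
      rw [← hP]
      obtain ⟨t, ht⟩ : ∃ t, t = min (2 * j) (n + 1) := ⟨_, rfl⟩
      rw [← ht]
      have ht2 : t ≤ 2 * j := by omega
      have e2 : (p : ℝ) ^ k = (p : ℝ) ^ (k - j) * (p : ℝ) ^ j := by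
        rw [← pow_add]
        congr 1
        omega
      have e3 : (p : ℝ) ^ j * (p : ℝ) ^ j = (p : ℝ) ^ (2 * j - t) * (p : ℝ) ^ t := by
        rw [← pow_add, ← pow_add]
        congr 1
        omega
      have hj0 : (p : ℝ) ^ j ≠ 0 := by positivity
      have hkj0 : (p : ℝ) ^ (k - j) ≠ 0 := by positivity
      have ht0 : (p : ℝ) ^ t ≠ 0 := by positivity
      rw [e2, ← mul_div_assoc, eq_div_iff ht0]
      have e4 : ((p : ℝ) ^ (k - j) * (p : ℝ) ^ j)⁻¹ *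
          ((p : ℝ) ^ (k - j) * ((p : ℝ) ^ (2 * j - t) * P)) * (p : ℝ) ^ t =
          ((p : ℝ) ^ j)⁻¹ * ((p : ℝ) ^ (2 * j - t) * (p : ℝ) ^ t) * P := by
        field_simp
      rw [e4, ← e3, ← mul_assoc, inv_mul_cancel₀ hj0, one_mul]
    have h6 : (H.card : ℝ) * (M * ∏ i, ((∑ c, W i c) / (p : ℝ))) ≤ M * U := by
      calc (H.card : ℝ) * (M * ∏ i, ((∑ c, W i c) / (p : ℝ)))
          ≤ (p : ℝ) ^ k * (M * ∏ i, ((∑ c, W i c) / (p : ℝ))) :=
            mul_le_mul_of_nonneg_right hHc (mul_nonneg hM0 (Finset.prod_nonneg fun i _ => hS0 i))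
        _ = M * U := by rw [hU]; ring
    have h8 := mul_le_mul_of_nonneg_left h5 hM0
    rw [mul_add]
    exact add_le_add h8 h6
  rcases le_total 1 (T + U) with h1 | h1
  · rw [min_eq_left h1, mul_one]
    exact hB1
  · rw [min_eq_right h1]
    refine hB2.trans (mul_le_mul_of_nonneg_left ?_ hM0)
    nlinarith [add_nonneg hT0 hU0]

lemma D_le1' (n k m R : ℕ) (hR : n < (m + 1) * R)
    (g : Fin (n + 1) → ZMod p → ℝ) (h0 : ∀ i a, 0 ≤ g i a) (W : Fin (n + 1) → ZMod p → ℝ)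
    (hW0 : ∀ i c, 0 ≤ W i c) (hW1 : ∀ i c, W i c ≤ 1)
    (hw : ∀ i c, ‖muhat (g i) c‖ ≤ (∑ a, g i a) * W i c)
    (H : Finset (ZMod p)[X])
    (hH : ∀ h ∈ H, h.Monic ∧ h.natDegree = k ∧ Fac (fun d => m < d) h)
    (s : ℝ) (hs0 : 0 ≤ s) (hs1 : s ≤ 1) :
    ∑ h ∈ H, |Prg n g (fun f => h ∣ f ∧ f ≠ 0) - (∏ i, ∑ a, g i a) * ((p : ℝ) ^ k)⁻¹| ≤
    (2 ^ R + 1) * (∑ j ∈ Finset.Ioc m k, ((p : ℝ) ^ j) ^ s *
      ((∏ i, ∑ a, g i a) * (∏ i ∈ Jt n (2 * j), ((∑ c, W i c) / p)) ^ s) +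
      ((p : ℝ) ^ k) ^ s * ((∏ i, ∑ a, g i a) * (∏ i, ((∑ c, W i c) / p)) ^ s)) := by
  have hp0 : (0 : ℝ) < p := by exact_mod_cast hp.out.pos
  refine (D_le1 n k m R hR g h0 W hW0 hW1 hw H hH).trans ?_
  have hM0 : 0 ≤ ∏ i, ∑ a, g i a :=
    Finset.prod_nonneg fun i _ => Finset.sum_nonneg fun a _ => h0 i a
  have hS0 : ∀ i, 0 ≤ (∑ c, W i c) / (p : ℝ) := fun i =>
    div_nonneg (Finset.sum_nonneg fun c _ => hW0 i c) hp0.le
  have hJ0 : ∀ J : Finset (Fin (n + 1)), 0 ≤ ∏ i ∈ J, ((∑ c, W i c) / (p : ℝ)) := fun J =>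
    Finset.prod_nonneg fun i _ => hS0 i
  have hx0 : ∀ j ∈ Finset.Ioc m k, 0 ≤ (p : ℝ) ^ j * ∏ i ∈ Jt n (2 * j),
      ((∑ c, W i c) / (p : ℝ)) := fun j _ => mul_nonneg (by positivity) (hJ0 _)
  have hmin : min 1 (∑ j ∈ Finset.Ioc m k, (p : ℝ) ^ j *
      ∏ i ∈ Jt n (2 * j), ((∑ c, W i c) / (p : ℝ)) +
      (p : ℝ) ^ k * ∏ i, ((∑ c, W i c) / (p : ℝ))) ≤
      ∑ j ∈ Finset.Ioc m k, ((p : ℝ) ^ j) ^ s *
        (∏ i ∈ Jt n (2 * j), ((∑ c, W i c) / (p : ℝ))) ^ s +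
      ((p : ℝ) ^ k) ^ s * (∏ i, ((∑ c, W i c) / (p : ℝ))) ^ s := by
    refine (min_one_add (Finset.sum_nonneg hx0) (mul_nonneg (by positivity) (hJ0 _))).trans ?_
    apply add_le_add
    · refine (min_one_sum _ _ hx0).trans (Finset.sum_le_sum fun j hj => ?_)
      rw [← Real.mul_rpow (by positivity) (hJ0 _)]
      exact min_one_le_rpow (hx0 j hj) hs0 hs1
    · rw [← Real.mul_rpow (by positivity) (hJ0 _)]
      exact min_one_le_rpow (mul_nonneg (by positivity) (hJ0 _)) hs0 hs1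
  have h2R : (0 : ℝ) ≤ 2 ^ R + 1 := by positivity
  refine (mul_le_mul_of_nonneg_left (mul_le_mul_of_nonneg_left hmin h2R) hM0).trans
    (le_of_eq ?_)
  rw [mul_left_comm, mul_add (∏ i, ∑ a, g i a), Finset.mul_sum]
  congr 2
  · exact Finset.sum_congr rfl fun j _ => by ring
  · ring

/-- the error for a mixture -/
theorem level_core1 {B : Type} [Fintype B] (μ : ZMod p → ℝ) (g : B → ZMod p → ℝ)
    (hg : ∀ a, μ a = ∑ b, g b a) (hg0 : ∀ b a, 0 ≤ g b a) (hμ : ∑ a, μ a = 1)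
    (W : B → ZMod p → ℝ) (hW0 : ∀ b c, 0 ≤ W b c) (hW1 : ∀ b c, W b c ≤ 1)
    (hgw : ∀ b c, ‖muhat (g b) c‖ ≤ (∑ a, g b a) * W b c)
    (s : ℝ) (hs0 : 0 ≤ s) (hs1 : s ≤ 1) (n k m R : ℕ) (hR : n < (m + 1) * R)
    (H : Finset (ZMod p)[X])
    (hH : ∀ h ∈ H, h.Monic ∧ h.natDegree = k ∧ Fac (fun d => m < d) h) :
    ∑ h ∈ H, |Pr μ n (fun f => h ∣ f ∧ f ≠ 0) - ((p : ℝ) ^ k)⁻¹| ≤
      (2 ^ R + 1) * (∑ j ∈ Finset.Ioc m k, ((p : ℝ) ^ j) ^ s *
        (∑ b, (∑ a, g b a) * ((∑ c, W b c) / p) ^ s) ^ (min (2 * j) (n + 1)) +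
        ((p : ℝ) ^ k) ^ s * (∑ b, (∑ a, g b a) * ((∑ c, W b c) / p) ^ s) ^ (n + 1)) := by
  classical
  have hp0 : (0 : ℝ) < p := by exact_mod_cast hp.out.pos
  obtain ⟨mm, hmm⟩ : ∃ mm : B → ℝ, mm = fun b => ∑ a, g b a := ⟨_, rfl⟩
  have hmm' : ∀ b, ∑ a, g b a = mm b := fun b => by rw [hmm]
  have hm1 : ∑ b, mm b = 1 := by
    rw [← hμ, hmm, Finset.sum_comm]
    exact Finset.sum_congr rfl fun a _ => (hg a).symm
  obtain ⟨u, hu⟩ : ∃ u : B → ℝ, u = fun b => (∑ c, W b c) / (p : ℝ) := ⟨_, rfl⟩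
  have hu' : ∀ b, (∑ c, W b c) / (p : ℝ) = u b := fun b => by rw [hu]
  have hu0 : ∀ b, 0 ≤ u b := by
    intro b
    rw [hu]
    exact div_nonneg (Finset.sum_nonneg fun c _ => hW0 b c) hp0.le
  simp only [hmm', hu']
  have hsplit : ∀ h : (ZMod p)[X], Pr μ n (fun f => h ∣ f ∧ f ≠ 0) - ((p : ℝ) ^ k)⁻¹ =
      ∑ ω : Fin (n + 1) → B, (Prg n (fun i => g (ω i)) (fun f => h ∣ f ∧ f ≠ 0) -
        (∏ i, mm (ω i)) * ((p : ℝ) ^ k)⁻¹) := by
    intro h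
    rw [Pr_mix μ g hg, Finset.sum_sub_distrib, ← Finset.sum_mul,
      sum_prod_pi (fun (_ : Fin (n + 1)) b => mm b)]
    simp [hm1]
  have hone : ∀ ω : Fin (n + 1) → B,
      ∑ h ∈ H, |Prg n (fun i => g (ω i)) (fun f => h ∣ f ∧ f ≠ 0) -
        (∏ i, mm (ω i)) * ((p : ℝ) ^ k)⁻¹| ≤
      (2 ^ R + 1) * (∑ j ∈ Finset.Ioc m k, ((p : ℝ) ^ j) ^ s *
        ((∏ i, mm (ω i)) * (∏ i ∈ Jt n (2 * j), u (ω i)) ^ s) +
        ((p : ℝ) ^ k) ^ s * ((∏ i, mm (ω i)) * (∏ i, u (ω i)) ^ s)) := by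
    intro ω
    have h1 := D_le1' n k m R hR (fun i => g (ω i)) (fun i a => hg0 (ω i) a)
      (fun i => W (ω i)) (fun i c => hW0 _ c) (fun i c => hW1 _ c) (fun i c => hgw (ω i) c)
      H hH s hs0 hs1
    simp only [hmm', hu'] at h1
    exact h1
  have hJ : ∀ J : Finset (Fin (n + 1)), ∑ ω : Fin (n + 1) → B,
      ((∏ i, mm (ω i)) * (∏ i ∈ J, u (ω i)) ^ s) = (∑ b, mm b * u b ^ s) ^ J.card :=
    fun J => sum_mix_prod mm hm1 u hu0 s (n + 1) J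
  calc ∑ h ∈ H, |Pr μ n (fun f => h ∣ f ∧ f ≠ 0) - ((p : ℝ) ^ k)⁻¹|
      ≤ ∑ h ∈ H, ∑ ω : Fin (n + 1) → B, |Prg n (fun i => g (ω i)) (fun f => h ∣ f ∧ f ≠ 0) -
        (∏ i, mm (ω i)) * ((p : ℝ) ^ k)⁻¹| := by
        apply Finset.sum_le_sum
        intro h _
        rw [hsplit]
        exact Finset.abs_sum_le_sum_abs _ _
    _ = ∑ ω : Fin (n + 1) → B, ∑ h ∈ H, |Prg n (fun i => g (ω i)) (fun f => h ∣ f ∧ f ≠ 0) -
        (∏ i, mm (ω i)) * ((p : ℝ) ^ k)⁻¹| := Finset.sum_comm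
    _ ≤ ∑ ω : Fin (n + 1) → B, (2 ^ R + 1) * (∑ j ∈ Finset.Ioc m k, ((p : ℝ) ^ j) ^ s *
        ((∏ i, mm (ω i)) * (∏ i ∈ Jt n (2 * j), u (ω i)) ^ s) +
        ((p : ℝ) ^ k) ^ s * ((∏ i, mm (ω i)) * (∏ i, u (ω i)) ^ s)) :=
        Finset.sum_le_sum fun ω _ => hone ω
    _ = _ := by
        rw [← Finset.mul_sum, Finset.sum_add_distrib, Finset.sum_comm]
        congr 2
        · apply Finset.sum_congr rfl
          intro j _
          rw [← Finset.mul_sum, hJ, card_Jt]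
        · rw [← Finset.mul_sum, hJ Finset.univ, Finset.card_univ, Fintype.card_fin]

end Pool.Agent.MP0a1886
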