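import Pool.Agent.MP0a1886.Min.L1b
import Pool.Agent.MP0a1886.Min.LevMixT
import Pool.Agent.MP0a1886.Min.Corr

/-! The level of distribution from the sums of the Fourier coefficients: asymptotic form
(MP_0a1886_pr). -/

set_option autoImplicit false
set_option linter.unusedSectionVars false
open Finset Polynomial

namespace Pool.Agent.MP0a1886

variable {p : ℕ} [hp : Fact p.Prime]

lemma term_le1 {s y1 lam : ℝ} (hl0 : 0 ≤ lam) (hl : lam ≤ Real.exp (-(s * y1 * Real.log p)))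
    (j t : ℕ) : ((p : ℝ) ^ j) ^ s * lam ^ t ≤ Real.exp (s * Real.log p * (j - y1 * t)) := by
  have hp0 : (0 : ℝ) < p := by exact_mod_cast hp.out.pos
  have h1 : ((p : ℝ) ^ j) ^ s = Real.exp (s * Real.log p * j) := by
    rw [Real.rpow_def_of_pos (by positivity), Real.log_pow]
    congr 1
    ring
  have h2 : lam ^ t ≤ Real.exp (-(s * y1 * Real.log p) * t) := by
    refine (pow_le_pow_left₀ hl0 hl t).trans (le_of_eq ?_)
    rw [← Real.exp_nat_mul]
    congr 1
    ring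
  rw [h1]
  refine (mul_le_mul_of_nonneg_left h2 (Real.exp_nonneg _)).trans (le_of_eq ?_)
  rw [← Real.exp_add]
  congr 1
  ring

/-- level of distribution `K = sum of m_b κ_b` if `sum over c of |ν_b^(c)|` is at most
`p ^ (1 - κ_b)` and `K > 1/2` -/
theorem level_sums {B : Type} [Fintype B] (μ : ZMod p → ℝ) (h1 : ∑ a, μ a = 1)
    (m : B → ℝ) (ν : B → ZMod p → ℝ) (hm0 : ∀ b, 0 ≤ m b) (hν0 : ∀ b a, 0 ≤ ν b a)
    (hν1 : ∀ b, ∑ a, ν b a = 1) (hmix : ∀ a, μ a = ∑ b, m b * ν b a) (κ : B → ℝ)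
    (hκ : ∀ b, ∑ c, ‖muhat (ν b) c‖ ≤ (p : ℝ) ^ (1 - κ b)) (hK : 1 / 2 < ∑ b, m b * κ b) :
    Level μ (∑ b, m b * κ b) := by
  intro y hy ε hε
  have hp0 : (0 : ℝ) < p := by exact_mod_cast hp.out.pos
  have hp1 : (1 : ℝ) < p := by exact_mod_cast hp.out.one_lt
  have hlog : 0 < Real.log p := Real.log_pos hp1
  rcases le_or_gt y 0 with hy0 | hy0
  · refine ⟨0, 1, one_pos, ?_⟩
    intro n m' k hk1 _ hk
    have h2 : (1 : ℝ) ≤ k := by exact_mod_cast hk1
    have h3 : y * n ≤ 0 := mul_nonpos_of_nonpos_of_nonneg hy0 (Nat.cast_nonneg n)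
    linarith
  have hmb : ∀ b, ∑ a, m b * ν b a = m b := fun b => by rw [← Finset.mul_sum, hν1 b, mul_one]
  have hm1 : ∑ b, m b = 1 := by
    rw [← h1, Finset.sum_congr rfl (fun a _ => hmix a), Finset.sum_comm]
    exact Finset.sum_congr rfl fun b _ => (hmb b).symm
  obtain ⟨K, hKK⟩ : ∃ K, K = ∑ b, m b * κ b := ⟨_, rfl⟩
  rw [← hKK] at hy hK
  obtain ⟨y1, hy1⟩ : ∃ y1, y1 = (max y (1 / 2) + K) / 2 := ⟨_, rfl⟩
  have hmax : max y (1 / 2) < K := max_lt hy hK
  have hy1a : y < y1 := by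
    have := le_max_left y (1 / 2)
    rw [hy1]; linarith
  have hy1b : 1 / 2 < y1 := by
    have := le_max_right y (1 / 2)
    rw [hy1]; linarith
  have hy1c : y1 < K := by rw [hy1]; linarith
  obtain ⟨u, hu⟩ : ∃ u : B → ℝ, u = fun b => (∑ c, ‖muhat (ν b) c‖) / (p : ℝ) := ⟨_, rfl⟩
  have hu' : ∀ b, (∑ c, ‖muhat (ν b) c‖) / (p : ℝ) = u b := fun b => by rw [hu]
  have hu0 : ∀ b, 0 ≤ u b := by
    intro b
    rw [hu]
    exact div_nonneg (Finset.sum_nonneg fun c _ => norm_nonneg _) hp0.le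
  have huκ : ∀ b, u b ≤ (p : ℝ) ^ (-κ b) := by
    intro b
    rw [hu]
    simp only
    rw [div_le_iff₀ hp0]
    refine (hκ b).trans (le_of_eq ?_)
    nth_rewrite 3 [← Real.rpow_one (p : ℝ)]
    rw [← Real.rpow_add hp0]
    congr 1
    ring
  obtain ⟨s, hs0, hs1, hs⟩ := exists_s6 (p := p) m κ u hm0 hm1 hu0 huκ (y := y1)
    (by rw [← hKK]; exact hy1c)
  obtain ⟨lam, hlam⟩ : ∃ lam, lam = ∑ b, m b * u b ^ s := ⟨_, rfl⟩
  rw [← hlam] at hs
  have hl0 : 0 ≤ lam := by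
    rw [hlam]
    exact Finset.sum_nonneg fun b _ => mul_nonneg (hm0 b) (Real.rpow_nonneg (hu0 b) s)
  have hl : lam ≤ Real.exp (-(s * y1 * Real.log p)) := by
    have h2 : (p : ℝ) ^ (s * y1) = Real.exp (s * y1 * Real.log p) := by
      rw [Real.rpow_def_of_pos hp0]
      congr 1
      ring
    rw [h2] at hs
    rw [Real.exp_neg, ← one_div, le_div_iff₀ (Real.exp_pos _)]
    linarith
  obtain ⟨c1, hc1⟩ : ∃ c1, c1 = s * Real.log p * min ((2 * y1 - 1) * ε) (y1 - y) := ⟨_, rfl⟩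
  have hminpos : 0 < min ((2 * y1 - 1) * ε) (y1 - y) :=
    lt_min (mul_pos (by linarith) hε) (by linarith)
  have hsl : 0 < s * Real.log p := mul_pos hs0 hlog
  have hc10 : 0 < c1 := by rw [hc1]; exact mul_pos hsl hminpos
  obtain ⟨R, hR⟩ := exists_nat_gt (1 / ε)
  refine ⟨(2 ^ R + 1) * (2 * y / c1 + 1), c1 / 2, by linarith, ?_⟩
  intro n m' k hk1 hm' hk H hH
  have hn0 : (0 : ℝ) ≤ n := Nat.cast_nonneg n
  have hRn : n < (m' + 1) * R := by
    have h2 : (n : ℝ) < ((m' : ℝ) + 1) * R := by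
      have h3 : 1 < ε * R := by
        rw [div_lt_iff₀ hε] at hR
        linarith
      have hR0 : (0 : ℝ) < R := by
        have : 0 < 1 / ε := by positivity
        linarith
      calc (n : ℝ) ≤ n * (ε * R) := le_mul_of_one_le_right hn0 h3.le
        _ = (ε * n) * R := by ring
        _ ≤ m' * R := mul_le_mul_of_nonneg_right hm' hR0.le
        _ < ((m' : ℝ) + 1) * R := by nlinarith
    exact_mod_cast h2
  have hmain := level_core1 μ (fun b a => m b * ν b a) hmix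
    (fun b a => mul_nonneg (hm0 b) (hν0 b a)) h1 (fun b c => ‖muhat (ν b) c‖)
    (fun b c => norm_nonneg _) (fun b c => by
      have h2 := norm_muhat_le' (ν b) (hν0 b) c
      rw [hν1 b] at h2
      exact h2) (fun b c => by
      rw [hmb b]
      have h2 : muhat (fun a => m b * ν b a) c = (m b : ℂ) * muhat (ν b) c := by
        unfold muhat
        rw [Finset.mul_sum]
        apply Finset.sum_congr rfl
        intro a _
        push_cast
        ring
      rw [h2, norm_mul, Complex.norm_real, Real.norm_eq_abs, abs_of_nonneg (hm0 b)])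
    s hs0.le hs1 n k m' R hRn H hH
  simp only [hmb, hu', ← hlam] at hmain
  have hexp : ∀ j t : ℕ, (j : ℝ) - y1 * t ≤ -(min ((2 * y1 - 1) * ε) (y1 - y) * n) →
      ((p : ℝ) ^ j) ^ s * lam ^ t ≤ Real.exp (-(c1 * n)) := by
    intro j t hjt
    refine (term_le1 hl0 hl j t).trans ?_
    rw [Real.exp_le_exp, hc1]
    have h2 := mul_le_mul_of_nonneg_left hjt hsl.le
    linarith
  have hmin1 := min_le_left ((2 * y1 - 1) * ε) (y1 - y)
  have hmin2 := min_le_right ((2 * y1 - 1) * ε) (y1 - y)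
  have hlast : ((p : ℝ) ^ k) ^ s * lam ^ (n + 1) ≤ Real.exp (-(c1 * n)) := by
    apply hexp
    push_cast
    have h2 := mul_le_mul_of_nonneg_right hmin2 hn0
    nlinarith
  have hterm : ∀ j ∈ Finset.Ioc m' k, ((p : ℝ) ^ j) ^ s * lam ^ (min (2 * j) (n + 1)) ≤
      Real.exp (-(c1 * n)) := by
    intro j hj
    obtain ⟨hj1, hj2⟩ := Finset.mem_Ioc.1 hj
    have hj1' : (m' : ℝ) ≤ j := by exact_mod_cast hj1.le
    have hj2' : (j : ℝ) ≤ k := by exact_mod_cast hj2
    apply hexp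
    rcases le_total (2 * j) (n + 1) with h2 | h2
    · rw [min_eq_left h2]
      push_cast
      have h3 := mul_le_mul_of_nonneg_right hmin1 hn0
      have h4 : (2 * y1 - 1) * (ε * n) ≤ (2 * y1 - 1) * j :=
        mul_le_mul_of_nonneg_left (hm'.trans hj1') (by linarith)
      nlinarith
    · rw [min_eq_right h2]
      push_cast
      have h3 := mul_le_mul_of_nonneg_right hmin2 hn0
      nlinarith
  have hcard : (∑ j ∈ Finset.Ioc m' k, ((p : ℝ) ^ j) ^ s * lam ^ (min (2 * j) (n + 1))) ≤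
      k * Real.exp (-(c1 * n)) := by
    refine (Finset.sum_le_card_nsmul _ _ _ hterm).trans ?_
    rw [nsmul_eq_mul, Nat.card_Ioc]
    apply mul_le_mul_of_nonneg_right _ (Real.exp_nonneg _)
    exact_mod_cast Nat.sub_le k m'
  have h2R : (0 : ℝ) < 2 ^ R + 1 := by positivity
  have hk' : (k : ℝ) + 1 ≤ (2 * y / c1 + 1) * Real.exp (c1 / 2 * n) := by
    have h2 := Real.add_one_le_exp (c1 / 2 * n)
    have h3 : (1 : ℝ) ≤ Real.exp (c1 / 2 * n) := Real.one_le_exp (by positivity)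
    have h4 : y * n = (2 * y / c1) * (c1 / 2 * n) := by field_simp
    have h5 : 0 ≤ 2 * y / c1 := by positivity
    have h6 := mul_le_mul_of_nonneg_left h2 h5
    nlinarith
  have hee : Real.exp (c1 / 2 * n) * Real.exp (-(c1 * n)) = Real.exp (-(c1 / 2 * n)) := by
    rw [← Real.exp_add]
    congr 1
    ring
  calc _ ≤ (2 ^ R + 1) * (∑ j ∈ Finset.Ioc m' k, ((p : ℝ) ^ j) ^ s *
        lam ^ (min (2 * j) (n + 1)) + ((p : ℝ) ^ k) ^ s * lam ^ (n + 1)) := hmain
    _ ≤ (2 ^ R + 1) * (k * Real.exp (-(c1 * n)) + Real.exp (-(c1 * n))) :=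
        mul_le_mul_of_nonneg_left (add_le_add hcard hlast) h2R.le
    _ = (2 ^ R + 1) * (((k : ℝ) + 1) * Real.exp (-(c1 * n))) := by ring
    _ ≤ (2 ^ R + 1) * (((2 * y / c1 + 1) * Real.exp (c1 / 2 * n)) * Real.exp (-(c1 * n))) := by
        apply mul_le_mul_of_nonneg_left _ h2R.le
        exact mul_le_mul_of_nonneg_right hk' (Real.exp_nonneg _)
    _ = (2 ^ R + 1) * (2 * y / c1 + 1) * (Real.exp (c1 / 2 * n) * Real.exp (-(c1 * n))) := by ring
    _ = _ := by rw [hee]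

end Pool.Agent.MP0a1886
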