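import Pool.Agent.MP0a1886.Min.Good
import Pool.Agent.MP0a1886.Min.Cnt
import Pool.Agent.MP0a1886.Tail

/-! The level of distribution for rough moduli (MP_0a1886_pr, laws with full support). -/

set_option autoImplicit false
set_option linter.unusedSectionVars false
open Finset Polynomial

namespace Pool.Agent.MP0a1886

variable {p : ℕ} [hp : Fact p.Prime]

/-- the measure of an event for coordinate-dependent measures -/
noncomputable def Prg (n : ℕ) (g : Fin (n + 1) → ZMod p → ℝ) (E : (ZMod p)[X] → Prop) : ℝ := by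
  classical
  exact ∑ ε : Fin (n + 1) → ZMod p, if E (rpoly n ε) then ∏ i, g i (ε i) else 0

lemma Pr_mix {B : Type} [Fintype B] (μ : ZMod p → ℝ) (g : B → ZMod p → ℝ)
    (hg : ∀ a, μ a = ∑ b, g b a) (n : ℕ) (E : (ZMod p)[X] → Prop) :
    Pr μ n E = ∑ ω : Fin (n + 1) → B, Prg n (fun i => g (ω i)) E := by
  classical
  unfold Pr Prg
  rw [Finset.sum_comm]
  apply Finset.sum_congr rfl
  intro ε _
  split_ifs
  · unfold wt
    rw [sum_prod_pi (fun (i : Fin (n + 1)) b => g b (ε i))]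
    apply Finset.prod_congr rfl
    intro i _
    rw [hg]
  · simp

lemma Prg_nonneg {n : ℕ} (g : Fin (n + 1) → ZMod p → ℝ) (h0 : ∀ i a, 0 ≤ g i a)
    (E : (ZMod p)[X] → Prop) : 0 ≤ Prg n g E := by
  classical
  unfold Prg
  apply Finset.sum_nonneg
  intro ε _
  split_ifs
  · exact Finset.prod_nonneg fun _ _ => h0 _ _
  · exact le_rfl

lemma sum_wt_char' (n : ℕ) (g : Fin (n + 1) → ZMod p → ℝ) (ℓ : (ZMod p)[X] →ₗ[ZMod p] ZMod p) :
    ∑ ε : Fin (n + 1) → ZMod p, ((∏ i, g i (ε i) : ℝ) : ℂ) * ZMod.stdAddChar (ℓ (rpoly n ε))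
      = ∏ i : Fin (n + 1), muhat (g i) (ℓ (X ^ (i : ℕ))) := by
  unfold muhat
  rw [← sum_prod_pi (fun (i : Fin (n + 1)) (a : ZMod p) =>
    (g i a : ℂ) * (ZMod.stdAddChar (a * ℓ (X ^ (i : ℕ))) : ℂ))]
  apply Finset.sum_congr rfl
  intro ε _
  unfold rpoly lowPoly
  rw [map_sum, addChar_sum]
  push_cast
  rw [← Finset.prod_mul_distrib]
  apply Finset.prod_congr rfl
  intro i _
  congr 2
  rw [← Polynomial.smul_eq_C_mul, map_smul, smul_eq_mul]

lemma Prg_dvd (n : ℕ) (g : Fin (n + 1) → ZMod p → ℝ) (h : (ZMod p)[X]) (hh : h.Monic) (k : ℕ)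
    (hk : h.natDegree = k) :
    (p : ℂ) ^ k * (Prg n g (fun f => h ∣ f) : ℂ)
      = ∑ v : Fin k → ZMod p, ∏ i : Fin (n + 1), muhat (g i) (fn h k v (X ^ (i : ℕ))) := by
  classical
  simp_rw [← sum_wt_char']
  rw [Finset.sum_comm]
  simp_rw [← Finset.mul_sum, sum_fn h hh k hk]
  unfold Prg
  push_cast
  rw [Finset.mul_sum]
  apply Finset.sum_congr rfl
  intro ε _
  split_ifs <;> simp [mul_comm]

lemma norm_muhat_le' (μ : ZMod p → ℝ) (hμ : ∀ a, 0 ≤ μ a) (c : ZMod p) :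
    ‖muhat μ c‖ ≤ ∑ a, μ a := by
  unfold muhat
  refine (norm_sum_le _ _).trans (Finset.sum_le_sum fun a _ => ?_)
  rw [norm_mul, Complex.norm_real, Real.norm_eq_abs, abs_of_nonneg (hμ a)]
  have h1 : ‖(ZMod.stdAddChar (a * c) : ℂ)‖ = 1 := by
    simp
  rw [h1, mul_one]

lemma fn_zero (h : (ZMod p)[X]) (k : ℕ) (f : (ZMod p)[X]) :
    fn h k (0 : Fin k → ZMod p) f = 0 := by
  rw [fn_apply]; simp

/-- the weight of a frequency -/
noncomputable def fw (n : ℕ) (w : Fin (n + 1) → ℝ) (h : (ZMod p)[X]) (k : ℕ)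
    (v : Fin k → ZMod p) : ℝ :=
  ∏ i : Fin (n + 1), if fn h k v (X ^ (i : ℕ)) = 0 then 1 else w i

/-- the error in the divisibility probability -/
lemma Prg_err (n : ℕ) (g : Fin (n + 1) → ZMod p → ℝ) (h0 : ∀ i a, 0 ≤ g i a)
    (w : Fin (n + 1) → ℝ)
    (hw : ∀ i c, c ≠ 0 → ‖muhat (g i) c‖ ≤ (∑ a, g i a) * w i)
    (h : (ZMod p)[X]) (hh : h.Monic) (k : ℕ) (hk : h.natDegree = k) :
    |Prg n g (fun f => h ∣ f) - (∏ i, ∑ a, g i a) * ((p : ℝ) ^ k)⁻¹| ≤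
      (∏ i, ∑ a, g i a) * (((p : ℝ) ^ k)⁻¹ *
        ∑ v ∈ (Finset.univ : Finset (Fin k → ZMod p)).erase 0, fw n w h k v) := by
  classical
  have hp0 : (p : ℂ) ≠ 0 := by exact_mod_cast hp.out.ne_zero
  have hpr : (0 : ℝ) < p := by exact_mod_cast hp.out.pos
  have h2 := Prg_dvd n g h hh k hk
  rw [← Finset.add_sum_erase _ _ (Finset.mem_univ (0 : Fin k → ZMod p))] at h2
  have h3 : ∏ i : Fin (n + 1), muhat (g i) (fn h k 0 (X ^ (i : ℕ))) =
      ((∏ i, ∑ a, g i a : ℝ) : ℂ) := by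
    push_cast
    apply Finset.prod_congr rfl
    intro i _
    rw [fn_zero, muhat_zero']
    push_cast
    rfl
  rw [h3] at h2
  have h4 : ((Prg n g (fun f => h ∣ f) - (∏ i, ∑ a, g i a) * ((p : ℝ) ^ k)⁻¹ : ℝ) : ℂ)
      = ((p : ℂ) ^ k)⁻¹ * ∑ v ∈ (Finset.univ : Finset (Fin k → ZMod p)).erase 0,
      ∏ i : Fin (n + 1), muhat (g i) (fn h k v (X ^ (i : ℕ))) := by
    have h5 : ∑ v ∈ (Finset.univ : Finset (Fin k → ZMod p)).erase 0,
      ∏ i : Fin (n + 1), muhat (g i) (fn h k v (X ^ (i : ℕ)))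
        = (p : ℂ) ^ k * (Prg n g (fun f => h ∣ f) : ℂ) - ((∏ i, ∑ a, g i a : ℝ) : ℂ) := by
      rw [h2]; ring
    rw [h5]
    push_cast
    field_simp
  have h6 : |Prg n g (fun f => h ∣ f) - (∏ i, ∑ a, g i a) * ((p : ℝ) ^ k)⁻¹| =
      ‖((Prg n g (fun f => h ∣ f) - (∏ i, ∑ a, g i a) * ((p : ℝ) ^ k)⁻¹ : ℝ) : ℂ)‖ := by
    rw [Complex.norm_real, Real.norm_eq_abs]
  rw [h6, h4, norm_mul]
  have h7 : ‖((p : ℂ) ^ k)⁻¹‖ = ((p : ℝ) ^ k)⁻¹ := by
    rw [norm_inv, norm_pow, Complex.norm_natCast]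
  rw [h7, ← mul_assoc, mul_comm (∏ i, ∑ a, g i a), mul_assoc]
  apply mul_le_mul_of_nonneg_left _ (by positivity)
  rw [Finset.mul_sum]
  refine (norm_sum_le _ _).trans (Finset.sum_le_sum fun v _ => ?_)
  rw [norm_prod]
  unfold fw
  rw [← Finset.prod_mul_distrib]
  apply Finset.prod_le_prod (fun _ _ => norm_nonneg _)
  intro i _
  split_ifs with hc
  · rw [hc, mul_one]
    exact norm_muhat_le' (g i) (h0 i) 0
  · exact hw i _ hc

end Pool.Agent.MP0a1886
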