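import Pool.Agent.MP0a1886.Min.Level

/-! The level of distribution for laws with full support and for general laws (MP_0a1886_pr). -/

set_option autoImplicit false
set_option linter.unusedSectionVars false
open Finset Polynomial

namespace Pool.Agent.MP0a1886

variable {p : ℕ} [hp : Fact p.Prime]

/-- the amplitudes of the two components -/
def r2 : Bool → ℝ
  | true => 0
  | false => 1

lemma exists_s2 {y q : ℝ} (hy0 : 0 < y) (hyq : y < q) (hq1 : q ≤ 1) : ∃ s : ℝ, 0 < s ∧ s ≤ 1 ∧
    (p : ℝ) ^ (s * y) * (q * (1 / (p : ℝ)) ^ s + (1 - q)) < 1 := by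
  have hp2 : (2 : ℝ) ≤ p := by exact_mod_cast hp.out.two_le
  have hp0 : (0 : ℝ) < p := by linarith
  have hlog : (1 / 2 : ℝ) < Real.log p := by
    have h1 : Real.log 2 ≤ Real.log p := Real.log_le_log (by norm_num) hp2
    have h2 := Real.log_two_gt_d9
    linarith
  obtain ⟨u, hu⟩ : ∃ u, u = (q - y) / 2 := ⟨_, rfl⟩
  have hu0 : 0 < u := by rw [hu]; linarith
  have hu1 : u ≤ 1 / 2 := by rw [hu]; linarith
  have hq0 : 0 < q := by linarith
  refine ⟨u / Real.log p, by positivity, ?_, ?_⟩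
  · rw [div_le_one (by linarith)]
    linarith
  · have hps : (p : ℝ) ^ (u / Real.log p * y) = Real.exp (u * y) := by
      rw [Real.rpow_def_of_pos hp0]
      congr 1
      field_simp
    have hps2 : (1 / (p : ℝ)) ^ (u / Real.log p) = Real.exp (-u) := by
      rw [Real.rpow_def_of_pos (by positivity), one_div, Real.log_inv]
      congr 1
      field_simp
    rw [hps, hps2]
    have h1 : Real.exp (-u) ≤ 1 - u / (1 + u) := by
      have h2 := Real.add_one_le_exp u
      have h3 : 1 - u / (1 + u) = 1 / (1 + u) := by field_simp; ring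
      rw [Real.exp_neg, h3, ← one_div]
      exact one_div_le_one_div_of_le (by linarith) (by linarith)
    have h4 : q * Real.exp (-u) + (1 - q) ≤ Real.exp (-(q * (u / (1 + u)))) := by
      have h5 := Real.add_one_le_exp (-(q * (u / (1 + u))))
      have h6 := mul_le_mul_of_nonneg_left h1 hq0.le
      linarith
    have h0 : 0 < Real.exp (u * y) := Real.exp_pos _
    calc Real.exp (u * y) * (q * Real.exp (-u) + (1 - q))
        ≤ Real.exp (u * y) * Real.exp (-(q * (u / (1 + u)))) := mul_le_mul_of_nonneg_left h4 h0.le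
      _ = Real.exp (u * (y - q / (1 + u))) := by
          rw [← Real.exp_add]
          congr 1
          field_simp
          ring
      _ < 1 := by
          rw [Real.exp_lt_one_iff]
          apply mul_neg_of_pos_of_neg hu0
          rw [sub_neg, lt_div_iff₀ (by linarith)]
          have hy1 : y < 1 := by linarith
          have h7 : y * u ≤ u := by nlinarith
          have h8 : y + u < q := by rw [hu]; linarith
          nlinarith

/-- the level of distribution of a law with `μ(a) ≥ q / p` is at least `q` -/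
theorem level_min (μ : ZMod p → ℝ) (hμ : ∑ a, μ a = 1) (q : ℝ) (hq0 : 0 < q)
    (hmin : ∀ a, q / p ≤ μ a) (y : ℝ) (hy : y < q) (ε : ℝ) (hε : 0 < ε) :
    ∃ C c : ℝ, 0 < c ∧ ∀ n m k : ℕ, 1 ≤ k → ε * n ≤ m → (k : ℝ) ≤ y * n →
      ∀ H : Finset (ZMod p)[X],
      (∀ h ∈ H, h.Monic ∧ h.natDegree = k ∧ Fac (fun d => m < d) h) →
      ∑ h ∈ H, |Pr μ n (fun f => h ∣ f ∧ f ≠ 0) - ((p : ℝ) ^ k)⁻¹| ≤ C * Real.exp (-(c * n)) := by
  have hp0 : (0 : ℝ) < p := by exact_mod_cast hp.out.pos
  have hq1 : q ≤ 1 := by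
    rw [← hμ, ← sum_const_q (p := p) q]
    exact Finset.sum_le_sum fun a _ => hmin a
  obtain ⟨z, hz⟩ : ∃ z, z = max y (q / 2) := ⟨_, rfl⟩
  have hyz : y ≤ z := by rw [hz]; exact le_max_left _ _
  have hz0 : 0 < z := by rw [hz]; exact lt_of_lt_of_le (by linarith) (le_max_right _ _)
  have hzq : z < q := by rw [hz, max_lt_iff]; constructor <;> linarith
  obtain ⟨r, hr⟩ : ∃ r, r = (z + q) / 2 := ⟨_, rfl⟩
  have hzr : z < r := by rw [hr]; linarith
  have hrq : r < q := by rw [hr]; linarith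
  have hr1 : r < 1 := by linarith
  have hminr : ∀ a, r / p ≤ μ a := fun a => le_trans (by gcongr) (hmin a)
  obtain ⟨s, hs0, hs1, hs⟩ := exists_s2 (p := p) hz0 hzr hr1.le
  obtain ⟨c0, hc0⟩ : ∃ c0, c0 = max ((1 - q) / (1 - r)) (1 / 2) := ⟨_, rfl⟩
  have hc0p : 0 < c0 := by rw [hc0]; exact lt_of_lt_of_le (by norm_num) (le_max_right _ _)
  have hc0l : c0 < 1 := by
    rw [hc0, max_lt_iff]
    constructor
    · rw [div_lt_one (by linarith)]
      linarith
    · norm_num
  have hm : ∑ a, cmp2 μ r false a = 1 - r := by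
    change ∑ a, (μ a - r / p) = 1 - r
    rw [Finset.sum_sub_distrib, hμ, sum_const_q]
  have hmt : ∑ a, cmp2 μ r true a = r := sum_const_q r
  obtain ⟨C, c, hc, hmain⟩ := level_mix μ (cmp2 μ r) (by
      intro a
      rw [Fintype.sum_bool]
      change μ a = r / p + (μ a - r / p)
      ring) (by
      rintro (_ | _) a
      · change 0 ≤ μ a - r / p
        linarith [hminr a]
      · change 0 ≤ r / p
        have : 0 < r := by linarith
        positivity) hμ r2 (by
      rintro (_ | _)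
      · exact zero_le_one
      · exact le_rfl) (by
      rintro (_ | _)
      · exact le_rfl
      · exact zero_le_one) c0 hc0p hc0l (by
      rintro (_ | _) c hc
      · rw [hm]
        change _ ≤ (1 - r) * (c0 * 1)
        have h1 : muhat (cmp2 μ r false) c = muhat (cmp2 μ q false) c +
            muhat (fun _ : ZMod p => (q - r) / p) c := by
          unfold muhat
          rw [← Finset.sum_add_distrib]
          apply Finset.sum_congr rfl
          intro a _
          change ((μ a - r / p : ℝ) : ℂ) * _ = ((μ a - q / p : ℝ) : ℂ) * _ + _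
          push_cast
          ring
        rw [h1, muhat_const _ c hc, add_zero]
        have h2 : ‖muhat (cmp2 μ q false) c‖ ≤ ∑ a, cmp2 μ q false a := by
          apply norm_muhat_le
          intro a
          change 0 ≤ μ a - q / p
          linarith [hmin a]
        have h3 : ∑ a, cmp2 μ q false a = 1 - q := by
          change ∑ a, (μ a - q / p) = 1 - q
          rw [Finset.sum_sub_distrib, hμ, sum_const_q]
        rw [h3] at h2
        have h4 : (1 - q) / (1 - r) ≤ c0 := by rw [hc0]; exact le_max_left _ _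
        rw [div_le_iff₀ (by linarith)] at h4
        linarith
      · have h1 : muhat (cmp2 μ r true) c = 0 := muhat_const _ c hc
        rw [h1, norm_zero, hmt]
        change 0 ≤ r * (c0 * 0)
        linarith) s hs0.le hs1 z (by linarith) (by
      rw [Fintype.sum_bool, hm, hmt]
      have h1 : phi p (r2 true) (0 : ZMod p) = 1 / p := by
        unfold phi
        change (1 - (0 : ℝ)) / p + (if (0 : ZMod p) = 0 then (0 : ℝ) else 0) = 1 / p
        rw [if_pos rfl]
        ring
      have h2 : phi p (r2 false) (0 : ZMod p) = 1 := by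
        unfold phi
        change (1 - (1 : ℝ)) / p + (if (0 : ZMod p) = 0 then (1 : ℝ) else 0) = 1
        rw [if_pos rfl]
        ring
      rw [h1, h2, Real.one_rpow, mul_one]
      exact hs) ε hε
  refine ⟨C, c, hc, ?_⟩
  intro n m k hk1 hm hk H hH
  exact hmain n m k hk1 hm (hk.trans (mul_le_mul_of_nonneg_right hyz (Nat.cast_nonneg n))) H hH

/-- the level of distribution of a general law -/
theorem level_law (μ : ZMod p → ℝ) (h0 : ∀ a, 0 ≤ μ a) (hμ : ∑ a, μ a = 1) (ρ : ℝ) (hρ0 : 0 < ρ)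
    (hρ1 : ρ < 1) (hρ : ∀ c : ZMod p, c ≠ 0 → ‖muhat μ c‖ ≤ ρ) (y : ℝ) (hy1 : y < 1)
    (hy : (p : ℝ) ^ y * (ρ + (1 - ρ) / p) < 1) (ε : ℝ) (hε : 0 < ε) :
    ∃ C c : ℝ, 0 < c ∧ ∀ n m k : ℕ, 1 ≤ k → ε * n ≤ m → (k : ℝ) ≤ y * n →
      ∀ H : Finset (ZMod p)[X],
      (∀ h ∈ H, h.Monic ∧ h.natDegree = k ∧ Fac (fun d => m < d) h) →
      ∑ h ∈ H, |Pr μ n (fun f => h ∣ f ∧ f ≠ 0) - ((p : ℝ) ^ k)⁻¹| ≤ C * Real.exp (-(c * n)) := by
  have hp0 : (0 : ℝ) < p := by exact_mod_cast hp.out.pos
  obtain ⟨A, hA⟩ : ∃ A, A = (p : ℝ) ^ y := ⟨_, rfl⟩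
  have hA0 : 0 < A := by rw [hA]; positivity
  obtain ⟨F, hF⟩ : ∃ F, F = A * (ρ + (1 - ρ) / p) := ⟨_, rfl⟩
  rw [← hA, ← hF] at hy
  obtain ⟨δ, hδ⟩ : ∃ δ, δ = min ((1 - ρ) / 2) ((1 - F) / (2 * A)) := ⟨_, rfl⟩
  have hδ0 : 0 < δ := by
    rw [hδ]
    apply lt_min
    · linarith
    · apply div_pos <;> linarith
  have hδ1 : ρ + δ ≤ 1 := by
    have : δ ≤ (1 - ρ) / 2 := by rw [hδ]; exact min_le_left _ _
    linarith
  have hδ2 : A * δ ≤ (1 - F) / 2 := by
    have h1 : δ ≤ (1 - F) / (2 * A) := by rw [hδ]; exact min_le_right _ _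
    calc A * δ ≤ A * ((1 - F) / (2 * A)) := mul_le_mul_of_nonneg_left h1 hA0.le
      _ = (1 - F) / 2 := by field_simp
  have hr0 : 0 < ρ + δ := by linarith
  apply level_mix μ (fun _ : Unit => μ) (by intro a; simp) (fun _ a => h0 a) hμ
    (fun _ => ρ + δ) (fun _ => hr0.le) (fun _ => hδ1) (ρ / (ρ + δ)) (by positivity)
    (by rw [div_lt_one hr0]; linarith) (by
      intro _ c hc
      rw [hμ, one_mul, div_mul_cancel₀ _ hr0.ne']
      exact hρ c hc) 1 zero_le_one le_rfl y hy1 _ ε hε
  rw [one_mul, ← hA]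
  simp only [Finset.univ_unique, Finset.sum_singleton, hμ, one_mul, Real.rpow_one]
  unfold phi
  rw [if_pos rfl]
  have h1 : A * ((1 - (ρ + δ)) / p + (ρ + δ)) = F + A * δ * (1 - 1 / p) := by
    rw [hF]
    field_simp
    ring
  have hp1 : (1 : ℝ) ≤ p := by exact_mod_cast hp.out.one_lt.le
  have h2 : A * δ * (1 - 1 / p) ≤ A * δ := by
    have h3 : 0 ≤ A * δ := by positivity
    have h4 : 1 - 1 / (p : ℝ) ≤ 1 := by
      have : 0 < 1 / (p : ℝ) := by positivity
      linarith
    nlinarith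
  rw [h1]
  linarith

end Pool.Agent.MP0a1886
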