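import Pool.Agent.MP0a1886.Min.Core

/-! The level of distribution for rough moduli (MP_0a1886_pr). -/

set_option autoImplicit false
set_option linter.unusedSectionVars false
open Finset Polynomial

namespace Pool.Agent.MP0a1886

variable {p : ℕ} [hp : Fact p.Prime]

/-- the number of vectors of weight at most `η n` is at most exponential with a small rate -/
lemma low_exp (τ : ℝ) (hτ : 0 < τ) : ∃ η : ℝ, 0 < η ∧ ∀ n w0 : ℕ, (w0 : ℝ) ≤ η * n →
    ((Finset.univ.filter (fun α : Fin (n + 1) → ZMod p => hw α < w0)).card : ℝ) ≤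
      Real.exp (τ / 4) * Real.exp (τ / 2 * n) := by
  have hp0 : (0 : ℝ) < p := by exact_mod_cast hp.out.pos
  obtain ⟨l, hl⟩ : ∃ l, l = min 1 (τ / (4 * p)) := ⟨_, rfl⟩
  have hl0 : 0 < l := by
    rw [hl]
    exact lt_min one_pos (by positivity)
  have hl1 : l ≤ 1 := by rw [hl]; exact min_le_left _ _
  have hl2 : l * p ≤ τ / 4 := by
    calc l * p ≤ (τ / (4 * p)) * p := by
          rw [hl]
          exact mul_le_mul_of_nonneg_right (min_le_right _ _) hp0.le
      _ = τ / 4 := by field_simp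
  obtain ⟨K, hK⟩ : ∃ K, K = Real.log (1 / l) := ⟨_, rfl⟩
  have hK0 : 0 ≤ K := by
    rw [hK]
    apply Real.log_nonneg
    rw [le_div_iff₀ hl0, one_mul]
    exact hl1
  refine ⟨τ / (4 * (K + 1)), by positivity, ?_⟩
  intro n w0 hw0
  have h1 := card_low_weight (p := p) (n + 1) w0 l hl0 hl1
  obtain ⟨A, hA⟩ : ∃ A : ℝ, A = ((Finset.univ.filter
    (fun α : Fin (n + 1) → ZMod p => hw α < w0)).card : ℝ) := ⟨_, rfl⟩
  rw [← hA] at h1 ⊢
  have h2 : (1 + ((p : ℝ) - 1) * l) ^ (n + 1) ≤ Real.exp (τ / 4 * (n + 1)) := by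
    have h3 : 1 + ((p : ℝ) - 1) * l ≤ Real.exp (τ / 4) := by
      have h4 := Real.add_one_le_exp (τ / 4)
      nlinarith
    have hp1 : (1 : ℝ) ≤ p := by exact_mod_cast hp.out.one_lt.le
    have h5 : 0 ≤ 1 + ((p : ℝ) - 1) * l := by nlinarith
    calc _ ≤ (Real.exp (τ / 4)) ^ (n + 1) := pow_le_pow_left₀ h5 h3 _
      _ = Real.exp (τ / 4 * (n + 1)) := by
          rw [← Real.exp_nat_mul]
          congr 1
          push_cast
          ring
  have h6 : (l ^ w0)⁻¹ ≤ Real.exp (τ / 4 * n) := by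
    have h7 : (l ^ w0)⁻¹ = Real.exp (K * w0) := by
      rw [hK, mul_comm, Real.exp_nat_mul, Real.exp_log (by positivity), one_div, inv_pow]
    rw [h7]
    apply Real.exp_le_exp.2
    calc K * w0 ≤ K * (τ / (4 * (K + 1)) * n) := mul_le_mul_of_nonneg_left hw0 hK0
      _ = (K / (K + 1)) * (τ / 4 * n) := by field_simp
      _ ≤ 1 * (τ / 4 * n) := by
          apply mul_le_mul_of_nonneg_right _ (by positivity)
          rw [div_le_one (by linarith)]
          linarith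
      _ = _ := one_mul _
  have hlw : 0 < l ^ w0 := by positivity
  calc A = (A * l ^ w0) * (l ^ w0)⁻¹ := by field_simp
    _ ≤ Real.exp (τ / 4 * (n + 1)) * Real.exp (τ / 4 * n) := by
        apply mul_le_mul (h1.trans h2) h6 (by positivity) (Real.exp_pos _).le
    _ = _ := by
        rw [← Real.exp_add, ← Real.exp_add]
        congr 1
        ring

/-- the level of distribution for mixtures -/
theorem level_mix {B : Type} [Fintype B] (μ : ZMod p → ℝ) (g : B → ZMod p → ℝ)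
    (hg : ∀ a, μ a = ∑ b, g b a) (hg0 : ∀ b a, 0 ≤ g b a) (hμ : ∑ a, μ a = 1)
    (ρ : B → ℝ) (hρ0 : ∀ b, 0 ≤ ρ b) (hρ1 : ∀ b, ρ b ≤ 1) (c0 : ℝ) (hc0 : 0 < c0) (hc1 : c0 < 1)
    (hgw : ∀ b c, c ≠ 0 → ‖muhat (g b) c‖ ≤ (∑ a, g b a) * (c0 * ρ b))
    (s : ℝ) (hs0 : 0 ≤ s) (hs1 : s ≤ 1) (y : ℝ) (hy1 : y < 1)
    (hΛ : (p : ℝ) ^ (s * y) * (∑ b, (∑ a, g b a) * phi p (ρ b) 0 ^ s) < 1)
    (ε : ℝ) (hε : 0 < ε) :
    ∃ C c : ℝ, 0 < c ∧ ∀ n m k : ℕ, 1 ≤ k → ε * n ≤ m → (k : ℝ) ≤ y * n →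
      ∀ H : Finset (ZMod p)[X],
      (∀ h ∈ H, h.Monic ∧ h.natDegree = k ∧ Fac (fun d => m < d) h) →
      ∑ h ∈ H, |Pr μ n (fun f => h ∣ f ∧ f ≠ 0) - ((p : ℝ) ^ k)⁻¹| ≤ C * Real.exp (-(c * n)) := by
  classical
  have hp0 : (0 : ℝ) < p := by exact_mod_cast hp.out.pos
  have hp1 : (1 : ℝ) < p := by exact_mod_cast hp.out.one_lt
  have hlogp : 0 < Real.log p := Real.log_pos hp1
  obtain ⟨τ0, hτ0⟩ : ∃ τ0, τ0 = min ε (1 - y) := ⟨_, rfl⟩
  have hτ00 : 0 < τ0 := by rw [hτ0]; exact lt_min hε (by linarith)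
  obtain ⟨τ, hτ⟩ : ∃ τ, τ = τ0 * Real.log p := ⟨_, rfl⟩
  have hτp : 0 < τ := by rw [hτ]; positivity
  obtain ⟨η, hη, hlow⟩ := low_exp (p := p) τ hτp
  obtain ⟨R, hRd⟩ : ∃ R : ℕ, R = ⌈1 / ε⌉₊ := ⟨_, rfl⟩
  have hRr : 1 / ε ≤ R := by rw [hRd]; exact Nat.le_ceil _
  have hR0 : (0 : ℝ) < R := lt_of_lt_of_le (by positivity) hRr
  obtain ⟨Λ, hΛd⟩ : ∃ Λ, Λ = ∑ b, (∑ a, g b a) * phi p (ρ b) 0 ^ s := ⟨_, rfl⟩
  have hΛ0 : 0 ≤ Λ := by
    rw [hΛd]
    exact Finset.sum_nonneg fun b _ => mul_nonneg (Finset.sum_nonneg fun a _ => hg0 b a)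
      (Real.rpow_nonneg (phi_nonneg (hρ0 b) (hρ1 b) 0) s)
  obtain ⟨θ, hθ⟩ : ∃ θ, θ = max ((p : ℝ) ^ (s * y) * Λ) (1 / 2) := ⟨_, rfl⟩
  have hθ0 : 0 < θ := by rw [hθ]; exact lt_of_lt_of_le (by norm_num) (le_max_right _ _)
  have hθ1 : θ < 1 := by
    rw [hθ, max_lt_iff, hΛd]
    exact ⟨hΛ, by norm_num⟩
  have hlθ : 0 < Real.log (1 / θ) := by
    apply Real.log_pos
    rw [lt_div_iff₀ hθ0, one_mul]
    exact hθ1
  have hlc : 0 < Real.log (1 / c0) := by
    apply Real.log_pos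
    rw [lt_div_iff₀ hc0, one_mul]
    exact hc1
  obtain ⟨c, hc⟩ : ∃ c, c = min (τ / 2) (min (η * Real.log (1 / c0)) (Real.log (1 / θ))) :=
    ⟨_, rfl⟩
  have hcpos : 0 < c := by
    rw [hc]
    exact lt_min (by positivity) (lt_min (by positivity) hlθ)
  refine ⟨Real.exp (τ / 4) + c0⁻¹ * 2 ^ R + 2 * (2 ^ R + 1) * Λ, c, hcpos, ?_⟩
  intro n m k hk1 hm hk H hH
  have hn0 : (0 : ℝ) ≤ n := Nat.cast_nonneg n
  have hexp : ∀ d : ℝ, c ≤ d → Real.exp (-(d * n)) ≤ Real.exp (-(c * n)) := by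
    intro d hd
    apply Real.exp_le_exp.2
    have := mul_le_mul_of_nonneg_right hd hn0
    linarith
  rcases H.eq_empty_or_nonempty with hE | ⟨h0, hh0⟩
  · rw [hE, Finset.sum_empty]
    positivity
  -- k > m
  have hkm : m < k := by
    obtain ⟨h1, h2, h3⟩ := hH h0 hh0
    have h4 : ¬ IsUnit h0 := by
      intro hu
      have h5 := Polynomial.natDegree_eq_zero_of_isUnit hu
      omega
    obtain ⟨P, hP, hPd⟩ := WfDvdMonoid.exists_irreducible_factor h4 h1.ne_zero
    have h5 := h3 P hP hPd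
    have h6 := Polynomial.natDegree_le_of_dvd hPd h1.ne_zero
    omega
  have hnpos : 0 < n := by
    rcases Nat.eq_zero_or_pos n with h | h
    · rw [h] at hk
      have h1 : (1 : ℝ) ≤ k := by exact_mod_cast hk1
      simp only [Nat.cast_zero, mul_zero] at hk
      linarith
    · exact h
  have hnr : (0 : ℝ) < n := by exact_mod_cast hnpos
  have hkn : k ≤ n := by
    have h1 : (k : ℝ) ≤ n := by nlinarith
    exact_mod_cast h1
  have hR : n < (m + 1) * R := by
    have h1 : (n : ℝ) < ((m : ℝ) + 1) * R := by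
      calc (n : ℝ) < (ε * n + 1) * (1 / ε) := by
            have : (ε * n + 1) * (1 / ε) = n + 1 / ε := by field_simp
            rw [this]
            have : 0 < 1 / ε := by positivity
            linarith
        _ ≤ ((m : ℝ) + 1) * R := by
            apply mul_le_mul _ hRr (by positivity) (by positivity)
            linarith
    exact_mod_cast h1
  obtain ⟨w0, hw0⟩ : ∃ w0 : ℕ, w0 = ⌊η * n⌋₊ := ⟨_, rfl⟩
  have hw1 : (w0 : ℝ) ≤ η * n := by rw [hw0]; exact Nat.floor_le (by positivity)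
  have hw2 : η * n - 1 ≤ w0 := by
    rw [hw0]
    have := Nat.lt_floor_add_one (η * n)
    linarith
  have hcore := level_core μ g hg hg0 hμ ρ hρ0 hρ1 c0 hc0 hc1 hgw s hs0 hs1 n k m R w0 hR hkn H hH
  rw [← hΛd] at hcore
  refine hcore.trans ?_
  -- first term
  have t1 : ((p : ℝ) ^ k)⁻¹ * (((Finset.univ.filter
        (fun α : Fin (n + 1) → ZMod p => hw α < w0)).card : ℝ) * (p : ℝ) ^ (k - min m (n - k))) ≤
      Real.exp (τ / 4) * Real.exp (-(c * n)) := by
    have h1 := hlow n w0 hw1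
    have h2 : ((p : ℝ) ^ k)⁻¹ * (p : ℝ) ^ (k - min m (n - k)) = ((p : ℝ) ^ (min m (n - k)))⁻¹ := by
      have h3 : min m (n - k) ≤ k := (min_le_left _ _).trans hkm.le
      have h4 : (p : ℝ) ^ k = (p : ℝ) ^ (k - min m (n - k)) * (p : ℝ) ^ (min m (n - k)) := by
        rw [← pow_add, Nat.sub_add_cancel h3]
      rw [h4]
      field_simp
    have h5 : ((p : ℝ) ^ (min m (n - k)))⁻¹ ≤ Real.exp (-(τ * n)) := by
      have h6 : τ0 * n ≤ (min m (n - k) : ℕ) := by
        rw [Nat.cast_min, le_min_iff, Nat.cast_sub hkn]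
        constructor
        · calc τ0 * n ≤ ε * n := by
                rw [hτ0]; exact mul_le_mul_of_nonneg_right (min_le_left _ _) hn0
            _ ≤ m := hm
        · calc τ0 * n ≤ (1 - y) * n := by
                rw [hτ0]; exact mul_le_mul_of_nonneg_right (min_le_right _ _) hn0
            _ ≤ (n : ℝ) - k := by linarith
      have h7 : ((p : ℝ) ^ (min m (n - k)))⁻¹ =
          Real.exp (-(Real.log p * ((min m (n - k) : ℕ) : ℝ))) := by
        rw [Real.exp_neg, mul_comm, Real.exp_nat_mul, Real.exp_log hp0]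
      rw [h7]
      apply Real.exp_le_exp.2
      rw [hτ]
      have := mul_le_mul_of_nonneg_left h6 hlogp.le
      linarith
    calc _ = (((Finset.univ.filter
        (fun α : Fin (n + 1) → ZMod p => hw α < w0)).card : ℝ)) *
          (((p : ℝ) ^ k)⁻¹ * (p : ℝ) ^ (k - min m (n - k))) := by ring
      _ ≤ (Real.exp (τ / 4) * Real.exp (τ / 2 * n)) * Real.exp (-(τ * n)) := by
          rw [h2]
          exact mul_le_mul h1 h5 (by positivity) (by positivity)
      _ = Real.exp (τ / 4) * Real.exp (-(τ / 2 * n)) := by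
          rw [mul_assoc, ← Real.exp_add]
          congr 2
          ring
      _ ≤ _ := by
          apply mul_le_mul_of_nonneg_left (hexp _ _) (Real.exp_pos _).le
          rw [hc]; exact min_le_left _ _
  -- second term
  have t2 : c0 ^ w0 * 2 ^ R ≤ (c0⁻¹ * 2 ^ R) * Real.exp (-(c * n)) := by
    have h1 : c0 ^ w0 ≤ c0⁻¹ * Real.exp (-(η * Real.log (1 / c0) * n)) := by
      have h2 : c0 ^ w0 = Real.exp (-(Real.log (1 / c0) * w0)) := by
        rw [Real.exp_neg, mul_comm, Real.exp_nat_mul, Real.exp_log (by positivity), one_div,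
          inv_pow, inv_inv]
      have h3 : c0⁻¹ = Real.exp (Real.log (1 / c0)) := by
        rw [Real.exp_log (by positivity), one_div]
      rw [h2, h3, ← Real.exp_add]
      apply Real.exp_le_exp.2
      have := mul_le_mul_of_nonneg_left hw2 hlc.le
      linarith
    have h4 : Real.exp (-(η * Real.log (1 / c0) * n)) ≤ Real.exp (-(c * n)) := by
      apply hexp
      rw [hc]
      exact (min_le_right _ _).trans (min_le_left _ _)
    calc c0 ^ w0 * 2 ^ R ≤ (c0⁻¹ * Real.exp (-(η * Real.log (1 / c0) * n))) * 2 ^ R :=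
          mul_le_mul_of_nonneg_right h1 (by positivity)
      _ ≤ (c0⁻¹ * Real.exp (-(c * n))) * 2 ^ R := by
          apply mul_le_mul_of_nonneg_right _ (by positivity)
          exact mul_le_mul_of_nonneg_left h4 (by positivity)
      _ = _ := by ring
  -- third term
  have t3 : 2 * (2 ^ R + 1) * (((p : ℝ) ^ k) ^ s * Λ ^ (n + 1)) ≤
      (2 * (2 ^ R + 1) * Λ) * Real.exp (-(c * n)) := by
    have h1 : ((p : ℝ) ^ k) ^ s ≤ ((p : ℝ) ^ (s * y)) ^ n := by
      rw [← Real.rpow_natCast, ← Real.rpow_mul hp0.le, ← Real.rpow_natCast, ← Real.rpow_mul hp0.le]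
      apply Real.rpow_le_rpow_of_exponent_le hp1.le
      calc (k : ℝ) * s ≤ (y * n) * s := mul_le_mul_of_nonneg_right hk hs0
        _ = s * y * n := by ring
    have h2 : ((p : ℝ) ^ (s * y)) ^ n * Λ ^ n ≤ Real.exp (-(c * n)) := by
      rw [← mul_pow]
      calc ((p : ℝ) ^ (s * y) * Λ) ^ n ≤ θ ^ n := by
            apply pow_le_pow_left₀ (by positivity)
            rw [hθ]; exact le_max_left _ _
        _ = Real.exp (-(Real.log (1 / θ) * n)) := by
            rw [Real.exp_neg, mul_comm, Real.exp_nat_mul, Real.exp_log (by positivity), one_div,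
              inv_pow, inv_inv]
        _ ≤ _ := by
            apply hexp
            rw [hc]
            exact (min_le_right _ _).trans (min_le_right _ _)
    calc 2 * (2 ^ R + 1) * (((p : ℝ) ^ k) ^ s * Λ ^ (n + 1))
        ≤ 2 * (2 ^ R + 1) * (((p : ℝ) ^ (s * y)) ^ n * Λ ^ (n + 1)) := by
          apply mul_le_mul_of_nonneg_left _ (by positivity)
          exact mul_le_mul_of_nonneg_right h1 (by positivity)
      _ = (2 * (2 ^ R + 1) * Λ) * (((p : ℝ) ^ (s * y)) ^ n * Λ ^ n) := by ring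
      _ ≤ _ := mul_le_mul_of_nonneg_left h2 (by positivity)
  calc _ ≤ Real.exp (τ / 4) * Real.exp (-(c * n)) + (c0⁻¹ * 2 ^ R) * Real.exp (-(c * n)) +
        (2 * (2 ^ R + 1) * Λ) * Real.exp (-(c * n)) := add_le_add (add_le_add t1 t2) t3
    _ = _ := by ring

end Pool.Agent.MP0a1886
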