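import Pool.Agent.MP0a1886.Min.Lev
import Pool.Agent.MP0a1886.Min.Full

/-! The level of distribution: counting frequencies of small weight (MP_0a1886_pr). -/

set_option autoImplicit false
set_option linter.unusedSectionVars false
open Finset Polynomial

namespace Pool.Agent.MP0a1886

variable {p : ℕ} [hp : Fact p.Prime]

lemma fa_of_values {N : ℕ} (l : (ZMod p)[X] →ₗ[ZMod p] ZMod p) (f : (ZMod p)[X])
    (hf : f.natDegree < N) : fa N (fun i : Fin N => l (X ^ (i : ℕ))) f = l f := by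
  rw [fa_apply]
  have hs : f = ∑ i ∈ Finset.range N, C (f.coeff i) * X ^ i :=
    Polynomial.as_sum_range_C_mul_X_pow' f hf
  conv_rhs => rw [hs]
  rw [map_sum, ← Fin.sum_univ_eq_sum_range (fun i => l (C (f.coeff i) * X ^ i)) N]
  apply Finset.sum_congr rfl
  intro i _
  rw [← Polynomial.smul_eq_C_mul, map_smul, smul_eq_mul, mul_comm]

lemma mem_KK_fn {N : ℕ} (h : (ZMod p)[X]) (hh : h.Monic) (k : ℕ) (hk : h.natDegree = k)
    (v : Fin k → ZMod p) : h ∈ KK (fa N (fun i : Fin N => fn h k v (X ^ (i : ℕ)))) N k := by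
  refine ⟨hk.le, ?_⟩
  intro i hi
  rw [fa_of_values]
  · exact fn_mul h hh k v _
  · refine (Polynomial.natDegree_mul_le).trans_lt ?_
    rw [Polynomial.natDegree_X_pow, hk]
    omega

/-- the frequencies of small weight -/
lemma low_count (n k m w0 : ℕ) (hk : k ≤ n) (H : Finset (ZMod p)[X])
    (hH : ∀ h ∈ H, h.Monic ∧ h.natDegree = k ∧ Fac (fun d => m < d) h) :
    ∑ h ∈ H, ((Finset.univ.erase (0 : Fin k → ZMod p)).filter
      (fun v => hw (fun i : Fin (n + 1) => fn h k v (X ^ (i : ℕ))) < w0)).card ≤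
    (Finset.univ.filter (fun α : Fin (n + 1) → ZMod p => hw α < w0)).card *
      p ^ (k - min m (n - k)) := by
  classical
  rw [← Finset.card_sigma]
  rw [mul_comm]
  apply Finset.card_le_mul_card_image_of_maps_to
    (f := fun x : (Σ _ : (ZMod p)[X], Fin k → ZMod p) =>
      (fun i : Fin (n + 1) => fn x.1 k x.2 (X ^ (i : ℕ))))
  · intro x hx
    rw [Finset.mem_sigma, Finset.mem_filter] at hx
    rw [Finset.mem_filter]
    exact ⟨Finset.mem_univ _, hx.2.2⟩
  · intro α _
    -- the fibre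
    have hval : ∀ x ∈ (H.sigma fun h => (Finset.univ.erase (0 : Fin k → ZMod p)).filter
        (fun v => hw (fun i : Fin (n + 1) => fn h k v (X ^ (i : ℕ))) < w0)),
        (fun i : Fin (n + 1) => fn x.1 k x.2 (X ^ (i : ℕ))) = α →
        x.1 ∈ H ∧ x.2 ≠ 0 ∧ ∀ t : Fin k, x.2 t = α ⟨t, by have := t.2; omega⟩ := by
      intro x hx hxa
      rw [Finset.mem_sigma, Finset.mem_filter, Finset.mem_erase] at hx
      refine ⟨hx.1, hx.2.1.1, ?_⟩
      intro t
      have h1 := congrFun hxa ⟨t, by have := t.2; omega⟩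
      simp only at h1
      rw [← h1]
      exact (fn_X_pow x.1 (hH _ hx.1).1 k (hH _ hx.1).2.1 x.2 t).symm
    rcases Finset.eq_empty_or_nonempty ((H.sigma fun h =>
        (Finset.univ.erase (0 : Fin k → ZMod p)).filter
        (fun v => hw (fun i : Fin (n + 1) => fn h k v (X ^ (i : ℕ))) < w0)).filter
        (fun x => (fun i : Fin (n + 1) => fn x.1 k x.2 (X ^ (i : ℕ))) = α)) with hE | ⟨x0, hx0⟩
    · rw [hE, Finset.card_empty]
      exact Nat.zero_le _
    have hα : α ≠ 0 := by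
      intro h0
      obtain ⟨hx1, hx2⟩ := Finset.mem_filter.1 hx0
      obtain ⟨h1, h2, h3⟩ := hval x0 hx1 hx2
      apply h2
      funext t
      rw [h3 t, h0]
      rfl
    have h4 := card_rough_ker (m := m) α hα (k := k) (by omega)
      (H.filter (fun h => h ∈ KK (fa (n + 1) α) (n + 1) k)) (by
        intro h hh
        obtain ⟨h1, h2⟩ := Finset.mem_filter.1 hh
        obtain ⟨h3, h4, h5⟩ := hH h h1
        exact ⟨h3, h4, h5, h2⟩)
    have h5 : n + 1 - 1 - k = n - k := by omega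
    rw [h5] at h4
    refine le_trans ?_ h4
    apply Finset.card_le_card_of_injOn (fun x => x.1)
    · intro x hx
      obtain ⟨hx1, hx2⟩ := Finset.mem_filter.1 (Finset.mem_coe.1 hx)
      obtain ⟨h1, h2, h3⟩ := hval x hx1 hx2
      rw [Finset.mem_coe, Finset.mem_filter]
      refine ⟨h1, ?_⟩
      rw [← hx2]
      exact mem_KK_fn x.1 (hH _ h1).1 k (hH _ h1).2.1 x.2
    · intro x hx y hy hxy
      obtain ⟨hx1, hx2⟩ := Finset.mem_filter.1 (Finset.mem_coe.1 hx)
      obtain ⟨hy1, hy2⟩ := Finset.mem_filter.1 (Finset.mem_coe.1 hy)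
      have e1 := (hval x hx1 hx2).2.2
      have e2 := (hval y hy1 hy2).2.2
      obtain ⟨x1, x2⟩ := x
      obtain ⟨y1, y2⟩ := y
      simp only at hxy
      subst hxy
      congr 1
      funext t
      exact (e1 t).trans (e2 t).symm

/-! ### the comparison law -/

/-- the law with Fourier coefficients `ρ` at all nonzero frequencies -/
noncomputable def phi (p : ℕ) (ρ : ℝ) (a : ZMod p) : ℝ := (1 - ρ) / p + (if a = 0 then ρ else 0)

lemma phi_nonneg {ρ : ℝ} (h0 : 0 ≤ ρ) (h1 : ρ ≤ 1) (a : ZMod p) : 0 ≤ phi p ρ a := by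
  unfold phi
  have hp0 : (0 : ℝ) < p := by exact_mod_cast hp.out.pos
  have h2 : 0 ≤ (1 - ρ) / p := div_nonneg (by linarith) hp0.le
  split_ifs <;> linarith

lemma sum_phi (ρ : ℝ) : ∑ a : ZMod p, phi p ρ a = 1 := by
  unfold phi
  have hp0 : (p : ℝ) ≠ 0 := by exact_mod_cast hp.out.ne_zero
  rw [Finset.sum_add_distrib, Finset.sum_const, Finset.card_univ, ZMod.card, nsmul_eq_mul,
    Finset.sum_ite_eq' Finset.univ (0 : ZMod p), if_pos (Finset.mem_univ _)]
  field_simp
  ring

lemma muhat_phi (ρ : ℝ) (c : ZMod p) : muhat (phi p ρ) c = if c = 0 then 1 else (ρ : ℂ) := by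
  split_ifs with hc
  · rw [hc, muhat_zero _ (sum_phi ρ)]
  · have h1 : muhat (phi p ρ) c = muhat (fun _ : ZMod p => (1 - ρ) / p) c +
        muhat (fun a : ZMod p => if a = 0 then ρ else 0) c := by
      unfold muhat phi
      rw [← Finset.sum_add_distrib]
      apply Finset.sum_congr rfl
      intro a _
      push_cast
      ring
    rw [h1, muhat_const _ c hc, zero_add]
    unfold muhat
    rw [Finset.sum_eq_single (0 : ZMod p)]
    · simp
    · intro b _ hb
      simp [hb]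
    · simp

lemma sum_muhat (g : ZMod p → ℝ) : ∑ c, muhat g c = (p : ℂ) * g 0 := by
  unfold muhat
  rw [Finset.sum_comm]
  simp_rw [← Finset.mul_sum]
  have h1 : ∀ a : ZMod p, ∑ c : ZMod p, (ZMod.stdAddChar (a * c) : ℂ) =
      if a = 0 then (p : ℂ) else 0 := by
    intro a
    have h2 := AddChar.sum_mulShift a (ZMod.isPrimitive_stdAddChar p)
    simp_rw [mul_comm a]
    rw [h2]
    split_ifs
    · rw [ZMod.card]
    · simp
  simp_rw [h1]
  rw [Finset.sum_eq_single (0 : ZMod p)]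
  · rw [if_pos rfl, mul_comm]
  · intro b _ hb
    rw [if_neg hb, mul_zero]
  · simp

/-- the value at zero -/
lemma g_zero_le (g : ZMod p → ℝ) (h0 : ∀ a, 0 ≤ g a) (r : ℝ)
    (hw : ∀ c, c ≠ 0 → ‖muhat g c‖ ≤ (∑ a, g a) * r) :
    g 0 ≤ (∑ a, g a) * phi p r 0 := by
  classical
  have hp0 : (0 : ℝ) < p := by exact_mod_cast hp.out.pos
  have h1 : (p : ℝ) * g 0 ≤ ∑ c, ‖muhat g c‖ := by
    have h2 : ‖∑ c, muhat g c‖ = (p : ℝ) * g 0 := by
      rw [sum_muhat, norm_mul, Complex.norm_natCast, Complex.norm_real, Real.norm_eq_abs,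
        abs_of_nonneg (h0 0)]
    rw [← h2]
    exact norm_sum_le _ _
  rw [← Finset.add_sum_erase _ _ (Finset.mem_univ (0 : ZMod p))] at h1
  have h3 : ‖muhat g 0‖ ≤ ∑ a, g a := norm_muhat_le' g h0 0
  have h4 : ∑ c ∈ Finset.univ.erase (0 : ZMod p), ‖muhat g c‖ ≤ (p - 1) * ((∑ a, g a) * r) := by
    have h5 : ((Finset.univ.erase (0 : ZMod p)).card : ℝ) = p - 1 := by
      rw [Finset.card_erase_of_mem (Finset.mem_univ _), Finset.card_univ, ZMod.card,
        Nat.cast_sub hp.out.one_lt.le]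
      simp
    rw [← h5, ← nsmul_eq_mul, ← Finset.sum_const]
    exact Finset.sum_le_sum fun c hc => hw c (Finset.mem_erase.1 hc).1
  unfold phi
  rw [if_pos rfl]
  have h6 : (p : ℝ) * g 0 ≤ (p : ℝ) * ((∑ a, g a) * ((1 - r) / p + r)) := by
    calc (p : ℝ) * g 0 ≤ (∑ a, g a) + (p - 1) * ((∑ a, g a) * r) := by linarith
      _ = _ := by field_simp; ring
  exact le_of_mul_le_mul_left h6 hp0

end Pool.Agent.MP0a1886
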