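import Pool.Agent.MP0a1886.EMon

/-! Mixtures of laws: expectations in the monic model for coordinate-dependent laws
(MP_0a1886_pr, laws with full support). -/

set_option autoImplicit false
set_option linter.unusedSectionVars false
open Finset Polynomial

namespace Pool.Agent.MP0a1886

variable {p : ℕ} [hp : Fact p.Prime]

/-! ### coordinate-dependent weights -/

/-- the coordinates which determine a functional in a class -/
def Jw (n r k : ℕ) : Finset (Fin n) :=
  Finset.univ.filter (fun i : Fin n => (i : ℕ) < 2 * k ∨ n ≤ (i : ℕ) + 2 * (r - k))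

lemma card_Jw {n r k : ℕ} (hk : k ≤ r) (hr : 2 * r ≤ n) : (Jw n r k).card = 2 * r := by
  classical
  have h2 : Jw n r k = (Finset.univ.filter (fun i : Fin n => (i : ℕ) < 2 * k)) ∪
      (Finset.univ.filter (fun i : Fin n => ¬ (i : ℕ) < n - 2 * (r - k))) := by
    ext i
    simp only [Jw, Finset.mem_filter, Finset.mem_univ, true_and, Finset.mem_union]
    constructor
    · rintro (h | h)
      · left; exact h
      · right; omega
    · rintro (h | h)
      · left; exact h
      · right; omega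
  have h3 : Disjoint (Finset.univ.filter (fun i : Fin n => (i : ℕ) < 2 * k))
      (Finset.univ.filter (fun i : Fin n => ¬ (i : ℕ) < n - 2 * (r - k))) := by
    rw [Finset.disjoint_left]
    intro i hi hi'
    simp only [Finset.mem_filter, Finset.mem_univ, true_and] at hi hi'
    omega
  rw [h2, Finset.card_union_of_disjoint h3, Fin.card_filter_val_lt]
  have h4 := Finset.card_filter_add_card_filter_not (s := (Finset.univ : Finset (Fin n)))
    (fun i : Fin n => (i : ℕ) < n - 2 * (r - k))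
  rw [Fin.card_filter_val_lt, Finset.card_univ, Fintype.card_fin] at h4
  omega

lemma sum_bad_class' {n : ℕ} (w : Fin n → ZMod p → ℝ) (h0 : ∀ i a, 0 ≤ w i a)
    (h1 : ∀ i a, w i a ≤ 1) (r k : ℕ) (hk : k ≤ r) (hr : 2 * r ≤ n)
    (S : Finset (Fin n → ZMod p))
    (hS : ∀ α ∈ S, ∃ d ∈ KK (fa n α) n r, d ≠ 0 ∧ d.natDegree = k) :
    ∑ α ∈ S, ∏ i, w i (α i) ≤ ∏ i ∈ Jw n r k, ∑ c, w i c := by
  classical
  set J : Finset (Fin n) := Jw n r k with hJ
  have hinj : Set.InjOn (fun (α : Fin n → ZMod p) (i : J) => α i) (S : Set _) := by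
    intro α hα β hβ heq
    obtain ⟨d, hd, hd0, hdk⟩ := hS α hα
    obtain ⟨d', hd', hd0', hdk'⟩ := hS β hβ
    have h2 : α - β = 0 := by
      apply eq_zero_of_window n r k hk (α - β) (mul_ne_zero hd0 hd0')
      · rw [Polynomial.natDegree_mul hd0 hd0', hdk, hdk']; ring
      · intro i hi
        rw [fa_sub]
        have e1 : fa n α (d * d' * X ^ i) = 0 := by
          rw [mul_assoc]
          apply KK_mul _ hd
          rw [Polynomial.degree_eq_natDegree (mul_ne_zero hd0' (pow_ne_zero _ Polynomial.X_ne_zero)),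
            Polynomial.natDegree_mul hd0' (pow_ne_zero _ Polynomial.X_ne_zero),
            Polynomial.natDegree_X_pow, hdk']
          have : k + i < n - r := by omega
          exact_mod_cast this
        have e2 : fa n β (d * d' * X ^ i) = 0 := by
          rw [mul_comm d d', mul_assoc]
          apply KK_mul _ hd'
          rw [Polynomial.degree_eq_natDegree (mul_ne_zero hd0 (pow_ne_zero _ Polynomial.X_ne_zero)),
            Polynomial.natDegree_mul hd0 (pow_ne_zero _ Polynomial.X_ne_zero),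
            Polynomial.natDegree_X_pow, hdk]
          have : k + i < n - r := by omega
          exact_mod_cast this
        rw [e1, e2, sub_zero]
      · intro i hi
        have h3 := congrFun heq ⟨i, by
          rw [hJ, Jw, Finset.mem_filter]; exact ⟨Finset.mem_univ _, hi⟩⟩
        rw [Pi.sub_apply, sub_eq_zero]
        exact h3
    exact sub_eq_zero.1 h2
  have h5 : ∀ α ∈ S, ∏ i, w i (α i) ≤ (fun β : J → ZMod p => ∏ i : J, w i (β i))
      (fun i : J => α i) := by
    intro α _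
    beta_reduce
    rw [Finset.prod_coe_sort J (fun i => w i (α i))]
    rw [← Finset.prod_mul_prod_compl J]
    apply mul_le_of_le_one_right
    · exact Finset.prod_nonneg fun _ _ => h0 _ _
    · exact Finset.prod_le_one (fun _ _ => h0 _ _) (fun _ _ => h1 _ _)
  refine (Finset.sum_le_sum h5).trans ?_
  rw [← Finset.sum_image (f := fun β : J → ZMod p => ∏ i : J, w i (β i))
    (g := fun (α : Fin n → ZMod p) (i : J) => α i) hinj]
  refine (Finset.sum_le_sum_of_subset_of_nonneg (Finset.subset_univ _) ?_).trans (le_of_eq ?_)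
  · intro β _ _
    exact Finset.prod_nonneg fun _ _ => h0 _ _
  · rw [sum_prod_pi (fun (i : J) c => w i c), Finset.prod_coe_sort J (fun i => ∑ c, w i c)]

theorem sum_bad' {n : ℕ} (w : Fin n → ZMod p → ℝ) (h0 : ∀ i a, 0 ≤ w i a)
    (h1 : ∀ i a, w i a ≤ 1) (r : ℕ) (hr : 2 * r ≤ n) :
    ∑ α ∈ bad p n r, ∏ i, w i (α i) ≤
      ∑ k ∈ Finset.range (r + 1), ∏ i ∈ Jw n r k, ∑ c, w i c := by
  classical
  have hex : ∀ α ∈ bad p n r, ∃ k ∈ Finset.range (r + 1),
      ∃ d ∈ KK (fa n α) n r, d ≠ 0 ∧ d.natDegree = k := by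
    intro α hα
    unfold bad at hα
    rw [Finset.mem_filter] at hα
    obtain ⟨-, d, hd, hd0⟩ := hα
    exact ⟨d.natDegree, Finset.mem_range.2 (by have := hd.1; omega), d, hd, hd0, rfl⟩
  have hnn : ∀ α : Fin n → ZMod p, 0 ≤ ∏ i, w i (α i) := fun α =>
    Finset.prod_nonneg fun _ _ => h0 _ _
  have h2 : ∀ α ∈ bad p n r, ∏ i, w i (α i) ≤ ∑ k ∈ Finset.range (r + 1),
      if (∃ d ∈ KK (fa n α) n r, d ≠ 0 ∧ d.natDegree = k) then ∏ i, w i (α i) else 0 := by
    intro α hα
    obtain ⟨k, hk, hd⟩ := hex α hα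
    refine le_trans (le_of_eq ?_) (Finset.single_le_sum (f := fun k =>
      if (∃ d ∈ KK (fa n α) n r, d ≠ 0 ∧ d.natDegree = k) then ∏ i, w i (α i) else 0)
      (fun j _ => ?_) hk)
    · rw [if_pos hd]
    · split_ifs
      · exact hnn α
      · exact le_rfl
  refine (Finset.sum_le_sum h2).trans ?_
  rw [Finset.sum_comm]
  apply Finset.sum_le_sum
  intro k hk
  rw [← Finset.sum_filter]
  apply sum_bad_class' w h0 h1 r k (by have := Finset.mem_range.1 hk; omega) hr
  intro α hα
  exact (Finset.mem_filter.1 hα).2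

/-! ### expectations for coordinate-dependent measures -/

/-- the integral of `S` at `X^n + (lower coefficients with the measures g i)` -/
noncomputable def EMg (n : ℕ) (g : Fin n → ZMod p → ℝ) (S : PA p) : ℝ :=
  ∑ v : Fin n → ZMod p, (∏ i, g i (v i)) * S.coeff (monPoly n v)

lemma EMg_fourier {n : ℕ} (g : Fin n → ZMod p → ℝ) {M : ℝ} {S : PA p} (h : Bd n M S) :
    (EMg n g S : ℂ) =
      ((p : ℂ) ^ n)⁻¹ * ∑ α : Fin n → ZMod p, (∏ i, muhat (g i) (α i)) * SH n α S := by
  classical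
  have hp0 : (p : ℂ) ≠ 0 := by exact_mod_cast hp.out.ne_zero
  have h1 : ∑ α : Fin n → ZMod p, (∏ i, muhat (g i) (α i)) * SH n α S =
      ∑ v : Fin n → ZMod p, (S.coeff (monPoly n v) : ℂ) *
        ((p : ℂ) ^ n * ∏ i, (g i (v i) : ℂ)) := by
    simp_rw [SH_vec _ h, Finset.mul_sum]
    rw [Finset.sum_comm]
    apply Finset.sum_congr rfl
    intro v _
    have h2 : ∀ α : Fin n → ZMod p, (∏ i, muhat (g i) (α i)) * ((S.coeff (monPoly n v) : ℂ) *
        ZMod.stdAddChar (-(∑ i, α i * v i))) = (S.coeff (monPoly n v) : ℂ) *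
        ∏ i, (muhat (g i) (α i) * ZMod.stdAddChar (-(α i * v i))) := by
      intro α
      rw [Finset.prod_mul_distrib, ← addChar_sum, Finset.sum_neg_distrib]
      ring
    rw [Finset.sum_congr rfl (fun α _ => h2 α), ← Finset.mul_sum,
      sum_prod_pi (fun (i : Fin n) c => muhat (g i) c * ZMod.stdAddChar (-(c * v i)))]
    congr 1
    simp_rw [muhat_inversion]
    rw [Finset.prod_mul_distrib, Finset.prod_const, Finset.card_univ, Fintype.card_fin]
  rw [h1]
  unfold EMg
  push_cast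
  rw [Finset.mul_sum]
  apply Finset.sum_congr rfl
  intro v _
  field_simp

lemma muhat_zero' (μ : ZMod p → ℝ) : muhat μ 0 = ((∑ a, μ a : ℝ) : ℂ) := by
  unfold muhat
  simp only [mul_zero, AddChar.map_zero_eq_one, mul_one]
  push_cast
  rfl

/-- the main term and the error term -/
theorem EMg_main {n ρ : ℕ} (g w : Fin n → ZMod p → ℝ)
    (hw : ∀ i c, ‖muhat (g i) c‖ ≤ (∑ a, g i a) * w i c) {M : ℝ} {S : PA p}
    (h : Bd n M S) (hz : ∀ α ∈ bad p n ρ, α ≠ 0 → SH n α S = 0) :
    |EMg n g S - (∏ i, ∑ a, g i a) * (tot p S / (p : ℝ) ^ n)| ≤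
      (∏ i, ∑ a, g i a) * (((p : ℝ) ^ n)⁻¹ *
        ∑ α ∈ Finset.univ.filter (fun α : Fin n → ZMod p => α ∉ bad p n ρ),
          (∏ i, w i (α i)) * ‖SH n α S‖) := by
  classical
  have hp0 : (p : ℂ) ≠ 0 := by exact_mod_cast hp.out.ne_zero
  have h2 := EMg_fourier g h
  have h3 : ∑ α : Fin n → ZMod p, (∏ i, muhat (g i) (α i)) * SH n α S =
      ((∏ i, ∑ a, g i a : ℝ) : ℂ) * (tot p S : ℂ) +
      ∑ α ∈ Finset.univ.filter (fun α : Fin n → ZMod p => α ∉ bad p n ρ),
        (∏ i, muhat (g i) (α i)) * SH n α S := by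
    rw [← Finset.sum_filter_add_sum_filter_not Finset.univ (fun α => α ∈ bad p n ρ)]
    congr 1
    rw [Finset.sum_eq_single (0 : Fin n → ZMod p)]
    · rw [SH_zero_freq h]
      simp only [Pi.zero_apply, muhat_zero']
      push_cast
      rfl
    · intro α hα hα0
      rw [hz α (Finset.mem_filter.1 hα).2 hα0, mul_zero]
    · intro h0
      exact absurd (Finset.mem_filter.2 ⟨Finset.mem_univ _, zero_mem_bad n ρ⟩) h0
  have h4 : ((EMg n g S - (∏ i, ∑ a, g i a) * (tot p S / (p : ℝ) ^ n) : ℝ) : ℂ) =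
      ((p : ℂ) ^ n)⁻¹ *
      ∑ α ∈ Finset.univ.filter (fun α : Fin n → ZMod p => α ∉ bad p n ρ),
        (∏ i, muhat (g i) (α i)) * SH n α S := by
    push_cast
    push_cast at h2 h3
    rw [h2, h3]
    field_simp
    ring
  have h5 : |EMg n g S - (∏ i, ∑ a, g i a) * (tot p S / (p : ℝ) ^ n)| =
      ‖((EMg n g S - (∏ i, ∑ a, g i a) * (tot p S / (p : ℝ) ^ n) : ℝ) : ℂ)‖ := by
    rw [Complex.norm_real, Real.norm_eq_abs]
  rw [h5, h4, norm_mul, norm_inv, norm_pow, Complex.norm_natCast, ← mul_assoc,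
    mul_comm (∏ i, ∑ a, g i a), mul_assoc]
  apply mul_le_mul_of_nonneg_left _ (by positivity)
  rw [Finset.mul_sum]
  refine (norm_sum_le _ _).trans (Finset.sum_le_sum fun α _ => ?_)
  rw [norm_mul, norm_prod, ← mul_assoc]
  apply mul_le_mul_of_nonneg_right _ (norm_nonneg _)
  rw [← Finset.prod_mul_distrib]
  exact Finset.prod_le_prod (fun _ _ => norm_nonneg _) (fun i _ => hw i (α i))

lemma EMg_abs_le {n : ℕ} (g : Fin n → ZMod p → ℝ) (h0 : ∀ i a, 0 ≤ g i a) {M : ℝ} {S : PA p}
    (h : Bd n M S) : |EMg n g S| ≤ (∏ i, ∑ a, g i a) * M := by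
  unfold EMg
  refine (Finset.abs_sum_le_sum_abs _ _).trans ?_
  rw [← sum_prod_pi (fun i a => g i a), Finset.sum_mul]
  apply Finset.sum_le_sum
  intro v _
  rw [abs_mul, abs_of_nonneg (Finset.prod_nonneg fun _ _ => h0 _ _)]
  exact mul_le_mul_of_nonneg_left (h.2 _) (Finset.prod_nonneg fun _ _ => h0 _ _)

lemma tot_abs_le {n : ℕ} {M : ℝ} {S : PA p} (h : Bd n M S) : |tot p S / (p : ℝ) ^ n| ≤ M := by
  have hp0 : (0 : ℝ) < p := by exact_mod_cast hp.out.pos
  rw [tot_eq h, abs_div, abs_of_pos (pow_pos hp0 n), div_le_iff₀ (by positivity)]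
  refine (Finset.abs_sum_le_sum_abs _ _).trans ?_
  refine (Finset.sum_le_card_nsmul _ _ M (fun f _ => h.2 f)).trans (le_of_eq ?_)
  rw [card_mon, nsmul_eq_mul]
  push_cast
  ring

/-! ### mixtures -/

/-- expansion of an iid measure whose law is a mixture -/
lemma EM_mix {B : Type} [Fintype B] (μ : ZMod p → ℝ) (g : B → ZMod p → ℝ)
    (hg : ∀ a, μ a = ∑ b, g b a) (n : ℕ) (S : PA p) :
    EM μ n S = ∑ ω : Fin n → B, EMg n (fun i => g (ω i)) S := by
  classical
  unfold EM EMg
  rw [Finset.sum_comm]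
  apply Finset.sum_congr rfl
  intro v _
  rw [← Finset.sum_mul, sum_prod_pi (fun (i : Fin n) b => g b (v i))]
  congr 1
  apply Finset.prod_congr rfl
  intro i _
  rw [hg]

end Pool.Agent.MP0a1886
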