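import Pool.Agent.MP0a1886.Min.GoodT
import Pool.Agent.MP0a1886.Min.Fin

/-! Convex combinations of laws: the geometric mean of the exponential sums (MP_0a1886_pr). -/

set_option autoImplicit false
set_option linter.unusedSectionVars false
open Finset Polynomial

namespace Pool.Agent.MP0a1886

variable {p : ℕ} [hp : Fact p.Prime]

/-- from the geometric mean to a power mean of small exponent -/
lemma exists_s5 {B : Type} [Fintype B] (m L : B → ℝ) (hm0 : ∀ b, 0 ≤ m b) (hm1 : ∑ b, m b = 1)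
    (hL1 : ∀ b, 1 ≤ L b) (hLp : ∀ b, L b ≤ p) {τ : ℝ}
    (h : ∏ b, L b ^ (6 * m b) < (p : ℝ) ^ τ) : ∃ s : ℝ, 0 < s ∧ s ≤ 1 ∧
    (∑ b, m b * L b ^ s) ^ 6 < ((p : ℝ) ^ τ) ^ s := by
  have hp2 : (2 : ℝ) ≤ p := by exact_mod_cast hp.out.two_le
  have hp0 : (0 : ℝ) < p := by linarith
  have hL0 : ∀ b, 0 < L b := fun b => by linarith [hL1 b]
  obtain ⟨v, hv⟩ : ∃ v, v = Real.log p := ⟨_, rfl⟩
  obtain ⟨a, ha⟩ : ∃ a : B → ℝ, a = fun b => Real.log (L b) := ⟨_, rfl⟩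
  have hv0 : 0 < v := by rw [hv]; exact Real.log_pos (by linarith)
  have ha0 : ∀ b, 0 ≤ a b := fun b => by rw [ha]; exact Real.log_nonneg (hL1 b)
  have hav : ∀ b, a b ≤ v := fun b => by rw [ha, hv]; exact Real.log_le_log (hL0 b) (hLp b)
  obtain ⟨A, hA⟩ : ∃ A, A = ∑ b, m b * a b := ⟨_, rfl⟩
  have hA0 : 0 ≤ A := by
    rw [hA]
    exact Finset.sum_nonneg fun b _ => mul_nonneg (hm0 b) (ha0 b)
  have h1 : 6 * A < τ * v := by
    have h2 := Real.log_lt_log (Finset.prod_pos fun b _ => Real.rpow_pos_of_pos (hL0 b) _) h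
    rw [Real.log_rpow hp0, ← hv, Real.log_prod
      (fun b _ => (Real.rpow_pos_of_pos (hL0 b) _).ne')] at h2
    have h3 : ∑ b, Real.log (L b ^ (6 * m b)) = 6 * A := by
      rw [hA, Finset.mul_sum]
      apply Finset.sum_congr rfl
      intro b _
      rw [Real.log_rpow (hL0 b), ha]
      ring
    rw [h3] at h2
    exact h2
  obtain ⟨D, hD⟩ : ∃ D, D = τ * v - 6 * A := ⟨_, rfl⟩
  have hD0 : 0 < D := by rw [hD]; linarith
  obtain ⟨s, hs⟩ : ∃ s, s = min 1 (min (1 / v) (D / (12 * v ^ 2))) := ⟨_, rfl⟩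
  have hs0 : 0 < s := by
    rw [hs]
    exact lt_min one_pos (lt_min (by positivity) (by positivity))
  have hs1 : s ≤ 1 := by rw [hs]; exact min_le_left _ _
  have hsv : s * v ≤ 1 := by
    have h2 : s ≤ 1 / v := by rw [hs]; exact (min_le_right _ _).trans (min_le_left _ _)
    rw [le_div_iff₀ hv0] at h2
    exact h2
  have hsD : 12 * v ^ 2 * s ≤ D := by
    have h2 : s ≤ D / (12 * v ^ 2) := by
      rw [hs]; exact (min_le_right _ _).trans (min_le_right _ _)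
    rw [le_div_iff₀ (by positivity)] at h2
    linarith
  refine ⟨s, hs0, hs1, ?_⟩
  have e1 : ∀ b, L b ^ s = Real.exp (s * a b) := fun b => by
    rw [Real.rpow_def_of_pos (hL0 b), ha, mul_comm]
  have e2 : ((p : ℝ) ^ τ) ^ s = Real.exp (s * (τ * v)) := by
    rw [← Real.rpow_mul hp0.le, Real.rpow_def_of_pos hp0, ← hv]
    congr 1
    ring
  have hexp : ∀ x : ℝ, 0 ≤ x → x ≤ 1 → Real.exp x ≤ 1 + x + x ^ 2 := by
    intro x hx0 hx1
    have h3 := Real.abs_exp_sub_one_sub_id_le (x := x) (by rw [abs_of_nonneg hx0]; exact hx1)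
    have h4 := (abs_le.1 h3).2
    linarith
  have h3 : ∀ b, L b ^ s ≤ 1 + s * a b + (s * v) ^ 2 := by
    intro b
    rw [e1 b]
    have h4 : s * a b ≤ s * v := mul_le_mul_of_nonneg_left (hav b) hs0.le
    have h5 : 0 ≤ s * a b := mul_nonneg hs0.le (ha0 b)
    have h6 := hexp (s * a b) h5 (h4.trans hsv)
    have h7 : (s * a b) ^ 2 ≤ (s * v) ^ 2 := pow_le_pow_left₀ h5 h4 2
    linarith
  obtain ⟨T, hT⟩ : ∃ T, T = s * A + (s * v) ^ 2 := ⟨_, rfl⟩
  have h4 : ∑ b, m b * L b ^ s ≤ 1 + T := by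
    calc ∑ b, m b * L b ^ s ≤ ∑ b, m b * (1 + s * a b + (s * v) ^ 2) :=
          Finset.sum_le_sum fun b _ => mul_le_mul_of_nonneg_left (h3 b) (hm0 b)
      _ = ∑ b, m b + s * ∑ b, m b * a b + (s * v) ^ 2 * ∑ b, m b := by
          rw [Finset.mul_sum, Finset.mul_sum, ← Finset.sum_add_distrib, ← Finset.sum_add_distrib]
          apply Finset.sum_congr rfl
          intro b _
          ring
      _ = 1 + T := by rw [hm1, ← hA, hT]; ring
  have h5 : ∑ b, m b * L b ^ s ≤ Real.exp T := by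
    have h6 := Real.add_one_le_exp T
    linarith
  have h6 : 0 ≤ ∑ b, m b * L b ^ s :=
    Finset.sum_nonneg fun b _ => mul_nonneg (hm0 b) (Real.rpow_nonneg (hL0 b).le s)
  rw [e2]
  calc (∑ b, m b * L b ^ s) ^ 6 ≤ Real.exp T ^ 6 := pow_le_pow_left₀ h6 h5 6
    _ = Real.exp (6 * T) := by
        rw [← Real.exp_nat_mul]
        norm_num
    _ < Real.exp (s * (τ * v)) := by
        apply Real.exp_lt_exp.2
        have h7 : 6 * T = s * (τ * v - D) + 6 * (s * v) ^ 2 := by rw [hT, hD]; ring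
        have h8 : 12 * (s * v) ^ 2 ≤ s * D := by
          calc 12 * (s * v) ^ 2 = s * (12 * v ^ 2 * s) := by ring
            _ ≤ s * D := mul_le_mul_of_nonneg_left hsD hs0.le
        have h9 : 0 < s * D := by positivity
        rw [h7]
        nlinarith

/-- a convex combination of laws is good if the geometric mean of the sums is small -/
theorem good_mixture {B : Type} [Fintype B] (μ : ZMod p → ℝ) (hμ : ∑ a, μ a = 1)
    (m : B → ℝ) (ν : B → ZMod p → ℝ) (hm0 : ∀ b, 0 ≤ m b) (hν0 : ∀ b a, 0 ≤ ν b a)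
    (hν : ∀ b, ∑ a, ν b a = 1) (hmix : ∀ a, μ a = ∑ b, m b * ν b a)
    (t : ℝ) (ht1 : 1 ≤ t) (ht2 : t < 2)
    (hL : ∏ b, (∑ c, mw (ν b) c ^ t) ^ (6 * m b) < (p : ℝ) ^ (2 - t)) : Good μ := by
  have hp0 : (0 : ℝ) < p := by exact_mod_cast hp.out.pos
  have hmw : ∀ b, ∑ a, m b * ν b a = m b := fun b => by rw [← Finset.mul_sum, hν b, mul_one]
  have hm1 : ∑ b, m b = 1 := by
    rw [← hμ, Finset.sum_congr rfl (fun a _ => hmix a), Finset.sum_comm]
    exact Finset.sum_congr rfl fun b _ => (hmw b).symm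
  have hz : ∀ b, mw (ν b) 0 = 1 := fun b => mw_zero (ν b) (hν b)
  have h0 : ∀ b c, 0 ≤ mw (ν b) c := fun b c => norm_nonneg _
  have hle : ∀ b c, mw (ν b) c ≤ 1 := fun b c => by
    unfold mw muhat
    calc ‖∑ a, (ν b a : ℂ) * ZMod.stdAddChar (a * c)‖ ≤
          ∑ a, ‖(ν b a : ℂ) * ZMod.stdAddChar (a * c)‖ := norm_sum_le _ _
      _ = ∑ a, ν b a := by
          apply Finset.sum_congr rfl
          intro a _
          rw [norm_mul, AddChar.norm_apply, mul_one, Complex.norm_real, Real.norm_eq_abs,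
            abs_of_nonneg (hν0 b a)]
      _ = 1 := hν b
  have hL1 : ∀ b, 1 ≤ ∑ c, mw (ν b) c ^ t := fun b => by
    have h1 : (1 : ℝ) = mw (ν b) 0 ^ t := by rw [hz b, Real.one_rpow]
    rw [h1]
    exact Finset.single_le_sum (f := fun c => mw (ν b) c ^ t)
      (fun c _ => Real.rpow_nonneg (h0 b c) t) (Finset.mem_univ 0)
  have hLp : ∀ b, ∑ c, mw (ν b) c ^ t ≤ p := fun b => by
    calc ∑ c, mw (ν b) c ^ t ≤ ∑ _c : ZMod p, (1 : ℝ) :=
          Finset.sum_le_sum fun c _ => Real.rpow_le_one (h0 b c) (hle b c) (by linarith)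
      _ = p := by rw [Finset.sum_const, Finset.card_univ, ZMod.card, nsmul_eq_mul, mul_one]
  obtain ⟨s, hs0, hs1, hs⟩ := exists_s5 m (fun b => ∑ c, mw (ν b) c ^ t) hm0 hm1 hL1 hLp
    (τ := 2 - t) hL
  apply good_mix_t μ (fun b a => m b * ν b a) (fun b => mw (ν b)) (t := t) (ht1 := ht1)
    (ht2 := ht2) (s := s) (hs0 := hs0) (hs1 := hs1) (hμ := hμ)
  · exact hmix
  · exact fun b a => mul_nonneg (hm0 b) (hν0 b a)
  · exact h0
  · exact hle
  · exact hz
  · intro b c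
    rw [hmw b]
    have h1 : muhat (fun a => m b * ν b a) c = (m b : ℂ) * muhat (ν b) c := by
      unfold muhat
      rw [Finset.mul_sum]
      apply Finset.sum_congr rfl
      intro a _
      push_cast
      ring
    rw [h1, norm_mul, Complex.norm_real, Real.norm_eq_abs, abs_of_nonneg (hm0 b)]
    exact le_rfl
  · simp only [hmw]
    exact hs

/-- the comparison with permutations for convex combinations -/
theorem mixture_cmp {B : Type} [Fintype B] (μ : ZMod p → ℝ) (h0 : ∀ a, 0 ≤ μ a)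
    (hμ : ∑ a, μ a = 1) (hlt : ∀ a, μ a < 1)
    (m : B → ℝ) (ν : B → ZMod p → ℝ) (hm0 : ∀ b, 0 ≤ m b) (hν0 : ∀ b a, 0 ≤ ν b a)
    (hν : ∀ b, ∑ a, ν b a = 1) (hmix : ∀ a, μ a = ∑ b, m b * ν b a)
    (t : ℝ) (ht1 : 1 ≤ t) (ht2 : t < 2)
    (hL : ∏ b, (∑ c, mw (ν b) c ^ t) ^ (6 * m b) < (p : ℝ) ^ (2 - t)) (x : ℝ) (hx : 0 < x) :
    ∀ ε : ℝ, 0 < ε → ∃ N : ℕ, ∀ n k : ℕ, N ≤ n → x * n ≤ k →
      |Pr μ n (Fac (fun d => d ≤ k)) - cperm n k| ≤ ε := by
  refine good_cmp μ h0 hμ hlt (fun c hc => ?_) x hx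
  apply good_mixture (mus μ c) (sum_mus hμ hc) m (fun b => mus (ν b) c) hm0
    (fun b => mus_nonneg (hν0 b) c) (fun b => sum_mus (hν b) hc) (fun a => hmix (c * a)) t ht1 ht2
  have h1 : ∏ b, (∑ c', mw (mus (ν b) c) c' ^ t) ^ (6 * m b) =
      ∏ b, (∑ c, mw (ν b) c ^ t) ^ (6 * m b) := by
    apply Finset.prod_congr rfl
    intro b _
    rw [sum_mw_mus (ν b) hc t]
  rw [h1]
  exact hL

end Pool.Agent.MP0a1886
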