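import Pool.Agent.MP0a1886.Min.Big

/-! Elementary symmetric sums over the irreducible factors (MP_0a1886_pr). -/

set_option autoImplicit false
set_option linter.unusedSectionVars false
open Finset Polynomial Filter Topology

namespace Pool.Agent.MP0a1886

/-- the elementary symmetric sum -/
noncomputable def er {α : Type*} (x : α → ℝ) (r : ℕ) (D : Finset α) : ℝ :=
  ∑ T ∈ D.powersetCard r, ∏ a ∈ T, x a

lemma er_succ {α : Type*} [DecidableEq α] (x : α → ℝ) (r : ℕ) (D : Finset α) :
    ((r : ℝ) + 1) * er x (r + 1) D = ∑ a ∈ D, x a * er x r (D.erase a) := by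
  unfold er
  have h1 : ((r : ℝ) + 1) * ∑ T ∈ D.powersetCard (r + 1), ∏ a ∈ T, x a =
      ∑ T ∈ D.powersetCard (r + 1), ∑ _a ∈ T, ∏ a ∈ T, x a := by
    rw [Finset.mul_sum]
    apply Finset.sum_congr rfl
    intro T hT
    rw [Finset.sum_const, (Finset.mem_powersetCard.1 hT).2, nsmul_eq_mul]
    push_cast
    ring
  rw [h1, Finset.sum_sigma']
  simp_rw [Finset.mul_sum]
  rw [Finset.sum_sigma']
  refine Finset.sum_bij' (fun q _ => ⟨q.2, q.1.erase q.2⟩) (fun q _ => ⟨insert q.1 q.2, q.1⟩)
    ?_ ?_ ?_ ?_ ?_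
  · rintro ⟨T, a⟩ hq
    rw [Finset.mem_sigma, Finset.mem_powersetCard] at hq
    obtain ⟨⟨h2, h3⟩, h4⟩ := hq
    rw [Finset.mem_sigma, Finset.mem_powersetCard]
    refine ⟨h2 h4, Finset.erase_subset_erase _ h2, ?_⟩
    rw [Finset.card_erase_of_mem h4, h3]
    rfl
  · rintro ⟨a, T⟩ hq
    rw [Finset.mem_sigma, Finset.mem_powersetCard] at hq
    obtain ⟨h2, h3, h4⟩ := hq
    have haT : a ∉ T := fun h => (Finset.mem_erase.1 (h3 h)).1 rfl
    rw [Finset.mem_sigma, Finset.mem_powersetCard]
    refine ⟨⟨?_, ?_⟩, Finset.mem_insert_self _ _⟩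
    · intro b hb
      rcases Finset.mem_insert.1 hb with h | h
      · rw [h]
        exact h2
      · exact (Finset.mem_erase.1 (h3 h)).2
    · rw [Finset.card_insert_of_notMem haT, h4]
  · rintro ⟨T, a⟩ hq
    rw [Finset.mem_sigma] at hq
    simp only
    rw [Finset.insert_erase hq.2]
  · rintro ⟨a, T⟩ hq
    rw [Finset.mem_sigma, Finset.mem_powersetCard] at hq
    obtain ⟨h2, h3, h4⟩ := hq
    have haT : a ∉ T := fun h => (Finset.mem_erase.1 (h3 h)).1 rfl
    simp only
    rw [Finset.erase_insert haT]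
  · rintro ⟨T, a⟩ hq
    rw [Finset.mem_sigma] at hq
    simp only
    rw [Finset.mul_prod_erase T x hq.2]

lemma er_zero {α : Type*} (x : α → ℝ) (D : Finset α) : er x 0 D = 1 := by
  unfold er
  rw [Finset.powersetCard_zero, Finset.sum_singleton, Finset.prod_empty]

lemma er_nonneg {α : Type*} (x : α → ℝ) (r : ℕ) (D : Finset α) (hx : ∀ a ∈ D, 0 ≤ x a) :
    0 ≤ er x r D := by
  unfold er
  apply Finset.sum_nonneg
  intro T hT
  apply Finset.prod_nonneg
  intro a ha
  exact hx a ((Finset.mem_powersetCard.1 hT).1 ha)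

lemma er_lower {α : Type*} [DecidableEq α] (x : α → ℝ) (b : ℝ) (r : ℕ) :
    ∀ (D : Finset α) (S : ℝ), (∀ a ∈ D, 0 ≤ x a) → (∀ a ∈ D, x a ≤ b) → S ≤ ∑ a ∈ D, x a →
    (∀ j : ℕ, j < r → 0 ≤ S - j * b) →
    ∏ j ∈ Finset.range r, (S - j * b) ≤ r.factorial * er x r D := by
  induction r with
  | zero =>
    intro D S _ _ _ _
    rw [er_zero]
    simp
  | succ r ih =>
    intro D S hx hb hS hpos
    have h1 : ((r + 1).factorial : ℝ) * er x (r + 1) D =
        ∑ a ∈ D, x a * (r.factorial * er x r (D.erase a)) := by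
      rw [Nat.factorial_succ]
      push_cast
      have h2 := er_succ x r D
      calc ((r : ℝ) + 1) * r.factorial * er x (r + 1) D =
          r.factorial * (((r : ℝ) + 1) * er x (r + 1) D) := by ring
        _ = _ := by
          rw [h2, Finset.mul_sum]
          apply Finset.sum_congr rfl
          intro a _
          ring
    rw [h1]
    have h3 : ∀ a ∈ D, ∏ j ∈ Finset.range r, ((S - b) - j * b) ≤
        r.factorial * er x r (D.erase a) := by
      intro a ha
      apply ih (D.erase a) (S - b) (fun c hc => hx c (Finset.mem_erase.1 hc).2)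
        (fun c hc => hb c (Finset.mem_erase.1 hc).2)
      · have h4 := Finset.add_sum_erase D x ha
        have h5 := hb a ha
        linarith
      · intro j hj
        have h4 := hpos (j + 1) (by omega)
        push_cast at h4
        linarith
    have h0 : 0 ≤ S := by
      have := hpos 0 (by omega)
      simpa using this
    have h6 : 0 ≤ ∏ j ∈ Finset.range r, ((S - b) - j * b) := by
      apply Finset.prod_nonneg
      intro j hj
      have h4 := hpos (j + 1) (by have := Finset.mem_range.1 hj; omega)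
      push_cast at h4
      linarith
    rw [Finset.prod_range_succ']
    have h7 : ∏ k ∈ Finset.range r, (S - ((k + 1 : ℕ) : ℝ) * b) =
        ∏ j ∈ Finset.range r, ((S - b) - j * b) := by
      apply Finset.prod_congr rfl
      intro j _
      push_cast
      ring
    rw [h7]
    calc (∏ j ∈ Finset.range r, ((S - b) - j * b)) * (S - ((0 : ℕ) : ℝ) * b) =
        S * ∏ j ∈ Finset.range r, ((S - b) - j * b) := by push_cast; ring
      _ ≤ (∑ a ∈ D, x a) * ∏ j ∈ Finset.range r, ((S - b) - j * b) :=
          mul_le_mul_of_nonneg_right hS h6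
      _ = ∑ a ∈ D, x a * ∏ j ∈ Finset.range r, ((S - b) - j * b) := by rw [Finset.sum_mul]
      _ ≤ _ := Finset.sum_le_sum fun a ha => mul_le_mul_of_nonneg_left (h3 a ha) (hx a ha)

lemma er_upper {α : Type*} [DecidableEq α] (x : α → ℝ) (r : ℕ) :
    ∀ (D : Finset α), (∀ a ∈ D, 0 ≤ x a) → r.factorial * er x r D ≤ (∑ a ∈ D, x a) ^ r := by
  induction r with
  | zero =>
    intro D _
    rw [er_zero]
    simp
  | succ r ih =>
    intro D hx
    have h1 : ((r + 1).factorial : ℝ) * er x (r + 1) D =
        ∑ a ∈ D, x a * (r.factorial * er x r (D.erase a)) := by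
      rw [Nat.factorial_succ]
      push_cast
      have h2 := er_succ x r D
      calc ((r : ℝ) + 1) * r.factorial * er x (r + 1) D =
          r.factorial * (((r : ℝ) + 1) * er x (r + 1) D) := by ring
        _ = _ := by
          rw [h2, Finset.mul_sum]
          apply Finset.sum_congr rfl
          intro a _
          ring
    rw [h1, pow_succ, mul_comm _ (∑ a ∈ D, x a), Finset.sum_mul]
    apply Finset.sum_le_sum
    intro a ha
    apply mul_le_mul_of_nonneg_left _ (hx a ha)
    have hx' : ∀ c ∈ D.erase a, 0 ≤ x c := fun c hc => hx c (Finset.mem_erase.1 hc).2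
    refine (ih (D.erase a) hx').trans ?_
    apply pow_le_pow_left₀ (Finset.sum_nonneg hx')
    exact Finset.sum_le_sum_of_subset_of_nonneg (Finset.erase_subset _ _) fun c hc _ => hx c hc

end Pool.Agent.MP0a1886
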