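import Pool.Agent.MP0a1886.Min.Sm1

/-! The expectation of the elementary symmetric sums (MP_0a1886_pr). -/

set_option autoImplicit false
set_option linter.unusedSectionVars false
open Finset Polynomial Filter Topology

namespace Pool.Agent.MP0a1886

variable {p : ℕ} [hp : Fact p.Prime]

/-- the degree as a real number -/
noncomputable def dgr (P : (ZMod p)[X]) : ℝ := (P.natDegree : ℝ)

lemma irI_prod_dvd {a b : ℕ} {T : Finset (ZMod p)[X]} (hT : T ⊆ irI p a b) (f : (ZMod p)[X]) :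
    (∏ P ∈ T, P) ∣ f ↔ ∀ P ∈ T, P ∣ f := by
  constructor
  · intro h P hP
    exact (Finset.dvd_prod_of_mem (fun P => P) hP).trans h
  · intro h
    apply Finset.prod_dvd_of_coprime
    · intro P hP Q hQ hPQ
      rw [Finset.mem_coe] at hP hQ
      rw [Function.onFun, (mem_irI.1 (hT hP)).2.1.coprime_iff_not_dvd]
      intro h1
      apply hPQ
      exact Polynomial.eq_of_monic_of_associated (mem_irI.1 (hT hP)).1 (mem_irI.1 (hT hQ)).1
        ((mem_irI.1 (hT hP)).2.1.associated_of_dvd (mem_irI.1 (hT hQ)).2.1 h1)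
    · exact h

lemma irI_prod_inj {a b : ℕ} {T U : Finset (ZMod p)[X]} (hT : T ⊆ irI p a b) (hU : U ⊆ irI p a b)
    (h : ∏ P ∈ T, P = ∏ P ∈ U, P) : T = U := by
  have key : ∀ T U : Finset (ZMod p)[X], T ⊆ irI p a b → U ⊆ irI p a b →
      ∏ P ∈ T, P = ∏ P ∈ U, P → T ⊆ U := by
    intro T U hT hU h P hP
    have h1 : P ∣ ∏ Q ∈ U, Q := by
      rw [← h]
      exact Finset.dvd_prod_of_mem (fun P => P) hP
    obtain ⟨Q, hQ, hPQ⟩ := ((mem_irI.1 (hT hP)).2.1.prime.dvd_finsetProd_iff _).1 h1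
    have h2 : P = Q := Polynomial.eq_of_monic_of_associated (mem_irI.1 (hT hP)).1
      (mem_irI.1 (hU hQ)).1 ((mem_irI.1 (hT hP)).2.1.associated_of_dvd (mem_irI.1 (hU hQ)).2.1 hPQ)
    rw [h2]
    exact hQ
  exact Finset.Subset.antisymm (key T U hT hU h) (key U T hU hT h.symm)

lemma irI_prod_monic {a b : ℕ} {T : Finset (ZMod p)[X]} (hT : T ⊆ irI p a b) :
    (∏ P ∈ T, P).Monic :=
  Polynomial.monic_prod_of_monic _ _ fun _ hP => (mem_irI.1 (hT hP)).1

lemma irI_prod_degree {a b : ℕ} {T : Finset (ZMod p)[X]} (hT : T ⊆ irI p a b) :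
    (∏ P ∈ T, P).natDegree = ∑ P ∈ T, P.natDegree :=
  Polynomial.natDegree_prod_of_monic _ _ fun _ hP => (mem_irI.1 (hT hP)).1

lemma irI_prod_rough {a b m : ℕ} (hm : m ≤ a) {T : Finset (ZMod p)[X]} (hT : T ⊆ irI p a b) :
    Fac (fun d => m < d) (∏ P ∈ T, P) := by
  intro Q hQ hQd
  obtain ⟨P, hP, hj⟩ := (hQ.prime.dvd_finsetProd_iff _).1 hQd
  have h1 := (hQ.associated_of_dvd (mem_irI.1 (hT hP)).2.1 hj)
  have h2 : Q.natDegree = P.natDegree := Polynomial.natDegree_eq_of_degree_eq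
    (Polynomial.degree_eq_degree_of_associated h1)
  rw [h2]
  exact lt_of_le_of_lt hm (mem_irI.1 (hT hP)).2.2.1

open Classical in
/-- the elementary symmetric sum of the degrees of the irreducible factors with degree in
`(a, b]` (zero if `f = 0`) -/
noncomputable def esf (a b r : ℕ) (f : (ZMod p)[X]) : ℝ :=
  if f = 0 then 0 else er dgr r ((irI p a b).filter (fun P => P ∣ f))

lemma esf_nonneg (a b r : ℕ) (f : (ZMod p)[X]) : 0 ≤ esf a b r f := by
  classical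
  unfold esf
  split_ifs
  · exact le_rfl
  · apply er_nonneg
    intro P _
    unfold dgr
    positivity

lemma Ex_esf (μ : ZMod p → ℝ) (n a b r : ℕ) :
    Ex μ n (esf a b r) = ∑ T ∈ (irI p a b).powersetCard r,
      (∏ P ∈ T, dgr P) * Pr μ n (fun f => (∏ P ∈ T, P) ∣ f ∧ f ≠ 0) := by
  classical
  unfold Ex
  have h1 : ∀ T : Finset (ZMod p)[X], Pr μ n (fun f => (∏ P ∈ T, P) ∣ f ∧ f ≠ 0) =
      ∑ ε : Fin (n + 1) → ZMod p, wt μ n ε *
        (if (∏ P ∈ T, P) ∣ rpoly n ε ∧ rpoly n ε ≠ 0 then 1 else 0) := by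
    intro T
    rw [Pr_eq]
    apply Finset.sum_congr rfl
    intro ε _
    split_ifs <;> simp
  simp_rw [h1, Finset.mul_sum]
  rw [Finset.sum_comm]
  apply Finset.sum_congr rfl
  intro ε _
  have h2 : ∀ T : Finset (ZMod p)[X], (∏ P ∈ T, dgr P) * (wt μ n ε *
      (if (∏ P ∈ T, P) ∣ rpoly n ε ∧ rpoly n ε ≠ 0 then (1 : ℝ) else 0)) =
      wt μ n ε * ((∏ P ∈ T, dgr P) *
        (if (∏ P ∈ T, P) ∣ rpoly n ε ∧ rpoly n ε ≠ 0 then 1 else 0)) := fun T => by ring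
  rw [Finset.sum_congr rfl (fun T _ => h2 T), ← Finset.mul_sum]
  congr 1
  unfold esf
  by_cases h0 : rpoly n ε = 0
  · rw [if_pos h0]
    symm
    apply Finset.sum_eq_zero
    intro T _
    rw [if_neg (fun h => h.2 h0), mul_zero]
  · rw [if_neg h0]
    unfold er
    have h3 : ((irI p a b).filter (fun P => P ∣ rpoly n ε)).powersetCard r =
        ((irI p a b).powersetCard r).filter (fun T => ∀ P ∈ T, P ∣ rpoly n ε) := by
      ext T
      rw [Finset.mem_powersetCard, Finset.mem_filter, Finset.mem_powersetCard]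
      constructor
      · rintro ⟨h4, h5⟩
        exact ⟨⟨fun P hP => (Finset.mem_filter.1 (h4 hP)).1, h5⟩,
          fun P hP => (Finset.mem_filter.1 (h4 hP)).2⟩
      · rintro ⟨⟨h4, h5⟩, h6⟩
        exact ⟨fun P hP => Finset.mem_filter.2 ⟨h4 hP, h6 P hP⟩, h5⟩
    rw [h3, Finset.sum_filter]
    apply Finset.sum_congr rfl
    intro T hT
    have h4 := irI_prod_dvd (Finset.mem_powersetCard.1 hT).1 (rpoly n ε)
    by_cases h5 : ∀ P ∈ T, P ∣ rpoly n ε
    · rw [if_pos h5, if_pos ⟨h4.2 h5, h0⟩, mul_one]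
    · rw [if_neg h5, if_neg (fun h => h5 (h4.1 h.1)), mul_zero]

/-- the sum of the degrees over the irreducible polynomials -/
lemma sum_dgr (a b : ℕ) : ∑ P ∈ irI p a b, dgr P * ((p : ℝ) ^ P.natDegree)⁻¹ ≤ b := by
  classical
  have hp0 : (0 : ℝ) < p := by exact_mod_cast hp.out.pos
  unfold irI
  rw [Finset.sum_biUnion]
  · have h1 : ∀ k ∈ Finset.Ioc a b, ∑ P ∈ irr p k, dgr P * ((p : ℝ) ^ P.natDegree)⁻¹ ≤ 1 := by
      intro k hk
      have hk0 : k ≠ 0 := by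
        have := (Finset.mem_Ioc.1 hk).1
        omega
      have h2 : ∀ P ∈ irr p k, dgr P * ((p : ℝ) ^ P.natDegree)⁻¹ = (k : ℝ) * ((p : ℝ) ^ k)⁻¹ := by
        intro P hP
        unfold dgr
        rw [(mem_irr.1 hP).2.1]
      rw [Finset.sum_congr rfl h2, Finset.sum_const, nsmul_eq_mul]
      have h3 : ((irr p k).card : ℝ) * (k * ((p : ℝ) ^ k)⁻¹) =
          ((k * (irr p k).card : ℕ) : ℝ) / (p : ℝ) ^ k := by
        push_cast
        field_simp
      rw [h3, div_le_one (by positivity)]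
      exact_mod_cast mul_card_irr_le (p := p) k hk0
    refine (Finset.sum_le_sum h1).trans ?_
    rw [Finset.sum_const, Nat.card_Ioc, nsmul_eq_mul, mul_one]
    exact_mod_cast Nat.sub_le b a
  · intro i _ j _ hij
    rw [Function.onFun, Finset.disjoint_left]
    intro P hP hP'
    exact hij ((mem_irr.1 hP).2.1.symm.trans (mem_irr.1 hP').2.1)

lemma esf_bound (μ : ZMod p → ℝ) (n a b r m : ℕ) (hr : 0 < r) (hm : m ≤ a) (E : ℝ)
    (hE : ∀ k : ℕ, 1 ≤ k → k ≤ r * b → ∀ H : Finset (ZMod p)[X],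
      (∀ h ∈ H, h.Monic ∧ h.natDegree = k ∧ Fac (fun d => m < d) h) →
      ∑ h ∈ H, |Pr μ n (fun f => h ∣ f ∧ f ≠ 0) - ((p : ℝ) ^ k)⁻¹| ≤ E) :
    r.factorial * Ex μ n (esf a b r) ≤
      (b : ℝ) ^ r * (1 + r.factorial * ((r * b : ℕ) * E)) := by
  classical
  have hp0 : (0 : ℝ) < p := by exact_mod_cast hp.out.pos
  rw [Ex_esf]
  obtain ⟨I, hI⟩ : ∃ I, I = irI p a b := ⟨_, rfl⟩
  rw [← hI]
  have hsub : ∀ T ∈ I.powersetCard r, T ⊆ irI p a b := fun T hT => by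
    rw [← hI]
    exact (Finset.mem_powersetCard.1 hT).1
  have hdeg : ∀ T ∈ I.powersetCard r, 0 ≤ ∏ P ∈ T, dgr P ∧ ∏ P ∈ T, dgr P ≤ (b : ℝ) ^ r := by
    intro T hT
    have h1 : ∀ P ∈ T, 0 ≤ dgr P ∧ dgr P ≤ (b : ℝ) := by
      intro P hP
      have h2 := (mem_irI.1 (hsub T hT hP)).2.2.2
      unfold dgr
      exact ⟨by positivity, by exact_mod_cast h2⟩
    refine ⟨Finset.prod_nonneg fun P hP => (h1 P hP).1, ?_⟩
    refine (Finset.prod_le_prod (fun P hP => (h1 P hP).1) (fun P hP => (h1 P hP).2)).trans ?_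
    rw [Finset.prod_const, (Finset.mem_powersetCard.1 hT).2]
  -- split
  have h1 : ∑ T ∈ I.powersetCard r,
      (∏ P ∈ T, dgr P) * Pr μ n (fun f => (∏ P ∈ T, P) ∣ f ∧ f ≠ 0) ≤
      er (fun P => dgr P * ((p : ℝ) ^ P.natDegree)⁻¹) r I +
      (b : ℝ) ^ r * ∑ T ∈ I.powersetCard r,
        |Pr μ n (fun f => (∏ P ∈ T, P) ∣ f ∧ f ≠ 0) - ((p : ℝ) ^ (∏ P ∈ T, P).natDegree)⁻¹| := by
    unfold er
    rw [Finset.mul_sum, ← Finset.sum_add_distrib]
    apply Finset.sum_le_sum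
    intro T hT
    have h2 : ∏ P ∈ T, dgr P * ((p : ℝ) ^ P.natDegree)⁻¹ =
        (∏ P ∈ T, dgr P) * ((p : ℝ) ^ (∏ P ∈ T, P).natDegree)⁻¹ := by
      rw [Finset.prod_mul_distrib, irI_prod_degree (hsub T hT), ← Finset.prod_pow_eq_pow_sum,
        Finset.prod_inv_distrib]
    rw [h2]
    obtain ⟨h3, h4⟩ := hdeg T hT
    have h5 := le_abs_self (Pr μ n (fun f => (∏ P ∈ T, P) ∣ f ∧ f ≠ 0) -
      ((p : ℝ) ^ (∏ P ∈ T, P).natDegree)⁻¹)
    have h6 := mul_le_mul_of_nonneg_left h5 h3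
    have h7 := mul_le_mul_of_nonneg_right h4 (abs_nonneg
      (Pr μ n (fun f => (∏ P ∈ T, P) ∣ f ∧ f ≠ 0) - ((p : ℝ) ^ (∏ P ∈ T, P).natDegree)⁻¹))
    linarith
  have h2 : ∑ T ∈ I.powersetCard r,
      |Pr μ n (fun f => (∏ P ∈ T, P) ∣ f ∧ f ≠ 0) - ((p : ℝ) ^ (∏ P ∈ T, P).natDegree)⁻¹| ≤
      (r * b : ℕ) * E := by
    obtain ⟨F, hF⟩ : ∃ F : (ZMod p)[X] → ℝ, F = fun h =>
      |Pr μ n (fun f => h ∣ f ∧ f ≠ 0) - ((p : ℝ) ^ h.natDegree)⁻¹| := ⟨_, rfl⟩
    have h3 : ∑ T ∈ I.powersetCard r, |Pr μ n (fun f => (∏ P ∈ T, P) ∣ f ∧ f ≠ 0) -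
        ((p : ℝ) ^ (∏ P ∈ T, P).natDegree)⁻¹| =
        ∑ h ∈ (I.powersetCard r).image (fun T => ∏ P ∈ T, P), F h := by
      rw [Finset.sum_image, hF]
      intro T hT U hU h
      exact irI_prod_inj (hsub T hT) (hsub U hU) h
    rw [h3]
    have hmaps : ∀ h ∈ (I.powersetCard r).image (fun T => ∏ P ∈ T, P),
        h.natDegree ∈ Finset.Icc 1 (r * b) := by
      intro h hh
      obtain ⟨T, hT, rfl⟩ := Finset.mem_image.1 hh
      have hc := (Finset.mem_powersetCard.1 hT).2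
      rw [irI_prod_degree (hsub T hT), Finset.mem_Icc]
      constructor
      · obtain ⟨P, hP⟩ := Finset.card_pos.1 (by rw [hc]; exact hr : 0 < T.card)
        have h4 : P.natDegree ≤ ∑ P ∈ T, P.natDegree :=
          Finset.single_le_sum (f := fun P : (ZMod p)[X] => P.natDegree)
            (fun _ _ => Nat.zero_le _) hP
        have h5 := (mem_irI.1 (hsub T hT hP)).2.2.1
        omega
      · refine (Finset.sum_le_card_nsmul T _ b fun P hP =>
          (mem_irI.1 (hsub T hT hP)).2.2.2).trans ?_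
        rw [hc, smul_eq_mul]
    rw [← Finset.sum_fiberwise_of_maps_to hmaps]
    have h4 : ((r * b : ℕ) : ℝ) * E = ∑ _k ∈ Finset.Icc 1 (r * b), E := by
      rw [Finset.sum_const, Nat.card_Icc, nsmul_eq_mul]
      simp
    rw [h4]
    apply Finset.sum_le_sum
    intro k hk
    rw [Finset.mem_Icc] at hk
    refine le_trans (le_of_eq ?_) (hE k hk.1 hk.2
      (((I.powersetCard r).image (fun T => ∏ P ∈ T, P)).filter (fun h => h.natDegree = k)) ?_)
    · apply Finset.sum_congr rfl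
      intro h hh
      rw [hF, ← (Finset.mem_filter.1 hh).2]
    · intro h hh
      obtain ⟨h5, h6⟩ := Finset.mem_filter.1 hh
      obtain ⟨T, hT, rfl⟩ := Finset.mem_image.1 h5
      exact ⟨irI_prod_monic (hsub T hT), h6, irI_prod_rough hm (hsub T hT)⟩
  have h3 : r.factorial * er (fun P => dgr P * ((p : ℝ) ^ P.natDegree)⁻¹) r I ≤ (b : ℝ) ^ r := by
    have hnn : ∀ P ∈ I, 0 ≤ dgr P * ((p : ℝ) ^ P.natDegree)⁻¹ := by
      intro P _
      unfold dgr
      positivity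
    refine (er_upper _ r I hnn).trans ?_
    apply pow_le_pow_left₀ (Finset.sum_nonneg hnn)
    rw [hI]
    exact sum_dgr a b
  have hfac : (0 : ℝ) ≤ r.factorial := by positivity
  have hb : (0 : ℝ) ≤ (b : ℝ) ^ r := by positivity
  calc (r.factorial : ℝ) * ∑ T ∈ I.powersetCard r,
      (∏ P ∈ T, dgr P) * Pr μ n (fun f => (∏ P ∈ T, P) ∣ f ∧ f ≠ 0)
      ≤ r.factorial * (er (fun P => dgr P * ((p : ℝ) ^ P.natDegree)⁻¹) r I +
        (b : ℝ) ^ r * ((r * b : ℕ) * E)) := by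
        apply mul_le_mul_of_nonneg_left _ hfac
        refine h1.trans ?_
        have := mul_le_mul_of_nonneg_left h2 hb
        linarith
    _ = r.factorial * er (fun P => dgr P * ((p : ℝ) ^ P.natDegree)⁻¹) r I +
        (b : ℝ) ^ r * (r.factorial * ((r * b : ℕ) * E)) := by ring
    _ ≤ (b : ℝ) ^ r + (b : ℝ) ^ r * (r.factorial * ((r * b : ℕ) * E)) := by linarith
    _ = _ := by ring

/-- Markov's inequality -/
lemma Pr_markov (μ : ZMod p → ℝ) (h0 : ∀ a, 0 ≤ μ a) (n : ℕ) (F : (ZMod p)[X] → ℝ)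
    (hF : ∀ f, 0 ≤ F f) (E : (ZMod p)[X] → Prop) (w : ℝ)
    (hw : ∀ ε : Fin (n + 1) → ZMod p, E (rpoly n ε) → w ≤ F (rpoly n ε)) :
    w * Pr μ n E ≤ Ex μ n F := by
  classical
  rw [Pr_eq, Finset.mul_sum]
  unfold Ex
  apply Finset.sum_le_sum
  intro ε _
  have h1 := wt_nonneg μ h0 n ε
  split_ifs with h
  · rw [mul_comm]
    exact mul_le_mul_of_nonneg_left (hw ε h) h1
  · rw [mul_zero]
    exact mul_nonneg h1 (hF _)

end Pool.Agent.MP0a1886
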