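import Pool.Agent.MP0a1886.Min.Sm2
import Pool.Agent.MP0a1886.Largest3

/-! Divisors with small irreducible factors have small degree (MP_0a1886_pr). -/

set_option autoImplicit false
set_option linter.unusedSectionVars false
open Finset Polynomial Filter Topology

namespace Pool.Agent.MP0a1886

variable {p : ℕ} [hp : Fact p.Prime]

lemma exp_sqrt_tendsto (c : ℝ) (hc : 0 < c) :
    Tendsto (fun n : ℕ => Real.exp (-(c * Real.sqrt n))) atTop (𝓝 0) := by
  have h1 : Tendsto (fun n : ℕ => c * Real.sqrt n) atTop atTop :=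
    (Real.tendsto_sqrt_atTop.comp tendsto_natCast_atTop_atTop).const_mul_atTop hc
  exact Real.tendsto_exp_neg_atTop_nhds_zero.comp h1

/-- divisors of `f` with all irreducible factors of degree at most `δ n` rarely have degree
at least `ε n` -/
theorem small_rare (μ : ZMod p → ℝ) (h0 : ∀ a, 0 ≤ μ a) (h1 : ∑ a, μ a = 1)
    (hlt : ∀ a, μ a < 1) (ε η : ℝ) (hε : 0 < ε) (hη : 0 < η) :
    ∃ δ : ℝ, 0 < δ ∧ ∀ᶠ n : ℕ in atTop, ∀ a : ℕ, (a : ℝ) ≤ δ * n →
      Pr μ n (fun f => f ≠ 0 ∧ ∃ g : (ZMod p)[X], g ∣ f ∧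
        (∀ P : (ZMod p)[X], Irreducible P → P ∣ g → P.natDegree ≤ a) ∧
        ε * n ≤ g.natDegree) ≤ η := by
  classical
  obtain ⟨J0, hJ0, B, c1, hB, hc1, hlev, htv⟩ := exists_params μ h0 h1 hlt
  have hJr : (1 : ℝ) ≤ J0 := by exact_mod_cast hJ0
  obtain ⟨ε1, hε1⟩ : ∃ ε1, ε1 = min ε 1 := ⟨_, rfl⟩
  have hε10 : 0 < ε1 := by rw [hε1]; exact lt_min hε one_pos
  have hε1a : ε1 ≤ ε := by rw [hε1]; exact min_le_left _ _
  have hε1b : ε1 ≤ 1 := by rw [hε1]; exact min_le_right _ _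
  obtain ⟨A, hA⟩ : ∃ A : ℝ, A = 11 * Real.exp 11 + 2 := ⟨_, rfl⟩
  have hA0 : 0 < A := by rw [hA]; positivity
  obtain ⟨R, hR⟩ : ∃ R : ℕ, (1 / 4 : ℝ) ^ R < η / (2 * A) :=
    exists_pow_lt_of_lt_one (by positivity) (by norm_num)
  have hAR : A * (1 / 4 : ℝ) ^ R ≤ η / 2 := by
    rw [lt_div_iff₀ (by positivity)] at hR
    linarith
  obtain ⟨δ, hδ⟩ : ∃ δ : ℝ, δ = ε1 / (16 * J0 * (2 * R + 3)) := ⟨_, rfl⟩
  have hδ0 : 0 < δ := by rw [hδ]; positivity
  have hδ1 : 16 * J0 * δ * (2 * R + 3) = ε1 := by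
    rw [hδ]
    have : (0 : ℝ) < J0 := by linarith
    field_simp
  obtain ⟨D, hD⟩ : ∃ D : ℕ, D = ⌈16 * (J0 : ℝ) / ε1⌉₊ := ⟨_, rfl⟩
  have hDr : 16 * (J0 : ℝ) / ε1 ≤ D := by rw [hD]; exact Nat.le_ceil _
  have hD0 : 0 < D := by
    have h2 : (0 : ℝ) < D := lt_of_lt_of_le (by positivity) hDr
    exact_mod_cast h2
  have hDr' : 16 * (J0 : ℝ) ≤ D * ε1 := by
    rwa [div_le_iff₀ hε10] at hDr
  obtain ⟨C2, c2, hC2, hc2, hpow2⟩ := pow_le_exp_sqrt (μ 0) (h0 0) (hlt 0) D hD0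
  obtain ⟨C3, c3, hC3, hc3, hpow3⟩ := pow_le_exp_sqrt (1 / 2) (by norm_num) (by norm_num) D hD0
  refine ⟨δ, hδ0, ?_⟩
  have hlim : Tendsto (fun n : ℕ => C2 * Real.exp (-(c2 * Real.sqrt n)) +
      2 * B * Real.exp (-(c1 * Real.sqrt n)) + C3 * Real.exp (-(c3 * Real.sqrt n))) atTop
      (𝓝 0) := by
    have h2 := (((exp_sqrt_tendsto c2 hc2).const_mul C2).add
      ((exp_sqrt_tendsto c1 hc1).const_mul (2 * B))).add ((exp_sqrt_tendsto c3 hc3).const_mul C3)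
    simpa using h2
  have hev := hlim.eventually (gt_mem_nhds (by positivity : (0 : ℝ) < η / 2))
  have hN : ∀ᶠ n : ℕ in atTop, 1 ≤ δ * n :=
    (tendsto_natCast_atTop_atTop.const_mul_atTop hδ0).eventually (eventually_ge_atTop 1)
  filter_upwards [hev, hN, eventually_ge_atTop 1] with n hn hn2 hn1 a0 ha0
  have hn0 : (0 : ℝ) < n := by exact_mod_cast hn1
  have hnr : (1 : ℝ) ≤ n := by exact_mod_cast hn1
  -- replace `a0` by the floor of `δ n`
  obtain ⟨a, ha⟩ : ∃ a : ℕ, a = ⌊δ * n⌋₊ := ⟨_, rfl⟩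
  have ha0a : a0 ≤ a := by rw [ha]; exact Nat.le_floor ha0
  have haδ : (a : ℝ) ≤ δ * n := by rw [ha]; exact Nat.floor_le (by positivity)
  have ha1 : 1 ≤ a := by rw [ha]; exact Nat.le_floor (by exact_mod_cast hn2)
  obtain ⟨K, hK⟩ : ∃ K : ℕ, K = 4 * a * (2 * R + 3) := ⟨_, rfl⟩
  obtain ⟨t, ht⟩ : ∃ t : ℕ, t = n / D := ⟨_, rfl⟩
  have htD : (t : ℝ) * D ≤ n := by
    have : t * D ≤ n := by rw [ht]; exact Nat.div_mul_le_self n D
    exact_mod_cast this
  have htJ : 16 * (J0 : ℝ) * t ≤ ε1 * n := by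
    have h2 := mul_le_mul_of_nonneg_left hDr' (by positivity : (0 : ℝ) ≤ t)
    have h3 := mul_le_mul_of_nonneg_left htD hε10.le
    linarith
  have htJ' : 16 * (t : ℝ) ≤ ε1 * n := by
    have h2 : (t : ℝ) ≤ J0 * t := le_mul_of_one_le_left (by positivity) hJr
    linarith
  have haJ : 16 * (J0 : ℝ) * a * (2 * R + 3) ≤ ε1 * n := by
    have h2 := mul_le_mul_of_nonneg_left haδ (by positivity : (0 : ℝ) ≤ 16 * J0 * (2 * R + 3))
    have h3 : 16 * (J0 : ℝ) * (2 * R + 3) * (δ * n) = ε1 * n := by rw [← hδ1]; ring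
    rw [h3] at h2
    linarith
  have hε1n : ε1 * n ≤ n := mul_le_of_le_one_left hn0.le hε1b
  have hKr : 4 * (K : ℝ) ≤ ε1 * n := by
    have h2 : (K : ℝ) = 4 * a * (2 * R + 3) := by rw [hK]; push_cast; ring
    have h3 : 16 * (a : ℝ) * (2 * R + 3) ≤ J0 * (16 * (a : ℝ) * (2 * R + 3)) :=
      le_mul_of_one_le_left (by positivity) hJr
    rw [h2]
    linarith
  have hp1 : 16 * J0 * a * (2 * R + 3) ≤ n := by
    have : ((16 * J0 * a * (2 * R + 3) : ℕ) : ℝ) ≤ n := by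
      push_cast
      linarith
    exact_mod_cast this
  have han : a ≤ n := by
    have h2 : a * 1 ≤ 16 * J0 * a * (2 * R + 3) := by
      have h3 : 1 ≤ 16 * J0 * (2 * R + 3) := by
        have : 1 ≤ J0 := hJ0
        nlinarith
      calc a * 1 ≤ a * (16 * J0 * (2 * R + 3)) := Nat.mul_le_mul_left _ h3
        _ = _ := by ring
    omega
  have htn : t ≤ n := by rw [ht]; exact Nat.div_le_self n D
  have h4 : 4 * J0 * (t + a) ≤ n := by
    have h5 : (4 * (J0 : ℝ)) * (t + a) ≤ n := by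
      have h6 : 16 * (J0 : ℝ) * a ≤ 16 * (J0 : ℝ) * a * (2 * R + 3) :=
        le_mul_of_one_le_right (by positivity) (by
          have : (0 : ℝ) ≤ R := by positivity
          linarith)
      linarith
    exact_mod_cast h5
  -- inclusion of events
  have hincl : Pr μ n (fun f => f ≠ 0 ∧ ∃ g : (ZMod p)[X], g ∣ f ∧
        (∀ P : (ZMod p)[X], Irreducible P → P ∣ g → P.natDegree ≤ a0) ∧
        ε * n ≤ g.natDegree) ≤ Pr μ n (fun f => X ^ (t + 1) ∣ f ∨
          ((fun Q : Finset (ZMod p)[X] => K < ∑ P ∈ Q, P.natDegree)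
            (facs (prs p 0 a) f) ∨ ∃ k ∈ Finset.Ico t (t + a),
              ∃ g ∈ (mon p k).filter (fun g => g.coeff 0 ≠ 0), g ^ 2 ∣ f)) := by
    apply Pr_mono μ h0
    rintro ω ⟨hf0, g, hgf, hgs, hgd⟩
    by_cases hcx : X ^ (t + 1) ∣ rpoly n ω
    · exact Or.inl hcx
    by_cases hd : K < ∑ P ∈ facs (prs p 0 a) (rpoly n ω), P.natDegree
    · exact Or.inr (Or.inl hd)
    · right; right
      have hg0 : g ≠ 0 := ne_zero_of_dvd_ne_zero hf0 hgf
      have hsub : facs (prs p 0 a) g ⊆ facs (prs p 0 a) (rpoly n ω) := by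
        intro P hP
        unfold facs at hP ⊢
        rw [Finset.mem_filter] at hP ⊢
        exact ⟨hP.1, hP.2.trans hgf⟩
      have hsum : ∑ P ∈ facs (prs p 0 a) g, P.natDegree ≤ K :=
        (Finset.sum_le_sum_of_subset hsub).trans (not_lt.1 hd)
      obtain ⟨g1, hg1, hg2, hg3, hg4, hg5⟩ := exists_square ⌈ε * n⌉₊ t t K a ha1 (by
          have h5 : (ε * n : ℝ) ≤ ⌈ε * (n : ℝ)⌉₊ := Nat.le_ceil _
          have h6 : ε1 * n ≤ ε * n := mul_le_mul_of_nonneg_right hε1a hn0.le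
          have h7 : ((2 * t + K + 2 * t : ℕ) : ℝ) ≤ ⌈ε * (n : ℝ)⌉₊ := by
            push_cast
            linarith
          exact_mod_cast h7)
        g hg0 (by
          have h5 : ⌈ε * (n : ℝ)⌉₊ ≤ g.natDegree := Nat.ceil_le.2 hgd
          omega) (fun h => hcx (h.trans hgf)) (fun P hP hPg => (hgs P hP hPg).trans ha0a) hsum
      refine ⟨g1.natDegree, Finset.mem_Ico.2 ⟨hg3, hg4⟩, g1, ?_, hg5.trans hgf⟩
      rw [Finset.mem_filter, mem_mon]
      exact ⟨⟨hg1, rfl⟩, hg2⟩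
  refine hincl.trans ?_
  refine (Pr_or_le μ h0 n _ _).trans ?_
  have hE1 : Pr μ n (fun f => X ^ (t + 1) ∣ f) ≤ C2 * Real.exp (-(c2 * Real.sqrt n)) := by
    refine (Pr_X_pow_dvd μ h0 h1 n t htn).trans ?_
    refine le_trans ?_ (hpow2 n)
    have h5 : μ 0 ^ (t + 1) ≤ μ 0 ^ t :=
      pow_le_pow_of_le_one (h0 0) (hlt 0).le (by omega)
    have h6 : 0 ≤ μ 0 ^ t := pow_nonneg (h0 0) _
    rw [← ht]
    exact h5.trans (le_mul_of_one_le_left h6 hnr)
  have hE2 : Pr μ n (fun f => (fun Q : Finset (ZMod p)[X] => K < ∑ P ∈ Q, P.natDegree)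
          (facs (prs p 0 a) f)) ≤ A * (1 / 4 : ℝ) ^ R + B * Real.exp (-(c1 * Real.sqrt n)) := by
    have h2 := htv n a R ha1 han hp1 (fun Q : Finset (ZMod p)[X] => K < ∑ P ∈ Q, P.natDegree)
    have h3 := model_tail_prs (p := p) a R ha1
    rw [← hK] at h3
    have h5 := (abs_le.1 h2).2
    rw [hA]
    linarith
  have hE3 : Pr μ n (fun f => ∃ k ∈ Finset.Ico t (t + a),
            ∃ g ∈ (mon p k).filter (fun g => g.coeff 0 ≠ 0), g ^ 2 ∣ f) ≤
      C3 * Real.exp (-(c3 * Real.sqrt n)) + B * Real.exp (-(c1 * Real.sqrt n)) := by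
    refine (Pr_exists_le μ h0 n _ _).trans ?_
    have h2 : ∀ k ∈ Finset.Ico t (t + a), Pr μ n (fun f =>
        ∃ g ∈ (mon p k).filter (fun g => g.coeff 0 ≠ 0), g ^ 2 ∣ f) ≤
        (1 / 2) ^ t + B * Real.exp (-(c1 * Real.sqrt n)) / n ^ 3 := by
      intro k hk
      rw [Finset.mem_Ico] at hk
      refine (Pr_square μ h0 h1 n k).trans ?_
      apply add_le_add
      · exact pow_le_pow_of_le_one (by norm_num) (by norm_num) hk.1
      · apply hlev n (2 * k) hn1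
        have h3 : k ≤ t + a := by omega
        have h5 : 4 * J0 * k ≤ 4 * J0 * (t + a) := Nat.mul_le_mul_left _ h3
        nlinarith
    refine (Finset.sum_le_card_nsmul _ _ _ h2).trans ?_
    rw [Nat.card_Ico, nsmul_eq_mul, add_tsub_cancel_left, mul_add]
    have har : (a : ℝ) ≤ n := by exact_mod_cast han
    apply add_le_add
    · refine le_trans ?_ (hpow3 n)
      rw [← ht]
      gcongr
    · calc (a : ℝ) * (B * Real.exp (-(c1 * Real.sqrt n)) / n ^ 3)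
          ≤ n * (B * Real.exp (-(c1 * Real.sqrt n)) / n ^ 3) := by gcongr
        _ = B * Real.exp (-(c1 * Real.sqrt n)) * (n / n ^ 3) := by ring
        _ ≤ B * Real.exp (-(c1 * Real.sqrt n)) * 1 := by
            apply mul_le_mul_of_nonneg_left _ (by positivity)
            rw [div_le_one (by positivity)]
            have : (1 : ℝ) ≤ n ^ 2 := one_le_pow₀ hnr
            calc (n : ℝ) = 1 * n := by ring
              _ ≤ n ^ 2 * n := by gcongr
              _ = n ^ 3 := by ring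
        _ = _ := by ring
  have hE23 := Pr_or_le μ h0 n (fun f => (fun Q : Finset (ZMod p)[X] =>
    K < ∑ P ∈ Q, P.natDegree) (facs (prs p 0 a) f)) (fun f => ∃ k ∈ Finset.Ico t (t + a),
            ∃ g ∈ (mon p k).filter (fun g => g.coeff 0 ≠ 0), g ^ 2 ∣ f)
  linarith

end Pool.Agent.MP0a1886
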