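import Pool.Agent.MP0a1886.Min.Sm3

/-! Squares of irreducible polynomials of large degree rarely divide (MP_0a1886_pr). -/

set_option autoImplicit false
set_option linter.unusedSectionVars false
open Finset Polynomial Filter Topology

namespace Pool.Agent.MP0a1886

variable {p : ℕ} [hp : Fact p.Prime]

/-- the coefficients in a set `T` of positions are resampled -/
lemma Pr_fiber (μ : ZMod p → ℝ) (h0 : ∀ a, 0 ≤ μ a) (h1 : ∑ a, μ a = 1) (q : ℝ)
    (hq : ∀ a, μ a ≤ q) (n : ℕ) (T : Finset (Fin (n + 1))) (E : (ZMod p)[X] → Prop)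
    [DecidablePred E] (N : ℕ)
    (hN : ∀ v : Fin (n + 1) → ZMod p, ((Finset.univ : Finset (Fin (n + 1) → ZMod p)).filter
      (fun u => (∀ i, i ∉ T → u i = v i) ∧ E (rpoly n u))).card ≤ N) :
    Pr μ n E ≤ N * q ^ T.card := by
  classical
  have hq0 : 0 ≤ q := (h0 0).trans (hq 0)
  obtain ⟨t, ht⟩ : ∃ t : Fin (n + 1) → Finset (ZMod p),
    t = fun i => if i ∈ T then {0} else Finset.univ := ⟨_, rfl⟩
  obtain ⟨w, hw⟩ : ∃ w : Fin (n + 1) → ZMod p → ℝ,
    w = fun i a => if i ∈ T then 1 else μ a := ⟨_, rfl⟩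
  have hw0 : ∀ i a, 0 ≤ w i a := by
    intro i a
    rw [hw]
    beta_reduce
    split_ifs
    · exact zero_le_one
    · exact h0 a
  have hsum : ∑ v ∈ Fintype.piFinset t, ∏ i, w i (v i) = 1 := by
    rw [← Finset.prod_univ_sum]
    apply Finset.prod_eq_one
    intro i _
    rw [ht, hw]
    beta_reduce
    by_cases hi : i ∈ T
    · simp [hi]
    · simp [hi, h1]
  obtain ⟨ret, hret⟩ : ∃ ret : (Fin (n + 1) → ZMod p) → (Fin (n + 1) → ZMod p),
    ret = fun u i => if i ∈ T then 0 else u i := ⟨_, rfl⟩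
  have hmaps : ∀ u ∈ (Finset.univ : Finset (Fin (n + 1) → ZMod p)).filter
      (fun u => E (rpoly n u)), ret u ∈ Fintype.piFinset t := by
    intro u _
    rw [Fintype.mem_piFinset]
    intro i
    rw [ht, hret]
    beta_reduce
    by_cases hi : i ∈ T
    · simp [hi]
    · simp [hi]
  have e1 : Pr μ n E = ∑ u ∈ (Finset.univ : Finset (Fin (n + 1) → ZMod p)).filter
      (fun u => E (rpoly n u)), wt μ n u := by
    rw [Pr_eq, Finset.sum_filter]
  rw [e1, ← Finset.sum_fiberwise_of_maps_to hmaps]
  have h2 : ∀ v ∈ Fintype.piFinset t,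
      ∑ u ∈ ((Finset.univ : Finset (Fin (n + 1) → ZMod p)).filter
        (fun u => E (rpoly n u))).filter (fun u => ret u = v), wt μ n u ≤
      (N * q ^ T.card) * ∏ i, w i (v i) := by
    intro v _
    have h3 : ∀ u ∈ ((Finset.univ : Finset (Fin (n + 1) → ZMod p)).filter
        (fun u => E (rpoly n u))).filter (fun u => ret u = v),
        wt μ n u ≤ q ^ T.card * ∏ i, w i (v i) := by
      intro u hu
      have hu' := (Finset.mem_filter.1 hu).2
      unfold wt
      have h4 : q ^ T.card * ∏ i, w i (v i) =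
          ∏ i, ((if i ∈ T then q else 1) * w i (v i)) := by
        rw [Finset.prod_mul_distrib]
        congr 1
        rw [Finset.prod_ite_mem, Finset.univ_inter, Finset.prod_const]
      rw [h4]
      apply Finset.prod_le_prod (fun i _ => h0 _)
      intro i _
      rw [hw]
      beta_reduce
      by_cases hi : i ∈ T
      · rw [if_pos hi, if_pos hi, mul_one]
        exact hq _
      · rw [if_neg hi, if_neg hi, one_mul, ← hu', hret]
        beta_reduce
        rw [if_neg hi]
    refine (Finset.sum_le_card_nsmul _ _ _ h3).trans ?_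
    rw [nsmul_eq_mul]
    have h5 : (((Finset.univ : Finset (Fin (n + 1) → ZMod p)).filter
        (fun u => E (rpoly n u))).filter (fun u => ret u = v)).card ≤ N := by
      refine le_trans (Finset.card_le_card ?_) (hN v)
      intro u hu
      rw [Finset.mem_filter, Finset.mem_filter] at hu
      rw [Finset.mem_filter]
      refine ⟨Finset.mem_univ _, ?_, hu.1.2⟩
      intro i hi
      rw [← hu.2, hret]
      beta_reduce
      rw [if_neg hi]
    have h6 : 0 ≤ q ^ T.card * ∏ i, w i (v i) :=
      mul_nonneg (pow_nonneg hq0 _) (Finset.prod_nonneg fun i _ => hw0 i _)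
    have h7 := mul_le_mul_of_nonneg_right (Nat.cast_le (α := ℝ).2 h5) h6
    linarith
  refine (Finset.sum_le_sum h2).trans ?_
  rw [← Finset.mul_sum, hsum, mul_one]

open Classical in
/-- the number of irreducible factors of large degree -/
lemma card_large {d : (ZMod p)[X]} (hd : d ≠ 0) (a n : ℕ) (hn : d.natDegree ≤ n) :
    ((irI p a n).filter (fun P => P ∣ d)).card * (a + 1) ≤ n := by
  classical
  obtain ⟨Q, hQ⟩ : ∃ Q, Q = (irI p a n).filter (fun P => P ∣ d) := ⟨_, rfl⟩
  rw [← hQ]
  have hsub : Q ⊆ irI p a n := by rw [hQ]; exact Finset.filter_subset _ _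
  have h1 : (∏ P ∈ Q, P) ∣ d := by
    rw [irI_prod_dvd hsub]
    intro P hP
    rw [hQ] at hP
    exact (Finset.mem_filter.1 hP).2
  have h2 := Polynomial.natDegree_le_of_dvd h1 hd
  rw [irI_prod_degree hsub] at h2
  have h3 : Q.card * (a + 1) ≤ ∑ P ∈ Q, P.natDegree := by
    rw [← smul_eq_mul, ← Finset.sum_const]
    apply Finset.sum_le_sum
    intro P hP
    have := (mem_irI.1 (hsub hP)).2.2.1
    omega
  omega

lemma coeff_rpoly' (n : ℕ) (u : Fin (n + 1) → ZMod p) (j : ℕ) :
    (rpoly n u).coeff j = if h : j < n + 1 then u ⟨j, h⟩ else 0 := by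
  unfold rpoly
  exact coeff_lowPoly _ _ _

lemma natDegree_rpoly (n : ℕ) (u : Fin (n + 1) → ZMod p) : (rpoly n u).natDegree ≤ n := by
  rw [Polynomial.natDegree_le_iff_coeff_eq_zero]
  intro j hj
  rw [coeff_rpoly', dif_neg (by omega)]

/-- two polynomials which differ only in coefficients of index `p j`, `j < k`, and have a common
irreducible factor of degree at least `k`, are equal -/
lemma eq_of_common (n k : ℕ) (u v : Fin (n + 1) → ZMod p)
    (huv : ∀ i : Fin (n + 1), ¬ (p ∣ (i : ℕ) ∧ (i : ℕ) < p * k) → u i = v i)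
    (P : (ZMod p)[X]) (hP : Irreducible P) (hk : k ≤ P.natDegree) (hu : P ∣ rpoly n u)
    (hv : P ∣ rpoly n v) : u = v := by
  have hp0 : p ≠ 0 := hp.out.ne_zero
  obtain ⟨D, hD⟩ : ∃ D, D = rpoly n u - rpoly n v := ⟨_, rfl⟩
  have hDc : ∀ j, ¬ (p ∣ j ∧ j < p * k) → D.coeff j = 0 := by
    intro j hj
    rw [hD, Polynomial.coeff_sub, coeff_rpoly', coeff_rpoly']
    split_ifs with h
    · rw [huv ⟨j, h⟩ hj, sub_self]
    · rw [sub_self]
  have hder : Polynomial.derivative D = 0 := by
    ext j
    rw [Polynomial.coeff_derivative, Polynomial.coeff_zero]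
    by_cases h : p ∣ j + 1
    · have h2 : ((j : ZMod p) + 1) = 0 := by
        have := (ZMod.natCast_eq_zero_iff (j + 1) p).2 h
        push_cast at this
        exact this
      rw [h2, mul_zero]
    · rw [hDc (j + 1) (fun h' => h h'.1), zero_mul]
  have hexp := Polynomial.expand_contract p hder hp0
  rw [ZMod.expand_card] at hexp
  have hPD : P ∣ D := by rw [hD]; exact dvd_sub hu hv
  rw [← hexp] at hPD
  have hPc := hP.prime.dvd_of_dvd_pow hPD
  have hc0 : Polynomial.contract p D = 0 := by
    by_contra hne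
    have h3 := Polynomial.natDegree_le_of_dvd hPc hne
    have h4 : (Polynomial.contract p D).natDegree < k := by
      rw [Polynomial.natDegree_lt_iff_degree_lt hne, Polynomial.degree_lt_iff_coeff_zero]
      intro j hj
      rw [Polynomial.coeff_contract hp0]
      apply hDc
      rintro ⟨_, h5⟩
      have h6 : p * k ≤ j * p := by
        rw [mul_comm j p]
        exact Nat.mul_le_mul_left _ hj
      omega
    omega
  rw [hc0, zero_pow hp0] at hexp
  have h5 : rpoly n u = rpoly n v := by
    rw [hD] at hexp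
    exact (sub_eq_zero.1 hexp.symm)
  funext i
  have h6 := congrArg (fun f => f.coeff (i : ℕ)) h5
  simp only [coeff_rpoly', i.2, dif_pos] at h6
  exact h6

/-- the derivative depends only on the coefficients of index prime to `p` -/
lemma derivative_eq (n : ℕ) (u v : Fin (n + 1) → ZMod p)
    (huv : ∀ i : Fin (n + 1), ¬ p ∣ (i : ℕ) → u i = v i) :
    Polynomial.derivative (rpoly n u) = Polynomial.derivative (rpoly n v) := by
  ext j
  rw [Polynomial.coeff_derivative, Polynomial.coeff_derivative]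
  by_cases h : p ∣ j + 1
  · have h2 : ((j : ZMod p) + 1) = 0 := by
      have := (ZMod.natCast_eq_zero_iff (j + 1) p).2 h
      push_cast at this
      exact this
    rw [h2, mul_zero, mul_zero]
  · rw [coeff_rpoly', coeff_rpoly']
    split_ifs with h3
    · rw [huv ⟨j + 1, h3⟩ h]
    · rfl

lemma square_bound (μ : ZMod p → ℝ) (h0 : ∀ a, 0 ≤ μ a) (h1 : ∑ a, μ a = 1) (q : ℝ)
    (hq : ∀ a, μ a ≤ q) (hq1 : q ≤ 1) (n a k : ℕ) (hk : k ≤ a + 1) (hkn : p * k ≤ n) :
    Pr μ n (fun f => Polynomial.derivative f ≠ 0 ∧ ∃ P : (ZMod p)[X], Irreducible P ∧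
      P ^ 2 ∣ f ∧ a < P.natDegree) ≤ (n / (a + 1) : ℕ) * q ^ k := by
  classical
  have hq0 : 0 ≤ q := (h0 0).trans (hq 0)
  obtain ⟨T, hT⟩ : ∃ T : Finset (Fin (n + 1)), T = Finset.univ.filter
    (fun i : Fin (n + 1) => p ∣ (i : ℕ) ∧ (i : ℕ) < p * k) := ⟨_, rfl⟩
  have hTc : k ≤ T.card := by
    have h2 : (Finset.range k).card ≤ T.card := by
      apply Finset.card_le_card_of_injOn (fun j => (⟨min (p * j) n, by omega⟩ : Fin (n + 1)))
      · intro j hj
        rw [Finset.mem_coe, Finset.mem_range] at hj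
        have h3 : p * j < p * k := Nat.mul_lt_mul_of_pos_left hj hp.out.pos
        have h4 : min (p * j) n = p * j := min_eq_left (by omega)
        rw [hT, Finset.mem_coe, Finset.mem_filter]
        refine ⟨Finset.mem_univ _, ?_, ?_⟩
        · simp only [h4]
          exact Dvd.intro _ rfl
        · simp only [h4]
          exact h3
      · intro i hi j hj hij
        rw [Finset.mem_coe, Finset.mem_range] at hi hj
        have h3 : p * i < p * k := Nat.mul_lt_mul_of_pos_left hi hp.out.pos
        have h4 : p * j < p * k := Nat.mul_lt_mul_of_pos_left hj hp.out.pos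
        have h5 : min (p * i) n = p * i := min_eq_left (by omega)
        have h6 : min (p * j) n = p * j := min_eq_left (by omega)
        have h7 : min (p * i) n = min (p * j) n := congrArg Fin.val hij
        rw [h5, h6] at h7
        exact Nat.eq_of_mul_eq_mul_left hp.out.pos h7
    rwa [Finset.card_range] at h2
  refine (Pr_fiber μ h0 h1 q hq n T _ (n / (a + 1)) ?_).trans ?_
  · intro v
    -- choose the factor
    obtain ⟨d, hd⟩ : ∃ d, d = Polynomial.derivative (rpoly n v) := ⟨_, rfl⟩
    have hdn : d.natDegree ≤ n := by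
      rw [hd]
      refine (Polynomial.natDegree_derivative_le _).trans ?_
      have := natDegree_rpoly n v
      omega
    rcases eq_or_ne d 0 with hd0 | hd0
    · refine le_trans (le_of_eq (Finset.card_eq_zero.2 ?_)) (Nat.zero_le _)
      rw [Finset.filter_eq_empty_iff]
      rintro u _ ⟨huv, hu1, _⟩
      apply hu1
      rw [derivative_eq n u v, ← hd, hd0]
      intro i hi
      apply huv
      rw [hT, Finset.mem_filter]
      exact fun h => hi h.2.1
    have hS := card_large hd0 a n hdn
    rw [Nat.le_div_iff_mul_le (by omega)]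
    refine le_trans (Nat.mul_le_mul_right _ ?_) hS
    have hch : ∀ u : Fin (n + 1) → ZMod p, ∃ P : (ZMod p)[X],
        ((∀ i, i ∉ T → u i = v i) ∧ (Polynomial.derivative (rpoly n u) ≠ 0 ∧
          ∃ P : (ZMod p)[X], Irreducible P ∧ P ^ 2 ∣ rpoly n u ∧ a < P.natDegree)) →
        P ∈ (irI p a n).filter (fun P => P ∣ d) ∧ P ∣ rpoly n u := by
      intro u
      by_cases hu : (∀ i, i ∉ T → u i = v i) ∧ (Polynomial.derivative (rpoly n u) ≠ 0 ∧
          ∃ P : (ZMod p)[X], Irreducible P ∧ P ^ 2 ∣ rpoly n u ∧ a < P.natDegree)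
      swap
      · exact ⟨0, fun h => absurd h hu⟩
      obtain ⟨huv, hu1, P, hPi, hP2, hPa⟩ := hu
      have hdu : Polynomial.derivative (rpoly n u) = d := by
        rw [hd]
        apply derivative_eq
        intro i hi
        apply huv
        rw [hT, Finset.mem_filter]
        exact fun h => hi h.2.1
      have hc : P.leadingCoeff⁻¹ ≠ 0 := inv_ne_zero (Polynomial.leadingCoeff_ne_zero.2 hPi.ne_zero)
      have hun : IsUnit (C (P.leadingCoeff⁻¹) : (ZMod p)[X]) :=
        Polynomial.isUnit_C.2 (isUnit_iff_ne_zero.2 hc)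
      obtain ⟨Q, hQ⟩ : ∃ Q, Q = C (P.leadingCoeff⁻¹) * P := ⟨_, rfl⟩
      have hQm : Q.Monic := by
        rw [hQ, mul_comm]
        exact Polynomial.monic_mul_leadingCoeff_inv hPi.ne_zero
      have hass : Associated P Q := by
        rw [hQ]
        exact (associated_unit_mul_right P _ hun)
      have hQi : Irreducible Q := hass.irreducible hPi
      have hQd : Q.natDegree = P.natDegree := by
        rw [hQ, Polynomial.natDegree_C_mul hc]
      have hPd : P ∣ d := by
        rw [← hdu]
        obtain ⟨g, hg⟩ := hP2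
        rw [hg, Polynomial.derivative_mul, Polynomial.derivative_pow]
        apply dvd_add
        · apply Dvd.dvd.mul_right
          apply Dvd.dvd.mul_right
          apply Dvd.dvd.mul_left
          simp
        · apply Dvd.dvd.mul_right
          exact dvd_pow_self P (by norm_num)
      have hPu : P ∣ rpoly n u := (dvd_pow_self P (by norm_num)).trans hP2
      refine ⟨Q, fun _ => ⟨?_, hass.dvd_iff_dvd_left.1 hPu⟩⟩
      rw [Finset.mem_filter, mem_irI]
      have h8 := Polynomial.natDegree_le_of_dvd hPd hd0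
      exact ⟨⟨hQm, hQi, by omega, by omega⟩, hass.dvd_iff_dvd_left.1 hPd⟩
    choose F hF using hch
    apply Finset.card_le_card_of_injOn F
    · intro u hu
      rw [Finset.mem_coe, Finset.mem_filter] at hu
      exact (hF u hu.2).1
    · intro u hu u' hu' huu
      rw [Finset.mem_coe, Finset.mem_filter] at hu hu'
      have h2 := hF u hu.2
      have h3 := hF u' hu'.2
      rw [← huu] at h3
      have h4 := (mem_irI.1 (Finset.mem_filter.1 h2.1).1)
      apply eq_of_common n k u u' _ (F u) h4.2.1 (by omega) h2.2 h3.2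
      intro i hi
      have hiT : i ∉ T := by
        rw [hT, Finset.mem_filter]
        exact fun h => hi h.2
      rw [hu.2.1 i hiT, hu'.2.1 i hiT]
  · apply mul_le_mul_of_nonneg_left _ (by positivity)
    exact pow_le_pow_of_le_one hq0 hq1 hTc

/-- the derivative rarely vanishes -/
lemma derivative_rare (μ : ZMod p → ℝ) (h0 : ∀ a, 0 ≤ μ a) (h1 : ∑ a, μ a = 1)
    (hlt : ∀ a, μ a < 1) (n : ℕ) :
    Pr μ n (fun f => Polynomial.derivative f = 0) ≤ μ 0 ^ (n / 2) := by
  classical
  obtain ⟨S, hS⟩ : ∃ S : Finset (Fin (n + 1)), S = Finset.univ.filter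
    (fun i : Fin (n + 1) => ¬ p ∣ (i : ℕ)) := ⟨_, rfl⟩
  have hSc : n / 2 ≤ S.card := by
    obtain ⟨g, hg⟩ : ∃ g : ℕ → ℕ, g = fun j => if p ∣ 2 * j + 1 then 2 * j + 2 else 2 * j + 1 :=
      ⟨_, rfl⟩
    have hg1 : ∀ j, 2 * j + 1 ≤ g j ∧ g j ≤ 2 * j + 2 := by
      intro j
      rw [hg]
      beta_reduce
      split_ifs <;> omega
    have hg2 : ∀ j, ¬ p ∣ g j := by
      intro j
      rw [hg]
      beta_reduce
      split_ifs with h
      · intro h'
        have h3 : p ∣ 1 := by
          have h4 := Nat.dvd_sub h' h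
          have h5 : 2 * j + 2 - (2 * j + 1) = 1 := by omega
          rwa [h5] at h4
        exact hp.out.one_lt.ne' (Nat.dvd_one.1 h3)
      · exact h
    have h2 : (Finset.range (n / 2)).card ≤ S.card := by
      apply Finset.card_le_card_of_injOn (fun j => (⟨min (g j) n, by omega⟩ : Fin (n + 1)))
      · intro j hj
        rw [Finset.mem_coe, Finset.mem_range] at hj
        have h4 : min (g j) n = g j := min_eq_left (by have := (hg1 j).2; omega)
        rw [hS, Finset.mem_coe, Finset.mem_filter]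
        refine ⟨Finset.mem_univ _, ?_⟩
        simp only [h4]
        exact hg2 j
      · intro i hi j hj hij
        rw [Finset.mem_coe, Finset.mem_range] at hi hj
        have h4 : min (g i) n = g i := min_eq_left (by have := (hg1 i).2; omega)
        have h5 : min (g j) n = g j := min_eq_left (by have := (hg1 j).2; omega)
        have h7 : min (g i) n = min (g j) n := congrArg Fin.val hij
        rw [h4, h5] at h7
        have h8 := hg1 i
        have h9 := hg1 j
        omega
    rwa [Finset.card_range] at h2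
  refine le_trans ?_ (pow_le_pow_of_le_one (h0 0) (hlt 0).le hSc)
  rw [← Pr_coeff_zero μ h1 n S]
  apply Pr_mono μ h0
  intro u hu i hi
  rw [hS, Finset.mem_filter] at hi
  have h2 := congrArg (fun f => f.coeff ((i : ℕ) - 1)) hu
  simp only [Polynomial.coeff_zero] at h2
  rw [Polynomial.coeff_derivative] at h2
  have hi0 : (i : ℕ) ≠ 0 := by
    intro h
    apply hi.2
    rw [h]
    exact dvd_zero p
  have h3 : (i : ℕ) - 1 + 1 = i := by omega
  rw [h3] at h2
  rcases mul_eq_zero.1 h2 with h4 | h4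
  · exact h4
  · exfalso
    apply hi.2
    rw [← ZMod.natCast_eq_zero_iff, ← h3]
    push_cast
    exact h4

/-- squares of irreducible polynomials of large degree rarely divide -/
theorem square_rare (μ : ZMod p → ℝ) (h0 : ∀ a, 0 ≤ μ a) (h1 : ∑ a, μ a = 1)
    (hlt : ∀ a, μ a < 1) (δ : ℝ) (hδ : 0 < δ) :
    Tendsto (fun n : ℕ => Pr μ n (fun f => ∃ P : (ZMod p)[X], Irreducible P ∧
      P ^ 2 ∣ f ∧ ⌊δ * n⌋₊ < P.natDegree)) atTop (𝓝 0) := by
  classical
  obtain ⟨c, _, hc⟩ := Finset.exists_max_image (Finset.univ : Finset (ZMod p)) μ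
    ⟨0, Finset.mem_univ _⟩
  obtain ⟨q, hq⟩ : ∃ q, q = μ c := ⟨_, rfl⟩
  have hq1 : q < 1 := by rw [hq]; exact hlt c
  have hq0 : 0 ≤ q := by rw [hq]; exact h0 c
  have hqm : ∀ a, μ a ≤ q := fun a => by rw [hq]; exact hc a (Finset.mem_univ a)
  obtain ⟨k, hk⟩ : ∃ k : ℕ → ℕ, k = fun n : ℕ => min ⌊δ * (n : ℝ)⌋₊ (n / p) := ⟨_, rfl⟩
  have hkt : Tendsto k atTop atTop := by
    rw [hk]
    apply tendsto_atTop.2
    intro b
    have h2 : ∀ᶠ n : ℕ in atTop, (b : ℝ) ≤ δ * n :=
      (tendsto_natCast_atTop_atTop.const_mul_atTop hδ).eventually (eventually_ge_atTop _)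
    filter_upwards [h2, eventually_ge_atTop (b * p)] with n hn hn2
    apply le_min
    · exact Nat.le_floor hn
    · rw [Nat.le_div_iff_mul_le hp.out.pos]
      exact hn2
  have hlim1 : Tendsto (fun n : ℕ => μ 0 ^ (n / 2)) atTop (𝓝 0) :=
    (tendsto_pow_atTop_nhds_zero_of_lt_one (h0 0) (hlt 0)).comp
      (Nat.tendsto_div_const_atTop (by norm_num))
  have hlim2 : Tendsto (fun n : ℕ => (1 / δ) * q ^ (k n)) atTop (𝓝 0) := by
    have h2 := ((tendsto_pow_atTop_nhds_zero_of_lt_one hq0 hq1).comp hkt).const_mul (1 / δ)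
    rw [mul_zero] at h2
    exact h2
  have hlim := hlim1.add hlim2
  rw [add_zero] at hlim
  apply squeeze_zero' _ _ hlim
  · exact Eventually.of_forall fun n => by
      rw [Pr_eq]
      apply Finset.sum_nonneg
      intro u _
      split_ifs
      · exact wt_nonneg μ h0 n u
      · exact le_rfl
  · filter_upwards [eventually_ge_atTop 1] with n hn
    have hn0 : (0 : ℝ) < n := by exact_mod_cast hn
    have h2 : Pr μ n (fun f => ∃ P : (ZMod p)[X], Irreducible P ∧
        P ^ 2 ∣ f ∧ ⌊δ * n⌋₊ < P.natDegree) ≤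
        Pr μ n (fun f => Polynomial.derivative f = 0 ∨ (Polynomial.derivative f ≠ 0 ∧
          ∃ P : (ZMod p)[X], Irreducible P ∧ P ^ 2 ∣ f ∧ ⌊δ * n⌋₊ < P.natDegree)) := by
      apply Pr_mono μ h0
      intro u hu
      by_cases h : Polynomial.derivative (rpoly n u) = 0
      · exact Or.inl h
      · exact Or.inr ⟨h, hu⟩
    refine h2.trans ((Pr_or_le μ h0 n _ _).trans ?_)
    apply add_le_add
    · exact derivative_rare μ h0 h1 hlt n
    · refine (square_bound μ h0 h1 q hqm hq1.le n ⌊δ * n⌋₊ (k n) ?_ ?_).trans ?_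
      · rw [hk]
        beta_reduce
        have h3 : min ⌊δ * (n : ℝ)⌋₊ (n / p) ≤ ⌊δ * (n : ℝ)⌋₊ := min_le_left _ _
        exact h3.trans (Nat.le_succ _)
      · rw [hk]
        beta_reduce
        have h3 : min ⌊δ * (n : ℝ)⌋₊ (n / p : ℕ) ≤ (n / p : ℕ) := min_le_right _ _
        have h4 : p * (n / p) ≤ n := Nat.mul_div_le n p
        exact (Nat.mul_le_mul_left _ h3).trans h4
      · apply mul_le_mul_of_nonneg_right _ (pow_nonneg hq0 _)
        refine Nat.cast_div_le.trans ?_
        rw [div_le_div_iff₀ (by positivity) hδ, one_mul]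
        have h3 : δ * n < ⌊δ * (n : ℝ)⌋₊ + 1 := Nat.lt_floor_add_one _
        push_cast
        linarith

end Pool.Agent.MP0a1886
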