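import Pool.Agent.MP0a1886.Min.Sm4

/-! An upper bound for the probability that the largest factor is small (MP_0a1886_pr). -/

set_option autoImplicit false
set_option linter.unusedSectionVars false
open Finset Polynomial Filter Topology

namespace Pool.Agent.MP0a1886

variable {p : ℕ} [hp : Fact p.Prime]

open Classical in
/-- the sum of the degrees of the distinct irreducible factors of large degree -/
lemma sum_large {f : (ZMod p)[X]} (hf : f ≠ 0) (a b : ℕ) (s : ℝ)
    (hsq : ∀ P : (ZMod p)[X], Irreducible P → P ^ 2 ∣ f → P.natDegree ≤ a)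
    (hsm : ∀ g : (ZMod p)[X], g ∣ f →
      (∀ P : (ZMod p)[X], Irreducible P → P ∣ g → P.natDegree ≤ a) → (g.natDegree : ℝ) ≤ s)
    (hb : ∀ P : (ZMod p)[X], Irreducible P → P ∣ f → P.natDegree ≤ b) :
    (f.natDegree : ℝ) - s ≤ ∑ P ∈ (irI p a b).filter (fun P => P ∣ f), dgr P := by
  obtain ⟨N, hN⟩ : ∃ N, N = UniqueFactorizationMonoid.normalizedFactors f := ⟨_, rfl⟩
  have hNprod : N.prod ∣ f := by
    rw [hN]
    exact (UniqueFactorizationMonoid.prod_normalizedFactors hf).dvd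
  have hdegprod : ∀ N' : Multiset (ZMod p)[X], N' ≤ N →
      N'.prod.natDegree = (N'.map Polynomial.natDegree).sum := by
    intro N' hN'
    apply Polynomial.natDegree_multiset_prod
    intro h0
    have h2 := Multiset.mem_of_le hN' h0
    rw [hN] at h2
    exact UniqueFactorizationMonoid.zero_notMem_normalizedFactors f h2
  have hNdeg : f.natDegree = (N.map Polynomial.natDegree).sum := by
    have hprod := Polynomial.leadingCoeff_mul_prod_normalizedFactors f
    rw [← hdegprod N le_rfl]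
    conv_lhs => rw [← hprod]
    rw [Polynomial.natDegree_C_mul (Polynomial.leadingCoeff_ne_zero.2 hf), hN]
  have hNmem : ∀ P ∈ N, Irreducible P ∧ P.Monic ∧ P ∣ f := fun P hP => by
    rw [hN] at hP
    exact (Polynomial.mem_normalizedFactors_iff hf).1 hP
  obtain ⟨N1, hN1⟩ : ∃ N1, N1 = N.filter (fun P => P.natDegree ≤ a) := ⟨_, rfl⟩
  obtain ⟨N2, hN2⟩ : ∃ N2, N2 = N.filter (fun P => ¬ P.natDegree ≤ a) := ⟨_, rfl⟩
  have hsplit : N1 + N2 = N := by
    rw [hN1, hN2]
    exact Multiset.filter_add_not _ _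
  have hN1le : N1 ≤ N := by rw [hN1]; exact Multiset.filter_le _ _
  have hN2le : N2 ≤ N := by rw [hN2]; exact Multiset.filter_le _ _
  have h1 : (f.natDegree : ℝ) = ((N1.map Polynomial.natDegree).sum : ℕ) +
      ((N2.map Polynomial.natDegree).sum : ℕ) := by
    rw [hNdeg, ← hsplit, Multiset.map_add, Multiset.sum_add]
    push_cast
    ring
  have h2 : (((N1.map Polynomial.natDegree).sum : ℕ) : ℝ) ≤ s := by
    rw [← hdegprod N1 hN1le]
    apply hsm
    · exact (Multiset.prod_dvd_prod_of_le hN1le).trans hNprod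
    · intro P hP hPg
      obtain ⟨Q, hQ, hPQ⟩ := hP.prime.exists_mem_multiset_dvd hPg
      rw [hN1, Multiset.mem_filter] at hQ
      have h3 : Associated P Q := hP.associated_of_dvd (hNmem Q hQ.1).1 hPQ
      have h4 : P.natDegree = Q.natDegree := Polynomial.natDegree_eq_of_degree_eq
        (Polynomial.degree_eq_degree_of_associated h3)
      rw [h4]
      exact hQ.2
  have h3 : (((N2.map Polynomial.natDegree).sum : ℕ) : ℝ) ≤
      ∑ P ∈ (irI p a b).filter (fun P => P ∣ f), dgr P := by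
    have h4 : (N2.map Polynomial.natDegree).sum ≤
        ∑ P ∈ (irI p a b).filter (fun P => P ∣ f), P.natDegree := by
      rw [Finset.sum_multiset_map_count]
      have h5 : N2.toFinset ⊆ (irI p a b).filter (fun P => P ∣ f) := by
        intro P hP
        rw [Multiset.mem_toFinset, hN2, Multiset.mem_filter] at hP
        obtain ⟨e1, e2, e3⟩ := hNmem P hP.1
        rw [Finset.mem_filter, mem_irI]
        exact ⟨⟨e2, e1, by omega, hb P e1 e3⟩, e3⟩
      refine (Finset.sum_le_sum_of_subset (h := h5)).trans ?_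
      apply Finset.sum_le_sum
      intro P hP
      rw [smul_eq_mul]
      by_cases hPN : P ∈ N2
      · have hc : N2.count P ≤ 1 := by
          by_contra hcon
          have h6 : P ^ 2 ∣ f :=
            (count_sq_dvd (Multiset.prod_dvd_prod_of_le hN2le) 2 (by omega)).trans hNprod
          rw [hN2, Multiset.mem_filter] at hPN
          exact hPN.2 (hsq P (hNmem P hPN.1).1 h6)
        calc N2.count P * P.natDegree ≤ 1 * P.natDegree := Nat.mul_le_mul_right _ hc
          _ = P.natDegree := one_mul _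
      · rw [Multiset.count_eq_zero_of_notMem hPN, zero_mul]
        exact Nat.zero_le _
    unfold dgr
    exact_mod_cast h4
  linarith

/-- the level of distribution gives an upper bound for the probability that all irreducible factors
have degree at most `y n` -/
theorem smooth_limsup (μ : ZMod p → ℝ) (h0 : ∀ a, 0 ≤ μ a) (h1 : ∑ a, μ a = 1)
    (hlt : ∀ a, μ a < 1) (K : ℝ) (hlev : Level μ K) (M : (ZMod p)[X] → ℕ)
    (hM : ∀ f : (ZMod p)[X], f ≠ 0 → ∀ P : (ZMod p)[X], Irreducible P → P ∣ f →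
      P.natDegree ≤ M f) (r : ℕ) (hr : 0 < r) (y : ℝ) (hy : 0 < y) (hry : r * y < K)
    (hr1 : ∀ j : ℕ, j < r → 0 < 1 - j * y) (η : ℝ) (hη : 0 < η) :
    ∀ᶠ n : ℕ in atTop, Pr μ n (fun f => (M f : ℝ) ≤ y * n) ≤
      y ^ r / ∏ j ∈ Finset.range r, (1 - j * y) + η := by
  classical
  -- choice of `ε`
  obtain ⟨G, hG⟩ : ∃ G : ℝ → ℝ, G = fun ε => ∏ j ∈ Finset.range r, (1 - 2 * ε - j * y) := ⟨_, rfl⟩
  have hG0 : G 0 = ∏ j ∈ Finset.range r, (1 - j * y) := by
    rw [hG]
    simp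
  have hG0p : 0 < G 0 := by
    rw [hG0]
    exact Finset.prod_pos fun j hj => hr1 j (Finset.mem_range.1 hj)
  have hGc : Continuous G := by
    rw [hG]
    fun_prop
  have hc1 : ContinuousAt (fun ε => y ^ r / G ε) 0 :=
    continuousAt_const.div hGc.continuousAt hG0p.ne'
  have he1 : ∀ᶠ ε in 𝓝 (0 : ℝ), y ^ r / G ε < y ^ r / G 0 + η / 5 :=
    hc1.eventually (gt_mem_nhds (by linarith : y ^ r / G 0 < y ^ r / G 0 + η / 5))
  have he2 : ∀ᶠ ε in 𝓝 (0 : ℝ), ∀ j ∈ Finset.range r, 0 < 1 - 2 * ε - j * y := by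
    rw [Filter.eventually_all_finset]
    intro j hj
    have hc2 : ContinuousAt (fun ε : ℝ => 1 - 2 * ε - j * y) 0 := by fun_prop
    apply hc2.eventually (lt_mem_nhds _)
    have := hr1 j (Finset.mem_range.1 hj)
    simpa using this
  obtain ⟨ε, hε0, hε1, hε2⟩ : ∃ ε : ℝ, 0 < ε ∧ y ^ r / G ε < y ^ r / G 0 + η / 5 ∧
      ∀ j ∈ Finset.range r, 0 < 1 - 2 * ε - j * y := by
    have h2 := (he1.and he2).filter_mono (nhdsWithin_le_nhds (s := Set.Ioi (0 : ℝ)))
    obtain ⟨ε, h3, h4⟩ := (h2.and self_mem_nhdsWithin).exists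
    exact ⟨ε, h4, h3.1, h3.2⟩
  have hGε : 0 < G ε := by
    rw [hG]
    exact Finset.prod_pos hε2
  -- choice of `δ`
  obtain ⟨δ0, hδ00, hsmall⟩ := small_rare μ h0 h1 hlt ε (η / 5) hε0 (by positivity)
  obtain ⟨δ, hδ⟩ : ∃ δ, δ = δ0 := ⟨_, rfl⟩
  have hδ0 : 0 < δ := by rw [hδ]; exact hδ00
  obtain ⟨C0, c, hc, hL0⟩ := hlev (r * y) hry (δ / 2) (by positivity)
  obtain ⟨C, hCd⟩ : ∃ C, C = |C0| := ⟨_, rfl⟩
  have hC0 : 0 ≤ C := by rw [hCd]; exact abs_nonneg _
  have hsq := square_rare μ h0 h1 hlt δ hδ0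
  have hev1 := hsq.eventually (gt_mem_nhds (by positivity : (0 : ℝ) < η / 5))
  have hev2 : ∀ᶠ n : ℕ in atTop, μ 0 ^ (⌊ε * (n : ℝ)⌋₊ + 1) < η / 5 := by
    have h2 : Tendsto (fun n : ℕ => ⌊ε * (n : ℝ)⌋₊ + 1) atTop atTop :=
      (tendsto_add_atTop_nat 1).comp (tendsto_nat_floor_atTop.comp
        (tendsto_natCast_atTop_atTop.const_mul_atTop hε0))
    exact ((tendsto_pow_atTop_nhds_zero_of_lt_one (h0 0) (hlt 0)).comp h2).eventually
      (gt_mem_nhds (by positivity : (0 : ℝ) < η / 5))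
  have hev3 : ∀ᶠ n : ℕ in atTop, (y ^ r / G ε) * (r.factorial * (r * (y * n) *
      (C * Real.exp (-(c * n))))) < η / 5 := by
    have h2 : Tendsto (fun n : ℕ => (n : ℝ) * Real.exp (-(c * n))) atTop (𝓝 0) := by
      have h2 := (Real.tendsto_pow_mul_exp_neg_atTop_nhds_zero 1).comp
        ((tendsto_natCast_atTop_atTop (R := ℝ)).const_mul_atTop hc)
      have h3 := h2.const_mul (1 / c)
      rw [mul_zero] at h3
      refine h3.congr fun n => ?_
      simp only [Function.comp, pow_one]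
      field_simp
    have h3 := h2.const_mul ((y ^ r / G ε) * (r.factorial * (r * y * C)))
    rw [mul_zero] at h3
    refine (h3.eventually (gt_mem_nhds (by positivity : (0 : ℝ) < η / 5))).mono fun n hn => ?_
    refine lt_of_eq_of_lt ?_ hn
    ring
  have hev4 : ∀ᶠ n : ℕ in atTop, 2 ≤ δ * n :=
    (tendsto_natCast_atTop_atTop.const_mul_atTop hδ0).eventually (eventually_ge_atTop 2)
  have hε1' : ε < 1 := by
    have := hε2 0 (Finset.mem_range.2 hr)
    push_cast at this
    linarith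
  filter_upwards [hev1, hev2, hev3, hev4, hsmall, eventually_ge_atTop 1] with
    n hn1 hn2 hn3 hn4 hn5 hn6
  have hn0 : (0 : ℝ) < n := by exact_mod_cast hn6
  obtain ⟨a, ha⟩ : ∃ a : ℕ, a = ⌊δ * (n : ℝ)⌋₊ := ⟨_, rfl⟩
  obtain ⟨b, hb⟩ : ∃ b : ℕ, b = ⌊y * (n : ℝ)⌋₊ := ⟨_, rfl⟩
  obtain ⟨t, ht⟩ : ∃ t : ℕ, t = ⌊ε * (n : ℝ)⌋₊ := ⟨_, rfl⟩
  have haδ : (a : ℝ) ≤ δ * n := by rw [ha]; exact Nat.floor_le (by positivity)
  have hby : (b : ℝ) ≤ y * n := by rw [hb]; exact Nat.floor_le (by positivity)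
  have htε : (t : ℝ) ≤ ε * n := by rw [ht]; exact Nat.floor_le (by positivity)
  have htn : t < n := by
    have h2 : (t : ℝ) < n := lt_of_le_of_lt htε (by
      calc ε * n < 1 * n := mul_lt_mul_of_pos_right hε1' hn0
        _ = n := one_mul _)
    exact_mod_cast h2
  rw [← ha] at hn1
  rw [← ht] at hn2
  have hn5' := hn5 a (by rw [← hδ]; exact haδ)
  -- the good event
  obtain ⟨Ev, hEv⟩ : ∃ Ev : (ZMod p)[X] → Prop, Ev = fun f => f ≠ 0 ∧ n ≤ f.natDegree + t ∧
    (∀ P : (ZMod p)[X], Irreducible P → P ^ 2 ∣ f → P.natDegree ≤ a) ∧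
    (∀ g : (ZMod p)[X], g ∣ f →
      (∀ P : (ZMod p)[X], Irreducible P → P ∣ g → P.natDegree ≤ a) →
        (g.natDegree : ℝ) ≤ ε * n) ∧ (M f : ℝ) ≤ y * n := ⟨_, rfl⟩
  have hincl : Pr μ n (fun f => (M f : ℝ) ≤ y * n) ≤ Pr μ n (fun f =>
      ((f = 0 ∨ f.natDegree + t < n) ∨ ∃ P : (ZMod p)[X], Irreducible P ∧
        P ^ 2 ∣ f ∧ a < P.natDegree) ∨ ((f ≠ 0 ∧ ∃ g : (ZMod p)[X], g ∣ f ∧
        (∀ P : (ZMod p)[X], Irreducible P → P ∣ g → P.natDegree ≤ a) ∧
        ε * n ≤ g.natDegree) ∨ Ev f)) := by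
    apply Pr_mono μ h0
    intro u hu
    by_cases e1 : rpoly n u = 0
    · exact Or.inl (Or.inl (Or.inl e1))
    by_cases e2 : (rpoly n u).natDegree + t < n
    · exact Or.inl (Or.inl (Or.inr e2))
    by_cases e3 : ∃ P : (ZMod p)[X], Irreducible P ∧ P ^ 2 ∣ rpoly n u ∧ a < P.natDegree
    · exact Or.inl (Or.inr e3)
    by_cases e4 : ∃ g : (ZMod p)[X], g ∣ rpoly n u ∧
        (∀ P : (ZMod p)[X], Irreducible P → P ∣ g → P.natDegree ≤ a) ∧
        ε * n ≤ g.natDegree
    · exact Or.inr (Or.inl ⟨e1, e4⟩)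
    · right; right
      rw [hEv]
      refine ⟨e1, by omega, ?_, ?_, hu⟩
      · intro P hP hP2
        by_contra hcon
        exact e3 ⟨P, hP, hP2, by omega⟩
      · intro g hg hgs
        by_contra hcon
        exact e4 ⟨g, hg, hgs, by linarith⟩
  refine hincl.trans ((Pr_or_le μ h0 n _ _).trans ?_)
  have hE1 := Pr_or_le μ h0 n (fun f => f = 0 ∨ f.natDegree + t < n)
    (fun f => ∃ P : (ZMod p)[X], Irreducible P ∧ P ^ 2 ∣ f ∧ a < P.natDegree)
  have hE2 := Pr_or_le μ h0 n (fun f => f ≠ 0 ∧ ∃ g : (ZMod p)[X], g ∣ f ∧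
        (∀ P : (ZMod p)[X], Irreducible P → P ∣ g → P.natDegree ≤ a) ∧
        ε * n ≤ g.natDegree) Ev
  have hE3 := Pr_deg_small μ h0 h1 n t htn
  -- the main bound
  have hEv0 : 0 ≤ Pr μ n Ev := by
    rw [Pr_eq]
    apply Finset.sum_nonneg
    intro u _
    split_ifs
    · exact wt_nonneg μ h0 n u
    · exact le_rfl
  have hSj : ∀ j : ℕ, j < r → (1 - 2 * ε - j * y) * n ≤ (1 - 2 * ε) * n - j * b := by
    intro j _
    have h2 := mul_le_mul_of_nonneg_left hby (by positivity : (0 : ℝ) ≤ j)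
    linarith
  have hwE : ∀ u : Fin (n + 1) → ZMod p, Ev (rpoly n u) →
      G ε * (n : ℝ) ^ r ≤ r.factorial * esf a b r (rpoly n u) := by
    intro u hu
    rw [hEv] at hu
    obtain ⟨e1, e2, e3, e4, e5⟩ := hu
    have hbM : ∀ P : (ZMod p)[X], Irreducible P → P ∣ rpoly n u → P.natDegree ≤ b := by
      intro P hP hPf
      have h2 := hM _ e1 P hP hPf
      have h3 : M (rpoly n u) ≤ b := by rw [hb]; exact Nat.le_floor e5
      exact h2.trans h3
    have h2 := sum_large e1 a b (ε * n) e3 e4 hbM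
    have h3 : (n : ℝ) ≤ (rpoly n u).natDegree + t := by exact_mod_cast e2
    have h4 : (1 - 2 * ε) * n ≤ ∑ P ∈ (irI p a b).filter (fun P => P ∣ rpoly n u), dgr P := by
      linarith
    have h5 : G ε * (n : ℝ) ^ r = ∏ j ∈ Finset.range r, ((1 - 2 * ε - j * y) * n) := by
      rw [Finset.prod_mul_distrib, Finset.prod_const, Finset.card_range, hG]
    rw [h5]
    unfold esf
    rw [if_neg e1]
    refine le_trans ?_ (er_lower dgr b r _ ((1 - 2 * ε) * n) ?_ ?_ h4 ?_)
    · apply Finset.prod_le_prod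
      · intro j hj
        exact mul_nonneg (hε2 j hj).le hn0.le
      · intro j hj
        exact hSj j (Finset.mem_range.1 hj)
    · intro P _
      unfold dgr
      positivity
    · intro P hP
      have := (mem_irI.1 (Finset.mem_filter.1 hP).1).2.2.2
      unfold dgr
      exact_mod_cast this
    · intro j hj
      refine le_trans ?_ (hSj j hj)
      exact mul_nonneg (hε2 j (Finset.mem_range.2 hj)).le hn0.le
  have hmk := Pr_markov μ h0 n (fun f => r.factorial * esf a b r f)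
    (fun f => mul_nonneg (by positivity) (esf_nonneg a b r f)) Ev (G ε * (n : ℝ) ^ r) hwE
  have hexE : Ex μ n (fun f => r.factorial * esf a b r f) = r.factorial * Ex μ n (esf a b r) := by
    unfold Ex
    rw [Finset.mul_sum]
    apply Finset.sum_congr rfl
    intro u _
    ring
  rw [hexE] at hmk
  have haδ2 : δ / 2 * n ≤ a := by
    have h2 : δ * (n : ℝ) - 1 < ⌊δ * (n : ℝ)⌋₊ := Nat.sub_one_lt_floor _
    rw [← ha] at h2
    linarith
  have hbd := esf_bound μ n a b r a hr le_rfl (C * Real.exp (-(c * n))) (by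
    intro k hk1 hkb H hH
    refine (hL0 n a k hk1 haδ2 ?_ H hH).trans ?_
    · have h2 : (k : ℝ) ≤ r * b := by exact_mod_cast hkb
      have h3 := mul_le_mul_of_nonneg_left hby (by positivity : (0 : ℝ) ≤ r)
      linarith
    · rw [hCd]
      exact mul_le_mul_of_nonneg_right (le_abs_self C0) (Real.exp_pos _).le)
  have hbd2 : (b : ℝ) ^ r * (1 + r.factorial * ((r * b : ℕ) * (C * Real.exp (-(c * n))))) ≤
      (y ^ r * (n : ℝ) ^ r) * (1 + r.factorial * (r * (y * n) * (C * Real.exp (-(c * n))))) := by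
    apply mul_le_mul
    · rw [← mul_pow]
      exact pow_le_pow_left₀ (by positivity) hby r
    · push_cast
      gcongr
    · positivity
    · positivity
  have hnr : (0 : ℝ) < (n : ℝ) ^ r := by positivity
  have hPrEv : Pr μ n Ev ≤ (y ^ r / G ε) *
      (1 + r.factorial * (r * (y * n) * (C * Real.exp (-(c * n))))) := by
    have h2 := hmk.trans (hbd.trans hbd2)
    rw [div_mul_eq_mul_div, le_div_iff₀ hGε]
    have h3 : (Pr μ n Ev * G ε) * (n : ℝ) ^ r ≤
        (y ^ r * (1 + r.factorial * (r * (y * n) * (C * Real.exp (-(c * n)))))) *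
          (n : ℝ) ^ r := by
      calc (Pr μ n Ev * G ε) * (n : ℝ) ^ r = G ε * (n : ℝ) ^ r * Pr μ n Ev := by ring
        _ ≤ _ := h2
        _ = _ := by ring
    exact le_of_mul_le_mul_right h3 hnr
  rw [mul_add, mul_one] at hPrEv
  rw [← hG0]
  linarith

end Pool.Agent.MP0a1886
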